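import Pool.Agent.Work.MP_13b5d9_gt.AV.Stmts

set_option autoImplicit false

/-! Item Bk of block AV (helper86): means over many periods. -/

open MeasureTheory Set Filter Topology

namespace Pool.Agent.AV

namespace IBk

variable {Z Q : Type} [NormedAddCommGroup Z] [NormedSpace ℝ Z]
  [NormedAddCommGroup Q] [NormedSpace ℝ Q]

theorem shift {l : ℝ} {A : ℝ → Z → Q} (hper : ∀ r z, A (r + l) z = A r z) (N : ℕ) (r : ℝ) (z : Z) :
    A (r - N * l) z = A r z := by
  have h : Function.Periodic (fun r => A r z) l := fun r => hper r z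
  exact h.sub_nat_mul_eq N

theorem block [CompleteSpace Q] {l : ℝ} {A : ℝ → Z → Q} (hl : 0 < l)
    (hA : Continuous (fun p : ℝ × Z => A p.1 p.2)) (hper : ∀ r z, A (r + l) z = A r z)
    (hmean : ∀ z, ∫ r in (0 : ℝ)..l, A r z = 0) {y : ℝ → Z} {T e : ℝ} (he : 0 ≤ e)
    (hf : ContinuousOn (fun r => A r (y r)) (Icc 0 T))
    (hb : ∀ (N : ℕ) (r : ℝ), N * l ≤ r → r ≤ N * l + l → N * l + l ≤ T →
      ‖A r (y r) - A r (y (N * l))‖ ≤ e) (N : ℕ) :
    N * l ≤ T → ‖∫ r in (0 : ℝ)..(N * l), A r (y r)‖ ≤ N * (l * e) := by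
  induction N with
  | zero =>
    intro _
    simp
  | succ N ih =>
    intro hN
    have hN0 : (0 : ℝ) ≤ N * l := mul_nonneg (Nat.cast_nonneg _) hl.le
    have hN1 : (((N + 1 : ℕ) : ℝ)) * l = N * l + l := by push_cast; ring
    rw [hN1] at hN ⊢
    have ih' := ih (by linarith)
    have hi1 : IntervalIntegrable (fun r => A r (y r)) volume 0 (N * l) := by
      apply (hf.mono _).intervalIntegrable
      rw [uIcc_of_le hN0]
      exact Icc_subset_Icc le_rfl (by linarith)
    have hi2 : IntervalIntegrable (fun r => A r (y r)) volume (N * l) (N * l + l) := by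
      apply (hf.mono _).intervalIntegrable
      rw [uIcc_of_le (by linarith)]
      exact Icc_subset_Icc hN0 hN
    have hz : Continuous fun r => A r (y (N * l)) :=
      hA.comp (continuous_id.prodMk continuous_const)
    have hi3 : IntervalIntegrable (fun r => A r (y (N * l))) volume (N * l) (N * l + l) :=
      hz.intervalIntegrable _ _
    have h0 : ∫ r in (N * l)..(N * l + l), A r (y (N * l)) = 0 := by
      have h : Function.Periodic (fun r => A r (y (N * l))) l := fun r => hper r _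
      have h2 := h.intervalIntegral_add_eq (N * l) 0
      rw [zero_add] at h2
      rw [h2]
      exact hmean _
    have h1 : ∫ r in (N * l)..(N * l + l), A r (y r) =
        ∫ r in (N * l)..(N * l + l), (A r (y r) - A r (y (N * l))) := by
      rw [intervalIntegral.integral_sub hi2 hi3, h0, sub_zero]
    have h2 : ‖∫ r in (N * l)..(N * l + l), A r (y r)‖ ≤ e * |N * l + l - N * l| := by
      rw [h1]
      apply intervalIntegral.norm_integral_le_of_norm_le_const
      intro r hr
      rw [uIoc_of_le (by linarith)] at hr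
      exact hb N r hr.1.le hr.2 hN
    rw [← intervalIntegral.integral_add_adjacent_intervals hi1 hi2]
    refine (norm_add_le _ _).trans ?_
    rw [show (N : ℝ) * l + l - N * l = l by ring, abs_of_pos hl] at h2
    push_cast
    linarith

end IBk

theorem pr_Bk : StBk := by
  intro Z Q _ _ _ _ _ l A K M hl hA hper hmean hK δ hδ
  have hcomp : IsCompact (Icc (0 : ℝ) l ×ˢ K) := isCompact_Icc.prod hK
  obtain ⟨η, hη, hu⟩ := Metric.uniformContinuousOn_iff.1
    (hcomp.uniformContinuousOn_of_continuous hA.continuousOn) (δ / 2) (by linarith)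
  obtain ⟨S, hS⟩ := hcomp.exists_bound_of_continuousOn hA.continuousOn
  obtain ⟨M', hM', hMM⟩ : ∃ M' : ℝ, 0 ≤ M' ∧ M ≤ M' := ⟨max M 0, le_max_right _ _, le_max_left _ _⟩
  obtain ⟨S', hS', hSS⟩ : ∃ S' : ℝ, 0 ≤ S' ∧ S ≤ S' := ⟨max S 0, le_max_right _ _, le_max_left _ _⟩
  have hc1 : 0 < M' * l + 1 := by positivity
  have hc2 : 0 < l * S' + 1 := by positivity
  refine ⟨min (η / (M' * l + 1)) (δ / 2 / (l * S' + 1)), lt_min (div_pos hη hc1)
    (div_pos (by linarith) hc2), ?_⟩
  intro ε hε hεlt y T hT hyK hyL t ht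
  have hε1 : ε * (M' * l + 1) < η := (lt_div_iff₀ hc1).1 (hεlt.trans_le (min_le_left _ _))
  have hε2 : ε * (l * S' + 1) < δ / 2 := (lt_div_iff₀ hc2).1 (hεlt.trans_le (min_le_right _ _))
  have hyL' : ∀ s ∈ Icc (0 : ℝ) T, ∀ t ∈ Icc (0 : ℝ) T, ‖y s - y t‖ ≤ M' * ε * |s - t| := by
    intro s hs t ht
    refine (hyL s hs t ht).trans ?_
    exact mul_le_mul_of_nonneg_right (mul_le_mul_of_nonneg_right hMM hε.le) (abs_nonneg _)
  have hyc : ContinuousOn y (Icc 0 T) := by
    have h : LipschitzOnWith ⟨M' * ε, by positivity⟩ y (Icc 0 T) := by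
      apply LipschitzOnWith.of_dist_le_mul
      intro s hs t ht
      rw [dist_eq_norm, Real.dist_eq]
      exact hyL' s hs t ht
    exact h.continuousOn
  have hf : ContinuousOn (fun r => A r (y r)) (Icc 0 T) :=
    hA.comp_continuousOn (continuousOn_id.prodMk hyc)
  have hsh : ∀ (N : ℕ) (r : ℝ), N * l ≤ r → r ≤ N * l + l → r - N * l ∈ Icc (0 : ℝ) l := by
    intro N r h1 h2
    exact ⟨by linarith, by linarith⟩
  have hblk := IBk.block hl hA hper hmean (y := y) (T := T) (e := δ / 2) (by linarith) hf (by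
    intro N r h1 h2 h3
    have hN0 : (0 : ℝ) ≤ N * l := mul_nonneg (Nat.cast_nonneg _) hl.le
    have hr : r ∈ Icc (0 : ℝ) T := ⟨by linarith, by linarith⟩
    have hN : (N * l : ℝ) ∈ Icc (0 : ℝ) T := ⟨hN0, by linarith⟩
    rw [← IBk.shift hper N r (y r), ← IBk.shift hper N r (y (N * l)), ← dist_eq_norm]
    refine (hu (r - N * l, y r) ⟨hsh N r h1 h2, hyK r hr⟩ (r - N * l, y (N * l))
      ⟨hsh N r h1 h2, hyK _ hN⟩ ?_).le
    rw [Prod.dist_eq, dist_self, max_eq_right dist_nonneg, dist_eq_norm]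
    refine (hyL' r hr _ hN).trans_lt ?_
    have h4 : |r - N * l| ≤ l := by
      rw [abs_of_nonneg (by linarith)]
      linarith
    calc M' * ε * |r - N * l| ≤ M' * ε * l := mul_le_mul_of_nonneg_left h4 (by positivity)
      _ ≤ ε * (M' * l + 1) := by nlinarith
      _ < η := hε1)
  obtain ⟨N, hN⟩ : ∃ N : ℕ, N = ⌊t / l⌋₊ := ⟨_, rfl⟩
  have ht0 : 0 ≤ t / l := div_nonneg ht.1 hl.le
  have hN1 : (N : ℝ) * l ≤ t := by
    rw [hN]
    exact (le_div_iff₀ hl).1 (Nat.floor_le ht0)
  have hN2 : t < N * l + l := by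
    have h := Nat.lt_floor_add_one (t / l)
    rw [← hN, div_lt_iff₀ hl] at h
    linarith
  have hN0 : (0 : ℝ) ≤ N * l := mul_nonneg (Nat.cast_nonneg _) hl.le
  have hi1 : IntervalIntegrable (fun r => A r (y r)) volume 0 (N * l) := by
    apply (hf.mono _).intervalIntegrable
    rw [uIcc_of_le hN0]
    exact Icc_subset_Icc le_rfl (hN1.trans ht.2)
  have hi2 : IntervalIntegrable (fun r => A r (y r)) volume (N * l) t := by
    apply (hf.mono _).intervalIntegrable
    rw [uIcc_of_le hN1]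
    exact Icc_subset_Icc hN0 ht.2
  have h1 := hblk N (hN1.trans ht.2)
  have h2 : ‖∫ r in (N * l)..t, A r (y r)‖ ≤ S' * |t - N * l| := by
    apply intervalIntegral.norm_integral_le_of_norm_le_const
    intro r hr
    rw [uIoc_of_le hN1] at hr
    rw [← IBk.shift hper N r (y r)]
    exact (hS (r - N * l, y r) ⟨hsh N r hr.1.le (by linarith [hr.2]),
      hyK r ⟨by linarith [hr.1], hr.2.trans ht.2⟩⟩).trans hSS
  have h3 : |t - N * l| ≤ l := by
    rw [abs_of_nonneg (by linarith)]
    linarith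
  rw [norm_smul, Real.norm_of_nonneg hε.le, ← intervalIntegral.integral_add_adjacent_intervals hi1 hi2]
  have h4 : ‖(∫ r in (0 : ℝ)..(N * l), A r (y r)) + ∫ r in (N * l)..t, A r (y r)‖ ≤
      T * (δ / 2) + S' * l := by
    refine (norm_add_le _ _).trans (add_le_add (h1.trans ?_) (h2.trans ?_))
    · have : (N : ℝ) * (l * (δ / 2)) = N * l * (δ / 2) := by ring
      rw [this]
      exact mul_le_mul_of_nonneg_right (hN1.trans ht.2) (by linarith)
    · exact mul_le_mul_of_nonneg_left h3 hS'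
  have h5 : ε * T ≤ 1 := by
    calc ε * T ≤ ε * (1 / ε) := mul_le_mul_of_nonneg_left hT hε.le
      _ = 1 := by rw [mul_one_div, div_self hε.ne']
  calc ε * ‖(∫ r in (0 : ℝ)..(N * l), A r (y r)) + ∫ r in (N * l)..t, A r (y r)‖
      ≤ ε * (T * (δ / 2) + S' * l) := mul_le_mul_of_nonneg_left h4 hε.le
    _ = ε * T * (δ / 2) + ε * (l * S') := by ring
    _ ≤ 1 * (δ / 2) + ε * (l * S') := by
        have := mul_le_mul_of_nonneg_right h5 (by linarith : (0 : ℝ) ≤ δ / 2)
        linarith
    _ ≤ δ := by nlinarith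

end Pool.Agent.AV
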