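import Pool.Agent.Work.MP_13b5d9_gt.AV.StmtsL
import Pool.Agent.Work.MP_25cd3b_gt.M.I_Bnd

set_option autoImplicit false

/-!
# MP_13b5d9_gt, block AV, item Cg: comparison of an invariant form with a periodic family of invariant metrics
-/

open MeasureTheory Set Filter Topology
open scoped ContDiff ENNReal

namespace Pool.Agent.AV

open Pool.Agent.MLS Pool.Agent.STR Pool.Agent.LQR Pool.Agent.LQT

namespace ICg

/-- lower bound of the family on compact sets -/
theorem lower {n : ℕ} (gr : ℝ → Form n) (hF : Fam n gr) (l : ℝ) (K : Set (E n))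
    (hK : IsCompact K) :
    ∃ m : ℝ, 0 < m ∧ ∀ r ∈ Icc (0 : ℝ) l, ∀ x ∈ K, ∀ v, m * ‖v‖ ^ 2 ≤ (gr r).val x v v := by
  have hc : Continuous fun z : (ℝ × E n) × E n => (gr z.1.1).val z.1.2 z.2 z.2 :=
    ((hF.smooth.continuous.comp continuous_fst).clm_apply continuous_snd).clm_apply
      continuous_snd
  have hS : IsCompact ((Icc (0 : ℝ) l ×ˢ K) ×ˢ Metric.sphere (0 : E n) 1) :=
    (isCompact_Icc.prod hK).prod (isCompact_sphere _ _)
  obtain ⟨m, hm, hm1⟩ := hS.exists_forall_le' (a := 0) hc.continuousOn (fun z hz => by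
    refine hF.riem z.1.1 z.1.2 z.2 ?_
    intro h0
    have h1 : ‖z.2‖ = 1 := by simpa using hz.2
    rw [h0, norm_zero] at h1
    exact zero_ne_one h1)
  refine ⟨m, hm, fun r hr x hx v => ?_⟩
  by_cases hv : v = 0
  · subst hv
    simp
  · rw [← IBnd.hom (gr r) x hv]
    exact mul_le_mul_of_nonneg_right
      (hm1 ((r, x), ‖v‖⁻¹ • v) ⟨⟨hr, hx⟩, IBnd.unit_mem hv⟩) (sq_nonneg _)

/-- upper bound of one form on compact sets -/
theorem upper {n : ℕ} (gb : Form n) (K : Set (E n)) (hK : IsCompact K) :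
    ∃ B : ℝ, 0 < B ∧ ∀ x ∈ K, ∀ v, gb.val x v v ≤ B * ‖v‖ ^ 2 := by
  have hS : IsCompact (K ×ˢ Metric.sphere (0 : E n) 1) := hK.prod (isCompact_sphere _ _)
  obtain ⟨B, hB⟩ := hS.exists_bound_of_continuousOn (IBnd.cts gb).continuousOn
  refine ⟨|B| + 1, by positivity, fun x hx v => ?_⟩
  by_cases hv : v = 0
  · subst hv
    simp
  · rw [← IBnd.hom gb x hv]
    refine mul_le_mul_of_nonneg_right ?_ (sq_nonneg _)
    have h1 := (le_abs_self _).trans
      ((hB (x, ‖v‖⁻¹ • v) ⟨hx, IBnd.unit_mem hv⟩).trans (le_abs_self B))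
    exact h1.trans (by linarith)

end ICg

/-- comparison of an invariant form with a periodic family of invariant metrics -/
theorem pr_Cg : StCg := by
  intro n G _ _ hG l gr gb hl hF hinv hper hinvb
  obtain ⟨K, hK, hK1⟩ := hG.cocompact
  obtain ⟨m, hm, hm1⟩ := ICg.lower gr hF l K hK
  obtain ⟨B, hB, hB1⟩ := ICg.upper gb K hK
  refine ⟨B / m, div_pos hB hm, fun r x v => ?_⟩
  have hp : Function.Periodic gr l := hper
  obtain ⟨r', hr', hrr⟩ := hp.exists_mem_Ico₀ hl r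
  obtain ⟨a, ha⟩ := hK1 x
  rw [hrr, ← hinvb a x v v, ← hinv r' a x v v]
  have h1 := hB1 _ ha (dac a x v)
  have h2 := hm1 r' (Ico_subset_Icc_self hr') _ ha (dac a x v)
  calc gb.val (a • x) (dac a x v) (dac a x v) ≤ B * ‖dac a x v‖ ^ 2 := h1
    _ = B / m * (m * ‖dac a x v‖ ^ 2) := by field_simp
    _ ≤ B / m * (gr r').val (a • x) (dac a x v) (dac a x v) :=
      mul_le_mul_of_nonneg_left h2 (div_pos hB hm).le

end Pool.Agent.AV
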