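import Pool.Agent.Work.MP_13b5d9_gt.AV.Stmts

set_option autoImplicit false

/-!
# MP_13b5d9_gt, block AV, item Cp: competitors
-/

open MeasureTheory Set Filter Topology
open scoped ContDiff ENNReal
open Pool.Agent.Work.MP_c9f990_an.Al (IsFlow)

namespace Pool.Agent.AV

open Pool.Agent.MLS Pool.Agent.STR Pool.Agent.LQR Pool.Agent.LQT

namespace ICp

/-- `StBk` for `y t = ε t` -/
theorem bk (hBk : StBk) {Q : Type} [NormedAddCommGroup Q] [NormedSpace ℝ Q] [CompleteSpace Q]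
    (l : ℝ) (A : ℝ → ℝ → Q) (hl : 0 < l) (hA : Continuous (fun p : ℝ × ℝ => A p.1 p.2))
    (hp : ∀ r z, A (r + l) z = A r z) (h0 : ∀ z, ∫ r in (0 : ℝ)..l, A r z = 0) (δ : ℝ)
    (hδ : 0 < δ) : ∃ ε₀ : ℝ, 0 < ε₀ ∧ ∀ ε, 0 < ε → ε < ε₀ → ∀ s t, 0 ≤ s → s ≤ t → t ≤ 1 / ε →
      ‖ε • ∫ r in s..t, A r (ε * r)‖ ≤ 2 * δ := by
  obtain ⟨ε₀, hε₀, h⟩ := hBk ℝ Q l A (Icc 0 1) 1 hl hA hp h0 isCompact_Icc δ hδ
  refine ⟨ε₀, hε₀, fun ε h1 h2 s t hs hst ht => ?_⟩
  have key := h ε h1 h2 (fun r => ε * r) (1 / ε) le_rfl ?_ ?_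
  · have e1 := key s ⟨hs, hst.trans ht⟩
    have e2 := key t ⟨hs.trans hst, ht⟩
    have hc : Continuous (fun r => A r (ε * r)) :=
      hA.comp (continuous_id.prodMk (continuous_const.mul continuous_id))
    have e3 : (∫ r in (0 : ℝ)..t, A r (ε * r)) - (∫ r in (0 : ℝ)..s, A r (ε * r)) =
        ∫ r in s..t, A r (ε * r) :=
      intervalIntegral.integral_interval_sub_left (hc.intervalIntegrable _ _)
        (hc.intervalIntegrable _ _)
    rw [← e3, smul_sub]
    refine (norm_sub_le _ _).trans ?_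
    linarith
  · intro r hr
    refine ⟨mul_nonneg h1.le hr.1, ?_⟩
    calc ε * r ≤ ε * (1 / ε) := mul_le_mul_of_nonneg_left hr.2 h1.le
      _ = 1 := by field_simp
  · intro r _ r' _
    rw [← mul_sub, norm_mul, Real.norm_eq_abs, Real.norm_eq_abs, abs_of_pos h1, one_mul]

variable {n : ℕ}

/-- uniform continuity of the forms -/
theorem unif (l : ℝ) (gr : ℝ → Form n) (hl : 0 < l) (hF : Fam n gr)
    (hper : ∀ r, gr (r + l) = gr r) (R δ : ℝ) (hδ : 0 < δ) : ∃ ρ : ℝ, 0 < ρ ∧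
    ∀ (t : ℝ) (x x' v v' : E n), ‖x‖ ≤ R → ‖x'‖ ≤ R → ‖v‖ ≤ R → ‖v'‖ ≤ R →
      ‖x - x'‖ < ρ → ‖v - v'‖ < ρ → (gr t).val x v v ≤ (gr t).val x' v' v' + δ := by
  obtain ⟨Φ, hΦ⟩ : ∃ Φ : ℝ × (E n × E n) → ℝ, Φ = fun q => (gr q.1).val q.2.1 q.2.2 q.2.2 :=
    ⟨_, rfl⟩
  have hc : Continuous Φ := by
    rw [hΦ]
    have h1 : Continuous (fun q : ℝ × (E n × E n) => (gr q.1).val q.2.1) :=
      hF.smooth.continuous.comp (continuous_fst.prodMk (continuous_fst.comp continuous_snd))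
    have h2 : Continuous (fun q : ℝ × (E n × E n) => q.2.2) :=
      continuous_snd.comp continuous_snd
    exact (h1.clm_apply h2).clm_apply h2
  have hK : IsCompact (Icc (0 : ℝ) l ×ˢ
      (Metric.closedBall (0 : E n) R ×ˢ Metric.closedBall (0 : E n) R)) :=
    isCompact_Icc.prod ((isCompact_closedBall _ _).prod (isCompact_closedBall _ _))
  have hu := hK.uniformContinuousOn_of_continuous hc.continuousOn
  rw [Metric.uniformContinuousOn_iff] at hu
  obtain ⟨ρ, hρ, h⟩ := hu δ hδ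
  refine ⟨ρ, hρ, fun t x x' v v' hx hx' hv hv' hxx hvv => ?_⟩
  obtain ⟨r, hr, hgr⟩ := Function.Periodic.exists_mem_Ico₀ (f := gr) hper hl t
  rw [hgr]
  have hmem : ∀ x v : E n, ‖x‖ ≤ R → ‖v‖ ≤ R → ((r, (x, v)) : ℝ × (E n × E n)) ∈
      Icc (0 : ℝ) l ×ˢ (Metric.closedBall (0 : E n) R ×ˢ Metric.closedBall (0 : E n) R) := by
    intro x v hx hv
    refine ⟨⟨hr.1, hr.2.le⟩, ?_, ?_⟩
    · simpa using hx
    · simpa using hv
  have h1 := h (r, (x, v)) (hmem x v hx hv) (r, (x', v')) (hmem x' v' hx' hv') (by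
    rw [Prod.dist_eq, Prod.dist_eq]
    simp only [dist_self]
    refine max_lt hρ (max_lt ?_ ?_)
    · rw [dist_eq_norm]
      exact hxx
    · rw [dist_eq_norm]
      exact hvv)
  rw [hΦ, Real.dist_eq] at h1
  have h2 := (abs_lt.1 h1).2
  simp only at h2
  linarith

end ICp

open ICp in
theorem pr_Cp (hBk : StBk) (hSi : StSi) (hOp : StOp) : StCp := by
  intro n l gr gb hl hF hper hR hmean Y a b hY ha hab hb δ hδ
  have hba : 0 < b - a := by linarith
  obtain ⟨-, hop, hio, hoi, -, hopc, hiopc, -⟩ := hOp n gb hR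
  have hY'c : Continuous (deriv Y) := hY.continuous_deriv le_rfl
  have hYc : Continuous Y := hY.continuous
  -- the momentum
  obtain ⟨π, hπ⟩ : ∃ π : ℝ → E n, π = fun s => op gb (Y s) (deriv Y s) := ⟨_, rfl⟩
  have hπc : Continuous π := by
    rw [hπ]
    exact (hopc.continuous.comp hYc).clm_apply hY'c
  obtain ⟨k, hk⟩ : ∃ k : ℝ → ℝ → E n, k = fun r s => iop (gr r) (Y s) (π s) := ⟨_, rfl⟩
  have hic : Continuous (fun p : ℝ × E n => iop (gr p.1) p.2) := (hSi n gr hF).1.continuous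
  have hkc : Continuous (fun p : ℝ × ℝ => k p.1 p.2) := by
    rw [hk]
    exact (hic.comp (continuous_fst.prodMk (hYc.comp continuous_snd))).clm_apply
      (hπc.comp continuous_snd)
  have hkper : ∀ r s, k (r + l) s = k r s := by
    intro r s
    rw [hk]
    simp only [hper]
  have hkr : ∀ s, Continuous (fun r => k r s) := fun s =>
    hkc.comp (continuous_id.prodMk continuous_const)
  have hkmean : ∀ s, ∫ r in (0 : ℝ)..l, k r s = l • deriv Y s := by
    intro s
    have h1 : Continuous (fun r => iop (gr r) (Y s)) :=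
      hic.comp (continuous_id.prodMk continuous_const)
    have h2 : (∫ r in (0 : ℝ)..l, iop (gr r) (Y s)) (π s) = ∫ r in (0 : ℝ)..l, k r s := by
      rw [ContinuousLinearMap.intervalIntegral_apply (h1.intervalIntegrable _ _), hk]
    have h3 : (∫ r in (0 : ℝ)..l, iop (gr r) (Y s)) = l • iop gb (Y s) := by
      rw [hmean, smul_smul, mul_inv_cancel₀ hl.ne', one_smul]
    rw [← h2, h3, ContinuousLinearMap.smul_apply, hπ, hio]
  have hA1m : ∀ s, ∫ r in (0 : ℝ)..l, (k r s - deriv Y s) = 0 := by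
    intro s
    rw [intervalIntegral.integral_sub ((hkr s).intervalIntegrable _ _)
      intervalIntegrable_const, hkmean, intervalIntegral.integral_const, sub_zero, sub_self]
  have hA1c : Continuous (fun p : ℝ × ℝ => k p.1 p.2 - deriv Y p.2) :=
    hkc.sub (hY'c.comp continuous_snd)
  have hA2c : Continuous (fun p : ℝ × ℝ =>
      1 / 2 * inner ℝ (π p.2) (k p.1 p.2 - deriv Y p.2)) :=
    continuous_const.mul ((hπc.comp continuous_snd).inner hA1c)
  have hA2m : ∀ s, ∫ r in (0 : ℝ)..l, 1 / 2 * inner ℝ (π s) (k r s - deriv Y s) = 0 := by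
    intro s
    have h1 : IntervalIntegrable (fun r => k r s - deriv Y s) volume 0 l :=
      ((hkr s).sub continuous_const).intervalIntegrable _ _
    have h2 := (innerSL ℝ (π s)).intervalIntegral_comp_comm h1
    rw [hA1m, map_zero] at h2
    rw [intervalIntegral.integral_const_mul]
    have h3 : ∫ r in (0 : ℝ)..l, inner ℝ (π s) (k r s - deriv Y s) = 0 := h2
    rw [h3, mul_zero]
  -- bounds
  obtain ⟨R1, hR1⟩ := (isCompact_Icc (a := (0 : ℝ)) (b := 1)).exists_bound_of_continuousOn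
    hYc.continuousOn
  obtain ⟨R2, hR2⟩ := ((isCompact_Icc (a := (0 : ℝ)) (b := l)).prod
    (isCompact_Icc (a := (0 : ℝ)) (b := 1))).exists_bound_of_continuousOn hkc.continuousOn
  have hR2' : ∀ t, ∀ s ∈ Icc (0 : ℝ) 1, ‖k t s‖ ≤ R2 := by
    intro t s hs
    obtain ⟨r, hr, hgr⟩ := Function.Periodic.exists_mem_Ico₀ (f := gr) hper hl t
    have h1 := hR2 (r, s) ⟨⟨hr.1, hr.2.le⟩, hs⟩
    have h2 : k t s = k r s := by
      rw [hk]
      simp only [hgr]
    rw [h2]
    exact h1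
  obtain ⟨R, hRd⟩ : ∃ R : ℝ, R = max R1 R2 + 1 := ⟨_, rfl⟩
  have hR1R : R1 + 1 ≤ R := by
    rw [hRd]
    have := le_max_left R1 R2
    linarith
  have hR2R : R2 + 1 ≤ R := by
    rw [hRd]
    have := le_max_right R1 R2
    linarith
  obtain ⟨ρ, hρ, hunif⟩ := unif l gr hl hF hper R δ hδ
  obtain ⟨m, hm⟩ : ∃ m : ℝ, m = min ρ 1 := ⟨_, rfl⟩
  have hm0 : 0 < m := by rw [hm]; exact lt_min hρ one_pos
  have hmρ : m ≤ ρ := by rw [hm]; exact min_le_left _ _
  have hm1 : m ≤ 1 := by rw [hm]; exact min_le_right _ _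
  obtain ⟨η, hη⟩ : ∃ η : ℝ, η = (b - a) * m / 8 := ⟨_, rfl⟩
  have hη0 : 0 < η := by rw [hη]; positivity
  obtain ⟨ε₁, hε₁, hB1⟩ := bk hBk l (fun r s => k r s - deriv Y s) hl hA1c
    (fun r s => by simp only [hkper]) hA1m η hη0
  obtain ⟨ε₂, hε₂, hB2⟩ := bk hBk l (fun r s => 1 / 2 * inner ℝ (π s) (k r s - deriv Y s)) hl
    hA2c (fun r s => by simp only [hkper]) hA2m (δ / 4) (by positivity)
  refine ⟨min (min ε₁ ε₂) η, lt_min (lt_min hε₁ hε₂) hη0, fun ε hε hεlt p q hp hq => ?_⟩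
  have hε1 : ε < ε₁ := hεlt.trans_le ((min_le_left _ _).trans (min_le_left _ _))
  have hε2 : ε < ε₂ := hεlt.trans_le ((min_le_left _ _).trans (min_le_right _ _))
  have hp' : ‖p - Y a‖ ≤ η := hp.trans (min_le_right _ _)
  have hq' : ‖q - Y b‖ ≤ η := hq.trans (min_le_right _ _)
  obtain ⟨α, hα⟩ : ∃ α : ℝ, α = a / ε := ⟨_, rfl⟩
  obtain ⟨β, hβ⟩ : ∃ β : ℝ, β = b / ε := ⟨_, rfl⟩
  have hεα : ε * α = a := by rw [hα]; field_simp
  have hεβ : ε * β = b := by rw [hβ]; field_simp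
  have hα0 : 0 ≤ α := by rw [hα]; positivity
  have hαβ : α < β := by
    rw [hα, hβ]
    exact div_lt_div_of_pos_right hab hε
  have hβ1 : β ≤ 1 / ε := by
    rw [hβ]
    exact div_le_div_of_nonneg_right hb hε.le
  rw [← hα, ← hβ]
  obtain ⟨κ, hκ⟩ : ∃ κ : ℝ → E n, κ = fun t => k t (ε * t) := ⟨_, rfl⟩
  have hκc : Continuous κ := by
    rw [hκ]
    exact hkc.comp (continuous_id.prodMk (continuous_const.mul continuous_id))
  have hY'εc : Continuous (fun t => deriv Y (ε * t)) :=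
    hY'c.comp (continuous_const.mul continuous_id)
  obtain ⟨J, hJ⟩ : ∃ J : E n, J = ε • ∫ r in α..β, κ r := ⟨_, rfl⟩
  obtain ⟨dd, hdd⟩ : ∃ dd : E n, dd = (b - a)⁻¹ • (q - p - J) := ⟨_, rfl⟩
  -- substitution
  have hsub : ∀ t, ε • ∫ r in α..t, deriv Y (ε * r) = Y (ε * t) - Y a := by
    intro t
    rw [intervalIntegral.integral_comp_mul_left (fun s => deriv Y s) hε.ne', smul_smul,
      mul_inv_cancel₀ hε.ne', one_smul, hεα]
    exact intervalIntegral.integral_eq_sub_of_hasDerivAt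
      (fun s _ => (hY.differentiable one_ne_zero s).hasDerivAt) (hY'c.intervalIntegrable _ _)
  have hd1 : ∀ t, α ≤ t → t ≤ β → ‖(ε • ∫ r in α..t, κ r) - (Y (ε * t) - Y a)‖ ≤ 2 * η := by
    intro t h1 h2
    have h3 := hB1 ε hε hε1 α t hα0 h1 (h2.trans hβ1)
    have h4 : ∫ r in α..t, (k r (ε * r) - deriv Y (ε * r)) =
        (∫ r in α..t, κ r) - ∫ r in α..t, deriv Y (ε * r) := by
      rw [hκ]
      exact intervalIntegral.integral_sub
        ((hkc.comp (continuous_id.prodMk (continuous_const.mul continuous_id))).intervalIntegrable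
          _ _) (hY'εc.intervalIntegrable _ _)
    rw [h4, smul_sub, hsub] at h3
    exact h3
  have hddn : (b - a) * ‖dd‖ ≤ 4 * η := by
    have h1 : ‖q - p - J‖ ≤ 4 * η := by
      have h2 := hd1 β hαβ.le le_rfl
      rw [← hJ, hεβ] at h2
      have h3 : q - p - J = (q - Y b) - (p - Y a) - (J - (Y b - Y a)) := by abel
      rw [h3]
      refine (norm_sub_le _ _).trans ?_
      have h4 := norm_sub_le (q - Y b) (p - Y a)
      linarith
    rw [hdd, norm_smul, norm_inv, Real.norm_eq_abs, abs_of_pos hba, ← mul_assoc,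
      mul_inv_cancel₀ hba.ne', one_mul]
    exact h1
  have hddm : ‖dd‖ ≤ m / 2 := by
    rw [hη] at hddn
    have h1 : (b - a) * ‖dd‖ ≤ (b - a) * (m / 2) := by linarith
    exact le_of_mul_le_mul_left h1 hba
  -- the curve
  obtain ⟨X, hX⟩ : ∃ X : ℝ → E n, X = fun t => p + ε • ∫ r in α..t, (κ r + dd) := ⟨_, rfl⟩
  have hκdc : Continuous (fun r => κ r + dd) := hκc.add continuous_const
  have hXd : ∀ t, HasDerivAt X (ε • (κ t + dd)) t := by
    intro t
    rw [hX]
    exact (((hκdc.integral_hasStrictDerivAt α t).hasDerivAt).const_smul ε).const_add p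
  have hXd' : deriv X = fun t => ε • (κ t + dd) := funext fun t => (hXd t).deriv
  have hXint : ∀ t, ∫ r in α..t, (κ r + dd) = (∫ r in α..t, κ r) + (t - α) • dd := by
    intro t
    rw [intervalIntegral.integral_add (hκc.intervalIntegrable _ _) intervalIntegrable_const,
      intervalIntegral.integral_const]
  have hX1 : ContDiff ℝ 1 X := by
    rw [contDiff_one_iff_deriv]
    refine ⟨fun t => (hXd t).differentiableAt, ?_⟩
    rw [hXd']
    exact hκdc.const_smul ε
  have hXc : Continuous X := hX1.continuous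
  have hba' : ε * (β - α) = b - a := by rw [mul_sub, hεβ, hεα]
  refine ⟨X, hX1, ?_, ?_, ?_⟩
  · rw [hX]
    simp
  · rw [hX]
    show p + ε • ∫ r in α..β, (κ r + dd) = q
    rw [hXint, smul_add, smul_smul, ← hJ, hba', hdd, smul_smul, mul_inv_cancel₀ hba.ne', one_smul]
    abel
  -- the estimate
  have hclose : ∀ t, α ≤ t → t ≤ β → ‖X t - Y (ε * t)‖ < m := by
    intro t h1 h2
    have h3 : X t - Y (ε * t) = (p - Y a) + ((ε • ∫ r in α..t, κ r) - (Y (ε * t) - Y a)) +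
        (ε * (t - α)) • dd := by
      rw [hX]
      show p + ε • (∫ r in α..t, (κ r + dd)) - Y (ε * t) = _
      rw [hXint, smul_add, smul_smul]
      abel
    rw [h3]
    have h4 := hd1 t h1 h2
    have h5 : ‖(ε * (t - α)) • dd‖ ≤ (b - a) * ‖dd‖ := by
      rw [norm_smul, Real.norm_eq_abs, abs_of_nonneg (mul_nonneg hε.le (by linarith)), ← hba']
      refine mul_le_mul_of_nonneg_right ?_ (norm_nonneg _)
      exact mul_le_mul_of_nonneg_left (by linarith) hε.le
    have h6 : ‖(p - Y a) + ((ε • ∫ r in α..t, κ r) - (Y (ε * t) - Y a)) +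
        (ε * (t - α)) • dd‖ ≤ ‖p - Y a‖ + ‖(ε • ∫ r in α..t, κ r) - (Y (ε * t) - Y a)‖ +
        ‖(ε * (t - α)) • dd‖ := norm_add₃_le
    have h7 : (b - a) * m ≤ 1 * m := mul_le_mul_of_nonneg_right (by linarith) hm0.le
    rw [hη] at h4 hp' hddn
    linarith
  have hεt : ∀ t, α ≤ t → t ≤ β → ε * t ∈ Icc (0 : ℝ) 1 := by
    intro t h1 h2
    refine ⟨mul_nonneg hε.le (hα0.trans h1), ?_⟩
    calc ε * t ≤ ε * β := mul_le_mul_of_nonneg_left h2 hε.le
      _ = b := hεβ
      _ ≤ 1 := hb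
  have hπκ : ∀ t, (gr t).val (Y (ε * t)) (κ t) (κ t) = inner ℝ (π (ε * t)) (κ t) := by
    intro t
    obtain ⟨-, hop', -, hoi', -⟩ := hOp n (gr t) (hF.riem t)
    rw [← hop', hκ, hk, hoi']
  have hpt : ∀ t ∈ Icc α β, (gr t).val (X t) (deriv X t) (deriv X t) ≤
      ε ^ 2 * (inner ℝ (π (ε * t)) (κ t) + δ) := by
    intro t ht
    have h1 : (gr t).val (X t) (deriv X t) (deriv X t) =
        ε ^ 2 * (gr t).val (X t) (κ t + dd) (κ t + dd) := by
      rw [hXd']
      simp only [map_smul, ContinuousLinearMap.smul_apply, smul_eq_mul]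
      ring
    rw [h1, ← hπκ]
    refine mul_le_mul_of_nonneg_left ?_ (by positivity)
    have h2 := hclose t ht.1 ht.2
    have h3 := hR1 (ε * t) (hεt t ht.1 ht.2)
    have h4 : ‖κ t‖ ≤ R2 := by
      rw [hκ]
      exact hR2' t (ε * t) (hεt t ht.1 ht.2)
    refine hunif t _ _ _ _ ?_ ?_ ?_ ?_ ?_ ?_
    · have h5 : ‖X t‖ ≤ ‖X t - Y (ε * t)‖ + ‖Y (ε * t)‖ := by
        have := norm_add_le (X t - Y (ε * t)) (Y (ε * t))
        rwa [sub_add_cancel] at this
      linarith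
    · linarith
    · have := norm_add_le (κ t) dd
      linarith
    · linarith
    · linarith
    · rw [add_sub_cancel_left]
      linarith
  have hπεc : Continuous (fun t => inner ℝ (π (ε * t)) (κ t)) :=
    (hπc.comp (continuous_const.mul continuous_id)).inner hκc
  have hint : ∫ t in α..β, (gr t).val (X t) (deriv X t) (deriv X t) ≤
      ∫ t in α..β, ε ^ 2 * (inner ℝ (π (ε * t)) (κ t) + δ) := by
    refine intervalIntegral.integral_mono_on hαβ.le ?_ ?_ hpt
    · refine Continuous.intervalIntegrable ?_ _ _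
      have h1 : Continuous (fun t => (gr t).val (X t)) :=
        hF.smooth.continuous.comp (continuous_id.prodMk hXc)
      have h2 : Continuous (deriv X) := hX1.continuous_deriv le_rfl
      exact (h1.clm_apply h2).clm_apply h2
    · exact (continuous_const.mul (hπεc.add continuous_const)).intervalIntegrable _ _
  obtain ⟨I1, hI1⟩ : ∃ I1 : ℝ, I1 = ∫ t in α..β, inner ℝ (π (ε * t)) (κ t) := ⟨_, rfl⟩
  obtain ⟨I2, hI2⟩ : ∃ I2 : ℝ, I2 = ∫ t in α..β, inner ℝ (π (ε * t)) (deriv Y (ε * t)) :=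
    ⟨_, rfl⟩
  have hev : ∫ t in α..β, ε ^ 2 * (inner ℝ (π (ε * t)) (κ t) + δ) =
      ε ^ 2 * (I1 + (β - α) * δ) := by
    rw [intervalIntegral.integral_const_mul,
      intervalIntegral.integral_add (hπεc.intervalIntegrable _ _) intervalIntegrable_const,
      intervalIntegral.integral_const, smul_eq_mul, hI1]
  have hI12 : |ε * (1 / 2 * (I1 - I2))| ≤ δ / 2 := by
    have h1 := hB2 ε hε hε2 α β hα0 hαβ.le hβ1
    have hπY : Continuous (fun t => inner ℝ (π (ε * t)) (deriv Y (ε * t))) :=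
      (hπc.comp (continuous_const.mul continuous_id)).inner hY'εc
    have h3 : ∫ r in α..β, inner ℝ (π (ε * r)) (k r (ε * r) - deriv Y (ε * r)) = I1 - I2 := by
      rw [hI1, hI2, ← intervalIntegral.integral_sub (hπεc.intervalIntegrable _ _)
        (hπY.intervalIntegrable _ _)]
      refine intervalIntegral.integral_congr fun r _ => ?_
      show inner ℝ (π (ε * r)) (k r (ε * r) - deriv Y (ε * r)) =
        inner ℝ (π (ε * r)) (κ r) - inner ℝ (π (ε * r)) (deriv Y (ε * r))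
      rw [inner_sub_right, hκ]
    rw [intervalIntegral.integral_const_mul, h3, smul_eq_mul, Real.norm_eq_abs] at h1
    linarith
  have hI2' : ε * I2 = ∫ s in a..b, gb.val (Y s) (deriv Y s) (deriv Y s) := by
    have h1 : I2 = ε⁻¹ • ∫ s in a..b, inner ℝ (π s) (deriv Y s) := by
      rw [hI2, intervalIntegral.integral_comp_mul_left
        (fun s => inner ℝ (π s) (deriv Y s)) hε.ne', hεα, hεβ]
    rw [h1, smul_eq_mul, ← mul_assoc, mul_inv_cancel₀ hε.ne', one_mul]
    refine intervalIntegral.integral_congr fun s _ => ?_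
    show inner ℝ (π s) (deriv Y s) = _
    rw [hπ, hop]
  have hfin : ε⁻¹ * (1 / 2 * ∫ t in α..β, (gr t).val (X t) (deriv X t) (deriv X t)) ≤
      ε⁻¹ * (1 / 2 * (ε ^ 2 * (I1 + (β - α) * δ))) := by
    rw [← hev]
    refine mul_le_mul_of_nonneg_left ?_ (inv_nonneg.2 hε.le)
    exact mul_le_mul_of_nonneg_left hint (by norm_num)
  refine hfin.trans ?_
  have e1 : ε⁻¹ * (1 / 2 * (ε ^ 2 * (I1 + (β - α) * δ))) =
      ε * (1 / 2 * (I1 - I2)) + 1 / 2 * (ε * I2) + 1 / 2 * ((ε * (β - α)) * δ) := by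
    field_simp
    ring
  rw [e1, hI2', hba']
  have h8 := (abs_le.1 hI12).2
  have h9 : (b - a) * δ ≤ 1 * δ := mul_le_mul_of_nonneg_right (by linarith) hδ.le
  linarith

end Pool.Agent.AV
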