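import Pool.Agent.Work.MP_13b5d9_gt.AV.Stmts

set_option autoImplicit false

/-!
# MP_13b5d9_gt, block AV, item Dt: the density of the mean metric
-/

open MeasureTheory Set Filter Topology
open scoped ContDiff ENNReal
open Pool.Agent.Work.MP_c9f990_an.Al (IsFlow)

namespace Pool.Agent.AV

open Pool.Agent.MLS Pool.Agent.STR Pool.Agent.LQR Pool.Agent.LQT

namespace IDt

/-- the entry `inner (A (ee j)) (ee i)` as a continuous linear functional of `A` -/
noncomputable def ent {n : ℕ} (i j : Fin n) : (E n →L[ℝ] E n) →L[ℝ] ℝ :=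
  (innerSL ℝ (ee i)).comp (ContinuousLinearMap.apply ℝ (E n) (ee j))

theorem ent_apply {n : ℕ} (i j : Fin n) (A : E n →L[ℝ] E n) : ent i j A = inner ℝ (A (ee j)) (ee i) := by
  unfold ent
  rw [ContinuousLinearMap.comp_apply, ContinuousLinearMap.apply_apply, innerSL_apply_apply, real_inner_comm]

/-- the functional `A ↦ tr (M0 A)` -/
noncomputable def Lam {n : ℕ} (M0 : Matrix (Fin n) (Fin n) ℝ) : (E n →L[ℝ] E n) →L[ℝ] ℝ :=
  ∑ i, ∑ j, M0 i j • ent j i

theorem Lam_apply {n : ℕ} (M0 : Matrix (Fin n) (Fin n) ℝ) (A : E n →L[ℝ] E n) (B : Matrix (Fin n) (Fin n) ℝ)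
    (h : ∀ i j, B i j = inner ℝ (A (ee j)) (ee i)) : Lam M0 A = (M0 * B).trace := by
  unfold Lam Matrix.trace
  simp only [Matrix.diag_apply, Matrix.mul_apply, _root_.sum_apply, _root_.smul_apply,
    ent_apply, smul_eq_mul, h]

theorem gm_cont {n : ℕ} {gr : ℝ → Form n} (hF : Fam n gr) (x : E n) : Continuous (fun r => gm (gr r) x) := by
  refine continuous_matrix fun i j => ?_
  have h1 : Continuous (fun r : ℝ => (gr r).val x) :=
    hF.smooth.continuous.comp (continuous_id.prodMk continuous_const)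
  exact (h1.clm_apply continuous_const).clm_apply continuous_const

theorem dens_cont {n : ℕ} {gr : ℝ → Form n} (hF : Fam n gr) (x : E n) : Continuous (fun r => dens (gr r) x) := by
  unfold dens
  exact (gm_cont hF x).matrix_det.sqrt

end IDt

open IDt in
theorem pr_Dt (hMa : StMa) (hMb : StMb) (hSi : StSi) : StDt := by
  intro n l gr gb hl hF hR hmean x
  have hic : Continuous (fun r : ℝ => iop (gr r) x) :=
    (hSi n gr hF).1.continuous.comp (continuous_id.prodMk continuous_const)
  obtain ⟨hb1, hb2, hb3⟩ := hMb n gb hR x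
  have hT : ∀ r, Lam (gm gb x) (iop (gr r) x) = (gm gb x * (gm (gr r) x)⁻¹).trace := fun r =>
    Lam_apply _ _ _ (hMb n (gr r) (hF.riem r) x).2.1
  have hT0 : Lam (gm gb x) (iop gb x) = n := by
    rw [Lam_apply _ _ _ hb2, Matrix.mul_nonsing_inv _ (Matrix.isUnit_iff_isUnit_det _ |>.1 hb1.isUnit),
      Matrix.trace_one, Fintype.card_fin]
  have hTint : l⁻¹ * (∫ r in (0 : ℝ)..l, Lam (gm gb x) (iop (gr r) x)) = n := by
    rw [ContinuousLinearMap.intervalIntegral_comp_comm _ (hic.intervalIntegrable _ _), ← smul_eq_mul,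
      ← ContinuousLinearMap.map_smul, ← hmean x, hT0]
  set lo : ℝ → ℝ := fun r => dens gb x * (1 - 1 / 2 * (Lam (gm gb x) (iop (gr r) x) - n)) with hlo
  have hTc : Continuous (fun r => Lam (gm gb x) (iop (gr r) x)) := (Lam (gm gb x)).continuous.comp hic
  have hloc : Continuous lo := by
    rw [hlo]
    exact continuous_const.mul (continuous_const.sub (continuous_const.mul (hTc.sub continuous_const)))
  have hdc := dens_cont hF x
  have hma : ∀ r, lo r ≤ dens (gr r) x ∧ (lo r = dens (gr r) x → gm (gr r) x = gm gb x) := by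
    intro r
    have h := hMa n (gm (gr r) x) (gm gb x) (hMb n (gr r) (hF.riem r) x).1 hb1
    rw [← hT r] at h
    exact h
  have hloint : l⁻¹ * (∫ r in (0 : ℝ)..l, lo r) = dens gb x := by
    rw [hlo]
    simp only
    rw [intervalIntegral.integral_const_mul]
    have h0 : ∀ r : ℝ, (1 - 1 / 2 * (Lam (gm gb x) (iop (gr r) x) - n)) =
        (1 + (n : ℝ) / 2) - 1 / 2 * Lam (gm gb x) (iop (gr r) x) := fun r => by ring
    have h1 : (∫ r in (0 : ℝ)..l, (1 - 1 / 2 * (Lam (gm gb x) (iop (gr r) x) - n))) =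
        l * (1 + (n : ℝ) / 2) - 1 / 2 * (∫ r in (0 : ℝ)..l, Lam (gm gb x) (iop (gr r) x)) := by
      simp_rw [h0]
      rw [intervalIntegral.integral_sub (f := fun _ : ℝ => 1 + (n : ℝ) / 2)
        (g := fun r : ℝ => 1 / 2 * Lam (gm gb x) (iop (gr r) x)) (continuous_const.intervalIntegrable _ _)
        ((continuous_const.mul hTc).intervalIntegrable _ _),
        intervalIntegral.integral_const_mul, intervalIntegral.integral_const, sub_zero, smul_eq_mul]
    rw [h1]
    have h2 : (∫ r in (0 : ℝ)..l, Lam (gm gb x) (iop (gr r) x)) = l * n := by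
      rw [← hTint, ← mul_assoc, mul_inv_cancel₀ hl.ne', one_mul]
    rw [h2]
    field_simp
    ring
  have hle : (∫ r in (0 : ℝ)..l, lo r) ≤ ∫ r in (0 : ℝ)..l, dens (gr r) x :=
    intervalIntegral.integral_mono_on hl.le (hloc.intervalIntegrable _ _) (hdc.intervalIntegrable _ _)
      (fun r _ => (hma r).1)
  refine ⟨?_, ?_⟩
  · rw [← hloint]
    exact mul_le_mul_of_nonneg_left hle (inv_nonneg.2 hl.le)
  · intro heq r hr
    have h3 : (∫ r in (0 : ℝ)..l, lo r) = ∫ r in (0 : ℝ)..l, dens (gr r) x := by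
      have h4 := hloint.trans heq
      exact mul_left_cancel₀ (inv_ne_zero hl.ne') h4
    have h5 : (∫ r in (0 : ℝ)..l, (dens (gr r) x - lo r)) = 0 := by
      rw [intervalIntegral.integral_sub (hdc.intervalIntegrable _ _) (hloc.intervalIntegrable _ _), h3, sub_self]
    have h6 : lo r = dens (gr r) x := by
      by_contra hne
      have h7 : 0 < dens (gr r) x - lo r := sub_pos.2 (lt_of_le_of_ne (hma r).1 hne)
      have h8 := intervalIntegral.integral_pos hl (hdc.sub hloc).continuousOn
        (fun s _ => sub_nonneg.2 (hma s).1) ⟨r, hr, h7⟩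
      exact absurd h5 h8.ne'
    exact hb3 (gr r) ((hma r).2 h6)

end Pool.Agent.AV
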