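import Pool.Agent.Work.MP_13b5d9_gt.AV.Stmts

set_option autoImplicit false

/-!
# MP_13b5d9_gt, block AV, item EM: the geodesics of the mean metric minimise the energy
-/

open MeasureTheory Set Filter Topology
open scoped ContDiff ENNReal
open Pool.Agent.Work.MP_c9f990_an.Al (IsFlow)

namespace Pool.Agent.AV

open Pool.Agent.MLS Pool.Agent.STR Pool.Agent.LQR Pool.Agent.LQT

namespace IEM

/-- The comparison of the energies of the slow curves. -/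
theorem energies (hMi : StMi) (hEn : StEn) {n : ℕ} {G : Type} [Group G] [MulAction G (E n)]
    {g : Form n} (hg : Riem g) (hm : Minz g) {z : G} {l : ℝ} {V : E n → E n} {τ : E n → ℝ}
    {ψ : ℝ → E n → E n} {gr : ℝ → Form n} (hax : Axis n G g z l V τ ψ) (hfam : Fam n gr)
    (hpull : ∀ r x u v, (gr r).val x u v =
      g.val (ψ r x) (fderiv ℝ (ψ r) x u) (fderiv ℝ (ψ r) x v))
    {c X X1 X2 : ℝ → E n} (hc : IsGeo g c) (hcX : ∀ t, c t = ψ t (X t))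
    (hX : ContDiff ℝ 1 X) (hX1 : ContDiff ℝ 1 X1) (hX2 : ContDiff ℝ 1 X2) {S T : ℝ}
    (hS : 0 ≤ S) (hST : S ≤ T) (h0 : X1 0 = X 0) (h1 : X1 S = X2 S) (h2 : X2 T = X T) :
    ∫ t in (0 : ℝ)..T, (gr t).val (X t) (deriv X t) (deriv X t) ≤
      (∫ t in (0 : ℝ)..S, (gr t).val (X1 t) (deriv X1 t) (deriv X1 t)) +
        ∫ t in S..T, (gr t).val (X2 t) (deriv X2 t) (deriv X2 t) := by
  obtain ⟨-, e0⟩ := hEn n G g z l V τ ψ gr hax hfam hpull X hX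
  obtain ⟨d1, e1⟩ := hEn n G g z l V τ ψ gr hax hfam hpull X1 hX1
  obtain ⟨d2, e2⟩ := hEn n G g z l V τ ψ gr hax hfam hpull X2 hX2
  have hfun : c = fun t => ψ t (X t) := funext hcX
  subst hfun
  have h3 := hMi n g hg hm (fun t => ψ t (X t)) hc S T (fun t => ψ t (X1 t))
    (fun t => ψ t (X2 t)) hS hST d1 d2 (by show ψ 0 (X1 0) = ψ 0 (X 0); rw [h0])
    (by show ψ S (X1 S) = ψ S (X2 S); rw [h1]) (by show ψ T (X2 T) = ψ T (X T); rw [h2])
  rw [e0 0 T, e1 0 S, e2 S T, h0, h1, h2] at h3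
  linarith

end IEM

open IEM in
theorem pr_EM (hLm : StLm) (hCp : StCp) (hMi : StMi) (hEn : StEn) : StEM := by
  intro n G _ _ hco g hg hinv hm z l V τ ψ hax gr gb hav φ M hfl z0 r hr0 hr1 Y1 Y2 hY1 hY2
    h0 h1 h2
  have hl := hax.pos
  refine le_of_forall_pos_le_add fun η hη => ?_
  set δ : ℝ := η / 3 with hδdef
  have hδ : 0 < δ := by positivity
  obtain ⟨ε₁, hε₁, hC1⟩ := hCp n l gr gb hl hav.fam hav.per hav.riemb hav.mean Y1 0 r hY1 le_rfl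
    hr0 hr1.le δ hδ
  obtain ⟨ε₂, hε₂, hC2⟩ := hCp n l gr gb hl hav.fam hav.per hav.riemb hav.mean Y2 r 1 hY2 hr0.le
    hr1 le_rfl δ hδ
  obtain ⟨ε₃, hε₃, hL⟩ := hLm n G hco g hg hinv z l V τ ψ hax gr gb hav φ M hfl z0
    (min δ ε₂) (lt_min hδ hε₂)
  obtain ⟨ε, hε, h4⟩ : ∃ ε : ℝ, 0 < ε ∧ ε < min (min ε₁ ε₂) ε₃ :=
    exists_between (lt_min (lt_min hε₁ hε₂) hε₃)
  have l1 : ε < ε₁ := h4.trans_le ((min_le_left _ _).trans (min_le_left _ _))
  have l2 : ε < ε₂ := h4.trans_le ((min_le_left _ _).trans (min_le_right _ _))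
  have l3 : ε < ε₃ := h4.trans_le (min_le_right _ _)
  obtain ⟨c, X, hc, -, hX, hX0, hcX, hXe, hHm⟩ := hL ε hε l3
  obtain ⟨X1, hX1, hX10, hX11, hI1⟩ := hC1 ε hε l1 (Y1 0) (Y1 r)
    (by rw [sub_self, norm_zero]; exact hε₁.le) (by rw [sub_self, norm_zero]; exact hε₁.le)
  obtain ⟨X2, hX2, hX20, hX21, hI2⟩ := hC2 ε hε l2 (Y2 r) (X (1 / ε))
    (by rw [sub_self, norm_zero]; exact hε₂.le)
    (by rw [h2]; exact hXe.trans (min_le_right _ _))
  rw [zero_div] at hX10 hI1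
  have hS : 0 ≤ r / ε := by positivity
  have hST : r / ε ≤ 1 / ε := div_le_div_of_nonneg_right hr1.le hε.le
  have hE := energies hMi hEn hg hm hax hav.fam hav.pull hc hcX hX hX1 hX2 hS hST
    (by rw [hX10, h0, hX0]) (by rw [hX11, hX20, h1]) hX21
  have h5 := (abs_le.1 hHm).1
  have h6 : min δ ε₂ ≤ δ := min_le_left _ _
  have h7 := mul_le_mul_of_nonneg_left hE (by positivity : (0 : ℝ) ≤ ε⁻¹ * (1 / 2))
  have h8 : ε⁻¹ * (1 / 2) * ∫ t in (0 : ℝ)..(1 / ε), (gr t).val (X t) (deriv X t) (deriv X t) =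
      ε⁻¹ * (1 / 2 * ∫ t in (0 : ℝ)..(1 / ε), (gr t).val (X t) (deriv X t) (deriv X t)) := by
    ring
  rw [h8, mul_add] at h7
  have h9 : δ + δ + δ = η := by rw [hδdef]; ring
  linarith

end Pool.Agent.AV
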