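import Pool.Agent.Work.MP_13b5d9_gt.AV.Stmts
import Pool.Agent.Work.MP_13b5d9_gt.PI.I_Var

set_option autoImplicit false

/-!
# MP_13b5d9_gt, block AV, item En: the energy of a curve in the rotating frame
-/

open MeasureTheory Set Filter Topology
open scoped ContDiff ENNReal
open Pool.Agent.Work.MP_c9f990_an.Al (IsFlow)

namespace Pool.Agent.AV

open Pool.Agent.MLS Pool.Agent.STR Pool.Agent.LQR Pool.Agent.LQT

namespace IEn

/-- the integrand of the energy of a moving curve is continuous -/
theorem cont_fam {n : ℕ} {gr : ℝ → Form n} (hF : Fam n gr) {X : ℝ → E n} (hX : ContDiff ℝ 1 X) :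
    Continuous (fun t => (gr t).val (X t) (deriv X t) (deriv X t)) := by
  have h1 : Continuous (fun q : ℝ × E n => (gr q.1).val q.2) := hF.smooth.continuous
  have h2 : Continuous (fun t : ℝ => ((t, X t) : ℝ × E n)) := continuous_id.prodMk hX.continuous
  have h3 : Continuous (deriv X) := hX.continuous_deriv (by norm_num)
  have h4 : Continuous (fun t => (gr t).val (X t)) := h1.comp h2
  exact (h4.clm_apply h3).clm_apply h3

end IEn

theorem pr_En (h : Pool.Agent.PIN.PiLV) : StEn := by
  intro n G _ _ g z l V τ ψ gr hA hF hgr X hX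
  obtain ⟨h1, h2⟩ := Pool.Agent.PIN.pr_Var h n G g z l V τ ψ hA X (fun t => t) hX contDiff_id 1
  simp only [one_mul, deriv_id'', one_pow, mul_one] at h1 h2
  refine ⟨h1, fun a b => ?_⟩
  have hτ : ∀ t, HasDerivAt (fun s => τ (X s)) (g.val (X t) (V (X t)) (deriv X t)) t := by
    intro t
    have h3 : HasFDerivAt τ (fderiv ℝ τ (X t)) (X t) :=
      ((hA.smoothT.differentiable (by simp)) (X t)).hasFDerivAt
    have h4 : HasDerivAt X (deriv X t) t := (hX.differentiable (by norm_num) t).hasDerivAt
    have h5 := h3.comp_hasDerivAt t h4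
    rw [hA.grad] at h5
    exact h5
  have hcX' : Continuous (deriv X) := hX.continuous_deriv (by norm_num)
  have hcτ : Continuous (fun t => g.val (X t) (V (X t)) (deriv X t)) := by
    have h6 : Continuous (fun t => g.val (X t)) := g.smooth.continuous.comp hX.continuous
    have h7 : Continuous (fun t => V (X t)) := hA.smoothV.continuous.comp hX.continuous
    exact (h6.clm_apply h7).clm_apply hcX'
  have hcg := IEn.cont_fam hF hX
  have hint : ∀ t, g.val (ψ t (X t)) (deriv (fun t => ψ t (X t)) t)
      (deriv (fun t => ψ t (X t)) t) =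
      (1 + 2 * g.val (X t) (V (X t)) (deriv X t)) + (gr t).val (X t) (deriv X t) (deriv X t) := by
    intro t
    rw [h2 t, hgr]
  rw [intervalIntegral.integral_congr (fun t _ => hint t)]
  have hi1 : IntervalIntegrable (fun t => 1 + 2 * g.val (X t) (V (X t)) (deriv X t)) volume a b :=
    (continuous_const.add (continuous_const.mul hcτ)).intervalIntegrable _ _
  have hi2 : (∫ t in a..b, (1 + 2 * g.val (X t) (V (X t)) (deriv X t))) =
      (b - a) + 2 * (τ (X b) - τ (X a)) := by
    have h8 : (∫ t in a..b, (1 + 2 * g.val (X t) (V (X t)) (deriv X t))) =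
        (∫ _ in a..b, (1 : ℝ)) + ∫ t in a..b, 2 * g.val (X t) (V (X t)) (deriv X t) :=
      intervalIntegral.integral_add (continuous_const.intervalIntegrable _ _)
        ((continuous_const.mul hcτ).intervalIntegrable _ _)
    have h9 : (∫ t in a..b, g.val (X t) (V (X t)) (deriv X t)) = τ (X b) - τ (X a) :=
      intervalIntegral.integral_eq_sub_of_hasDerivAt (fun t _ => hτ t)
        (hcτ.intervalIntegrable _ _)
    rw [h8, intervalIntegral.integral_const_mul, h9, intervalIntegral.integral_const]
    simp
  rw [intervalIntegral.integral_add hi1 (hcg.intervalIntegrable _ _), hi2]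

end Pool.Agent.AV
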