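import Pool.Agent.Work.MP_13b5d9_gt.AV.Stmts
import Pool.Agent.Work.MP_13b5d9_gt.PI.I_A

set_option autoImplicit false

/-!
# MP_13b5d9_gt, block AV, item Fr: geodesics in the rotating frame
-/

open MeasureTheory Set Filter Topology
open scoped ContDiff ENNReal
open Pool.Agent.Work.MP_c9f990_an.Al (IsFlow)

namespace Pool.Agent.AV

open Pool.Agent.MLS Pool.Agent.STR Pool.Agent.LQR Pool.Agent.LQT

namespace IFr

variable {n : ℕ}

/-- derivative along a moving point -/
theorem split {A B : Type} [NormedAddCommGroup A] [NormedSpace ℝ A] [NormedAddCommGroup B]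
    [NormedSpace ℝ B] {f : ℝ × A → B} {X : ℝ → A} {X' : A} {t : ℝ} {a : B} {M : A →L[ℝ] B}
    (hf : DifferentiableAt ℝ f (t, X t)) (hX : HasDerivAt X X' t)
    (h1 : HasDerivAt (fun s => f (s, X t)) a t) (h2 : HasFDerivAt (fun y => f (t, y)) M (X t)) :
    HasDerivAt (fun s => f (s, X s)) (a + M X') t := by
  have hL := hf.hasFDerivAt
  have e1 : HasDerivAt (fun s : ℝ => (s, X t)) ((1 : ℝ), (0 : A)) t :=
    (hasDerivAt_id t).prodMk (hasDerivAt_const t (X t))
  have e2 : HasDerivAt (fun s : ℝ => (s, X s)) ((1 : ℝ), X') t := (hasDerivAt_id t).prodMk hX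
  have k1 : HasDerivAt (fun s => f (s, X t)) (fderiv ℝ f (t, X t) ((1 : ℝ), (0 : A))) t :=
    HasFDerivAt.comp_hasDerivAt (f := fun s : ℝ => (s, X t)) t hL e1
  have k3 : HasDerivAt (fun s => f (s, X s)) (fderiv ℝ f (t, X t) ((1 : ℝ), X')) t :=
    HasFDerivAt.comp_hasDerivAt (f := fun s : ℝ => (s, X s)) t hL e2
  have e4 : HasFDerivAt (fun y : A => (t, y)) (ContinuousLinearMap.inr ℝ ℝ A) (X t) :=
    hasFDerivAt_prodMk_right t (X t)
  have k2 : HasFDerivAt (fun y => f (t, y))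
      ((fderiv ℝ f (t, X t)).comp (ContinuousLinearMap.inr ℝ ℝ A)) (X t) :=
    HasFDerivAt.comp (f := fun y : A => (t, y)) (X t) hL e4
  have k4 := h2.unique k2
  have e : a + M X' = fderiv ℝ f (t, X t) ((1 : ℝ), X') := by
    rw [k4, ← k1.unique h1, ContinuousLinearMap.comp_apply, ContinuousLinearMap.inr_apply,
      ← map_add]
    simp
  rw [e]
  exact k3

/-- derivative along a line -/
theorem line {B : Type} [NormedAddCommGroup B] [NormedSpace ℝ B] {f : E n → B}
    (hf : ContDiff ℝ ∞ f) (x u : E n) :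
    HasDerivAt (fun s : ℝ => f (x + s • u)) (fderiv ℝ f x u) 0 := by
  have e1 : HasDerivAt (fun s : ℝ => x + s • u) u 0 := by
    have := ((hasDerivAt_id (0 : ℝ)).smul_const u).const_add x
    simpa using this
  have hx : x + (0 : ℝ) • u = x := by simp
  have h0 : HasFDerivAt f (fderiv ℝ f x) (x + (0 : ℝ) • u) := by
    rw [hx]
    exact ((hf.differentiable (by norm_num)) x).hasFDerivAt
  exact HasFDerivAt.comp_hasDerivAt (f := fun s : ℝ => x + s • u) 0 h0 e1

/-- the derivative of a form is symmetric -/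
theorem dsymm (h : Form n) (x u a b : E n) :
    fderiv ℝ h.val x u a b = fderiv ℝ h.val x u b a := by
  have key : ∀ a b : E n, HasDerivAt (fun s : ℝ => h.val (x + s • u) a b)
      (fderiv ℝ h.val x u a b) 0 := by
    intro a b
    have h1 := line h.smooth x u
    have h2 := (h1.clm_apply (hasDerivAt_const 0 a)).clm_apply (hasDerivAt_const 0 b)
    simpa using h2
  have e : (fun s : ℝ => h.val (x + s • u) a b) = fun s : ℝ => h.val (x + s • u) b a := by
    funext s
    exact h.symm _ _ _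
  have h1 := key a b
  rw [e] at h1
  exact h1.unique (key b a)

/-- symmetry of the second derivative -/
theorem d2symm {B : Type} [NormedAddCommGroup B] [NormedSpace ℝ B] {f : E n → B}
    (hf : ContDiff ℝ ∞ f) (x u v : E n) :
    fderiv ℝ (fderiv ℝ f) x u v = fderiv ℝ (fderiv ℝ f) x v u := by
  have h : ContDiffAt ℝ 2 f x := (hf.contDiffAt).of_le (by norm_cast)
  exact (h.isSymmSndFDerivAt (by simp)).eq u v

end IFr

open IFr Pool.Agent.PIN in
theorem pr_Fr (h : StFi) (hFlo : PiFlo) : StFr := by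
  intro n G _ _ g z l V τ ψ gr hA hF hgr c hc X hX
  obtain ⟨f1, f2, f3, f4, f5, f6⟩ := h n G g z l V τ ψ gr hA hgr
  obtain ⟨hDψ, -⟩ := hFlo n V g.val ψ hA.smoothV g.smooth hA.smoothF hA.ode
  have hXf : X = fun t => ψ (-t) (c t) := funext hX
  have hX2 : ContDiff ℝ 2 X := by
    rw [hXf]
    have h1 : ContDiff ℝ 2 (fun p : ℝ × E n => ψ p.1 p.2) :=
      hA.smoothF.of_le (by norm_cast)
    exact h1.comp (contDiff_neg.prodMk hc.smooth)
  have hcX : ∀ t, c t = ψ t (X t) := by
    intro t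
    rw [hX t, ← hA.add, add_neg_cancel, hA.zero]
  have hXd : ∀ t, HasDerivAt X (deriv X t) t := fun t =>
    ((hX2.differentiable (by norm_num)) t).hasDerivAt
  have hψs : ∀ t, ContDiff ℝ ∞ (ψ t) := fun t =>
    hA.smoothF.comp (contDiff_const.prodMk contDiff_id)
  have hc1 : ∀ t, deriv c t = V (c t) + fderiv ℝ (ψ t) (X t) (deriv X t) := by
    intro t
    have k := split (f := fun p : ℝ × E n => ψ p.1 p.2)
      ((hA.smoothF.differentiable (by norm_num)) (t, X t)) (hXd t) (hA.ode (X t) t)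
      (((hψs t).differentiable (by norm_num)) (X t)).hasFDerivAt
    have e : (fun s => ψ s (X s)) = c := (funext hcX).symm
    have k2 : HasDerivAt c (V (ψ t (X t)) + fderiv ℝ (ψ t) (X t) (deriv X t)) t := by
      rw [← e]
      exact k
    rw [hcX t]
    exact k2.deriv
  refine ⟨hX2, hcX, hc1, fun t u => ?_⟩
  -- the moving vector
  have hw : HasDerivAt (fun s => fderiv ℝ (ψ s) (X s) u)
      (fderiv ℝ V (ψ t (X t)) (fderiv ℝ (ψ t) (X t) u) +
        fderiv ℝ (fderiv ℝ (ψ t)) (X t) (deriv X t) u) t := by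
    have hd : DifferentiableAt ℝ (fun p : ℝ × E n => fderiv ℝ (ψ p.1) p.2 u) (t, X t) :=
      ((hDψ.clm_apply contDiff_const).differentiable (by norm_num)) _
    have h2 : HasFDerivAt (fun y => fderiv ℝ (ψ t) y u)
        ((fderiv ℝ (fderiv ℝ (ψ t)) (X t)).flip u) (X t) := by
      have h3 : ContDiff ℝ ∞ (fderiv ℝ (ψ t)) := (hψs t).fderiv_right (by norm_cast)
      have h4 := ((h3.differentiable (by norm_num)) (X t)).hasFDerivAt.clm_apply
        (hasFDerivAt_const u (X t))
      have e : (fderiv ℝ (ψ t) (X t)).comp (0 : E n →L[ℝ] E n) +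
          (fderiv ℝ (fderiv ℝ (ψ t)) (X t)).flip u = (fderiv ℝ (fderiv ℝ (ψ t)) (X t)).flip u := by
        rw [ContinuousLinearMap.comp_zero, zero_add]
      rw [e] at h4
      exact h4
    have k := split (f := fun p : ℝ × E n => fderiv ℝ (ψ p.1) p.2 u) hd (hXd t)
      (f5 t (X t) u) h2
    exact k
  -- the function
  have hm : (fun s => (gr s).val (X s) (deriv X s) u) = fun s =>
      g.val (c s) (deriv c s) (fderiv ℝ (ψ s) (X s) u) - fderiv ℝ τ (X s) u := by
    funext s
    have e1 : (gr s).val (X s) (V (X s) + deriv X s) u =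
        g.val (c s) (deriv c s) (fderiv ℝ (ψ s) (X s) u) := by
      rw [hgr, map_add, f1, ← hcX s, ← hc1 s]
    rw [← e1, map_add, add_apply, f2]
    ring
  have hτ : HasDerivAt (fun s => fderiv ℝ τ (X s) u)
      (fderiv ℝ (fderiv ℝ τ) (X t) (deriv X t) u) t := by
    have h3 : ContDiff ℝ ∞ (fderiv ℝ τ) := hA.smoothT.fderiv_right (by norm_cast)
    have h4 : HasDerivAt (fun s => fderiv ℝ τ (X s)) (fderiv ℝ (fderiv ℝ τ) (X t) (deriv X t)) t :=
      ((h3.differentiable (by norm_num)) (X t)).hasFDerivAt.comp_hasDerivAt t (hXd t)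
    have h5 := h4.clm_apply (hasDerivAt_const t u)
    simpa using h5
  have hmd := ((IA.dA hc t).clm_apply hw).sub hτ
  rw [hm]
  refine hmd.congr_deriv ?_
  -- the algebra at the time `t`
  have hDc : fderiv ℝ (ψ t) (X t) (V (X t) + deriv X t) = deriv c t := by
    rw [map_add, f1, ← hcX t, ← hc1 t]
  have a1 := IA.dAw hc t (fderiv ℝ (ψ t) (X t) u)
  rw [add_apply, a1]
  have a2 := f6 t (X t) u (V (X t) + deriv X t) (V (X t) + deriv X t)
  rw [hDc, ← hcX t] at a2
  have a3 : g.val (c t) (fderiv ℝ (fderiv ℝ (ψ t)) (X t) u (V (X t) + deriv X t)) (deriv c t) =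
      g.val (c t) (deriv c t) (fderiv ℝ (fderiv ℝ (ψ t)) (X t) u (V (X t) + deriv X t)) :=
    g.symm _ _ _
  have a4 : fderiv ℝ (fderiv ℝ (ψ t)) (X t) (deriv X t) u =
      fderiv ℝ (fderiv ℝ (ψ t)) (X t) u (deriv X t) := d2symm (hψs t) _ _ _
  have a5 := f4 t (X t) u
  have a6 : fderiv ℝ (fderiv ℝ τ) (X t) (deriv X t) u =
      fderiv ℝ (fderiv ℝ τ) (X t) u (deriv X t) := d2symm hA.smoothT _ _ _
  have a7 : g.val (c t) (deriv c t) (fderiv ℝ (ψ t) (X t) (fderiv ℝ V (X t) u)) =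
      (gr t).val (X t) (V (X t) + deriv X t) (fderiv ℝ V (X t) u) := by
    rw [hgr, hDc, ← hcX t]
  have a8 := f3 t (X t) u (deriv X t)
  have a9 := f3 t (X t) u (V (X t))
  -- the unit length
  have a10 : fderiv ℝ (fderiv ℝ τ) (X t) u (V (X t)) + fderiv ℝ τ (X t) (fderiv ℝ V (X t) u) = 0 := by
    have h3 : ContDiff ℝ ∞ (fderiv ℝ τ) := hA.smoothT.fderiv_right (by norm_cast)
    have e1 : HasDerivAt (fun s : ℝ => X t + s • u) u 0 := by
      have := ((hasDerivAt_id (0 : ℝ)).smul_const u).const_add (X t)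
      simpa using this
    have hx : X t + (0 : ℝ) • u = X t := by simp
    have h0 : HasFDerivAt (fderiv ℝ τ) (fderiv ℝ (fderiv ℝ τ) (X t)) (X t + (0 : ℝ) • u) := by
      rw [hx]
      exact ((h3.differentiable (by norm_num)) (X t)).hasFDerivAt
    have h0V : HasFDerivAt V (fderiv ℝ V (X t)) (X t + (0 : ℝ) • u) := by
      rw [hx]
      exact ((hA.smoothV.differentiable (by norm_num)) (X t)).hasFDerivAt
    have h1 : HasDerivAt (fun s : ℝ => fderiv ℝ τ (X t + s • u))
        (fderiv ℝ (fderiv ℝ τ) (X t) u) 0 := h0.comp_hasDerivAt 0 e1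
    have h1V : HasDerivAt (fun s : ℝ => V (X t + s • u)) (fderiv ℝ V (X t) u) 0 :=
      h0V.comp_hasDerivAt 0 e1
    have h2 := h1.clm_apply h1V
    have e2 : (fun s : ℝ => fderiv ℝ τ (X t + s • u) (V (X t + s • u))) = fun _ => (1 : ℝ) := by
      funext s
      rw [hA.grad, hA.unit]
    rw [e2, hx] at h2
    exact h2.unique (hasDerivAt_const 0 (1 : ℝ))
  have a11 := f2 t (X t) (fderiv ℝ V (X t) u)
  have a12 := dsymm (gr t) (X t) u (V (X t)) (deriv X t)
  have a13 := (gr t).symm (X t) (fderiv ℝ V (X t) u) (V (X t))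
  have a14 := (gr t).symm (X t) (fderiv ℝ V (X t) u) (deriv X t)
  -- expansions
  have b1 : fderiv ℝ (gr t).val (X t) u (V (X t) + deriv X t) (V (X t) + deriv X t) =
      fderiv ℝ (gr t).val (X t) u (V (X t)) (V (X t)) +
        fderiv ℝ (gr t).val (X t) u (V (X t)) (deriv X t) +
        (fderiv ℝ (gr t).val (X t) u (deriv X t) (V (X t)) +
        fderiv ℝ (gr t).val (X t) u (deriv X t) (deriv X t)) := by
    simp only [map_add, add_apply]
    ring
  have b2 : (gr t).val (X t) (V (X t) + deriv X t) (fderiv ℝ V (X t) u) =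
      (gr t).val (X t) (V (X t)) (fderiv ℝ V (X t) u) +
        (gr t).val (X t) (deriv X t) (fderiv ℝ V (X t) u) := by
    rw [map_add, add_apply]
  have b3 : fderiv ℝ V (ψ t (X t)) (fderiv ℝ (ψ t) (X t) u) +
      fderiv ℝ (fderiv ℝ (ψ t)) (X t) (deriv X t) u =
      fderiv ℝ (ψ t) (X t) (fderiv ℝ V (X t) u) +
        fderiv ℝ (fderiv ℝ (ψ t)) (X t) u (V (X t) + deriv X t) := by
    rw [← a5, a4, map_add]
    abel
  rw [b3, map_add, a7]
  linarith

end Pool.Agent.AV
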