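import Pool.Agent.Work.MP_13b5d9_gt.AV.StmtsL

set_option autoImplicit false

/-!
# MP_13b5d9_gt, block AV, item Fs: a smooth distance
-/

open MeasureTheory Set Filter Topology
open scoped ContDiff ENNReal
open Pool.Agent.Work.MP_c9f990_an.Al (IsFlow)

namespace Pool.Agent.AV

open Pool.Agent.MLS Pool.Agent.STR Pool.Agent.LQR Pool.Agent.LQT

namespace IFs

theorem lip (a b δ : ℝ) : Real.sqrt (a ^ 2 + δ ^ 2) ≤ Real.sqrt (b ^ 2 + δ ^ 2) + |a - b| := by
  refine Real.sqrt_le_iff.2 ⟨by positivity, ?_⟩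
  have h1 : Real.sqrt (b ^ 2 + δ ^ 2) ^ 2 = b ^ 2 + δ ^ 2 := Real.sq_sqrt (by positivity)
  have h2 : |b| ≤ Real.sqrt (b ^ 2 + δ ^ 2) := Real.abs_le_sqrt (by nlinarith [sq_nonneg δ])
  have h3 : |a - b| ^ 2 = (a - b) ^ 2 := sq_abs _
  have h4 : b * (a - b) ≤ |b| * |a - b| := by rw [← abs_mul]; exact le_abs_self _
  have h5 : |b| * |a - b| ≤ Real.sqrt (b ^ 2 + δ ^ 2) * |a - b| :=
    mul_le_mul_of_nonneg_right h2 (abs_nonneg _)
  nlinarith

theorem smooth {n : ℕ} {h : Form n} {φ : ℝ → W n → W n} {lg : E n → E n → E n}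
    (hlg : IsLog h φ lg) {δ : ℝ} (hδ : 0 < δ) :
    ContDiff ℝ ∞ (fun p : E n × E n =>
      Real.sqrt (h.val p.1 (lg p.1 p.2) (lg p.1 p.2) + δ ^ 2)) := by
  have h1 : ContDiff ℝ ∞ (fun p : E n × E n => h.val p.1) := h.smooth.comp contDiff_fst
  have h2 : ContDiff ℝ ∞ (fun p : E n × E n => h.val p.1 (lg p.1 p.2) (lg p.1 p.2)) :=
    (h1.clm_apply hlg.smooth).clm_apply hlg.smooth
  refine (h2.add contDiff_const).sqrt fun p => ?_
  have h3 := h.nonneg p.1 (lg p.1 p.2)
  positivity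

theorem eq_gd {n : ℕ} {h : Form n} {φ : ℝ → W n → W n} {lg : E n → E n → E n}
    (hlg : IsLog h φ lg) (x y : E n) : h.val x (lg x y) (lg x y) = gd h x y ^ 2 := by
  rw [hlg.dist, nrm, Real.sq_sqrt (h.nonneg _ _)]

theorem cont_nrm {n : ℕ} (h : Form n) (y w : E n) :
    Continuous (fun r : ℝ => nrm h (y + r • w) w) := by
  have h1 : Continuous (fun r : ℝ => h.val (y + r • w)) :=
    h.smooth.continuous.comp (by fun_prop)
  exact ((h1.clm_apply continuous_const).clm_apply continuous_const).sqrt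

theorem gd_le (hG : StGd) {n : ℕ} (h : Form n) (y w : E n) {s : ℝ} (hs : 0 ≤ s) :
    gd h y (y + s • w) ≤ ∫ r in (0 : ℝ)..s, nrm h (y + r • w) w := by
  have h1 := (hG n h).2.2.2 (fun r : ℝ => y + r • w) 0 s (by fun_prop) hs
  have h2 : ∀ t : ℝ, deriv (fun r : ℝ => y + r • w) t = w := by
    intro t
    have h3 : HasDerivAt (fun r : ℝ => y + r • w) ((1 : ℝ) • w) t :=
      ((hasDerivAt_id t).smul_const w).const_add y
    rw [h3.deriv, one_smul]
  simp only [h2, zero_smul, add_zero] at h1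
  exact h1

end IFs

open IFs in
theorem pr_Fs (hG : StGd) : StFs := by
  intro n h φ lg _ hlg δ hδ
  refine ⟨smooth hlg hδ, fun x y w => ?_⟩
  set f : E n → ℝ := fun y => Real.sqrt (h.val x (lg x y) (lg x y) + δ ^ 2) with hf
  have hfs : ContDiff ℝ ∞ f :=
    (smooth hlg hδ).comp (contDiff_const.prodMk contDiff_id)
  have hfd : DifferentiableAt ℝ f y := (hfs.differentiable (by simp)) y
  obtain ⟨-, hpm, -, -⟩ := hG n h
  -- the two functions of `s`
  have hF : HasDerivAt (fun s : ℝ => f (y + s • w)) (fderiv ℝ f y w) 0 := by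
    have h1 : HasDerivAt (fun s : ℝ => y + s • w) ((1 : ℝ) • w) 0 :=
      ((hasDerivAt_id (0 : ℝ)).smul_const w).const_add y
    rw [one_smul] at h1
    have h2 : HasFDerivAt f (fderiv ℝ f y) (y + (0 : ℝ) • w) := by
      rw [zero_smul, add_zero]
      exact hfd.hasFDerivAt
    exact h2.comp_hasDerivAt 0 h1
  have hGd : HasDerivAt (fun s : ℝ => ∫ r in (0 : ℝ)..s, nrm h (y + r • w) w)
      (nrm h y w) 0 := by
    have h1 := ((cont_nrm h y w).integral_hasStrictDerivAt 0 0).hasDerivAt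
    simp only [zero_smul, add_zero] at h1
    exact h1
  have hmono : 𝓝[>] (0 : ℝ) ≤ 𝓝[≠] (0 : ℝ) := nhdsWithin_mono _ fun s hs => ne_of_gt hs
  have hF' := (hasDerivAt_iff_tendsto_slope.1 hF).mono_left hmono
  have hG' := (hasDerivAt_iff_tendsto_slope.1 hGd).mono_left hmono
  have hle : ∀ᶠ s in 𝓝[>] (0 : ℝ), |slope (fun s : ℝ => f (y + s • w)) 0 s| ≤
      slope (fun s : ℝ => ∫ r in (0 : ℝ)..s, nrm h (y + r • w) w) 0 s := by
    filter_upwards [self_mem_nhdsWithin] with s hs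
    have hs0 : (0 : ℝ) < s := hs
    rw [slope_def_field, slope_def_field, intervalIntegral.integral_same, sub_zero, sub_zero,
      zero_smul, add_zero, abs_div, abs_of_pos hs0]
    refine div_le_div_of_nonneg_right ?_ hs0.le
    refine le_trans ?_ (gd_le hG h y w hs0.le)
    have e1 : ∀ z, f z = Real.sqrt (gd h x z ^ 2 + δ ^ 2) := fun z => by
      rw [hf]
      show Real.sqrt _ = _
      rw [eq_gd hlg]
    rw [e1, e1]
    have t1 := hpm.tri x y (y + s • w)
    have t2 := hpm.tri x (y + s • w) y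
    rw [hpm.symm (y + s • w) y] at t2
    have t3 : |gd h x (y + s • w) - gd h x y| ≤ gd h y (y + s • w) :=
      abs_le.2 ⟨by linarith, by linarith⟩
    have l1 := lip (gd h x (y + s • w)) (gd h x y) δ
    have l2 := lip (gd h x y) (gd h x (y + s • w)) δ
    rw [abs_sub_comm] at l2
    exact abs_le.2 ⟨by linarith, by linarith⟩
  have hfin : |fderiv ℝ f y w| ≤ nrm h y w := le_of_tendsto_of_tendsto hF'.abs hG' hle
  have h5 : nrm h y w ^ 2 = h.val y w w := Real.sq_sqrt (h.nonneg _ _)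
  rw [← h5, ← sq_abs (fderiv ℝ f y w)]
  exact pow_le_pow_left₀ (abs_nonneg _) hfin 2

end Pool.Agent.AV
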