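import Pool.Agent.Work.MP_13b5d9_gt.AV.Stmts

set_option autoImplicit false

/-!
# MP_13b5d9_gt, block AV, item Fv: the first variation of the energy with a quadratic error
-/

open MeasureTheory Set Filter Topology
open scoped ContDiff ENNReal
open Pool.Agent.Work.MP_c9f990_an.Al (IsFlow)

namespace Pool.Agent.AV

open Pool.Agent.MLS Pool.Agent.STR Pool.Agent.LQR Pool.Agent.LQT

namespace IFv

variable {n : ℕ}

theorem d1 {g : Form n} {c : ℝ → E n} (hc : IsGeo g c) (t : ℝ) : HasDerivAt c (deriv c t) t :=
  ((hc.smooth.differentiable (by norm_num)) t).hasDerivAt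

theorem cdd {c : ℝ → E n} (hc : ContDiff ℝ 2 c) : ContDiff ℝ 1 (deriv c) := by
  have h : ContDiff ℝ (1 + 1) c := by
    norm_num
    exact hc
  exact (contDiff_succ_iff_deriv.1 h).2.2

theorem d2 {g : Form n} {c : ℝ → E n} (hc : IsGeo g c) (t : ℝ) :
    HasDerivAt (deriv c) (deriv (deriv c) t) t :=
  (((cdd hc.smooth).differentiable (by norm_num)) t).hasDerivAt

/-- the momentum as a functional -/
theorem dA {g : Form n} {c : ℝ → E n} (hc : IsGeo g c) (t : ℝ) :
    HasDerivAt (fun s => g.val (c s) (deriv c s))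
      (fderiv ℝ g.val (c t) (deriv c t) (deriv c t) + g.val (c t) (deriv (deriv c) t)) t := by
  have h1 : HasDerivAt (fun s => g.val (c s)) (fderiv ℝ g.val (c t) (deriv c t)) t :=
    ((g.smooth.differentiable (by norm_num)) (c t)).hasFDerivAt.comp_hasDerivAt t (d1 hc t)
  exact h1.clm_apply (d2 hc t)

/-- the Euler-Lagrange equation for this functional -/
theorem dAw {g : Form n} {c : ℝ → E n} (hc : IsGeo g c) (t : ℝ) (w : E n) :
    fderiv ℝ g.val (c t) (deriv c t) (deriv c t) w + g.val (c t) (deriv (deriv c) t) w =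
      1 / 2 * fderiv ℝ g.val (c t) w (deriv c t) (deriv c t) := by
  have h1 : HasDerivAt (fun s => g.val (c s) (deriv c s) w)
      ((fderiv ℝ g.val (c t) (deriv c t) (deriv c t) + g.val (c t) (deriv (deriv c) t)) w) t := by
    have := (dA hc t).clm_apply (hasDerivAt_const t w)
    simpa using this
  have h2 := h1.unique (hc.el t w)
  simpa using h2

/-- the derivative of the pairing of the momentum with a moving vector -/
theorem dG {g : Form n} {c : ℝ → E n} (hc : IsGeo g c) {a : ℝ → E n} (ha : ContDiff ℝ 1 a) (t : ℝ) :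
    HasDerivAt (fun s => g.val (c s) (deriv c s) (a s))
      (1 / 2 * fderiv ℝ g.val (c t) (a t) (deriv c t) (deriv c t) +
        g.val (c t) (deriv c t) (deriv a t)) t := by
  have h1 : HasDerivAt a (deriv a t) t := ((ha.differentiable (by norm_num)) t).hasDerivAt
  have h2 := (dA hc t).clm_apply h1
  rw [← dAw hc t (a t)]
  exact h2

theorem cont_en (g : Form n) {c : ℝ → E n} (hc : ContDiff ℝ 1 c) :
    Continuous (fun t => g.val (c t) (deriv c t) (deriv c t)) := by
  have h1 : Continuous (fun t => g.val (c t)) := g.smooth.continuous.comp hc.continuous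
  have h2 : Continuous (deriv c) := hc.continuous_deriv (by norm_num)
  exact (h1.clm_apply h2).clm_apply h2

set_option maxSynthPendingDepth 3 in
theorem cont_dG (g : Form n) {c a : ℝ → E n} (hc : ContDiff ℝ 1 c) (ha : ContDiff ℝ 1 a) :
    Continuous (fun t => 1 / 2 * fderiv ℝ g.val (c t) (a t) (deriv c t) (deriv c t) +
        g.val (c t) (deriv c t) (deriv a t)) := by
  have h0 : Continuous (fun t => fderiv ℝ g.val (c t)) :=
    (g.smooth.continuous_fderiv (by norm_num)).comp hc.continuous
  have h1 : Continuous (fun t => g.val (c t)) := g.smooth.continuous.comp hc.continuous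
  have h2 : Continuous (deriv c) := hc.continuous_deriv (by norm_num)
  have h3 : Continuous (deriv a) := ha.continuous_deriv (by norm_num)
  have h4 : Continuous (fun t => fderiv ℝ g.val (c t) (a t) (deriv c t) (deriv c t)) :=
    ((h0.clm_apply ha.continuous).clm_apply h2).clm_apply h2
  exact (continuous_const.mul h4).add ((h1.clm_apply h2).clm_apply h3)

end IFv

open IFv in
theorem pr_Fv (h : StTy) : StFv := by
  intro n g K hK
  obtain ⟨C, hC, hTy⟩ := h n g K hK
  refine ⟨2 * C, by positivity, ?_⟩
  intro y hy S T hST hT hmem a κ ha hκ hbd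
  have hy1 : ContDiff ℝ 1 y := hy.smooth.of_le (by norm_num)
  have hya : ContDiff ℝ 1 (fun s => y s + a s) := hy1.add ha
  have hder : ∀ t, deriv (fun s => y s + a s) t = deriv y t + deriv a t := by
    intro t
    exact deriv_fun_add ((hy1.differentiable (by norm_num)) t) ((ha.differentiable (by norm_num)) t)
  have hcL := cont_en g hya
  have hcE := cont_en g hy1
  have hcG := cont_dG g hy1 ha
  have hpt : ∀ t ∈ Icc S T, 1 / 2 * g.val (y t + a t) (deriv (fun s => y s + a s) t)
      (deriv (fun s => y s + a s) t) ≤ 1 / 2 * g.val (y t) (deriv y t) (deriv y t) +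
      (1 / 2 * fderiv ℝ g.val (y t) (a t) (deriv y t) (deriv y t) +
        g.val (y t) (deriv y t) (deriv a t)) + 2 * C * κ ^ 2 := by
    intro t ht
    obtain ⟨hb1, hb2⟩ := hbd t ht
    have h1 := hTy (y t) (deriv y t) (hmem t ht) (a t) (deriv a t) (hb1.trans hκ) (hb2.trans hκ)
    rw [hder t]
    have h2 : ‖a t‖ ^ 2 ≤ κ ^ 2 := pow_le_pow_left₀ (norm_nonneg _) hb1 2
    have h3 : ‖deriv a t‖ ^ 2 ≤ κ ^ 2 := pow_le_pow_left₀ (norm_nonneg _) hb2 2
    have h4 : C * (‖a t‖ ^ 2 + ‖deriv a t‖ ^ 2) ≤ C * (κ ^ 2 + κ ^ 2) :=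
      mul_le_mul_of_nonneg_left (add_le_add h2 h3) hC
    linarith
  have hint : (∫ t in S..T, 1 / 2 * g.val (y t + a t) (deriv (fun s => y s + a s) t)
      (deriv (fun s => y s + a s) t)) ≤ ∫ t in S..T, (1 / 2 * g.val (y t) (deriv y t) (deriv y t) +
      (1 / 2 * fderiv ℝ g.val (y t) (a t) (deriv y t) (deriv y t) +
        g.val (y t) (deriv y t) (deriv a t)) + 2 * C * κ ^ 2) := by
    refine intervalIntegral.integral_mono_on hST ?_ ?_ hpt
    · exact (continuous_const.mul hcL).intervalIntegrable _ _
    · exact (((continuous_const.mul hcE).add hcG).add continuous_const).intervalIntegrable _ _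
  have hi1 : IntervalIntegrable (fun t => 1 / 2 * g.val (y t) (deriv y t) (deriv y t)) volume S T :=
    (continuous_const.mul hcE).intervalIntegrable _ _
  have hi2 : IntervalIntegrable (fun t => 1 / 2 * fderiv ℝ g.val (y t) (a t) (deriv y t) (deriv y t) +
        g.val (y t) (deriv y t) (deriv a t)) volume S T := hcG.intervalIntegrable _ _
  rw [intervalIntegral.integral_const_mul, intervalIntegral.integral_add (hi1.add hi2)
    (continuous_const.intervalIntegrable _ _), intervalIntegral.integral_add hi1 hi2,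
    intervalIntegral.integral_const_mul, intervalIntegral.integral_const,
    intervalIntegral.integral_eq_sub_of_hasDerivAt (fun t _ => dG hy ha t) hi2] at hint
  have h5 : (T - S) • (2 * C * κ ^ 2) ≤ 2 * C * κ ^ 2 := by
    rw [smul_eq_mul]
    have h6 : 0 ≤ 2 * C * κ ^ 2 := by positivity
    have h7 : T - S ≤ 1 := by linarith
    nlinarith
  linarith

end Pool.Agent.AV
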