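import Pool.Agent.Work.MP_13b5d9_gt.AV.Stmts

set_option autoImplicit false

/-!
# MP_13b5d9_gt, block AV, item Gr: the pull-backs under the canonical flow
-/

open MeasureTheory Set Filter Topology
open scoped ContDiff ENNReal
open Pool.Agent.Work.MP_c9f990_an.Al (IsFlow)

namespace Pool.Agent.AV

open Pool.Agent.MLS Pool.Agent.STR Pool.Agent.LQR Pool.Agent.LQT

namespace IGr

variable {n : ℕ} {G : Type} [Group G] [MulAction G (E n)] {g : Form n} {z : G} {l : ℝ}
  {V : E n → E n} {τ : E n → ℝ} {ψ : ℝ → E n → E n}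

theorem smooth (hA : Axis n G g z l V τ ψ) (r : ℝ) : ContDiff ℝ ∞ (ψ r) :=
  hA.smoothF.comp (contDiff_const.prodMk contDiff_id)

theorem diff (hA : Axis n G g z l V τ ψ) (r : ℝ) : Differentiable ℝ (ψ r) :=
  (smooth hA r).differentiable (by simp)

theorem act_diff (hC : Cocompact n G) (a : G) : Differentiable ℝ (fun x : E n => a • x) :=
  (hC.smooth a).differentiable (by simp)

theorem pull_val (F : E n → E n) (hF : ContDiff ℝ ∞ F) (g : Form n) (x u v : E n) :
    (MLS.pull F hF g).val x u v = g.val (F x) (fderiv ℝ F x u) (fderiv ℝ F x v) := by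
  simp [MLS.pull]

theorem inj (hA : Axis n G g z l V τ ψ) (r : ℝ) (x v : E n) (h : fderiv ℝ (ψ r) x v = 0) :
    v = 0 := by
  have h1 : (fun y => ψ (-r) (ψ r y)) = fun y => y := by
    funext y
    rw [← hA.add, neg_add_cancel, hA.zero]
  have h2 : HasFDerivAt (fun y => ψ (-r) (ψ r y))
      ((fderiv ℝ (ψ (-r)) (ψ r x)).comp (fderiv ℝ (ψ r) x)) x :=
    HasFDerivAt.comp x ((diff hA (-r) (ψ r x)).hasFDerivAt) ((diff hA r x).hasFDerivAt)
  rw [h1] at h2
  have h3 := h2.unique (hasFDerivAt_id x)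
  have h4 := DFunLike.congr_fun h3 v
  simp only [ContinuousLinearMap.comp_apply, ContinuousLinearMap.id_apply, h, map_zero] at h4
  exact h4.symm

theorem comm (hC : Cocompact n G) (hA : Axis n G g z l V τ ψ) (a : G) (r : ℝ) (x u : E n) :
    fderiv ℝ (ψ r) (a • x) (dac a x u) = dac a (ψ r x) (fderiv ℝ (ψ r) x u) := by
  have h1 : (fun y : E n => ψ r (a • y)) = fun y => a • ψ r y := by
    funext y
    exact hA.comm a r y
  have h2 : HasFDerivAt (fun y : E n => ψ r (a • y))
      ((fderiv ℝ (ψ r) (a • x)).comp (dac a x)) x :=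
    HasFDerivAt.comp x ((diff hA r (a • x)).hasFDerivAt) ((act_diff hC a x).hasFDerivAt)
  have h3 : HasFDerivAt (fun y : E n => a • ψ r y)
      ((dac a (ψ r x)).comp (fderiv ℝ (ψ r) x)) x :=
    HasFDerivAt.comp x ((act_diff hC a (ψ r x)).hasFDerivAt) ((diff hA r x).hasFDerivAt)
  rw [h1] at h2
  exact DFunLike.congr_fun (h2.unique h3) u

theorem shift (hC : Cocompact n G) (hA : Axis n G g z l V τ ψ) (r : ℝ) (x u : E n) :
    fderiv ℝ (ψ (r + l)) x u = dac z (ψ r x) (fderiv ℝ (ψ r) x u) := by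
  have h1 : ψ (r + l) = fun y => z • ψ r y := by
    funext y
    rw [add_comm, hA.add, hA.period]
  have h3 : HasFDerivAt (fun y : E n => z • ψ r y)
      ((dac z (ψ r x)).comp (fderiv ℝ (ψ r) x)) x :=
    HasFDerivAt.comp x ((act_diff hC z (ψ r x)).hasFDerivAt) ((diff hA r x).hasFDerivAt)
  rw [h1, h3.fderiv]
  rfl

end IGr

open IGr in
theorem pr_Gr (hFlo : Pool.Agent.PIN.PiFlo) : StGr := by
  intro n G _ _ hC g hR hI z l V τ ψ hA
  have hval : ∀ r x u v, (MLS.pull (ψ r) (smooth hA r) g).val x u v =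
      g.val (ψ r x) (fderiv ℝ (ψ r) x u) (fderiv ℝ (ψ r) x v) :=
    fun r x u v => pull_val _ _ _ _ _ _
  refine ⟨fun r => MLS.pull (ψ r) (smooth hA r) g, hval, ⟨?_, ?_⟩, ?_, ?_⟩
  · have h1 : ContDiff ℝ ∞ (fun p : ℝ × E n => fderiv ℝ (ψ p.1) p.2) :=
      (hFlo n V g.val ψ hA.smoothV g.smooth hA.smoothF hA.ode).1
    have h2 : ContDiff ℝ ∞ (fun p : ℝ × E n => g.val (ψ p.1 p.2)) := g.smooth.comp hA.smoothF
    exact ((ContinuousLinearMap.contDiff _).comp h1).clm_comp (h2.clm_comp h1)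
  · intro r x v hv
    rw [hval]
    exact hR _ _ fun h => hv (inj hA r x v h)
  · intro r a x u v
    rw [hval, hval, comm hC hA, comm hC hA, hA.comm]
    exact hI a _ _ _
  · intro r
    refine Form.ext (funext fun x => ?_)
    refine ContinuousLinearMap.ext fun u => ContinuousLinearMap.ext fun v => ?_
    rw [hval, hval, shift hC hA, shift hC hA, add_comm r l, hA.add, hA.period]
    exact hI z _ _ _

end Pool.Agent.AV
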