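import Pool.Agent.Work.MP_13b5d9_gt.AV.Stmts

set_option autoImplicit false

/-!
# MP_13b5d9_gt, block AV, item Gv: the field `V` and the mean metric
-/

open MeasureTheory Set Filter Topology
open scoped ContDiff ENNReal

namespace Pool.Agent.AV

open Pool.Agent.MLS Pool.Agent.STR Pool.Agent.LQR Pool.Agent.LQT

namespace IGv

theorem smooth_slice {n : ℕ} {ψ : ℝ → E n → E n}
    (h : ContDiff ℝ ∞ (fun p : ℝ × E n => ψ p.1 p.2)) (r : ℝ) : ContDiff ℝ ∞ (ψ r) :=
  h.comp (contDiff_const.prodMk contDiff_id)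

theorem diff_slice {n : ℕ} {ψ : ℝ → E n → E n}
    (h : ContDiff ℝ ∞ (fun p : ℝ × E n => ψ p.1 p.2)) (r : ℝ) (x : E n) :
    DifferentiableAt ℝ (ψ r) x :=
  ((smooth_slice h r).differentiable (by norm_num)) x

/-- chain rule for the flow -/
theorem chain {n : ℕ} {ψ : ℝ → E n → E n}
    (h : ContDiff ℝ ∞ (fun p : ℝ × E n => ψ p.1 p.2))
    (hadd : ∀ s t x, ψ (s + t) x = ψ s (ψ t x)) (s r : ℝ) (x u : E n) :
    fderiv ℝ (ψ (s + r)) x u = fderiv ℝ (ψ s) (ψ r x) (fderiv ℝ (ψ r) x u) := by
  have e : ψ (s + r) = ψ s ∘ ψ r := by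
    funext y
    exact hadd s r y
  rw [e, fderiv_comp x (diff_slice h s _) (diff_slice h r x)]
  rfl

theorem fderiv_zero {n : ℕ} {ψ : ℝ → E n → E n} (h0 : ∀ x, ψ 0 x = x) (x u : E n) :
    fderiv ℝ (ψ 0) x u = u := by
  have e : ψ 0 = id := by
    funext y
    exact h0 y
  rw [e, fderiv_id]
  rfl

theorem left_inv {n : ℕ} {ψ : ℝ → E n → E n}
    (h : ContDiff ℝ ∞ (fun p : ℝ × E n => ψ p.1 p.2)) (h0 : ∀ x, ψ 0 x = x)
    (hadd : ∀ s t x, ψ (s + t) x = ψ s (ψ t x)) (r : ℝ) (x u : E n) :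
    fderiv ℝ (ψ (-r)) (ψ r x) (fderiv ℝ (ψ r) x u) = u := by
  rw [← chain h hadd, neg_add_cancel, fderiv_zero h0]

theorem right_inv {n : ℕ} {ψ : ℝ → E n → E n}
    (h : ContDiff ℝ ∞ (fun p : ℝ × E n => ψ p.1 p.2)) (h0 : ∀ x, ψ 0 x = x)
    (hadd : ∀ s t x, ψ (s + t) x = ψ s (ψ t x)) (r : ℝ) (x w : E n) :
    fderiv ℝ (ψ r) x (fderiv ℝ (ψ (-r)) (ψ r x) w) = w := by
  have e : ψ (-r) (ψ r x) = x := by
    rw [← hadd, neg_add_cancel, h0]
  have h1 := chain h hadd r (-r) (ψ r x) w
  rw [e, add_neg_cancel, fderiv_zero h0] at h1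
  exact h1.symm

end IGv

open IGv in
theorem pr_Gv (hOp : StOp) (hSi : StSi) (hLV : Pool.Agent.PIN.PiLV) : StGv := by
  intro n G _ _ g z l V τ ψ gr gb hg hA hB
  obtain ⟨hV1, hV2, -⟩ := hLV n G g z l V τ ψ hA
  have hl := hA.pos
  have hgr : ∀ r, Riem (gr r) := fun r => hB.fam.riem r
  have first : ∀ r x w, (gr r).val x (V x) w = g.val x (V x) w := by
    intro r x w
    rw [hB.pull, hV1, hV2]
  have hcont : ∀ x, Continuous fun r => iop (gr r) x := by
    intro x
    exact (hSi n gr hB.fam).1.continuous.comp (continuous_id.prodMk continuous_const)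
  have hmean : ∀ x p, iop gb x p = l⁻¹ • ∫ r in (0 : ℝ)..l, iop (gr r) x p := by
    intro x p
    rw [hB.mean x, _root_.smul_apply,
      ContinuousLinearMap.intervalIntegral_apply ((hcont x).intervalIntegrable _ _)]
  refine ⟨first, ?_, ?_⟩
  · intro x w
    have hq : ∀ r, iop (gr r) x (op g x (V x)) = V x := by
      intro r
      obtain ⟨-, o2, o3, -⟩ := hOp n (gr r) (hgr r)
      have e : op (gr r) x (V x) = op g x (V x) := by
        refine ext_inner_right ℝ fun v => ?_
        rw [o2, (hOp n g hg).2.1, first]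
      rw [← e]
      exact o3 x _
    have h1 : iop gb x (op g x (V x)) = V x := by
      rw [hmean]
      simp only [hq]
      rw [intervalIntegral.integral_const, sub_zero, smul_smul, inv_mul_cancel₀ hl.ne', one_smul]
    obtain ⟨-, o2, -, o4, -⟩ := hOp n gb hB.riemb
    have h2 : op gb x (V x) = op g x (V x) := by
      conv_lhs => rw [← h1]
      exact o4 x _
    rw [← o2, h2, (hOp n g hg).2.1]
  · intro r x u v
    obtain ⟨D, hD⟩ : ∃ D, D = fderiv ℝ (ψ r) x := ⟨_, rfl⟩
    have hinj : ∀ a b, D a = D b → a = b := by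
      intro a b hab
      have h1 := left_inv hA.smoothF hA.zero hA.add r x a
      have h2 := left_inv hA.smoothF hA.zero hA.add r x b
      rw [← hD] at h1 h2
      rw [← h1, ← h2, hab]
    have hsur : ∀ w, ∃ a, D a = w := by
      intro w
      refine ⟨fderiv ℝ (ψ (-r)) (ψ r x) w, ?_⟩
      rw [hD]
      exact right_inv hA.smoothF hA.zero hA.add r x w
    have hval : ∀ s a b, (gr (s + r)).val x a b = (gr s).val (ψ r x) (D a) (D b) := by
      intro s a b
      rw [hB.pull, hB.pull, chain hA.smoothF hA.add, chain hA.smoothF hA.add, hA.add, hD]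
    have key : ∀ s p, iop (gr s) (ψ r x) p =
        D (iop (gr (s + r)) x (ContinuousLinearMap.adjoint D p)) := by
      intro s p
      obtain ⟨-, o2, o3, -⟩ := hOp n (gr s) (hgr s)
      obtain ⟨-, o2', -, o4', -⟩ := hOp n (gr (s + r)) (hgr (s + r))
      obtain ⟨a, ha⟩ : ∃ a, a = iop (gr (s + r)) x (ContinuousLinearMap.adjoint D p) := ⟨_, rfl⟩
      have h1 : op (gr (s + r)) x a = ContinuousLinearMap.adjoint D p := by
        rw [ha]
        exact o4' x _
      have h2 : op (gr s) (ψ r x) (D a) = p := by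
        refine ext_inner_right ℝ fun w => ?_
        obtain ⟨b, rfl⟩ := hsur w
        rw [o2, ← hval, ← o2', h1, ContinuousLinearMap.adjoint_inner_left]
      rw [← ha, ← h2]
      exact o3 _ _
    have hper : ∀ p, ∫ s in (0 : ℝ)..l, iop (gr (s + r)) x p = ∫ s in (0 : ℝ)..l, iop (gr s) x p := by
      intro p
      have hp : Function.Periodic (fun s => iop (gr s) x p) l := fun s => by
        show iop (gr (s + l)) x p = iop (gr s) x p
        rw [hB.per]
      have h1 := intervalIntegral.integral_comp_add_right (a := (0 : ℝ)) (b := l)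
        (fun s => iop (gr s) x p) r
      have h2 := hp.intervalIntegral_add_eq r 0
      rw [zero_add] at h1 h2
      rw [add_comm l r] at h1
      exact h1.trans h2
    have hgb : ∀ p, iop gb (ψ r x) p = D (iop gb x (ContinuousLinearMap.adjoint D p)) := by
      intro p
      rw [hmean, hmean, map_smul, ← hper]
      congr 1
      simp only [key]
      have hc : Continuous fun s => iop (gr (s + r)) x (ContinuousLinearMap.adjoint D p) :=
        ((hcont x).comp (continuous_id.add continuous_const)).clm_apply continuous_const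
      exact (ContinuousLinearMap.intervalIntegral_comp_comm D (hc.intervalIntegrable _ _))
    obtain ⟨-, o2, o3, o4, -⟩ := hOp n gb hB.riemb
    rw [← hD, ← o2 (ψ r x) (D u) (D v)]
    obtain ⟨p, hp⟩ : ∃ p, p = op gb (ψ r x) (D u) := ⟨_, rfl⟩
    have h1 : D u = D (iop gb x (ContinuousLinearMap.adjoint D p)) := by
      rw [← hgb p, hp]
      exact (o3 _ _).symm
    have h2 := hinj _ _ h1
    have h3 : op gb x u = ContinuousLinearMap.adjoint D p := by
      rw [h2]
      exact o4 x _
    rw [← hp, ← o2 x u v, h3, ContinuousLinearMap.adjoint_inner_left]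

end Pool.Agent.AV
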