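import Pool.Agent.Work.MP_13b5d9_gt.AV.Stmts

set_option autoImplicit false

/-!
# MP_13b5d9_gt, block AV, item Ha: Hamiltonian form
-/

open MeasureTheory Set Filter Topology
open scoped ContDiff ENNReal
open Pool.Agent.Work.MP_c9f990_an.Al (IsFlow)

namespace Pool.Agent.AV

open Pool.Agent.MLS Pool.Agent.STR Pool.Agent.LQR Pool.Agent.LQT

namespace IHa

theorem sh_sum {n : ℕ} (l : E n →L[ℝ] ℝ) : sh l = ∑ i, l (ee i) • ee i := by
  simp [sh]

/-- the linear functional `w ↦ 1/2 D(w)(v, v)` -/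
noncomputable def fl {n : ℕ} (A : E n →L[ℝ] E n →L[ℝ] E n →L[ℝ] ℝ) (v : E n) : E n →L[ℝ] ℝ :=
  (1 / 2 : ℝ) • ((A.flip v).flip v)

theorem fl_apply {n : ℕ} (A : E n →L[ℝ] E n →L[ℝ] E n →L[ℝ] ℝ) (v w : E n) :
    fl A v w = 1 / 2 * A w v v := by
  simp [fl]

end IHa

open IHa in
/-- [Ha] Hamiltonian form. -/
theorem pr_Ha (hOp : StOp) (hHd : StHd) : StHa := by
  intro n gr hF X ε hε hX hder
  have hε0 : ε ≠ 0 := hε.ne'
  have hvel : ∀ t, vel (gr t) (X t, ε⁻¹ • op (gr t) (X t) (deriv X t)) = ε⁻¹ • deriv X t := by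
    intro t
    obtain ⟨_, _, h3, _⟩ := hOp n (gr t) (hF.riem t)
    show iop (gr t) (X t) (ε⁻¹ • op (gr t) (X t) (deriv X t)) = _
    rw [map_smul, h3]
  constructor
  · intro t
    obtain ⟨h1, _, _, _⟩ := hOp n (gr t) (hF.riem t)
    have hX1 : HasDerivAt X (deriv X t) t :=
      ((hX.differentiable (by norm_num)) t).hasDerivAt
    obtain ⟨g1, g2⟩ := hHd n (gr t) (hF.riem t) (X t, ε⁻¹ • op (gr t) (X t) (deriv X t))
    rw [hvel t] at g1 g2
    -- the derivative of the momentum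
    have hP : HasDerivAt (fun s => ε⁻¹ • op (gr s) (X s) (deriv X s))
        (ε⁻¹ • sh (fl (fderiv ℝ (gr t).val (X t)) (deriv X t))) t := by
      refine HasDerivAt.const_smul ε⁻¹ ?_
      have e1 : (fun s => op (gr s) (X s) (deriv X s)) =
          fun s => ∑ i, (gr s).val (X s) (deriv X s) (ee i) • ee i := by
        funext s
        show sh ((gr s).val (X s) (deriv X s)) = _
        rw [sh_sum]
      rw [e1, sh_sum]
      refine HasDerivAt.fun_sum (fun i _ => ?_)
      rw [fl_apply]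
      exact (hder t (ee i)).smul_const (ee i)
    have hq : ε⁻¹ • sh (fl (fderiv ℝ (gr t).val (X t)) (deriv X t)) =
        ε • (XH (Hm (gr t)) (X t, ε⁻¹ • op (gr t) (X t) (deriv X t))).2 := by
      refine ext_inner_right ℝ (fun w => ?_)
      rw [real_inner_smul_left, real_inner_smul_left, h1, fl_apply, g2 w]
      simp only [map_smul, smul_apply, smul_eq_mul]
      field_simp
    have hfst : ε • (XH (Hm (gr t)) (X t, ε⁻¹ • op (gr t) (X t) (deriv X t))).1 = deriv X t := by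
      rw [g1, smul_smul, mul_inv_cancel₀ hε0, one_smul]
    have hfin := hX1.prodMk hP
    rw [hq, ← hfst] at hfin
    have e2 : (ε • XH (Hm (gr t)) (X t, ε⁻¹ • op (gr t) (X t) (deriv X t)) : W n) =
        (ε • (XH (Hm (gr t)) (X t, ε⁻¹ • op (gr t) (X t) (deriv X t))).1,
          ε • (XH (Hm (gr t)) (X t, ε⁻¹ • op (gr t) (X t) (deriv X t))).2) := rfl
    rw [e2, hfst]
    rw [hfst] at hfin
    exact hfin
  · intro t
    obtain ⟨_, _, _, _, _, _, _, _, h9⟩ := hOp n (gr t) (hF.riem t)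
    rw [h9, hvel t]
    simp only [map_smul, smul_apply, smul_eq_mul]
    field_simp

end Pool.Agent.AV
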