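import Pool.Agent.Work.MP_13b5d9_gt.AV.Defs

set_option autoImplicit false

/-!
# MP_13b5d9_gt, block AV: statements of the items, each with its complete proof

THEOREM.  For every metric `g` without conjugate points of a closed manifold with a central element
`z ≠ 1` the harmonic mean `gb` of the metrics `(ψ r)^* g` (`ψ` = the flow of the canonical field of
`z`, period `l`) has no conjugate points, splits along `z`, and `Vol gb ≤ Vol g` with equality iff `g`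
splits along `z`.

IDEA.  A `g`-geodesic `c` with momentum `dτ + ε P` looks, in the frame rotating with `ψ`
(`X t = ψ (-t) (c t)`), like a slow motion with the Hamiltonian of the metric `gr t` (items Fr, Ha);
averaging (Bk, Od) gives the geodesic of `gb` (Lm).  The energy of `ψ t (X t)` on `[0, 1/ε]` is a
boundary term plus the energy of `X` for the metrics `gr t` (En); competitors `Y` for `gb` give
competitors for `g` with the same leading term (Cp); `g`-geodesics minimise (Mi), so `gb`-geodesics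
do (EM) and have no conjugate points (In, Nj).

Statements `StX` of MP_25cd3b_gt/M/Stmts, `NcX` of MP_25cd3b_gt/NC/Stmts, `PiX` of PI/Stmts, `TX` of
LQ/TStmts, `StAx`, `StAct` etc. of ST/Stmts may be used as hypotheses `(h : StX)`, or import the file
with their proof.  Notation: `X = XH (Hm g)`, `Dψ_r(x) = fderiv ℝ (ψ r) x`, `v = vel g z`.
-/

open MeasureTheory Set Filter Topology
open scoped ContDiff ENNReal
open Pool.Agent.Work.MP_c9f990_an.Al (IsFlow)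

namespace Pool.Agent.AV

open Pool.Agent.MLS Pool.Agent.STR Pool.Agent.LQR Pool.Agent.LQT

/-! ### A. the mean metric -/

/-- [Gr] EASY-MEDIUM (uses PiFlo).  The pull-backs.  `gr r = MLS.pull (ψ r) _ g` (`ψ r` is smooth: it
is `Ψ (r, .)`, `Ψ` jointly smooth).  Jointly smooth: `(r, x) ↦ Dψ_r(x)` is smooth (`PiFlo` with
`b = g.val`) and `g.val (ψ r x)` is; compose as in `MLS.pull`.  Riemannian: `ψ (-r) (ψ r x) = x`
(`add`, `zero`), so `Dψ_r(x)` is injective.  Invariant: `ψ r (a y) = a (ψ r y)` (`comm`), so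
`Dψ_r(a x) (dac a x u) = dac a (ψ r x) (Dψ_r(x) u)`, and `Inv G g`.  Periodic: `ψ (r + l) y =
ψ l (ψ r y) = z • ψ r y` (`add` after `add_comm`, `period`), so `Dψ_(r+l)(x) = dac z (ψ r x) ∘ Dψ_r(x)`
and `Inv G g`; `Form.ext`. -/
def StGr : Prop := ∀ (n : ℕ) (G : Type) [Group G] [MulAction G (E n)], Cocompact n G →
  ∀ g : Form n, Riem g → Inv G g → ∀ (z : G) (l : ℝ) (V : E n → E n) (τ : E n → ℝ)
  (ψ : ℝ → E n → E n), Axis n G g z l V τ ψ → ∃ gr : ℝ → Form n,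
  (∀ r x u v, (gr r).val x u v =
    g.val (ψ r x) (fderiv ℝ (ψ r) x u) (fderiv ℝ (ψ r) x v)) ∧
  Fam n gr ∧ (∀ r, Inv G (gr r)) ∧ ∀ r, gr (r + l) = gr r

/-- [Si] EASY.  Joint smoothness.  `op (F s) x = sh ∘ (F s).val x` is jointly smooth with values in
the units of the ring `E n →L[ℝ] E n` (`StOp`), `iop` is its `Ring.inverse`
(`contDiffAt_ringInverse`); `Hm (F s) (x, p) = 1/2 inner p (iop (F s) x p)`; `XH H z` is a linear
expression in `fderiv H z`, and `fderiv (Hm (F s)) z w = fderiv (joint function) (s, z) (0, w)`.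
(Compare LQ/I_RFl.lean, where this is proved.) -/
def StSi : Prop := ∀ (n : ℕ) (F : ℝ → Form n), Fam n F →
  ContDiff ℝ ∞ (fun p : ℝ × E n => iop (F p.1) p.2) ∧
  ContDiff ℝ ∞ (fun p : ℝ × W n => Hm (F p.1) p.2) ∧
  ContDiff ℝ ∞ (fun p : ℝ × W n => XH (Hm (F p.1)) p.2)

/-- [Ig] MEDIUM (uses StSi, StOp).  Existence of the mean metric.  `K x = l⁻¹ • ∫ 0..l, iop (gr r) x`
is smooth in `x` (`RT.smooth_int` or the lemmas of LQ/I_RT.lean, LQ/Q_Pin.lean: parametric integrals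
of jointly smooth functions over a compact interval), symmetric, and `inner (K x p) p > 0` for
`p ≠ 0` (positive continuous integrand: `inner (iop p) p = g (iop p, iop p)`), so `K x` is injective and
a unit.  `gb.val x u w = inner (Ring.inverse (K x) u) w` (smooth by `contDiffAt_ringInverse`; as a
continuous linear map of `u` use `innerSL ℝ` or the sum over the basis), symmetric and positive:
with `u = K x p` it is `inner p (K x p')`.  Then `op gb x = Ring.inverse (K x)` and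
`iop gb x = K x`.  Invariance: for every invariant metric `h` and `D = dac a x`:
`op h x = Dᵀ op h (a x) D`, so `iop h (a x) = D (iop h x) Dᵀ` (`Dᵀ` = adjoint, `D` invertible with
inverse `dac a⁻¹ (a x)`); this passes to the mean, `K (a x) = D (K x) Dᵀ`, and back. -/
def StIg : Prop := ∀ (n : ℕ) (G : Type) [Group G] [MulAction G (E n)], Cocompact n G →
  ∀ (l : ℝ) (gr : ℝ → Form n), 0 < l → Fam n gr → (∀ r, Inv G (gr r)) →
  ∃ gb : Form n, Riem gb ∧ Inv G gb ∧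
    ∀ x, iop gb x = l⁻¹ • ∫ r in (0 : ℝ)..l, iop (gr r) x

/-- [Gv] EASY-MEDIUM (uses PiLV, StOp, StSi).  First part: `Dψ_r(x) (V x) = V (ψ r x)` and
`g (V (ψ_r x), Dψ_r w) = g (V x, w)` (`PiLV`).  Second part: the first one says
`op (gr r) x (V x) = q` with `q = op g x (V x)` for all `r`, so `iop (gr r) x q = V x`, so
`iop gb x q = V x` (apply the integral to `q`: `ContinuousLinearMap.intervalIntegral_apply` or
evaluation commutes with the integral), so `op gb x (V x) = q`.  Third part: let `D = Dψ_r(x)`,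
invertible.  `(gr s) (ψ_r x) (D u, D v) = (gr (s + r)) x (u, v)` (`ψ (s + r) = ψ s ∘ ψ r`), so
`op (gr (s + r)) x = Dᵀ op (gr s) (ψ_r x) D` and `iop (gr s) (ψ_r x) = D (iop (gr (s + r)) x) Dᵀ`;
integrate over `s` in `[0, l]`; `∫ s in 0..l, iop (gr (s + r)) x = ∫ 0..l, iop (gr s) x` because of
`per` (`Function.Periodic.intervalIntegral_add_eq`); so `iop gb (ψ_r x) = D (iop gb x) Dᵀ` and
`op gb x = Dᵀ op gb (ψ_r x) D`. -/
def StGv : Prop := ∀ (n : ℕ) (G : Type) [Group G] [MulAction G (E n)] (g : Form n) (z : G) (l : ℝ)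
  (V : E n → E n) (τ : E n → ℝ) (ψ : ℝ → E n → E n) (gr : ℝ → Form n) (gb : Form n), Riem g →
  Axis n G g z l V τ ψ → Avg n G g l ψ gr gb →
  (∀ r x w, (gr r).val x (V x) w = g.val x (V x) w) ∧
  (∀ x w, gb.val x (V x) w = g.val x (V x) w) ∧
  ∀ r x u v, gb.val (ψ r x) (fderiv ℝ (ψ r) x u) (fderiv ℝ (ψ r) x v) = gb.val x u v

/-- [Pa] EASY-MEDIUM (uses StGv, NcGa, NcGeo, PiFlo, PiLie; compare LQ/I_TVp.lean).  Write `h = gb`.
(i) `h (V x, w) = g (V x, w) = Dτ(x) w`; differentiate in the direction `u`: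
`Dh(u)(V, w) + h (DV u, w) = D²τ(u, w)`, symmetric in `u`, `w`.  (ii) differentiate the third part of
`StGv` at `r = 0` (`PiFlo`, `PiLie`): `Dh(V)(u, w) + h (DV u, w) + h (u, DV w) = 0`.  By `NcGa`
`2 h (DV u + Γ(u, V), w) = 2 h (DV u, w) + Dh(u)(V, w) + Dh(V)(u, w) - Dh(w)(u, V) =
h (DV u, w) + (Dh(w)(V, u) + h (DV w, u) - h (DV u, w)) ... = 0` (insert (i), (ii)).  All fields of
`Axis` for `h` are clear except `geo`: `c t = ψ t x` is smooth, `c' = V (c)`,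
`c'' = DV (V) = - Γ(V, V)`, and `NcGeo`. -/
def StPa : Prop := ∀ (n : ℕ) (G : Type) [Group G] [MulAction G (E n)] (g : Form n) (z : G) (l : ℝ)
  (V : E n → E n) (τ : E n → ℝ) (ψ : ℝ → E n → E n) (gr : ℝ → Form n) (gb : Form n), Riem g →
  Axis n G g z l V τ ψ → Avg n G g l ψ gr gb →
  Axis n G gb z l V τ ψ ∧ ∀ x u, fderiv ℝ V x u + Ga gb x u (V x) = 0

/-! ### B. averaging -/

/-- [Bk] EASY-MEDIUM.  Means over many periods.  WLOG `M ≥ 0` (replace it by `max M 0`).  `A` is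
bounded by `S` on `ℝ x K` and uniformly continuous on `[0, l] x K`: there is `η > 0` such that
`z, z' ∈ K`, `‖z - z'‖ ≤ η` imply `‖A r z - A r z'‖ ≤ δ/2` for all `r ∈ [0, l]`, hence (periodicity) for
all `r`.  Let `ε₀` be so small that `M ε l ≤ η` and `ε l S ≤ δ/2`.  Cut `[0, t]` into the blocks
`[k l, (k+1) l]`, `k < N = ⌊t/l⌋`, and a rest of length `< l`.  On a block
`∫ A r (y r) = ∫ (A r (y r) - A r (y (k l)))` because `∫ A r z` over a block is `0` (periodic), so its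
norm is at most `l δ/2`.  Sum: `N l δ/2 + l S ≤ (1/ε) δ/2 + l S`; multiply by `ε`. -/
def StBk : Prop := ∀ (Z Q : Type) [NormedAddCommGroup Z] [NormedSpace ℝ Z]
  [NormedAddCommGroup Q] [NormedSpace ℝ Q] [CompleteSpace Q] (l : ℝ) (A : ℝ → Z → Q) (K : Set Z)
  (M : ℝ), 0 < l → Continuous (fun p : ℝ × Z => A p.1 p.2) → (∀ r z, A (r + l) z = A r z) →
  (∀ z, ∫ r in (0 : ℝ)..l, A r z = 0) → IsCompact K → ∀ δ : ℝ, 0 < δ → ∃ ε₀ : ℝ, 0 < ε₀ ∧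
  ∀ ε : ℝ, 0 < ε → ε < ε₀ → ∀ (y : ℝ → Z) (T : ℝ), T ≤ 1 / ε → (∀ t ∈ Icc 0 T, y t ∈ K) →
  (∀ s ∈ Icc 0 T, ∀ t ∈ Icc 0 T, ‖y s - y t‖ ≤ M * ε * |s - t|) →
  ∀ t ∈ Icc 0 T, ‖ε • ∫ r in (0 : ℝ)..t, A r (y r)‖ ≤ δ

/-- [Od] MEDIUM (uses StBk).  The averaging theorem.  WLOG `δ ≤ 1/2`.  Let `R > 0` be such that
`‖zb s‖ ≤ R - 1` for `s ∈ [0, 1]`, `K` = closed ball of radius `R`, `M` a bound of `F` on `ℝ x K`
(periodicity), `Λ ≥ 0` a Lipschitz constant of `Fb` on the closed ball of radius `R + 1` (convex and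
compact, `Fb` is `C^1`), `δ₁ = δ e^(-Λ)`.  Take `ε₀` from `StBk` for `A = F - Fb`, `K`, `M`, `δ₁`
(the mean of `A` is `0`).  Let `y` be a solution and `T ≤ 1/ε` with `y t ∈ K` for `t ∈ [0, T]`.  Then
`‖y s - y t‖ ≤ M ε |s - t|`, and with `u t = ε • ∫ 0..t, (F r (y r) - Fb (y r))` we have `‖u‖ ≤ δ₁` on
`[0, T]`; `w = y - u` has the derivative `ε • Fb (y t)`, and `‖ε Fb (y t) - ε Fb (w t)‖ ≤ ε Λ δ₁`.  Since
`s ↦ zb (ε s)` has derivative `ε • Fb (zb (ε s))` and the same value at `0`, Gronwall's inequality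
(`dist_le_of_approx_trajectories_ODE_of_mem`, constant `ε Λ`, on the ball of radius `R + 1`) gives
`‖w t - zb (ε t)‖ ≤ δ₁ (e^(ε Λ t) - 1)`, so `‖y t - zb (ε t)‖ ≤ δ₁ e^Λ = δ ≤ 1/2` and
`‖y t‖ ≤ R - 1/2` for `t ∈ [0, T]`.  So the set of the `T ∈ [0, 1/ε]` with `y [0, T] ⊆ K` is closed,
contains `0`, and is open in `[0, 1/ε]`: it is everything (or take its supremum). -/
def StOd : Prop := ∀ (Q : Type) [NormedAddCommGroup Q] [NormedSpace ℝ Q] [FiniteDimensional ℝ Q]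
  (l : ℝ) (F : ℝ → Q → Q) (Fb : Q → Q) (zb : ℝ → Q), 0 < l →
  Continuous (fun p : ℝ × Q => F p.1 p.2) → ContDiff ℝ 1 Fb → (∀ r z, F (r + l) z = F r z) →
  (∀ z, Fb z = l⁻¹ • ∫ r in (0 : ℝ)..l, F r z) → (∀ t, HasDerivAt zb (Fb (zb t)) t) →
  ∀ δ : ℝ, 0 < δ → ∃ ε₀ : ℝ, 0 < ε₀ ∧ ∀ ε : ℝ, 0 < ε → ε < ε₀ → ∀ y : ℝ → Q,
  (∀ t, HasDerivAt y (ε • F t (y t)) t) → y 0 = zb 0 →
  ∀ t ∈ Icc 0 (1 / ε), ‖y t - zb (ε * t)‖ ≤ δ

/-- [Mn] EASY-MEDIUM (uses StSi, StOp).  Means of the Hamiltonians.  `Hm h (x, p) =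
1/2 inner p (iop h x p)` is linear in `iop h x`: this gives the third part.  Fourth part:
`XH H z` is a linear expression in `fderiv H z`, and the derivative of `z ↦ ∫ 0..l, Hm (gr r) z` is
`∫ 0..l, fderiv (Hm (gr r)) z` (jointly smooth integrand, compact interval: `fderiv_int` of
LQ/I_RT.lean or `mean_deriv` of LQ/Q_Pin.lean). -/
def StMn : Prop := ∀ (n : ℕ) (l : ℝ) (gr : ℝ → Form n) (gb : Form n), 0 < l → Fam n gr →
  Riem gb → (∀ x, iop gb x = l⁻¹ • ∫ r in (0 : ℝ)..l, iop (gr r) x) →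
  Continuous (fun p : ℝ × W n => Hm (gr p.1) p.2) ∧
  Continuous (fun p : ℝ × W n => XH (Hm (gr p.1)) p.2) ∧
  (∀ z, Hm gb z = l⁻¹ * ∫ r in (0 : ℝ)..l, Hm (gr r) z) ∧
  ∀ z, XH (Hm gb) z = l⁻¹ • ∫ r in (0 : ℝ)..l, XH (Hm (gr r)) z

/-! ### C. geodesics in the rotating frame -/

/-- [Fi] EASY-MEDIUM (uses PiFlo, PiLV).  Identities.  `Ψ (r, x) = ψ r x` is jointly smooth.
(1), (2) `PiLV` and `grad`.  (3) differentiate (2) (`(gr r).val` and `V` are smooth, `w` fixed) in the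
direction `u`.  (4) differentiate (1) in `x` in the direction `u`.  (5) the time derivative:
`∂_r (Dψ_r(x) u) = DV(ψ_r x) (Dψ_r(x) u)` (see `PiFlo` and its proof PI/I_Flo.lean).
(6) differentiate the defining formula of `gr r` (`a`, `b` fixed) in the direction `u`; the second
derivative of `ψ r` is `fderiv ℝ (fderiv ℝ (ψ r)) x u a`. -/
def StFi : Prop := ∀ (n : ℕ) (G : Type) [Group G] [MulAction G (E n)] (g : Form n) (z : G) (l : ℝ)
  (V : E n → E n) (τ : E n → ℝ) (ψ : ℝ → E n → E n) (gr : ℝ → Form n),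
  Axis n G g z l V τ ψ → (∀ r x u v, (gr r).val x u v =
    g.val (ψ r x) (fderiv ℝ (ψ r) x u) (fderiv ℝ (ψ r) x v)) →
  (∀ r x, fderiv ℝ (ψ r) x (V x) = V (ψ r x)) ∧
  (∀ r x w, (gr r).val x (V x) w = fderiv ℝ τ x w) ∧
  (∀ r x u w, fderiv ℝ (gr r).val x u (V x) w + (gr r).val x (fderiv ℝ V x u) w =
    fderiv ℝ (fderiv ℝ τ) x u w) ∧
  (∀ r x u, fderiv ℝ (fderiv ℝ (ψ r)) x u (V x) + fderiv ℝ (ψ r) x (fderiv ℝ V x u) =
    fderiv ℝ V (ψ r x) (fderiv ℝ (ψ r) x u)) ∧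
  (∀ r x u, HasDerivAt (fun s => fderiv ℝ (ψ s) x u)
    (fderiv ℝ V (ψ r x) (fderiv ℝ (ψ r) x u)) r) ∧
  ∀ r x u a b, fderiv ℝ (gr r).val x u a b =
    fderiv ℝ g.val (ψ r x) (fderiv ℝ (ψ r) x u) (fderiv ℝ (ψ r) x a) (fderiv ℝ (ψ r) x b) +
    g.val (ψ r x) (fderiv ℝ (fderiv ℝ (ψ r)) x u a) (fderiv ℝ (ψ r) x b) +
    g.val (ψ r x) (fderiv ℝ (ψ r) x a) (fderiv ℝ (fderiv ℝ (ψ r)) x u b)

/-- [Fr] MEDIUM (uses StFi).  The rotating frame.  `X t = ψ (-t) (c t)` is `C^2`, and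
`c t = ψ t (X t)` (`add`, `zero`), so `c' = V (c) + Dψ_t(X) X' = Dψ_t(X) a` with `a = V (X) + X'`
(StFi (1)).  Fix `u` and put `w s = Dψ_s(X s) u`, so `(gr s) (X) (a, u) = g (c) (c', w)`.  Along a
geodesic (`IsGeo.el` and the product rule for the moving vector `w`, see PI/I_A.lean)
`d/dt g (c) (c', w) = 1/2 Dg(w)(c', c') + g (c', w')`, `w' = DV(c) (Dψ_t u) + D²ψ_t(X', u)` (StFi (5) and
the chain rule; `D²ψ_t` is symmetric).  StFi (6) with `a = b`: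
`1/2 Dg(w)(c', c') = 1/2 D(gr t)(u)(a, a) - g (D²ψ_t(u, a), c')`.  Since
`w' - D²ψ_t(u, a) = DV(c) (Dψ_t u) - D²ψ_t(u, V) = Dψ_t (DV(X) u)` (StFi (4)),
`d/dt (gr t)(a, u) = 1/2 D(gr t)(u)(a, a) + (gr t)(a, DV u)`   (everything at `X`).
Insert `a = V + X'`, `(gr t)(a, u) = Dτ(X) u + (gr t)(X', u)` (StFi (2)), `d/dt (Dτ(X t) u) = D²τ(X', u)`.
By StFi (3): `D(gr t)(u)(V, X') = D²τ(u, X') - (gr t)(DV u, X')`, and, since `(gr t)(V, V) = 1`,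
`D(gr t)(u)(V, V) = - 2 (gr t)(DV u, V)`.  So the right side is
`- (gr t)(DV u, V) + D²τ(u, X') - (gr t)(DV u, X') + 1/2 D(gr t)(u)(X', X') + (gr t)(V, DV u) +
(gr t)(X', DV u) = D²τ(u, X') + 1/2 D(gr t)(u)(X', X')`, and `D²τ` is symmetric. -/
def StFr : Prop := ∀ (n : ℕ) (G : Type) [Group G] [MulAction G (E n)] (g : Form n) (z : G) (l : ℝ)
  (V : E n → E n) (τ : E n → ℝ) (ψ : ℝ → E n → E n) (gr : ℝ → Form n),
  Axis n G g z l V τ ψ → Fam n gr → (∀ r x u v, (gr r).val x u v =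
    g.val (ψ r x) (fderiv ℝ (ψ r) x u) (fderiv ℝ (ψ r) x v)) →
  ∀ c : ℝ → E n, IsGeo g c → ∀ X : ℝ → E n, (∀ t, X t = ψ (-t) (c t)) → ContDiff ℝ 2 X ∧
  (∀ t, c t = ψ t (X t)) ∧
  (∀ t, deriv c t = V (c t) + fderiv ℝ (ψ t) (X t) (deriv X t)) ∧
  ∀ t u, HasDerivAt (fun s => (gr s).val (X s) (deriv X s) u)
    (1 / 2 * fderiv ℝ (gr t).val (X t) u (deriv X t) (deriv X t)) t

/-- [Ha] EASY-MEDIUM (uses StOp, StHd).  Hamiltonian form.  Put `P s = ε⁻¹ • op (gr s) (X s) (X' s)`.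
`vel (gr t) (X t, P t) = ε⁻¹ • X' t` (`iop ∘ op = id`), so by `StHd` (for the metric `gr t`) the first
component of `ε • XH (Hm (gr t)) (X, P)` is `X'`, and the second one is the vector `q` with
`inner q u = ε * 1/2 * D(gr t)(u)(ε⁻¹ X', ε⁻¹ X') = ε⁻¹ * (1/2 D(gr t)(u)(X', X'))`; and
`inner (P s) u = ε⁻¹ * (gr s) (X) (X', u)` has this derivative for all `u` (expand in the basis:
`P s = ∑ i, inner (P s) (ee i) • ee i`).  Last part: `Hm h z = 1/2 h (vel, vel)` (`StOp`). -/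
def StHa : Prop := ∀ (n : ℕ) (gr : ℝ → Form n), Fam n gr → ∀ (X : ℝ → E n) (ε : ℝ), 0 < ε →
  ContDiff ℝ 2 X → (∀ t u, HasDerivAt (fun s => (gr s).val (X s) (deriv X s) u)
    (1 / 2 * fderiv ℝ (gr t).val (X t) u (deriv X t) (deriv X t)) t) →
  (∀ t, HasDerivAt (fun s => ((X s, ε⁻¹ • op (gr s) (X s) (deriv X s)) : W n))
    (ε • XH (Hm (gr t)) (X t, ε⁻¹ • op (gr t) (X t) (deriv X t))) t) ∧
  ∀ t, (gr t).val (X t) (deriv X t) (deriv X t) =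
    2 * ε ^ 2 * Hm (gr t) (X t, ε⁻¹ • op (gr t) (X t) (deriv X t))

/-- [En] EASY-MEDIUM (uses PiLV).  Energies.  `t ↦ ψ t (X t)` is `C^1` (joint smoothness of `ψ`) with
derivative `V (ψ t X) + Dψ_t(X) X'` (`ode` and the chain rule for `Ψ (t, x)`; compare `PiVar` and
PI/I_Var.lean).  `g (V, V) = 1`, `g (V (ψ_t X), Dψ_t X') = g (V X, X') = Dτ(X) X'` (`PiLV`, `grad`), and
`g (Dψ_t X', Dψ_t X') = (gr t)(X', X')`: the integrand is `1 + 2 (τ ∘ X)' + (gr t)(X', X')`. -/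
def StEn : Prop := ∀ (n : ℕ) (G : Type) [Group G] [MulAction G (E n)] (g : Form n) (z : G) (l : ℝ)
  (V : E n → E n) (τ : E n → ℝ) (ψ : ℝ → E n → E n) (gr : ℝ → Form n),
  Axis n G g z l V τ ψ → Fam n gr → (∀ r x u v, (gr r).val x u v =
    g.val (ψ r x) (fderiv ℝ (ψ r) x u) (fderiv ℝ (ψ r) x v)) →
  ∀ X : ℝ → E n, ContDiff ℝ 1 X → ContDiff ℝ 1 (fun t => ψ t (X t)) ∧
  ∀ a b : ℝ, ∫ t in a..b, g.val (ψ t (X t)) (deriv (fun t => ψ t (X t)) t)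
      (deriv (fun t => ψ t (X t)) t) =
    (b - a) + 2 * (τ (X b) - τ (X a)) + ∫ t in a..b, (gr t).val (X t) (deriv X t) (deriv X t)

/-- [Lm] MEDIUM (uses StOd, StMn, StFr, StHa, StFlow, StGeo1, StTr0, StOp).  Limits of geodesics.  Let
`z0 = (x0, P)` and, for `ε > 0`, `c t = (φg t (x0, op g x0 (V x0) + ε • P)).1`, `φg` the geodesic flow of
`g` (`StFlow`); a geodesic (`StGeo1`) with `c 0 = x0`, `c' 0 = vel g (..) = V x0 + ε • iop g x0 P`.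
`X t = ψ (-t) (c t)`; `StFr`, `StHa`: `y t = (X t, ε⁻¹ • op (gr t) (X t) (X' t))` satisfies
`y' = ε • XH (Hm (gr t)) (y t)`.  `y 0 = z0`: `X 0 = x0` (`zero`), `c' 0 = V x0 + X' 0`
(`StFr` third part, `Dψ_0 = id`), so `X' 0 = ε • iop g x0 P`, and `gr 0 = g`.  Apply `StOd` in
`Q = W n × ℝ` to `F r (z, e) = (XH (Hm (gr r)) z, Hm (gr r) z)`, `Fb (z, e) = (XH (Hm gb) z, Hm gb z)`
(`StMn`, `StTr0`, `StOp`; `Avg.per`), `zb t = (φ t z0, t * Hm gb z0)` (`Hm gb` is constant along `φ`: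
`StGeo1`) and the curve `t ↦ (y t, ε * ∫ 0..t, Hm (gr r) (y r))`, at the time `1/ε`.  By the last part of
`StHa` `ε⁻¹ * (1/2 * ∫ 0..1/ε, (gr t)(X', X')) = ε * ∫ 0..1/ε, Hm (gr t) (y t)`.  (Norm of `Q`: maximum
norm.) -/
def StLm : Prop := ∀ (n : ℕ) (G : Type) [Group G] [MulAction G (E n)], Cocompact n G →
  ∀ g : Form n, Riem g → Inv G g → ∀ (z : G) (l : ℝ) (V : E n → E n) (τ : E n → ℝ)
  (ψ : ℝ → E n → E n), Axis n G g z l V τ ψ → ∀ (gr : ℝ → Form n) (gb : Form n),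
  Avg n G g l ψ gr gb → ∀ (φ : ℝ → W n → W n) (M : ℝ → W n → W n →L[ℝ] W n),
  IsFlow (XH (Hm gb)) φ M → ∀ (z0 : W n) (δ : ℝ), 0 < δ → ∃ ε₀ : ℝ, 0 < ε₀ ∧
  ∀ ε : ℝ, 0 < ε → ε < ε₀ → ∃ c X : ℝ → E n, IsGeo g c ∧ c 0 = z0.1 ∧ ContDiff ℝ 1 X ∧
    X 0 = z0.1 ∧ (∀ t, c t = ψ t (X t)) ∧ ‖X (1 / ε) - (φ 1 z0).1‖ ≤ δ ∧
    |ε⁻¹ * (1 / 2 * ∫ t in (0 : ℝ)..(1 / ε), (gr t).val (X t) (deriv X t) (deriv X t)) -
      Hm gb z0| ≤ δ

/-! ### D. competitors -/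

/-- [Cp] MEDIUM (uses StBk, StSi, StOp).  Put `π s = op gb (Y s) (Y' s)`,
`k t s = iop (gr t) (Y s) (π s)`: continuous in `(t, s)`, `l`-periodic in `t` with mean
`iop gb (Y s) (π s) = Y' s`.  For given `ε, p, q` let `J = ε • ∫ a/ε..b/ε, k r (ε r) dr`,
`d = (b - a)⁻¹ • (q - p - J)` and `X t = p + ε • ∫ a/ε..t, (k r (ε r) + d) dr`, so `X` is `C^1`,
`X (a/ε) = p`, `X (b/ε) = q`, `X' = ε • (k t (ε t) + d)`.  By `StBk` (with `Z = ℝ`, `y r = ε r`,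
`K = [0, 1]`, `M = 1`, `A r s = k r s - Y' s`) and a difference of two integrals from `0`:
`‖ε • ∫ a/ε..t, k r (ε r) - (Y (ε t) - Y a)‖ ≤ 2 δ'` for `t ≤ 1/ε`, `ε < ε₀(δ')`.  So
`‖d‖ ≤ (2 η + 2 δ')/(b - a)` if `‖p - Y a‖, ‖q - Y b‖ ≤ η`, and
`‖X t - Y (ε t)‖ ≤ η + 2 δ' + (b - a) ‖d‖` for `t ∈ [a/ε, b/ε]`: both are as small as we like.  By
uniform continuity of `(r, x, v) ↦ (gr r).val x v v` on compact sets (`r ∈ [0, l]`, periodicity) the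
integrand satisfies `ε⁻¹ * 1/2 (gr t)(X) (X', X') = ε * 1/2 (gr t)(X)(k + d, k + d) ≤
ε (1/2 (gr t)(Y (ε t))(k, k) + δ/2)`, and `(gr t)(Y)(k, k) = inner (π) k`.  By `StBk` for the function
`A r s = 1/2 inner (π s) (k r s - Y' s)` the integral `ε * ∫ a/ε..b/ε, 1/2 inner (π (ε t)) (k t (ε t))`
differs by at most `δ/2` from `ε * ∫ a/ε..b/ε, 1/2 inner (π (ε t)) (Y' (ε t)) =
1/2 ∫ a..b, gb (Y', Y')` (substitution; `inner (π s) (Y' s) = gb (Y', Y')`). -/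
def StCp : Prop := ∀ (n : ℕ) (l : ℝ) (gr : ℝ → Form n) (gb : Form n), 0 < l → Fam n gr →
  (∀ r, gr (r + l) = gr r) → Riem gb →
  (∀ x, iop gb x = l⁻¹ • ∫ r in (0 : ℝ)..l, iop (gr r) x) → ∀ (Y : ℝ → E n) (a b : ℝ),
  ContDiff ℝ 1 Y → 0 ≤ a → a < b → b ≤ 1 → ∀ δ : ℝ, 0 < δ → ∃ ε₀ : ℝ, 0 < ε₀ ∧
  ∀ ε : ℝ, 0 < ε → ε < ε₀ → ∀ p q : E n, ‖p - Y a‖ ≤ ε₀ → ‖q - Y b‖ ≤ ε₀ →
  ∃ X : ℝ → E n, ContDiff ℝ 1 X ∧ X (a / ε) = p ∧ X (b / ε) = q ∧
    ε⁻¹ * (1 / 2 * ∫ t in (a / ε)..(b / ε), (gr t).val (X t) (deriv X t) (deriv X t)) ≤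
      1 / 2 * (∫ s in a..b, gb.val (Y s) (deriv Y s) (deriv Y s)) + δ

/-- [Mi] EASY-MEDIUM (uses StGd and the rescaling lemmas of MP_25cd3b_gt/M/I_Key.lean, `geo_scale`).
Minimising.  `g (c', c') = ρ²` is constant (`PiA`, second part).  If `ρ = 0` the left side is `0`.
Otherwise `s ↦ c (s/ρ)` is a unit speed geodesic, so `gd g (c 0) (c T) = ρ T` (`Minz`).  By the triangle
inequality and the last part of `StGd` `ρ T ≤ ∫ 0..S nrm (b1') + ∫ S..T nrm (b2')`, and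
`nrm ≤ (ρ + nrm²/ρ)/2`; so `ρ T ≤ ρ T/2 + (1/(2ρ)) (right side)`. -/
def StMi : Prop := ∀ (n : ℕ) (g : Form n), Riem g → Minz g → ∀ c : ℝ → E n, IsGeo g c →
  ∀ (S T : ℝ) (b1 b2 : ℝ → E n), 0 ≤ S → S ≤ T → ContDiff ℝ 1 b1 → ContDiff ℝ 1 b2 →
  b1 0 = c 0 → b1 S = b2 S → b2 T = c T →
  ∫ t in (0 : ℝ)..T, g.val (c t) (deriv c t) (deriv c t) ≤
    (∫ t in (0 : ℝ)..S, g.val (b1 t) (deriv b1 t) (deriv b1 t)) +
      ∫ t in S..T, g.val (b2 t) (deriv b2 t) (deriv b2 t)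

/-- [EM] EASY-MEDIUM (uses StLm, StCp, StMi, StEn).  Let `r`, `Y1`, `Y2` be as in `EMin`, `δ > 0`.  For
small `ε > 0` take `c`, `X` from `StLm` (with a `δ'` smaller than `δ` and the `ε₀` of `StCp`), `X1` from
`StCp` for `Y1` on `[0, r]` with `p = Y1 0`, `q = Y1 r`, and `X2` for `Y2` on `[r, 1]` with `p = Y2 r`,
`q = X (1/ε)`.  `StMi` for `c`, `b1 t = ψ t (X1 t)`, `b2 t = ψ t (X2 t)`, `S = r/ε`, `T = 1/ε` (the end
points agree: `X1 (0/ε) = z0.1`, `ψ 0 = id`), and `StEn` three times: the terms `T` and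
`2 (τ (X T) - τ (X 0))` cancel, and
`∫ (gr t)(X', X') ≤ ∫ (gr t)(X1', X1') + ∫ (gr t)(X2', X2')`.  Multiply by `1/(2ε)`:
`Hm gb z0 - δ ≤ 1/2 ∫ gb (Y1', Y1') + δ + 1/2 ∫ gb (Y2', Y2') + δ`; let `δ → 0`. -/
def StEM : Prop := ∀ (n : ℕ) (G : Type) [Group G] [MulAction G (E n)], Cocompact n G →
  ∀ g : Form n, Riem g → Inv G g → Minz g → ∀ (z : G) (l : ℝ) (V : E n → E n) (τ : E n → ℝ)
  (ψ : ℝ → E n → E n), Axis n G g z l V τ ψ → ∀ (gr : ℝ → Form n) (gb : Form n),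
  Avg n G g l ψ gr gb → ∀ (φ : ℝ → W n → W n) (M : ℝ → W n → W n →L[ℝ] W n),
  IsFlow (XH (Hm gb)) φ M → EMin gb φ

/-! ### E. minimising geodesics have no conjugate points -/

/-- [Ty] EASY-MEDIUM.  Taylor.  `f (y, v) = 1/2 h.val y v v` is smooth on `E n × E n`; its second
derivative is bounded by `C'` on the compact set `{(y + a, v + b)}`, `(y, v) ∈ K`, `‖a‖, ‖b‖ ≤ 1`
(more precisely on the closed ball containing it).  Taylor's formula on the segment from `(y, v)` to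
`(y + a, v + b)` (for instance for the function `t ↦ f (y + t a, v + t b)` of one variable:
`f(1) ≤ f(0) + f'(0) + sup |f''|/2`); `Df(y, v)(a, b) = 1/2 Dh(a)(v, v) + h (v, b)`. -/
def StTy : Prop := ∀ (n : ℕ) (h : Form n) (K : Set (E n × E n)), IsCompact K → ∃ C : ℝ, 0 ≤ C ∧
  ∀ y v : E n, (y, v) ∈ K → ∀ a b : E n, ‖a‖ ≤ 1 → ‖b‖ ≤ 1 →
  1 / 2 * h.val (y + a) (v + b) (v + b) ≤ 1 / 2 * h.val y v v + h.val y v b +
    1 / 2 * fderiv ℝ h.val y a v v + C * (‖a‖ ^ 2 + ‖b‖ ^ 2)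

/-- [Fv] EASY-MEDIUM (uses StTy).  First variation.  Integrate `StTy` (`2 C` instead of `C`): along a
geodesic `t ↦ h (y) (y', a)` has the derivative `1/2 Dh(a)(y', y') + h (y', a')` (`IsGeo.el` and the
product rule for the moving vector `a`, see PI/I_A.lean). -/
def StFv : Prop := ∀ (n : ℕ) (h : Form n) (K : Set (E n × E n)), IsCompact K → ∃ C : ℝ, 0 ≤ C ∧
  ∀ y : ℝ → E n, IsGeo h y → ∀ S T : ℝ, S ≤ T → T ≤ S + 1 →
  (∀ t ∈ Icc S T, (y t, deriv y t) ∈ K) → ∀ (a : ℝ → E n) (κ : ℝ), ContDiff ℝ 1 a → κ ≤ 1 →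
  (∀ t ∈ Icc S T, ‖a t‖ ≤ κ ∧ ‖deriv a t‖ ≤ κ) →
  1 / 2 * (∫ t in S..T, h.val (y t + a t) (deriv (fun s => y s + a s) t)
      (deriv (fun s => y s + a s) t)) ≤
    1 / 2 * (∫ t in S..T, h.val (y t) (deriv y t) (deriv y t)) +
      (h.val (y T) (deriv y T) (a T) - h.val (y S) (deriv y S) (a S)) + C * κ ^ 2

/-- [In] MEDIUM (uses StFv, StAct, NcExp, StGeo1, StOp).  Let `z0 = (p, op h p v)`,
`δ = (0, op h p w)`, `z_s = z0 + s δ`, `x_s = (φ 1 z_s).1`, `P_s = (φ 1 z_s).2`, `Δ_s = x_s - x_0`,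
`j_s = (M 1 z_s δ).1`, `κ = (M 1 z0 δ).2`.  By hypothesis and `NcExp` `j_0 = 0`; `j` is continuous
(`IsFlow.Mcont`), `x_s' = j_s`, so `Δ_s = o(s)`.  Let `u` be a vector, `0 < θ ≤ 1`, `0 < s` small,
`η = s θ`.
`y1 t = (φ (2t) z_s).1` and `y2 t = (φ (2t) z0).1` are geodesics with `y1' = 2 vel (φ (2t) z_s)`,
`h (y1', .) = 2 inner (φ (2t) z_s).2 .`, `1/2 ∫ 0..1/2, h (y1', y1') = 2 Hm z_s`,
`1/2 ∫ 1/2..1, h (y2', y2') = 2 Hm z0`.  Let `Y1 t = y1 t + (4 η t (1 - t)) • u`,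
`Y2 t = y2 t + (2 - 2t) • Δ_s + (4 η t (1 - t)) • u`: `Y1 0 = p`, `Y1 (1/2) = x_s + η u = Y2 (1/2)`,
`Y2 1 = (φ 2 z0).1 = expo (2v) = (φ 1 (p, 2 • op h p v)).1` (`NcExp`), and `Hm (p, 2 • op h p v) =
4 Hm z0`.  `EMin` (with `r = 1/2`) and `StFv` (on `[0, 1/2]` and `[1/2, 1]`; the pairs `(y, y')` lie in a
fixed compact set for `0 ≤ s ≤ 1`; bounds of the variations: `4 η ‖u‖` and `2 ‖Δ_s‖ + 4 η ‖u‖`):
`4 Hm z0 ≤ 2 Hm z_s + 2 η inner P_s u + 2 Hm z0 - 2 inner P_0 (Δ_s + η u) + C' (η² ‖u‖² + ‖Δ_s‖²)`, so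
`0 ≤ 2 (Γ s - Γ 0) + 2 s θ inner (P_s - P_0) u + C' (s² θ² ‖u‖² + ‖Δ_s‖²)`,
`Γ s = Hm z_s - inner P_0 x_s`.  By `StAct` (`t = 1`, `δ.1 = 0`) `Γ' s = DHm(z_s) δ - inner P_0 j_s =
inner (P_s - P_0) j_s`, and `P_s - P_0 = O(s)`, `j_s → 0`: `Γ s - Γ 0 = o(s²)`.  Divide by `s²` and
let `s → 0`: `0 ≤ 2 θ inner κ u + C' θ² ‖u‖²` for all `θ ∈ (0, 1]`; `u = -κ` gives `κ = 0`.  So
`M 1 z0 δ = 0`, hence `δ = 0` (`M (-1) (φ 1 z0) ∘ M 1 z0 = id`: derivative of `φ (-1) ∘ φ 1 = id`), so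
`op h p w = 0` and `w = 0`. -/
def StIn : Prop := ∀ (n : ℕ) (h : Form n) (φ : ℝ → W n → W n) (M : ℝ → W n → W n →L[ℝ] W n),
  Riem h → IsFlow (XH (Hm h)) φ M → EMin h φ → ∀ p v w : E n,
  fderiv ℝ (expo φ h p) v w = 0 → w = 0

/-- [Nj] MEDIUM (uses NcGa, NcGeo, NcLin, NcExp, NcGx, StOp).  Let `c` be a geodesic, `J` a Jacobi
field, `J a = 0 = J b`, `a ≠ b`.  The computation of `NcCov` backwards (MP_25cd3b_gt/NC): `IsJac` and
`NcGeo` give `J'' = - DΓ(J)(c', c') - 2 Γ(c', J')`.  Let `w = J' a`, `ζ = (c a, op h (c a) (c' a))`,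
`δ = (0, op h (c a) w)`, `K t = (M (t - a) ζ δ).1`.  By `NcGx` `φ (t - a) ζ = (c t, op h c c')`, so `K`
satisfies the same equation (`NcLin`), `K a = 0` (`M0`), `K' a = Dvel(ζ) δ = iop (op w) = w`.  Linear
equations have unique solutions (`ODE_solution_unique_univ` or Gronwall for `(J - K, J' - K')`, in both
time directions; the coefficients are continuous): `J = K`.  Differentiate
`(φ t (p, op h p v)).1 = expo (t • v)` (`NcExp`) in `v` in the direction `w`, `t = b - a`, `p = c a`,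
`v = c' a`: `K b = fderiv (expo p) ((b - a) • v) ((b - a) • w)`.  So `(b - a) • w = 0`, `w = 0`,
`J = K = 0`. -/
def StNj : Prop := ∀ (n : ℕ) (h : Form n) (φ : ℝ → W n → W n) (M : ℝ → W n → W n →L[ℝ] W n),
  Riem h → IsFlow (XH (Hm h)) φ M → (∀ p v w : E n, fderiv ℝ (expo φ h p) v w = 0 → w = 0) →
  NoConj h

/-! ### F. volumes -/

/-- [Ma] EASY-MEDIUM.  Determinants.  `S = M0^(1/2) M⁻¹ M0^(1/2)` is symmetric and positive definite
with eigenvalues `λ_i > 0`, trace `tr (M0 M⁻¹)`, and `det S = det M0 / det M`.  So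
`sqrt (det M) / sqrt (det M0) = ∏ λ_i^(-1/2) = exp (- 1/2 ∑ log λ_i) ≥ 1 - 1/2 ∑ log λ_i ≥
1 - 1/2 ∑ (λ_i - 1)` (`Real.add_one_le_exp`, `Real.log_le_sub_one_of_pos`).  Equality implies
`log λ_i = λ_i - 1` for all `i`, so `λ_i = 1` (`Real.log_lt_sub_one_of_pos`), `S = 1`, `M = M0`.
(Simultaneous diagonalisation: compare MP_25cd3b_gt and PI/I_Frm.lean for a frame `L₀` with
`L₀ᵀ M L₀ = 1`; then `L₀ᵀ M0 L₀` has the eigenvalues `λ_i`.) -/
def StMa : Prop := ∀ (n : ℕ) (M M0 : Matrix (Fin n) (Fin n) ℝ), M.PosDef → M0.PosDef →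
  Real.sqrt M0.det * (1 - 1 / 2 * ((M0 * M⁻¹).trace - n)) ≤ Real.sqrt M.det ∧
  (Real.sqrt M0.det * (1 - 1 / 2 * ((M0 * M⁻¹).trace - n)) = Real.sqrt M.det → M = M0)

/-- [Mb] EASY.  Matrices.  `gm g x` is the matrix of `op g x` in the standard basis:
`inner (op g x (ee j)) (ee i) = gm g x i j` (`StOp`).  Positive definite: `Riem`.  So its inverse is the
matrix of `iop g x`.  Conversely the form is determined by its matrix (bilinear). -/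
def StMb : Prop := ∀ (n : ℕ) (g : Form n), Riem g → ∀ x, (gm g x).PosDef ∧
  (∀ i j, (gm g x)⁻¹ i j = inner ℝ (iop g x (ee j)) (ee i)) ∧
  ∀ g' : Form n, gm g' x = gm g x → g'.val x = g.val x

/-- [Dt] EASY-MEDIUM (uses StMa, StMb, StSi).  `StMa` with `M = gm (gr r) x`, `M0 = gm gb x`:
`dens (gr r) x ≥ dens gb x * (1 - 1/2 (tr (M0 (gm (gr r) x)⁻¹) - n))`.  The mean of `(gm (gr r) x)⁻¹` over
`[0, l]` is `(gm gb x)⁻¹ = M0⁻¹` (`StMb`, `mean`; entries), so the mean of the right side is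
`dens gb x`.  If the means agree then the continuous nonnegative difference vanishes on `[0, l]`
(`intervalIntegral` of a continuous nonnegative function), and the equality case of `StMa` and `StMb`
apply. -/
def StDt : Prop := ∀ (n : ℕ) (l : ℝ) (gr : ℝ → Form n) (gb : Form n), 0 < l → Fam n gr →
  Riem gb → (∀ x, iop gb x = l⁻¹ • ∫ r in (0 : ℝ)..l, iop (gr r) x) → ∀ x,
  dens gb x ≤ l⁻¹ * (∫ r in (0 : ℝ)..l, dens (gr r) x) ∧
  (dens gb x = l⁻¹ * (∫ r in (0 : ℝ)..l, dens (gr r) x) →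
    ∀ r ∈ Icc 0 l, (gr r).val x = gb.val x)

/-- [Vl] MEDIUM (uses StDens, StUnf, StCnt).  `gm (gr r) x = Dᵀ (gm g (ψ r x)) D`, `D` the matrix of
`Dψ_r(x)`, so `dens (gr r) x = |det Dψ_r(x)| dens g (ψ r x)`.  Change of variables `y = ψ r x`
(a diffeomorphism with inverse `ψ (-r)`): the left side is `∫ χ (ψ (-r) y) * dens g y`.  `χ ∘ ψ (-r)` is
nonnegative and `∑ a, χ (ψ (-r) (a y)) = ∑ a, χ (a (ψ (-r) y)) = 1` (`comm`); so `StUnf` on `R^n` with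
the measure `dens g dx` (`StDens`), `F = 1`, gives the claim (as in the proof of `StFD`, file
MP_25cd3b_gt/M/I_FD.lean). -/
def StVl : Prop := ∀ (n : ℕ) (G : Type) [Group G] [MulAction G (E n)], Cocompact n G →
  ∀ g : Form n, Riem g → Inv G g → ∀ (z : G) (l : ℝ) (V : E n → E n) (τ : E n → ℝ)
  (ψ : ℝ → E n → E n), Axis n G g z l V τ ψ → ∀ gr : ℝ → Form n, (∀ r x u v, (gr r).val x u v =
    g.val (ψ r x) (fderiv ℝ (ψ r) x u) (fderiv ℝ (ψ r) x v)) → ∀ χ : E n → ℝ, PU G χ → ∀ r : ℝ,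
  ∫ x, χ x * dens (gr r) x = ∫ x, χ x * dens g x

/-- [Ve] EASY-MEDIUM (uses StDt, StVl, StDens).  Multiply `StDt` by `χ`, integrate, exchange the
integrals (continuous function of `(r, x)` with compact support in `x`, compact interval) and use
`StVl`: `∫ χ dens gb ≤ l⁻¹ ∫ 0..l (∫ χ dens (gr r)) dr = ∫ χ dens g`.  If equality holds let
`d x = l⁻¹ ∫ 0..l, dens (gr r) x - dens gb x ≥ 0`, continuous; `∫ χ d = 0`, so `χ d = 0` everywhere.
`d (a x) |det dac a x| = d x` (`StDens` for all `gr r` and `gb`), and for every `x` some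
`χ (a x) > 0`; so `d = 0`, `(gr 0).val x = gb.val x` for all `x` (`StDt`), and `gr 0 = g` as `ψ 0 = id`
(`zero`). -/
def StVe : Prop := ∀ (n : ℕ) (G : Type) [Group G] [MulAction G (E n)], Cocompact n G →
  ∀ g : Form n, Riem g → Inv G g → ∀ (z : G) (l : ℝ) (V : E n → E n) (τ : E n → ℝ)
  (ψ : ℝ → E n → E n), Axis n G g z l V τ ψ → ∀ (gr : ℝ → Form n) (gb : Form n),
  Avg n G g l ψ gr gb → ∀ χ : E n → ℝ, PU G χ →
  (∫ x, χ x * dens gb x) ≤ (∫ x, χ x * dens g x) ∧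
  ((∫ x, χ x * dens gb x) = (∫ x, χ x * dens g x) → gb = g)

/-! ### G. uniqueness of the canonical field, the theorem -/

/-- [Uq] EASY-MEDIUM (uses StFlow, NcInj, NcOne, NcGx).  Uniqueness.  `t ↦ ψ t x` is a geodesic with
velocity `V x` at `0` (`geo`, `ode`, `zero`), so `ψ t x = expo φ g x (t • V x)` (`NcGx`, `φ` from
`StFlow`).  At `t = l`: `expo (l • V x) = z • x = expo (l' • V' x)`; `expo` is injective (`NcInj`, `NcOne`):
`l • V x = l' • V' x`.  Both fields are of unit length and `l, l' > 0`: `l = l'`, `V x = V' x`, and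
`ψ t x = ψ' t x`. -/
def StUq : Prop := ∀ (n : ℕ) (G : Type) [Group G] [MulAction G (E n)], Cocompact n G →
  ∀ g : Form n, Riem g → Inv G g → NoConj g → ∀ (z : G) (l l' : ℝ) (V V' : E n → E n)
  (τ τ' : E n → ℝ) (ψ ψ' : ℝ → E n → E n), Axis n G g z l V τ ψ → Axis n G g z l' V' τ' ψ' →
  l = l' ∧ V = V' ∧ ψ = ψ'

/-- [Is] EASY (uses StUq, TIs, StOp).  If `g` is split then `gb = g`.  `Par` gives data `l' V' τ' ψ'`
with `V'` parallel; `V' = V`, `ψ' = ψ` by `StUq`; by `TIs` the flow preserves `g`, so `gr r = g`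
(`pull`), `iop gb x = l⁻¹ • (l • iop g x) = iop g x`, `op gb = op g` (`StOp`), `gb = g`
(`Form.ext`, `inner (op u) v = g (u, v)`). -/
def StIs : Prop := ∀ (n : ℕ) (G : Type) [Group G] [MulAction G (E n)], Cocompact n G →
  ∀ g : Form n, Riem g → Inv G g → NoConj g → ∀ (z : G) (l : ℝ) (V : E n → E n) (τ : E n → ℝ)
  (ψ : ℝ → E n → E n), Axis n G g z l V τ ψ → ∀ (gr : ℝ → Form n) (gb : Form n),
  Avg n G g l ψ gr gb → Par n G z g → gb = g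

/-- [Th] EASY (uses STR.StAx, StNC, StGr, StIg, StPa, StFlow, StEM, StIn, StNj, TPS, TSP, StIs,
StVe).  THE THEOREM, form layer. -/
def StTh : Prop := ∀ (m : ℕ) (G : Type) [Group G] [MulAction G (E (m + 1))],
  Cocompact (m + 1) G → ∀ g : Form (m + 1), Riem g → Inv G g → NoConj g → ∀ z : G, z ≠ 1 →
  (∀ a : G, a * z = z * a) →
  ∃ (l : ℝ) (V : E (m + 1) → E (m + 1)) (τ : E (m + 1) → ℝ) (ψ : ℝ → E (m + 1) → E (m + 1))
    (gr : ℝ → Form (m + 1)) (gb : Form (m + 1)), Axis (m + 1) G g z l V τ ψ ∧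
    Avg (m + 1) G g l ψ gr gb ∧ NoConj gb ∧ Axis (m + 1) G gb z l V τ ψ ∧ Sp m G z gb ∧
    (∀ χ : E (m + 1) → ℝ, PU G χ → (∫ x, χ x * dens gb x) ≤ (∫ x, χ x * dens g x) ∧
      ((∫ x, χ x * dens gb x) = (∫ x, χ x * dens g x) ↔ Sp m G z g)) ∧
    (gb = g ↔ Sp m G z g)

end Pool.Agent.AV
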