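import Mathlib
import Pool.Agent.Work.MP_13b5d9_gt.AV.Stmts
import Pool.Agent.Work.MP_25cd3b_gt.M.I_Op
import Pool.Agent.Work.MP_25cd3b_gt.M.I_LftA
import Pool.Agent.Work.MP_13b5d9_gt.LQ.I_RT

set_option autoImplicit false

/-!
# MP_13b5d9_gt, block AV, item Ig: the mean metric
-/

open MeasureTheory Set Filter Topology
open scoped ContDiff ENNReal

namespace Pool.Agent.AV

open Pool.Agent.MLS Pool.Agent.STR Pool.Agent.LQR Pool.Agent.LQT

namespace IIg

/-- the functional of a vector -/
noncomputable def ipm (n : ℕ) : E n →L[ℝ] (E n →L[ℝ] ℝ) :=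
  LinearMap.toContinuousLinearMap
    { toFun := fun u => innerSL ℝ u
      map_add' := fun u v => map_add _ u v
      map_smul' := fun c u => by
        ext w
        simp }

theorem ipm_apply {n : ℕ} (u w : E n) : ipm n u w = inner ℝ u w := rfl

theorem isUnit_of_pos {n : ℕ} (T : E n →L[ℝ] E n) (h : ∀ p, p ≠ 0 → 0 < inner ℝ (T p) p) :
    IsUnit T := by
  have hinj : Function.Injective T := by
    rw [injective_iff_map_eq_zero]
    intro v hv
    by_contra hne
    have h1 := h v hne
    rw [hv, inner_zero_left] at h1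
    exact lt_irrefl _ h1
  have hsurj : Function.Surjective T :=
    (LinearMap.injective_iff_surjective (f := (T : E n →ₗ[ℝ] E n))).1 hinj
  exact ContinuousLinearMap.isUnit_iff_bijective.2 ⟨hinj, hsurj⟩

/-- the form whose inverse operator is `K` -/
theorem exists_form {n : ℕ} (K : E n → E n →L[ℝ] E n) (hK : ContDiff ℝ ∞ K)
    (hs : ∀ x p q, inner ℝ (K x p) q = inner ℝ p (K x q))
    (hp : ∀ x p, p ≠ 0 → 0 < inner ℝ (K x p) p) :
    ∃ gb : Form n, Riem gb ∧ (∀ x, op gb x = Ring.inverse (K x)) ∧ ∀ x, iop gb x = K x := by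
  have hU : ∀ x, IsUnit (K x) := fun x => isUnit_of_pos (K x) (hp x)
  have hB : ContDiff ℝ ∞ (fun x => Ring.inverse (K x)) := by
    rw [contDiff_iff_contDiffAt]
    intro x
    obtain ⟨u, hu⟩ := hU x
    have h1 : ContDiffAt ℝ ∞ Ring.inverse (K x) := by
      rw [← hu]
      exact contDiffAt_ringInverse ℝ u
    exact h1.comp x hK.contDiffAt
  have hBK : ∀ x p, K x (Ring.inverse (K x) p) = p := by
    intro x p
    have h := Ring.mul_inverse_cancel _ (hU x)
    have h2 := congrArg (fun T : E n →L[ℝ] E n => T p) h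
    simpa using h2
  have hne : ∀ x p, p ≠ 0 → Ring.inverse (K x) p ≠ 0 := by
    intro x p hp0 h0
    apply hp0
    rw [← hBK x p, h0, map_zero]
  have hval : ∀ x u v, inner ℝ (Ring.inverse (K x) u) v =
      inner ℝ (Ring.inverse (K x) u) (K x (Ring.inverse (K x) v)) := by
    intro x u v
    rw [hBK]
  have hsym : ∀ x u v, inner ℝ (Ring.inverse (K x) u) v = inner ℝ (Ring.inverse (K x) v) u := by
    intro x u v
    rw [hval x u v, ← hs, hBK, real_inner_comm]
  have hpos : ∀ x v, v ≠ 0 → 0 < inner ℝ (Ring.inverse (K x) v) v := by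
    intro x v hv
    rw [hval x v v, ← hs]
    exact hp x _ (hne x v hv)
  let gb : Form n :=
    { val := fun x => (ipm n).comp (Ring.inverse (K x))
      smooth := contDiff_const.clm_comp hB
      symm := fun x u v => hsym x u v
      nonneg := fun x v => by
        rcases eq_or_ne v 0 with rfl | hv
        · simp
        · exact (hpos x v hv).le }
  have hR : Riem gb := fun x v hv => hpos x v hv
  have hop : ∀ x, op gb x = Ring.inverse (K x) := by
    intro x
    ext1 u
    apply ext_inner_right ℝ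
    intro w
    rw [IOp.inner_op]
    rfl
  refine ⟨gb, hR, hop, ?_⟩
  intro x
  obtain ⟨u, hu⟩ := hU x
  unfold iop
  rw [hop x, ← hu, Ring.inverse_unit, Ring.inverse_unit, inv_inv]

theorem dac_dac {n : ℕ} {G : Type} [Group G] [MulAction G (E n)] (hG : Cocompact n G) (a : G)
    (x v : E n) : dac a x (dac a⁻¹ (a • x) v) = v := by
  have h1 := ILftA.dac_mul hG a a⁻¹ (a • x) v
  rw [mul_inv_cancel, ILftA.dac_one] at h1
  rw [inv_smul_smul] at h1
  exact h1.symm

theorem dac_dac' {n : ℕ} {G : Type} [Group G] [MulAction G (E n)] (hG : Cocompact n G) (a : G)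
    (x v : E n) : dac a⁻¹ (a • x) (dac a x v) = v := by
  have h1 := ILftA.dac_mul hG a⁻¹ a x v
  rw [inv_mul_cancel, ILftA.dac_one] at h1
  exact h1.symm

/-- the inverse operator of an invariant metric -/
theorem iop_dac {n : ℕ} {G : Type} [Group G] [MulAction G (E n)] (hG : Cocompact n G)
    (h : Form n) (hR : Riem h) (hI : Inv G h) (a : G) (x : E n) :
    iop h (a • x) =
      (dac a x).comp ((iop h x).comp (ContinuousLinearMap.adjoint (dac a x))) := by
  ext1 p
  have h1 : op h (a • x) (dac a x (iop h x (ContinuousLinearMap.adjoint (dac a x) p))) = p := by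
    apply ext_inner_right ℝ
    intro w
    rw [← dac_dac hG a x w, IOp.inner_op, hI a x, ← IOp.inner_op, IOp.op_iop hR,
      ContinuousLinearMap.adjoint_inner_left]
  have h2 := IOp.iop_op hR (a • x)
    (dac a x (iop h x (ContinuousLinearMap.adjoint (dac a x) p)))
  rw [h1] at h2
  exact h2

/-- a metric with an equivariant inverse operator is invariant -/
theorem inv_of_iop {n : ℕ} {G : Type} [Group G] [MulAction G (E n)] (hG : Cocompact n G)
    (h : Form n) (hR : Riem h) (hI : ∀ (a : G) (x : E n), iop h (a • x) =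
      (dac a x).comp ((iop h x).comp (ContinuousLinearMap.adjoint (dac a x)))) : Inv G h := by
  intro a x u v
  -- `p` with `Dᵀ p = op h x u`
  obtain ⟨p, hp⟩ : ∃ p, ContinuousLinearMap.adjoint (dac a x) p = op h x u := by
    refine ⟨ContinuousLinearMap.adjoint (dac a⁻¹ (a • x)) (op h x u), ?_⟩
    apply ext_inner_right ℝ
    intro w
    rw [ContinuousLinearMap.adjoint_inner_left, ContinuousLinearMap.adjoint_inner_left,
      dac_dac' hG]
  have h1 : iop h (a • x) p = dac a x u := by
    rw [hI a x]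
    show dac a x (iop h x (ContinuousLinearMap.adjoint (dac a x) p)) = _
    rw [hp, IOp.iop_op hR]
  have h2 : op h (a • x) (dac a x u) = p := by
    rw [← h1, IOp.op_iop hR]
  rw [← IOp.inner_op, h2, ← ContinuousLinearMap.adjoint_inner_left, hp, IOp.inner_op]

end IIg

open IIg in
/-- Item Ig. -/
theorem pr_Ig (hSi : StSi) : StIg := by
  intro n G _ _ hG l gr hl hF hI
  have hJ : ContDiff ℝ ∞ (fun p : ℝ × E n => iop (gr p.1) p.2) := (hSi n gr hF).1
  have hcr : ∀ x : E n, Continuous (fun r : ℝ => iop (gr r) x) := fun x =>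
    hJ.continuous.comp (by fun_prop : Continuous fun r : ℝ => ((r, x) : ℝ × E n))
  have hint : ∀ (x : E n) (a b : ℝ), IntervalIntegrable (fun r : ℝ => iop (gr r) x) volume a b :=
    fun x a b => (hcr x).intervalIntegrable a b
  set K : E n → E n →L[ℝ] E n := fun x => l⁻¹ • ∫ r in (0 : ℝ)..l, iop (gr r) x with hKdef
  have hK : ContDiff ℝ ∞ K := by
    have h1 := LQR.IRT.smooth_int (fun p : ℝ × E n => iop (gr p.1) p.2) 0 l hJ
    exact h1.const_smul (l⁻¹)
  -- functionals of the mean
  have hfun : ∀ (x p q : E n), inner ℝ (K x p) q =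
      l⁻¹ * ∫ r in (0 : ℝ)..l, inner ℝ (iop (gr r) x p) q := by
    intro x p q
    let Λ : (E n →L[ℝ] E n) →L[ℝ] ℝ :=
      (ipm n q).comp (ContinuousLinearMap.apply ℝ (E n) p)
    have hΛ : ∀ T : E n →L[ℝ] E n, Λ T = inner ℝ (T p) q := by
      intro T
      show inner ℝ q (T p) = _
      exact real_inner_comm _ _
    rw [← hΛ, hKdef]
    simp only [map_smul, smul_eq_mul]
    rw [← ContinuousLinearMap.intervalIntegral_comp_comm Λ (hint x 0 l)]
    simp only [hΛ]
  have hs : ∀ x p q, inner ℝ (K x p) q = inner ℝ p (K x q) := by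
    intro x p q
    rw [hfun x p q, real_inner_comm, hfun x q p]
    congr 1
    apply intervalIntegral.integral_congr
    intro r _
    show inner ℝ (iop (gr r) x p) q = inner ℝ (iop (gr r) x q) p
    rw [IOp.iop_symm (hF.riem r), real_inner_comm]
  have hp : ∀ x p, p ≠ 0 → 0 < inner ℝ (K x p) p := by
    intro x p hp0
    rw [hfun x p p]
    apply mul_pos (inv_pos.2 hl)
    apply intervalIntegral.intervalIntegral_pos_of_pos
    · have hc : Continuous (fun r : ℝ => inner ℝ (iop (gr r) x p) p) :=
        ((hcr x).clm_apply continuous_const).inner continuous_const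
      exact hc.intervalIntegrable _ _
    · intro r
      have h1 : iop (gr r) x p ≠ 0 := by
        intro h0
        apply hp0
        rw [← IOp.op_iop (hF.riem r) x p, h0, map_zero]
      have h2 := hF.riem r x _ h1
      rw [← IOp.inner_op, IOp.op_iop (hF.riem r), real_inner_comm] at h2
      exact h2
    · exact hl
  obtain ⟨gb, hR, -, hiop⟩ := exists_form K hK hs hp
  refine ⟨gb, hR, ?_, hiop⟩
  apply inv_of_iop hG gb hR
  intro a x
  rw [hiop, hiop, hKdef]
  simp only
  let Λ : (E n →L[ℝ] E n) →L[ℝ] (E n →L[ℝ] E n) :=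
    (ContinuousLinearMap.compL ℝ (E n) (E n) (E n) (dac a x)).comp
      ((ContinuousLinearMap.compL ℝ (E n) (E n) (E n)).flip
        (ContinuousLinearMap.adjoint (dac a x)))
  have hΛ : ∀ T : E n →L[ℝ] E n, Λ T =
      (dac a x).comp (T.comp (ContinuousLinearMap.adjoint (dac a x))) := fun T => rfl
  rw [← hΛ, map_smul, ← ContinuousLinearMap.intervalIntegral_comp_comm Λ (hint x 0 l)]
  congr 1
  apply intervalIntegral.integral_congr
  intro r _
  show iop (gr r) (a • x) = Λ (iop (gr r) x)
  rw [hΛ]
  exact iop_dac hG (gr r) (hF.riem r) (hI r) a x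

end Pool.Agent.AV
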