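import Pool.Agent.Work.MP_13b5d9_gt.AV.Stmts

set_option autoImplicit false

/-!
# MP_13b5d9_gt, block AV, item In: geodesics which minimise the energy have no conjugate points
-/

open MeasureTheory Set Filter Topology
open scoped ContDiff ENNReal
open Pool.Agent.Work.MP_c9f990_an.Al (IsFlow)

namespace Pool.Agent.AV

open Pool.Agent.MLS Pool.Agent.STR Pool.Agent.LQR Pool.Agent.LQT

namespace IIn

variable {n : ℕ} {h : Form n} {φ : ℝ → W n → W n} {M : ℝ → W n → W n →L[ℝ] W n}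

/-- the initial conditions -/
noncomputable def ze (h : Form n) (p v w : E n) (s : ℝ) : W n :=
  (p, op h p ((2 : ℝ) • (v + s • w)))

/-- the direction of the initial conditions -/
noncomputable def dl (h : Form n) (p w : E n) : W n := (0, op h p ((2 : ℝ) • w))

theorem ze_deriv (p v w : E n) (s : ℝ) : HasDerivAt (ze h p v w) (dl h p w) s := by
  unfold ze dl
  refine HasDerivAt.prodMk (hasDerivAt_const s p) ?_
  have h1 : HasDerivAt (fun s : ℝ => (2 : ℝ) • (v + s • w)) ((2 : ℝ) • w) s := by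
    have h2 : HasDerivAt (fun s : ℝ => v + s • w) w s := by
      have h3 := ((hasDerivAt_id s).smul_const w).const_add v
      simpa using h3
    exact h2.const_smul (2 : ℝ)
  exact (op h p).hasFDerivAt.comp_hasDerivAt s h1

theorem ze_cont (p v w : E n) : Continuous (ze h p v w) :=
  continuous_iff_continuousAt.2 fun s => (ze_deriv p v w s).continuousAt

/-- the geodesics -/
theorem geo (hGeo1 : StGeo1) (hR : Riem h) (hφ : IsFlow (XH (Hm h)) φ M) (z : W n) :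
    IsGeo h (fun t => (φ t z).1) ∧ (∀ t, deriv (fun s => (φ s z).1) t = vel h (φ t z)) ∧
      ∀ t, Hm h (φ t z) = Hm h z := by
  obtain ⟨h1, h2, h3⟩ := hGeo1 n h hR (fun t => φ t z) (fun t => hφ.ode z t)
  refine ⟨h1, h2, fun t => ?_⟩
  rw [h3 t, hφ.zero]

theorem pairing (hOp : StOp) (hR : Riem h) (z : W n) (a : E n) :
    h.val z.1 (vel h z) a = inner ℝ z.2 a := by
  obtain ⟨-, h2, -, h4, -⟩ := hOp n h hR
  rw [← h2 z.1 (vel h z) a]
  unfold vel
  rw [h4]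

theorem energy (hGeo1 : StGeo1) (hOp : StOp) (hR : Riem h) (hφ : IsFlow (XH (Hm h)) φ M)
    (z : W n) (S T : ℝ) :
    1 / 2 * (∫ t in S..T, h.val (φ t z).1 (deriv (fun s => (φ s z).1) t)
      (deriv (fun s => (φ s z).1) t)) = (T - S) * Hm h z := by
  obtain ⟨-, h2, h3⟩ := geo hGeo1 hR hφ z
  have h8 := (hOp n h hR).2.2.2.2.2.2.2.2
  have e : ∀ t, h.val (φ t z).1 (deriv (fun s => (φ s z).1) t)
      (deriv (fun s => (φ s z).1) t) = 2 * Hm h z := by
    intro t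
    rw [h2 t, ← h3 t, h8 (φ t z)]
    ring
  simp_rw [e]
  rw [intervalIntegral.integral_const, smul_eq_mul]
  ring

theorem a1_deriv (η : ℝ) (u : E n) (t : ℝ) :
    HasDerivAt (fun t : ℝ => (4 * η * (t * (1 - t))) • u) ((4 * η * (1 - 2 * t)) • u) t := by
  have h1 : HasDerivAt (fun t : ℝ => 4 * η * (t * (1 - t))) (4 * η * (1 - 2 * t)) t := by
    have h2 := ((hasDerivAt_id t).mul ((hasDerivAt_const t (1 : ℝ)).sub (hasDerivAt_id t))).const_mul
      (4 * η)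
    refine h2.congr_deriv ?_
    simp only [id, Pi.sub_apply]
    ring
  exact h1.smul_const u

theorem a2_deriv (η : ℝ) (u D : E n) (t : ℝ) :
    HasDerivAt (fun t : ℝ => (2 - 2 * t) • D + (4 * η * (t * (1 - t))) • u)
      ((-2 : ℝ) • D + (4 * η * (1 - 2 * t)) • u) t := by
  have h1 : HasDerivAt (fun t : ℝ => 2 - 2 * t) (-2) t := by
    have h2 := ((hasDerivAt_id t).const_mul (2 : ℝ)).const_sub 2
    refine h2.congr_deriv ?_
    ring
  exact (h1.smul_const D).add (a1_deriv η u t)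

theorem a1_smooth (η : ℝ) (u : E n) : ContDiff ℝ 1 (fun t : ℝ => (4 * η * (t * (1 - t))) • u) := by
  fun_prop

theorem a2_smooth (η : ℝ) (u D : E n) :
    ContDiff ℝ 1 (fun t : ℝ => (2 - 2 * t) • D + (4 * η * (t * (1 - t))) • u) := by
  fun_prop

/-- The energy inequality. -/
theorem ineq (hGeo1 : StGeo1) (hOp : StOp) (hR : Riem h) (hφ : IsFlow (XH (Hm h)) φ M)
    (hE : EMin h φ) (z0 z1 : W n) (hz : z1.1 = z0.1) (K : Set (E n × E n)) (C : ℝ)
    (hC : ∀ y : ℝ → E n, IsGeo h y → ∀ S T : ℝ, S ≤ T → T ≤ S + 1 →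
      (∀ t ∈ Icc S T, (y t, deriv y t) ∈ K) → ∀ (a : ℝ → E n) (κ : ℝ), ContDiff ℝ 1 a → κ ≤ 1 →
      (∀ t ∈ Icc S T, ‖a t‖ ≤ κ ∧ ‖deriv a t‖ ≤ κ) →
      1 / 2 * (∫ t in S..T, h.val (y t + a t) (deriv (fun s => y s + a s) t)
        (deriv (fun s => y s + a s) t)) ≤
      1 / 2 * (∫ t in S..T, h.val (y t) (deriv y t) (deriv y t)) +
        (h.val (y T) (deriv y T) (a T) - h.val (y S) (deriv y S) (a S)) + C * κ ^ 2)
    (hK0 : ∀ t ∈ Icc (0 : ℝ) 1, ((φ t z0).1, vel h (φ t z0)) ∈ K)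
    (hK1 : ∀ t ∈ Icc (0 : ℝ) 1, ((φ t z1).1, vel h (φ t z1)) ∈ K)
    (η : ℝ) (hη : 0 ≤ η) (u : E n)
    (hsm : 2 * ‖(φ (1 / 2) z1).1 - (φ (1 / 2) z0).1‖ + 4 * η * ‖u‖ ≤ 1) :
    0 ≤ 1 / 2 * (Hm h z1 - Hm h z0) -
      inner ℝ (φ (1 / 2) z0).2 ((φ (1 / 2) z1).1 - (φ (1 / 2) z0).1) +
      η * inner ℝ ((φ (1 / 2) z1).2 - (φ (1 / 2) z0).2) u +
      C * ((4 * η * ‖u‖) ^ 2 +
        (2 * ‖(φ (1 / 2) z1).1 - (φ (1 / 2) z0).1‖ + 4 * η * ‖u‖) ^ 2) := by
  obtain ⟨D, hD⟩ : ∃ D, D = (φ (1 / 2) z1).1 - (φ (1 / 2) z0).1 := ⟨_, rfl⟩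
  rw [← hD] at hsm ⊢
  have hu : 0 ≤ ‖u‖ := norm_nonneg u
  have hDn : 0 ≤ ‖D‖ := norm_nonneg D
  have hηu : 0 ≤ η * ‖u‖ := mul_nonneg hη hu
  obtain ⟨g0, d0, -⟩ := geo hGeo1 hR hφ z0
  obtain ⟨g1, d1, -⟩ := geo hGeo1 hR hφ z1
  -- first piece
  have f1 := hC (fun t => (φ t z1).1) g1 0 (1 / 2) (by norm_num) (by norm_num)
    (fun t ht => by
      rw [d1 t]
      exact hK1 t ⟨ht.1, by linarith [ht.2]⟩)
    (fun t : ℝ => (4 * η * (t * (1 - t))) • u) (4 * η * ‖u‖) (a1_smooth η u) (by linarith)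
    (fun t ht => by
      obtain ⟨ht0, ht1⟩ := ht
      rw [(a1_deriv η u t).deriv, norm_smul, norm_smul, Real.norm_eq_abs, Real.norm_eq_abs]
      have e1 : |4 * η * (t * (1 - t))| ≤ 4 * η := by
        rw [abs_of_nonneg (by
          have : 0 ≤ t * (1 - t) := mul_nonneg ht0 (by linarith)
          positivity)]
        have : t * (1 - t) ≤ 1 := by nlinarith
        nlinarith
      have e2 : |4 * η * (1 - 2 * t)| ≤ 4 * η := by
        rw [abs_mul, abs_of_nonneg (by positivity : 0 ≤ 4 * η)]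
        have : |1 - 2 * t| ≤ 1 := by
          rw [abs_le]
          constructor <;> linarith
        nlinarith
      exact ⟨mul_le_mul_of_nonneg_right e1 hu, mul_le_mul_of_nonneg_right e2 hu⟩)
  -- second piece
  have f2 := hC (fun t => (φ t z0).1) g0 (1 / 2) 1 (by norm_num) (by norm_num)
    (fun t ht => by
      rw [d0 t]
      exact hK0 t ⟨by linarith [ht.1], ht.2⟩)
    (fun t : ℝ => (2 - 2 * t) • D + (4 * η * (t * (1 - t))) • u) (2 * ‖D‖ + 4 * η * ‖u‖)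
    (a2_smooth η u D) hsm
    (fun t ht => by
      obtain ⟨ht0, ht1⟩ := ht
      rw [(a2_deriv η u D t).deriv]
      have e1 : |4 * η * (t * (1 - t))| ≤ 4 * η := by
        rw [abs_of_nonneg (by
          have : 0 ≤ t * (1 - t) := mul_nonneg (by linarith) (by linarith)
          positivity)]
        have : t * (1 - t) ≤ 1 := by nlinarith
        nlinarith
      have e2 : |4 * η * (1 - 2 * t)| ≤ 4 * η := by
        rw [abs_mul, abs_of_nonneg (by positivity : 0 ≤ 4 * η)]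
        have : |1 - 2 * t| ≤ 1 := by
          rw [abs_le]
          constructor <;> linarith
        nlinarith
      have e3 : |2 - 2 * t| ≤ 2 := by
        rw [abs_le]
        constructor <;> linarith
      have e4 : |(-2 : ℝ)| ≤ 2 := by norm_num
      constructor
      · refine (norm_add_le _ _).trans ?_
        rw [norm_smul, norm_smul, Real.norm_eq_abs, Real.norm_eq_abs]
        exact add_le_add (mul_le_mul_of_nonneg_right e3 hDn) (mul_le_mul_of_nonneg_right e1 hu)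
      · refine (norm_add_le _ _).trans ?_
        rw [norm_smul, norm_smul, Real.norm_eq_abs, Real.norm_eq_abs]
        exact add_le_add (mul_le_mul_of_nonneg_right e4 hDn) (mul_le_mul_of_nonneg_right e2 hu))
  rw [energy hGeo1 hOp hR hφ z1 0 (1 / 2)] at f1
  rw [energy hGeo1 hOp hR hφ z0 (1 / 2) 1] at f2
  beta_reduce at f1 f2
  rw [d1 (1 / 2), d1 0, pairing hOp hR, pairing hOp hR] at f1
  rw [d0 (1 / 2), d0 1, pairing hOp hR, pairing hOp hR] at f2
  have f3 := hE z0 (1 / 2) (by norm_num) (by norm_num)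
    (fun t => (φ t z1).1 + (4 * η * (t * (1 - t))) • u)
    (fun t => (φ t z0).1 + ((2 - 2 * t) • D + (4 * η * (t * (1 - t))) • u))
    ((g1.smooth.of_le (by norm_num)).add (a1_smooth η u))
    ((g0.smooth.of_le (by norm_num)).add (a2_smooth η u D))
    (by
      beta_reduce
      rw [hφ.zero, hz]
      simp)
    (by
      beta_reduce
      rw [hD]
      have e1 : (2 - 2 * (1 / 2 : ℝ)) = 1 := by norm_num
      rw [e1, one_smul]
      abel)
    (by
      beta_reduce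
      have e1 : (2 - 2 * (1 : ℝ)) = 0 := by norm_num
      have e2 : 4 * η * (1 * (1 - (1 : ℝ))) = 0 := by ring
      rw [e1, e2, zero_smul, zero_smul, add_zero, add_zero])
  have e5 : (4 * η * (1 / 2 * (1 - 1 / 2)) : ℝ) = η := by ring
  have e6 : (4 * η * (0 * (1 - 0)) : ℝ) = 0 := by ring
  have e7 : (4 * η * (1 * (1 - 1)) : ℝ) = 0 := by ring
  have e8 : (2 - 2 * (1 / 2 : ℝ)) = 1 := by norm_num
  have e9 : (2 - 2 * (1 : ℝ)) = 0 := by norm_num
  rw [e5, e6, zero_smul, inner_zero_right, inner_smul_right] at f1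
  rw [e5, e7, e8, e9, zero_smul, zero_smul, one_smul, add_zero, inner_zero_right, inner_add_right,
    inner_smul_right] at f2
  rw [inner_sub_left]
  nlinarith

theorem small (Γ Γ' : ℝ → ℝ) (hΓ : ∀ s, HasDerivAt Γ (Γ' s) s)
    (hs : Γ' =o[𝓝 0] (fun s : ℝ => s)) :
    Tendsto (fun s => (Γ s - Γ 0) / s ^ 2) (𝓝[>] 0) (𝓝 0) := by
  rw [Metric.tendsto_nhdsWithin_nhds]
  intro ε hε
  have h1 := hs.def (half_pos hε)
  rw [Metric.eventually_nhds_iff] at h1
  obtain ⟨r, hr, h1⟩ := h1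
  refine ⟨r, hr, fun {s} hs0 hsr => ?_⟩
  have hs0' : 0 < s := hs0
  rw [Real.dist_eq, sub_zero, abs_of_pos hs0'] at hsr
  have h2 : ‖Γ s - Γ 0‖ ≤ (ε / 2 * s) * ‖s - 0‖ := by
    refine Convex.norm_image_sub_le_of_norm_hasDerivWithin_le (s := Icc 0 s)
      (fun x _ => (hΓ x).hasDerivWithinAt) (fun x hx => ?_) (convex_Icc 0 s)
      (left_mem_Icc.2 hs0'.le) (right_mem_Icc.2 hs0'.le)
    have h3 := h1 (y := x) (by
      rw [Real.dist_eq, sub_zero, abs_of_nonneg hx.1]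
      linarith [hx.2])
    refine h3.trans ?_
    rw [Real.norm_eq_abs, abs_of_nonneg hx.1]
    exact mul_le_mul_of_nonneg_left hx.2 (by linarith)
  rw [sub_zero, Real.norm_eq_abs, Real.norm_eq_abs, abs_of_pos hs0'] at h2
  rw [Real.dist_eq, sub_zero, abs_div, abs_of_pos (by positivity : 0 < s ^ 2),
    div_lt_iff₀ (by positivity)]
  nlinarith [pow_pos hs0' 2]

/-- a map with derivative `D` at `0`: difference quotients on the right -/
theorem quot {F : Type} [NormedAddCommGroup F] [NormedSpace ℝ F] (f : ℝ → F) (D : F)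
    (hf : HasDerivAt f D 0) : Tendsto (fun s : ℝ => s⁻¹ • (f s - f 0)) (𝓝[>] 0) (𝓝 D) := by
  have h1 := hasDerivAt_iff_tendsto_slope_zero.1 hf
  have h2 : Tendsto (fun s : ℝ => s⁻¹ • (f (0 + s) - f 0)) (𝓝[>] 0) (𝓝 D) :=
    h1.mono_left (nhdsWithin_mono _ fun x hx => ne_of_gt hx)
  simpa using h2

end IIn

open IIn in
/-- **In.** Geodesics which minimise the energy have no conjugate points. -/
theorem pr_In (h : StFv) (hAct : StAct) (hExp : NcExp) (hGeo1 : StGeo1) (hOp : StOp) : StIn := by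
  have hFv := h
  clear h
  intro n h φ M hR hφ hE p v w hw
  obtain ⟨-, hop, hiop, -, -, -, hiopS, hHmS, -⟩ := hOp n h hR
  obtain ⟨hexpS, -, hexp3, -, -⟩ := hExp n h φ M hR hφ p
  obtain ⟨Z, hZ⟩ : ∃ Z, Z = ze h p v w := ⟨_, rfl⟩
  obtain ⟨δ, hδ⟩ : ∃ δ, δ = dl h p w := ⟨_, rfl⟩
  have hZd : ∀ s, HasDerivAt Z δ s := by
    rw [hZ, hδ]
    exact ze_deriv p v w
  have hZc : Continuous Z := by
    rw [hZ]
    exact ze_cont p v w
  have hZ1 : ∀ s, (Z s).1 = p := fun s => by rw [hZ]; rfl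
  have hδ1 : δ.1 = 0 := by rw [hδ]; rfl
  have hF : ∀ s, HasDerivAt (fun s => φ (1 / 2) (Z s)) (M (1 / 2) (Z s) δ) s := fun s =>
    (hφ.diff (1 / 2) (Z s)).comp_hasDerivAt s (hZd s)
  have hx : ∀ s, HasDerivAt (fun s => (φ (1 / 2) (Z s)).1) (M (1 / 2) (Z s) δ).1 s := fun s =>
    (ContinuousLinearMap.fst ℝ (E n) (E n)).hasFDerivAt.comp_hasDerivAt s (hF s)
  have hP : ∀ s, HasDerivAt (fun s => (φ (1 / 2) (Z s)).2) (M (1 / 2) (Z s) δ).2 s := fun s =>
    (ContinuousLinearMap.snd ℝ (E n) (E n)).hasFDerivAt.comp_hasDerivAt s (hF s)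
  -- `j 0 = 0`
  have hj0 : (M (1 / 2) (Z 0) δ).1 = 0 := by
    have e : (fun s => (φ (1 / 2) (Z s)).1) = fun s => expo φ h p (v + s • w) := by
      funext s
      rw [hZ]
      unfold ze
      rw [hexp3 (1 / 2), smul_smul]
      norm_num
    have h1 := hx 0
    rw [e] at h1
    have h2 : HasDerivAt (fun s : ℝ => v + s • w) w 0 := by
      have h3 := ((hasDerivAt_id (0 : ℝ)).smul_const w).const_add v
      simpa using h3
    have h3 : HasDerivAt (fun s : ℝ => expo φ h p (v + s • w))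
        (fderiv ℝ (expo φ h p) (v + (0 : ℝ) • w) w) 0 := by
      have h4 : HasFDerivAt (expo φ h p) (fderiv ℝ (expo φ h p) (v + (0 : ℝ) • w))
          ((fun s : ℝ => v + s • w) 0) :=
        ((hexpS.differentiable (by norm_num)) (v + (0 : ℝ) • w)).hasFDerivAt
      exact h4.comp_hasDerivAt 0 h2
    rw [h1.unique h3, zero_smul, add_zero, hw]
  have hjc : Continuous fun s => (M (1 / 2) (Z s) δ).1 := by
    have h1 : Continuous fun s => M (1 / 2) (Z s) :=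
      hφ.Mcont.comp (continuous_const.prodMk hZc)
    exact continuous_fst.comp (h1.clm_apply continuous_const)
  -- the function `Γ`
  have hΓ : ∀ s, HasDerivAt (fun s => 1 / 2 * Hm h (Z s) -
      inner ℝ (φ (1 / 2) (Z 0)).2 (φ (1 / 2) (Z s)).1)
      (inner ℝ ((φ (1 / 2) (Z s)).2 - (φ (1 / 2) (Z 0)).2) (M (1 / 2) (Z s) δ).1) s := by
    intro s
    have h1 : HasDerivAt (fun s => Hm h (Z s)) (fderiv ℝ (Hm h) (Z s) δ) s :=
      ((hHmS.differentiable (by norm_num)) (Z s)).hasFDerivAt.comp_hasDerivAt s (hZd s)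
    have h2 : HasDerivAt (fun s => inner ℝ (φ (1 / 2) (Z 0)).2 (φ (1 / 2) (Z s)).1)
        (inner ℝ (φ (1 / 2) (Z 0)).2 (M (1 / 2) (Z s) δ).1) s :=
      (innerSL ℝ (φ (1 / 2) (Z 0)).2).hasFDerivAt.comp_hasDerivAt s (hx s)
    refine ((h1.const_mul (1 / 2 : ℝ)).sub h2).congr_deriv ?_
    have h3 := hAct n h φ M hR hφ (Z s) δ (1 / 2)
    rw [hδ1, inner_zero_right, sub_zero] at h3
    rw [inner_sub_left, h3]
  have hΓo : (fun s => inner ℝ ((φ (1 / 2) (Z s)).2 - (φ (1 / 2) (Z 0)).2)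
      (M (1 / 2) (Z s) δ).1) =o[𝓝 0] (fun s : ℝ => s) := by
    have h1 : (fun s => (φ (1 / 2) (Z s)).2 - (φ (1 / 2) (Z 0)).2) =O[𝓝 0] (fun s : ℝ => s) := by
      have h2 := (hP 0).isBigO_sub
      simpa using h2
    have h2 : (fun s => (M (1 / 2) (Z s) δ).1) =o[𝓝 0] (fun _ : ℝ => (1 : ℝ)) := by
      rw [Asymptotics.isLittleO_one_iff]
      have h3 := hjc.tendsto 0
      rw [hj0] at h3
      exact h3
    have h3 := h1.norm_left.mul_isLittleO h2.norm_left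
    have h4 : (fun s => inner ℝ ((φ (1 / 2) (Z s)).2 - (φ (1 / 2) (Z 0)).2)
        (M (1 / 2) (Z s) δ).1) =O[𝓝 0] (fun s => ‖(φ (1 / 2) (Z s)).2 - (φ (1 / 2) (Z 0)).2‖ *
          ‖(M (1 / 2) (Z s) δ).1‖) := by
      refine Asymptotics.IsBigO.of_bound 1 (Eventually.of_forall fun s => ?_)
      rw [one_mul, Real.norm_of_nonneg (by positivity : (0 : ℝ) ≤
        ‖(φ (1 / 2) (Z s)).2 - (φ (1 / 2) (Z 0)).2‖ * ‖(M (1 / 2) (Z s) δ).1‖)]
      exact norm_inner_le_norm _ _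
    have h5 := h4.trans_isLittleO h3
    simpa using h5
  have hlim := small _ _ hΓ hΓo
  -- the compact set
  obtain ⟨C, hC0, hC⟩ := hFv n h
    ((fun q : ℝ × ℝ => ((φ q.1 (Z q.2)).1, vel h (φ q.1 (Z q.2)))) '' (Icc 0 1 ×ˢ Icc 0 1)) (by
      refine (isCompact_Icc.prod isCompact_Icc).image ?_
      have h1 : Continuous fun q : ℝ × ℝ => φ q.1 (Z q.2) :=
        hφ.cont.comp (continuous_fst.prodMk (hZc.comp continuous_snd))
      refine (continuous_fst.comp h1).prodMk ?_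
      unfold vel
      exact (hiopS.continuous.comp (continuous_fst.comp h1)).clm_apply (continuous_snd.comp h1))
  -- the derivative of the momentum vanishes
  have hκ : (M (1 / 2) (Z 0) δ).2 = 0 := by
    by_contra hne
    obtain ⟨κ, hκdef⟩ : ∃ κ, κ = (M (1 / 2) (Z 0) δ).2 := ⟨_, rfl⟩
    rw [← hκdef] at hne
    have hκpos : 0 < ‖κ‖ := norm_pos_iff.2 hne
    obtain ⟨θ, hθ⟩ : ∃ θ : ℝ, θ = 1 / (64 * C + 1) := ⟨_, rfl⟩
    have hθ0 : 0 < θ := by rw [hθ]; positivity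
    have hq1 := quot _ _ (hx 0)
    rw [hj0] at hq1
    have hq2 := quot _ _ (hP 0)
    rw [← hκdef] at hq2
    have hlim2 : Tendsto (fun s : ℝ =>
        ((1 / 2 * Hm h (Z s) - inner ℝ (φ (1 / 2) (Z 0)).2 (φ (1 / 2) (Z s)).1) -
          (1 / 2 * Hm h (Z 0) - inner ℝ (φ (1 / 2) (Z 0)).2 (φ (1 / 2) (Z 0)).1)) / s ^ 2 +
        θ * inner ℝ (s⁻¹ • ((φ (1 / 2) (Z s)).2 - (φ (1 / 2) (Z 0)).2)) (-κ) +
        C * ((4 * θ * ‖-κ‖) ^ 2 +
          (2 * ‖s⁻¹ • ((φ (1 / 2) (Z s)).1 - (φ (1 / 2) (Z 0)).1)‖ + 4 * θ * ‖-κ‖) ^ 2))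
        (𝓝[>] 0) (𝓝 (0 + θ * inner ℝ κ (-κ) + C * ((4 * θ * ‖-κ‖) ^ 2 +
          (2 * ‖(0 : E n)‖ + 4 * θ * ‖-κ‖) ^ 2))) := by
      refine (hlim.add ((hq2.inner tendsto_const_nhds).const_mul θ)).add ?_
      exact (((hq1.norm.const_mul 2).add_const _).pow 2).const_add _ |>.const_mul C
    have hpos : (0 : ℝ) ≤ 0 + θ * inner ℝ κ (-κ) + C * ((4 * θ * ‖-κ‖) ^ 2 +
          (2 * ‖(0 : E n)‖ + 4 * θ * ‖-κ‖) ^ 2) := by
      refine ge_of_tendsto hlim2 ?_
      have hev1 : ∀ᶠ s : ℝ in 𝓝[>] 0, 2 * ‖(φ (1 / 2) (Z s)).1 - (φ (1 / 2) (Z 0)).1‖ +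
          4 * (s * θ) * ‖-κ‖ < 1 := by
        have hc : Continuous fun s : ℝ => 2 * ‖(φ (1 / 2) (Z s)).1 - (φ (1 / 2) (Z 0)).1‖ +
          4 * (s * θ) * ‖-κ‖ := by
          have hxc : Continuous fun s => (φ (1 / 2) (Z s)).1 :=
            continuous_iff_continuousAt.2 fun s => (hx s).continuousAt
          exact (continuous_const.mul (hxc.sub continuous_const).norm).add
            ((continuous_const.mul (continuous_id.mul continuous_const)).mul continuous_const)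
        refine nhdsWithin_le_nhds ((hc.tendsto 0).eventually (gt_mem_nhds ?_))
        simp
      have hev2 : ∀ᶠ s : ℝ in 𝓝[>] 0, s < 1 := nhdsWithin_le_nhds (gt_mem_nhds one_pos)
      filter_upwards [hev1, hev2, self_mem_nhdsWithin] with s h1 h2 h3
      have hs : 0 < s := h3
      have h4 := ineq hGeo1 hOp hR hφ hE (Z 0) (Z s) (by rw [hZ1, hZ1]) _ C hC
        (fun t ht => ⟨(t, 0), ⟨ht, ⟨le_rfl, zero_le_one⟩⟩, rfl⟩)
        (fun t ht => ⟨(t, s), ⟨ht, ⟨hs.le, h2.le⟩⟩, rfl⟩) (s * θ) (by positivity) (-κ) h1.le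
      rw [inner_smul_left, norm_smul, Real.norm_eq_abs, abs_of_pos (inv_pos.2 hs)]
      obtain ⟨D, hD⟩ : ∃ D, D = ‖(φ (1 / 2) (Z s)).1 - (φ (1 / 2) (Z 0)).1‖ := ⟨_, rfl⟩
      rw [← hD] at h4 ⊢
      rw [inner_sub_right] at h4
      obtain ⟨A, hA⟩ : ∃ A, A = inner ℝ ((φ (1 / 2) (Z s)).2 - (φ (1 / 2) (Z 0)).2) (-κ) :=
        ⟨_, rfl⟩
      rw [← hA] at h4 ⊢
      have e : (1 / 2 * Hm h (Z s) - inner ℝ (φ (1 / 2) (Z 0)).2 (φ (1 / 2) (Z s)).1 -
          (1 / 2 * Hm h (Z 0) - inner ℝ (φ (1 / 2) (Z 0)).2 (φ (1 / 2) (Z 0)).1)) / s ^ 2 +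
          θ * ((starRingEnd ℝ) s⁻¹ * A) +
          C * ((4 * θ * ‖-κ‖) ^ 2 + (2 * (s⁻¹ * D) + 4 * θ * ‖-κ‖) ^ 2) =
          (1 / 2 * (Hm h (Z s) - Hm h (Z 0)) -
            (inner ℝ (φ (1 / 2) (Z 0)).2 (φ (1 / 2) (Z s)).1 -
              inner ℝ (φ (1 / 2) (Z 0)).2 (φ (1 / 2) (Z 0)).1) + s * θ * A +
          C * ((4 * (s * θ) * ‖-κ‖) ^ 2 + (2 * D + 4 * (s * θ) * ‖-κ‖) ^ 2)) / s ^ 2 := by
        rw [conj_trivial]
        field_simp
        ring
      rw [e]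
      exact div_nonneg h4 (by positivity)
    rw [norm_zero, mul_zero, zero_add, norm_neg, inner_neg_right, real_inner_self_eq_norm_sq,
      zero_add] at hpos
    have h5 : 64 * C * θ + θ = 1 := by
      rw [hθ]
      field_simp
    have h6 : 0 < θ * ‖κ‖ ^ 2 := by positivity
    have h7 : C * ((4 * θ * ‖κ‖) ^ 2 + (4 * θ * ‖κ‖) ^ 2) =
        (64 * C * θ) * (θ * ‖κ‖ ^ 2) / 2 := by ring
    rw [h7] at hpos
    have h8 : 64 * C * θ ≤ 1 := by linarith
    nlinarith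
  -- conclusion
  have hM0 : M (1 / 2) (Z 0) δ = 0 := Prod.ext hj0 hκ
  have hδ0 : δ = 0 := by
    have h1 : HasFDerivAt (fun y => φ (-(1 / 2)) (φ (1 / 2) y))
        ((M (-(1 / 2)) (φ (1 / 2) (Z 0))).comp (M (1 / 2) (Z 0))) (Z 0) :=
      (hφ.diff (-(1 / 2)) (φ (1 / 2) (Z 0))).comp (Z 0) (hφ.diff (1 / 2) (Z 0))
    have h2 : (fun y => φ (-(1 / 2)) (φ (1 / 2) y)) = fun y : W n => y := by
      funext y
      rw [← hφ.add, neg_add_cancel, hφ.zero]
    rw [h2] at h1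
    have h3 := h1.unique (hasFDerivAt_id (Z 0))
    have h4 := congrArg (fun L : W n →L[ℝ] W n => L δ) h3
    simp only [ContinuousLinearMap.comp_apply, ContinuousLinearMap.id_apply] at h4
    rw [hM0, map_zero] at h4
    exact h4.symm
  have h5 : op h p ((2 : ℝ) • w) = 0 := by
    rw [hδ] at hδ0
    exact congrArg Prod.snd hδ0
  have h6 : (2 : ℝ) • w = 0 := by
    rw [← hiop p ((2 : ℝ) • w), h5, map_zero]
  exact (smul_eq_zero.1 h6).resolve_left two_ne_zero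

end Pool.Agent.AV
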