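import Pool.Agent.Work.MP_13b5d9_gt.AV.Stmts

set_option autoImplicit false

/-!
# MP_13b5d9_gt, block AV, item Is: for a split metric the companion is the metric itself
-/

open MeasureTheory Set Filter Topology
open scoped ContDiff ENNReal

namespace Pool.Agent.AV

open Pool.Agent.MLS Pool.Agent.STR Pool.Agent.LQR Pool.Agent.LQT

theorem IIs.form_eq {n : ℕ} {g g' : Form n} (h : ∀ x u v, g.val x u v = g'.val x u v) :
    g = g' := by
  apply Form.ext
  funext x
  refine ContinuousLinearMap.ext fun u => ContinuousLinearMap.ext fun v => h x u v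

theorem pr_Is (h : StUq) (h2 : TIs) (h3 : StOp) : StIs := by
  intro n G _ _ hC g hg hi hNC z l V τ ψ hA gr gb hAv hP
  obtain ⟨l', V', τ', ψ', hA', hpar⟩ := hP
  obtain ⟨-, hV, -⟩ := h n G hC g hg hi hNC z l l' V V' τ τ' ψ ψ' hA hA'
  subst hV
  have hpres := h2 n G g z l V τ ψ hg hA hpar
  have hgr : ∀ r, gr r = g := fun r => IIs.form_eq fun x u v =>
    (hAv.pull r x u v).trans (hpres r x u v)
  have hiop : ∀ x, iop gb x = iop g x := by
    intro x
    rw [hAv.mean x]
    have h4 : (fun r => iop (gr r) x) = fun _ => iop g x := by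
      funext r
      rw [hgr r]
    rw [h4, intervalIntegral.integral_const, sub_zero, smul_smul,
      inv_mul_cancel₀ hA.pos.ne', one_smul]
  obtain ⟨-, hin, -, hoi, -⟩ := h3 n g hg
  obtain ⟨-, hinb, hiob, -, -⟩ := h3 n gb hAv.riemb
  refine IIs.form_eq fun x u v => ?_
  rw [← hinb x u v, ← hin x u v]
  have h5 : op gb x u = op g x u := by
    have h6 := hoi x (op gb x u)
    rw [← hiop x, hiob x u] at h6
    exact h6.symm
  rw [h5]

end Pool.Agent.AV
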