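import Pool.Agent.Work.MP_13b5d9_gt.AV.Stmts

set_option autoImplicit false

/-!
# MP_13b5d9_gt, block AV, part L (lengths): statements of the items, each with its complete proof

THEOREM.  The marked length spectra of `g` and of its companion `gb` are asymptotic in the direction
`z`: `L g (z^k a)^2 - L gb (z^k a)^2 → 0` for every `a`.  As `gb` is a product, `L gb (z^k a)^2 =
(k l + η)^2 + Λ^2` with `τ (a x) = τ x + η`, `Λ = inf_x d_gb (x, ρ x)`, `ρ x = ψ (-η) (a x)`: the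
length spectrum of `gb` is the second order term of the one of `g` at `z^k`, `k → ∞`.

See AV/Stmts.lean for the notation and the library.
-/

open MeasureTheory Set Filter Topology
open scoped ContDiff ENNReal
open Pool.Agent.Work.MP_c9f990_an.Al (IsFlow)

namespace Pool.Agent.AV

open Pool.Agent.MLS Pool.Agent.STR Pool.Agent.LQR Pool.Agent.LQT

/-- [Bm] EASY-MEDIUM (variant of StBk).  Means over many periods.  `A` is bounded by `S` on `ℝ x K` and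
uniformly continuous on `[0, l] x K`: there is `η₁ > 0` such that `z, z' ∈ K`, `‖z - z'‖ ≤ η₁` imply
`‖A r z - A r z'‖ ≤ δ/2` for all `r` (periodicity).  Let `η ≤ η₁`, `η l S ≤ δ/2`.  Cut `[0, T]` into the
blocks `[k l, (k+1) l]`, `k < N = ⌊T/l⌋`, and a rest of length `< l`.  On a block
`∫ A r (y r) = ∫ (A r (y r) - A r (y (k l)))` because `∫ A r z` over a block is `0`, so its norm is at
most `l δ/2`.  Sum: `N l δ/2 + l S ≤ T δ/2 + l S`, and `l S ≤ δ/(2η) ≤ T δ/2`. -/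
def StBm : Prop := ∀ (Z Q : Type) [NormedAddCommGroup Z] [NormedSpace ℝ Z]
  [NormedAddCommGroup Q] [NormedSpace ℝ Q] [CompleteSpace Q] (l : ℝ) (A : ℝ → Z → Q) (K : Set Z),
  0 < l → Continuous (fun p : ℝ × Z => A p.1 p.2) → (∀ r z, A (r + l) z = A r z) →
  (∀ z, ∫ r in (0 : ℝ)..l, A r z = 0) → IsCompact K → ∀ δ : ℝ, 0 < δ → ∃ η : ℝ, 0 < η ∧
  ∀ (y : ℝ → Z) (T : ℝ), 1 / η ≤ T → Continuous y → (∀ t ∈ Icc 0 T, y t ∈ K) →
  (∀ s ∈ Icc 0 T, ∀ t ∈ Icc 0 T, |s - t| ≤ l → ‖y s - y t‖ ≤ η) →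
  ‖∫ r in (0 : ℝ)..T, A r (y r)‖ ≤ δ * T

/-- [Cg] EASY (compare StCmp).  Comparison.  Let `K` be compact with `G K = R^n`.  On the compact set
`[0, l] x K x` (unit sphere) the continuous functions `(gr r).val x v v` (positive) and `gb.val x v v` are
comparable; by homogeneity in `v`, invariance (for `x` take `a` with `a x ∈ K` and `dac a x v`) and
periodicity in `r` this holds everywhere. -/
def StCg : Prop := ∀ (n : ℕ) (G : Type) [Group G] [MulAction G (E n)], Cocompact n G →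
  ∀ (l : ℝ) (gr : ℝ → Form n) (gb : Form n), 0 < l → Fam n gr → (∀ r, Inv G (gr r)) →
  (∀ r, gr (r + l) = gr r) → Inv G gb →
  ∃ C : ℝ, 0 < C ∧ ∀ r x v, gb.val x v v ≤ C * (gr r).val x v v

/-- [Fs] EASY-MEDIUM (uses StGd, StBnd).  A smooth distance.  Smooth: `IsLog.smooth`, the square root of
a smooth function `≥ δ² > 0`.  By `IsLog.dist` `f y = (gd h x y ^ 2 + δ ^ 2)^(1/2)`, so
`|f y - f y'| ≤ |gd h x y - gd h x y'| ≤ gd h y y'` (`t ↦ (t² + δ²)^(1/2)` is 1-Lipschitz, triangle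
inequality).  With `y' = y + s w`, `s > 0`: `gd h y y' ≤ ∫ 0..s, nrm h (y + r w) w dr` (`StGd`, last
part); divide by `s` and let `s → 0`: `|Df(y) w| ≤ nrm h y w`. -/
def StFs : Prop := ∀ (n : ℕ) (h : Form n) (φ : ℝ → W n → W n) (lg : E n → E n → E n), Riem h →
  IsLog h φ lg → ∀ δ : ℝ, 0 < δ →
  ContDiff ℝ ∞ (fun p : E n × E n => Real.sqrt (h.val p.1 (lg p.1 p.2) (lg p.1 p.2) + δ ^ 2)) ∧
  ∀ x y w, (fderiv ℝ (fun y => Real.sqrt (h.val x (lg x y) (lg x y) + δ ^ 2)) y w) ^ 2 ≤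
    h.val y w w

/-- [Lw] MEDIUM (uses StBm, StCg, StFs, StSi, StLog, StFlow, StGd, StProp, StBnd, StOp).  Lower bound.
WLOG `B ≥ 1`, `δ ≤ 1`.  Let `A = T ∫ 0..T, (gr t)(X', X') ≤ B`.  For `s ≤ t` in `[0, T]`
`∫ s..t, nrm gb (X') ≤ ((t - s) ∫ gb (X', X'))^(1/2) ≤ ((t - s) C B / T)^(1/2)` (`StCg`, Cauchy-Schwarz).
So `gd gb (X 0) (X t) ≤ R = (C B)^(1/2)` for all `t`, so `X t` is in a compact `K'` (`StProp`), and
`‖X s - X t‖ ≤ ∫ ‖X'‖ ≤ C' ((t - s) C B / T)^(1/2)` (`StBnd` on `K'`).  Let `φ`, `lg` be from `StFlow`,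
`StLog`, `δ₁ > 0` with `4 δ₁ R ≤ δ/2`, `f_x y = (gb (lg x y, lg x y) + δ₁²)^(1/2)`, `π (x, y)` the vector
with `inner π w = Df_x(y) w` (jointly continuous, `StFs`).  `q r (x, y) = inner π (iop (gr r) y π)` is
continuous and periodic, its mean is `inner π (iop gb y π) ≤ 1` (take `w = iop gb y π` in `StFs`:
`(inner π w)² ≤ gb (w, w) = inner π w`).  `StBm` with `Z = E n x E n`, `y t = (X 0, X t)`, `K x K'`,
`A = q - mean`, `δ₂ = δ/(2 R² + 2)`, gives for large `T` `∫ 0..T, q t (X 0, X t) ≤ (1 + δ₂) T`.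
Young: `inner π w ≤ (μ/(2T)) inner π (iop (gr t) π) + (T/(2μ)) (gr t)(w, w)` for `μ > 0` (from
`0 ≤ (gr t)(w - (μ/T) iop π, ..)`).  With `w = X'` and integration
`f (X T) - f (X 0) ≤ (μ/2)(1 + δ₂) + A/(2μ)`.  `f_x x = δ₁` (`lg x x = 0`: its norm is `gd gb x x = 0`),
`f ≥ D = gd gb (X 0) (X T)`.  If `D = 0` there is nothing to prove (`A ≥ 0`); else `μ = D ≤ R`:
`2 D² - 2 δ₁ D ≤ D² (1 + δ₂) + A`, so `D² ≤ A + 2 δ₁ R + δ₂ R² ≤ A + δ`. -/
def StLw : Prop := ∀ (n : ℕ) (G : Type) [Group G] [MulAction G (E n)], Cocompact n G →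
  ∀ (l : ℝ) (gr : ℝ → Form n) (gb : Form n), 0 < l → Fam n gr → (∀ r, Inv G (gr r)) →
  (∀ r, gr (r + l) = gr r) → Riem gb → Inv G gb → NoConj gb →
  (∀ x, iop gb x = l⁻¹ • ∫ r in (0 : ℝ)..l, iop (gr r) x) →
  ∀ (K : Set (E n)) (B δ : ℝ), IsCompact K → 0 < δ → ∃ T₀ : ℝ, 0 < T₀ ∧ ∀ T : ℝ, T₀ ≤ T →
  ∀ X : ℝ → E n, ContDiff ℝ 1 X → X 0 ∈ K →
  T * (∫ t in (0 : ℝ)..T, (gr t).val (X t) (deriv X t) (deriv X t)) ≤ B →
  gd gb (X 0) (X T) ^ 2 ≤
    T * (∫ t in (0 : ℝ)..T, (gr t).val (X t) (deriv X t) (deriv X t)) + δ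

/-- [Pd] EASY-MEDIUM (uses TEh, StFlow, StLog, NcGx, NcExp).  Distances in the product.  Let `φ` be the
flow, `lg` the logarithm, `w = lg x y`.  By `TEh` `τ y = τ x + h (V x, w)`, so `h (V x, w) = 0`.  Claim:
`ψ t y = expo φ h x (w + t • V x)`.  Let `c s = ψ (s t) (expo φ h x (s w))`, so `c 0 = x`, `c 1 = ψ t y`,
`c' 0 = t V x + w`.  It is a geodesic: `ψ r` maps geodesics to geodesics and preserves `h` (`TIs`); more
directly: `γ s = expo (s w)`, `c' = t V(c) + Dψ_(st)(γ) γ'` and for both summands the covariant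
derivative along `c` vanishes.  Alternative: `THE PRODUCT`: by `TPS` and `Sp` (`n = m + 1`) `h` is a
Riemannian product of `R^m` and the line in which `ψ t` is the translation; there the distance is
`(d² + t²)^(1/2)` (project paths: `length ≥ ((length of the projection)² + t²)^(1/2)`, and for `≤` take
the product of almost minimal paths).  A third way, with `gd` only: `≤`: for a path from `x` to `y` of
length `m` run it with `ψ` rising linearly; `≥`: for a `C^1` curve `c` from `x` to `ψ t y` the curve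
`e s = ψ (-(τ (c s) - τ x)) (c s)` goes from `x` to `y`, and by `TIs` `h (c', c') = h (e', e') +
(τ ∘ c)'^2`; so `length c ≥ ((length e)² + t²)^(1/2)` (`∫ (u² + v²)^(1/2) ≥ ((∫ u)² + (∫ v)²)^(1/2)`).
Then `gd h x (ψ t y)² = h (w + t V, w + t V) = h (w, w) + t²`. -/
def StPd : Prop := ∀ (n : ℕ) (G : Type) [Group G] [MulAction G (E n)], Cocompact n G →
  ∀ h : Form n, Riem h → Inv G h → NoConj h → ∀ (z : G) (l : ℝ) (V : E n → E n) (τ : E n → ℝ)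
  (ψ : ℝ → E n → E n), Axis n G h z l V τ ψ → (∀ x u, fderiv ℝ V x u + Ga h x u (V x) = 0) →
  ∀ (x y : E n) (t : ℝ), τ x = τ y → gd h x (ψ t y) ^ 2 = gd h x y ^ 2 + t ^ 2

/-- [Ub] EASY-MEDIUM (uses StCp, StEn, StLd, StGd, StFlow, StLog, StGeo1).  Upper bound.  Let
`y = ψ (-η) (a x)`, `Y s = expo φ gb x (s • lg x y)` (`C^1`, from `x` to `y`,
`∫ 0..1, gb (Y', Y') = gd gb x y ^ 2`: constant speed, `IsLog.dist`), `T = k l + η`, large, `ε = 1/T`.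
`StCp` (`a = 0`, `b = 1`, `p = x`, `q = y`) gives `X` from `x` to `y` on `[0, T]` with
`T ∫ 0..T, (gr t)(X', X') ≤ gd gb x y ^ 2 + δ`.  `c t = ψ t (X t)` goes from `x` to `ψ T y = ψ (k l) (a x)
= z^k a x` (`period`, `add`, induction on `k`).  `τ y = τ x` (`height`), so by `StEn`
`T ∫ g (c', c') = T² + T ∫ (gr t)(X', X')`; `L g (z^k a) ≤ gd g x (z^k a x) ≤ ∫ nrm (c') ≤
(T ∫ g (c', c'))^(1/2)` (`StLd`, `StGd`, Cauchy-Schwarz). -/
def StUb : Prop := ∀ (n : ℕ) (G : Type) [Group G] [MulAction G (E n)], Cocompact n G →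
  ∀ g : Form n, Riem g → Inv G g → ∀ (z : G) (l : ℝ) (V : E n → E n) (τ : E n → ℝ)
  (ψ : ℝ → E n → E n), Axis n G g z l V τ ψ → ∀ (gr : ℝ → Form n) (gb : Form n),
  Avg n G g l ψ gr gb → NoConj gb → ∀ (a : G) (η : ℝ), (∀ x, τ (a • x) = τ x + η) →
  ∀ (x : E n) (δ : ℝ), 0 < δ → ∃ k₀ : ℕ, ∀ k ≥ k₀,
  L g (z ^ k * a) ^ 2 ≤ (k * l + η) ^ 2 + gd gb x (ψ (-η) (a • x)) ^ 2 + δ

/-- [Ll] MEDIUM (uses StLw, StEn, StLd, StInvD, StFlow, NcInj, NcDist, NcGx, StGeo1).  Lower bound.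
By `StLd` it is enough that `(k l + η)² + Λ² - δ ≤ gd g x (z^k a x)²` for all `x` and `k ≥ k₀` (if the
left side is negative there is nothing to prove; use `Real.sqrt`).  Let `K` be compact with
`G K = R^n`, `T₀` from `StLw` for `K`, `B = Λ²`, `T = k l + η ≥ T₀`.  Let `x` be given, `b x ∈ K`, and
`c t = expo φ g x ((t/T) • v)` with `expo φ g x v = z^k a x`, `nrm g x v = D = gd g x (z^k a x)`
(`NcInj`, `NcDist`; a geodesic, so `C^1`, of speed `D/T`).  Suppose `D² < T² + Λ²`.  `X t =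
b • ψ (-t) (c t)`, `X 0 = b x ∈ K`, `X T = b • ψ (-η) (a x)` (`ψ (-T) (z^k a x) = ψ (-η) (a x)`).
`T ∫ 0..T, g (c', c') = D²`, and by `StEn` (for `ψ (-t) (c t)`, whose `τ` agrees at both ends; `Inv` of
`gr t` for `b`) `T ∫ (gr t)(X', X') = D² - T² ≤ Λ²`.  `StLw`: `Λ² ≤ gd gb x (ψ (-η) (a x))² =
gd gb (X 0) (X T)² ≤ D² - T² + δ` (`StInvD`). -/
def StLl : Prop := ∀ (n : ℕ) (G : Type) [Group G] [MulAction G (E n)], Cocompact n G →
  ∀ g : Form n, Riem g → Inv G g → NoConj g → ∀ (z : G) (l : ℝ) (V : E n → E n) (τ : E n → ℝ)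
  (ψ : ℝ → E n → E n), Axis n G g z l V τ ψ → ∀ (gr : ℝ → Form n) (gb : Form n),
  Avg n G g l ψ gr gb → NoConj gb → ∀ (a : G) (η : ℝ), (∀ x, τ (a • x) = τ x + η) →
  ∀ Λ : ℝ, 0 ≤ Λ → (∀ x, Λ ≤ gd gb x (ψ (-η) (a • x))) → ∀ δ : ℝ, 0 < δ → ∃ k₀ : ℕ, ∀ k ≥ k₀,
  (k * l + η) ^ 2 + Λ ^ 2 ≤ L g (z ^ k * a) ^ 2 + δ

/-- [Ls] EASY-MEDIUM (uses StPa, StPd, StUb, StLl, StLd).  The limit.  Let `τ (a x) = τ x + η`
(`Axis.deck`), `Λ` = infimum over `x` of `gd gb x (ψ (-η) (a x))`.  `z^k a x = ψ (k l + η) (ψ (-η) (a x))`, so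
by `StPd` (hypotheses from `StPa`) `gd gb x (z^k a x)² = gd gb x (ψ (-η) (a x))² + (k l + η)²`, and by
`StLd` `L gb (z^k a)² = Λ² + (k l + η)²`.  `StUb` for an `x` with `gd gb x (..)² ≤ Λ² + δ`, and `StLl`. -/
def StLs : Prop := ∀ (n : ℕ) (G : Type) [Group G] [MulAction G (E n)], Cocompact n G →
  ∀ g : Form n, Riem g → Inv G g → NoConj g → ∀ (z : G) (l : ℝ) (V : E n → E n) (τ : E n → ℝ)
  (ψ : ℝ → E n → E n), Axis n G g z l V τ ψ → ∀ (gr : ℝ → Form n) (gb : Form n),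
  Avg n G g l ψ gr gb → NoConj gb → ∀ a : G,
  Tendsto (fun k : ℕ => L g (z ^ k * a) ^ 2 - L gb (z ^ k * a) ^ 2) atTop (𝓝 0)

end Pool.Agent.AV
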