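import Mathlib
import Pool.Agent.Work.MP_13b5d9_gt.AV.StmtsL
import Pool.Agent.Work.MP_25cd3b_gt.NC.Stmts

set_option autoImplicit false

/-!
# MP_13b5d9_gt, block AV, item Ll: lower bound for the marked length spectrum
-/

open MeasureTheory Set Filter Topology
open scoped ContDiff ENNReal
open Pool.Agent.Work.MP_c9f990_an.Al (IsFlow)

namespace Pool.Agent.AV

open Pool.Agent.MLS Pool.Agent.STR Pool.Agent.LQR Pool.Agent.LQT

namespace ILl

theorem period_pow {n : ℕ} {G : Type} [Group G] [MulAction G (E n)] {g : Form n} {z : G} {l : ℝ}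
    {V : E n → E n} {τ : E n → ℝ} {ψ : ℝ → E n → E n} (hA : Axis n G g z l V τ ψ) (k : ℕ)
    (x : E n) : ψ (k * l) x = z ^ k • x := by
  induction k with
  | zero => simp [hA.zero]
  | succ k ih =>
    have h1 : ((k + 1 : ℕ) : ℝ) * l = l + k * l := by push_cast; ring
    rw [h1, hA.add, ih, hA.period, smul_smul, ← pow_succ']

/-- the geodesic from `x` to `expo v` run in time `T` -/
theorem curve (hGeo1 : StGeo1) (hOp : StOp) (hExp : NcExp) {n : ℕ} {g : Form n} (hg : Riem g)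
    {φ : ℝ → W n → W n} {M : ℝ → W n → W n →L[ℝ] W n} (hφ : IsFlow (XH (Hm g)) φ M)
    (x v : E n) {T : ℝ} (hT : 0 < T) :
    ∃ c : ℝ → E n, ContDiff ℝ 1 c ∧ c 0 = x ∧ c T = expo φ g x v ∧
      ∀ t, g.val (c t) (deriv c t) (deriv c t) = T⁻¹ ^ 2 * nrm g x v ^ 2 := by
  obtain ⟨hgeo, hder, hcon⟩ := hGeo1 n g hg (fun t => φ t (x, op g x v)) (fun t => hφ.ode _ t)
  obtain ⟨-, -, h3, h4, -, -, -, -, h9⟩ := hOp n g hg
  obtain ⟨-, -, he, -, he0⟩ := hExp n g φ M hg hφ x
  refine ⟨fun t => (φ (T⁻¹ * t) (x, op g x v)).1, ?_, ?_, ?_, ?_⟩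
  · have h1 : ContDiff ℝ 1 (fun t => (φ t (x, op g x v)).1) := hgeo.smooth.of_le (by norm_num)
    exact h1.comp (contDiff_const.mul contDiff_id)
  · show (φ (T⁻¹ * 0) (x, op g x v)).1 = x
    rw [mul_zero, hφ.zero]
  · show (φ (T⁻¹ * T) (x, op g x v)).1 = _
    rw [inv_mul_cancel₀ hT.ne']
    rfl
  · intro t
    have h1 : deriv (fun t => (φ (T⁻¹ * t) (x, op g x v)).1) t =
        T⁻¹ • vel g (φ (T⁻¹ * t) (x, op g x v)) := by
      have h2 := deriv_comp_mul_left T⁻¹ (fun t => (φ t (x, op g x v)).1) t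
      rw [hder] at h2
      exact h2
    have h5 : g.val (φ (T⁻¹ * t) (x, op g x v)).1 (vel g (φ (T⁻¹ * t) (x, op g x v)))
        (vel g (φ (T⁻¹ * t) (x, op g x v))) = g.val x v v := by
      have e1 := h9 (φ (T⁻¹ * t) (x, op g x v))
      have e2 := h9 (x, op g x v)
      have e3 : Hm g (φ (T⁻¹ * t) (x, op g x v)) = Hm g (φ 0 (x, op g x v)) := hcon _
      rw [hφ.zero] at e3
      have e4 : vel g (x, op g x v) = v := h3 x v
      rw [e4] at e2
      rw [e1, e2] at e3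
      linarith
    rw [h1]
    simp only [map_smul, smul_apply, smul_eq_mul]
    rw [h5, nrm, Real.sq_sqrt (g.nonneg x v)]
    ring

end ILl

open ILl in
/-- Item Ll. -/
theorem pr_Ll (hLw : StLw) (hEn : StEn) (hLd : StLd) (hInvD : StInvD) (hFlow : StFlow)
    (hInj : NcInj) (hDist : NcDist) (hExp : NcExp) (hGeo1 : StGeo1) (hOp : StOp)
    (hGd : StGd) : StLl := by
  intro n G _ _ hG g hg hI hN z l V τ ψ hA gr gb hAv hNb a η hη Λ hΛ0 hΛ δ hδ
  obtain ⟨K, hK, hKG⟩ := hG.cocompact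
  obtain ⟨T₀, hT₀, hTT⟩ := hLw n G hG l gr gb hA.pos hAv.fam hAv.inv hAv.per hAv.riemb hAv.invb
    hNb hAv.mean K (Λ ^ 2) δ hK hδ
  obtain ⟨φ, M, hφ⟩ := hFlow n G hG g hg hI
  refine ⟨⌈(T₀ - η) / l⌉₊, fun k hk => ?_⟩
  set T : ℝ := k * l + η with hTdef
  have hT : T₀ ≤ T := by
    have h1 : (T₀ - η) / l ≤ k := (Nat.le_ceil _).trans (by exact_mod_cast hk)
    rw [div_le_iff₀ hA.pos] at h1
    linarith
  have hTpos : 0 < T := hT₀.trans_le hT
  have key : ∀ x, T ^ 2 + Λ ^ 2 - δ ≤ gd g x ((z ^ k * a) • x) ^ 2 := by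
    intro x
    by_contra hcon
    push Not at hcon
    obtain ⟨hbij, hnrm⟩ := hDist n g φ M hg hφ x (hInj n g φ M hg hφ hN x)
    obtain ⟨v, hv⟩ := hbij.2 ((z ^ k * a) • x)
    obtain ⟨b, hb⟩ := hKG x
    obtain ⟨c, hc1, hc0, hcT, hcE⟩ := curve hGeo1 hOp hExp hg hφ x v hTpos
    set D : ℝ := gd g x ((z ^ k * a) • x) with hD
    have hDv : nrm g x v = D := by rw [hD, ← hv, hnrm]
    rw [hDv] at hcE
    -- the curve in the rotating frame
    let Y : ℝ → E n := fun t => ψ (-t) (c t)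
    have hY : ContDiff ℝ 1 Y := by
      have h1 : ContDiff ℝ 1 (fun p : ℝ × E n => ψ p.1 p.2) := hA.smoothF.of_le (by simp)
      exact h1.comp (contDiff_id.neg.prodMk hc1)
    have hYc : ∀ t, ψ t (Y t) = c t := by
      intro t
      show ψ t (ψ (-t) (c t)) = c t
      rw [← hA.add, add_neg_cancel, hA.zero]
    have hY0 : Y 0 = x := by
      show ψ (-0) (c 0) = x
      rw [neg_zero, hA.zero, hc0]
    have hza : (z ^ k * a) • x = ψ (k * l) (a • x) := by
      rw [period_pow hA, mul_smul]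
    have hYT : Y T = ψ (-η) (a • x) := by
      show ψ (-T) (c T) = _
      rw [hcT, hv, hza, ← hA.add]
      congr 1
      rw [hTdef]
      ring
    have hτY : τ (Y T) = τ (Y 0) := by
      rw [hYT, hY0, hA.height, hη]
      ring
    obtain ⟨-, hE⟩ := hEn n G g z l V τ ψ gr hA hAv.fam hAv.pull Y hY
    have hE1 := hE 0 T
    simp only [hYc] at hE1
    rw [hτY] at hE1
    have hE2 : (∫ t in (0 : ℝ)..T, g.val (c t) (deriv (fun t => c t) t) (deriv (fun t => c t) t)) =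
        T * (T⁻¹ ^ 2 * D ^ 2) := by
      rw [intervalIntegral.integral_congr (g := fun _ => T⁻¹ ^ 2 * D ^ 2) (fun t _ => hcE t),
        intervalIntegral.integral_const, sub_zero, smul_eq_mul]
    rw [hE2] at hE1
    -- the translated curve
    let X : ℝ → E n := fun t => b • Y t
    have hX : ContDiff ℝ 1 X := ((hG.smooth b).of_le (by simp)).comp hY
    have hX' : ∀ t, deriv X t = dac b (Y t) (deriv Y t) := by
      intro t
      have h1 : HasFDerivAt (fun y : E n => b • y) (dac b (Y t)) (Y t) :=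
        (((hG.smooth b).differentiable (by simp)) (Y t)).hasFDerivAt
      have h2 : HasDerivAt Y (deriv Y t) t := (hY.differentiable (by norm_num) t).hasDerivAt
      exact (h1.comp_hasDerivAt t h2).deriv
    have hXE : (∫ t in (0 : ℝ)..T, (gr t).val (X t) (deriv X t) (deriv X t)) =
        ∫ t in (0 : ℝ)..T, (gr t).val (Y t) (deriv Y t) (deriv Y t) := by
      apply intervalIntegral.integral_congr
      intro t _
      show (gr t).val (X t) (deriv X t) (deriv X t) = (gr t).val (Y t) (deriv Y t) (deriv Y t)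
      rw [hX']
      exact hAv.inv t b (Y t) _ _
    have hX0 : X 0 ∈ K := by
      show b • Y 0 ∈ K
      rw [hY0]
      exact hb
    have hTI : T * (∫ t in (0 : ℝ)..T, (gr t).val (X t) (deriv X t) (deriv X t)) =
        D ^ 2 - T ^ 2 := by
      rw [hXE]
      have h1 : T * (T * (T⁻¹ ^ 2 * D ^ 2)) = D ^ 2 := by
        field_simp
      have h2 : T * (T * (T⁻¹ ^ 2 * D ^ 2)) = T * ((T - 0) + 2 * (τ (Y 0) - τ (Y 0)) +
          ∫ t in (0 : ℝ)..T, (gr t).val (Y t) (deriv Y t) (deriv Y t)) := by rw [hE1]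
      rw [h1] at h2
      linear_combination -h2
    have hfin := hTT T hT X hX hX0 (by rw [hTI]; nlinarith)
    rw [hTI] at hfin
    have hgd : gd gb (X 0) (X T) = gd gb x (ψ (-η) (a • x)) := by
      show gd gb (b • Y 0) (b • Y T) = _
      rw [(hInvD n G hG gb hAv.invb).2, hY0, hYT]
    rw [hgd] at hfin
    have h3 := hΛ x
    nlinarith
  have h1 : Real.sqrt (T ^ 2 + Λ ^ 2 - δ) ≤ L g (z ^ k * a) := by
    apply (hLd n G g (z ^ k * a)).2
    intro x
    rw [Real.sqrt_le_iff]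
    exact ⟨(hGd n g).2.1.nonneg _ _, key x⟩
  by_cases h0 : 0 ≤ T ^ 2 + Λ ^ 2 - δ
  · have h2 := Real.sq_sqrt h0
    have h3 := Real.sqrt_nonneg (T ^ 2 + Λ ^ 2 - δ)
    nlinarith
  · nlinarith [sq_nonneg (L g (z ^ k * a))]

end Pool.Agent.AV
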