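import Pool.Agent.Work.MP_13b5d9_gt.AV.Stmts

set_option autoImplicit false

/-!
# MP_13b5d9_gt, block AV, item Lm: limits of geodesics
-/

open MeasureTheory Set Filter Topology
open scoped ContDiff ENNReal
open Pool.Agent.Work.MP_c9f990_an.Al (IsFlow)

namespace Pool.Agent.AV

open Pool.Agent.MLS Pool.Agent.STR Pool.Agent.LQR Pool.Agent.LQT

namespace ILm

theorem pair_mean {Y : Type} [NormedAddCommGroup Y] [NormedSpace ℝ Y] [CompleteSpace Y] (l : ℝ)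
    (f : ℝ → Y) (h : ℝ → ℝ) (hf : Continuous f) (hh : Continuous h) :
    (l⁻¹ • ∫ r in (0 : ℝ)..l, f r, l⁻¹ * ∫ r in (0 : ℝ)..l, h r) =
      l⁻¹ • ∫ r in (0 : ℝ)..l, ((f r, h r) : Y × ℝ) := by
  have hc : Continuous fun r => ((f r, h r) : Y × ℝ) := hf.prodMk hh
  have hi : IntervalIntegrable (fun r => ((f r, h r) : Y × ℝ)) volume 0 l :=
    hc.intervalIntegrable 0 l
  have h1 := (ContinuousLinearMap.fst ℝ Y ℝ).intervalIntegral_comp_comm hi
  have h2 := (ContinuousLinearMap.snd ℝ Y ℝ).intervalIntegral_comp_comm hi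
  have h1' : ∫ r in (0 : ℝ)..l, f r = (∫ r in (0 : ℝ)..l, ((f r, h r) : Y × ℝ)).1 := h1
  have h2' : ∫ r in (0 : ℝ)..l, h r = (∫ r in (0 : ℝ)..l, ((f r, h r) : Y × ℝ)).2 := h2
  rw [h1', h2']
  rfl

theorem gk1 {n : ℕ} {Y : Type} [TopologicalSpace Y] (f : ℝ → W n → Y)
    (m : Continuous (fun p : ℝ × W n => f p.1 p.2)) :
    Continuous (fun p : ℝ × (W n × ℝ) => f p.1 p.2.1) := by
  have c1 : Continuous (fun p : ℝ × (W n × ℝ) => ((p.1, p.2.1) : ℝ × W n)) := by fun_prop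
  exact m.comp c1

theorem gk2 {n : ℕ} {Y : Type} [TopologicalSpace Y] (f : ℝ → W n → Y)
    (m : Continuous (fun p : ℝ × W n => f p.1 p.2)) (y : ℝ → W n) (hy : Continuous y) :
    Continuous (fun r : ℝ => f r (y r)) := by
  have c1 : Continuous (fun r : ℝ => ((r, y r) : ℝ × W n)) := by fun_prop
  exact m.comp c1

end ILm

/-- Limits of geodesics. -/
theorem pr_Lm (hOd : StOd) (hMn : StMn) (hFr : StFr) (hHa : StHa) (hFlow : StFlow)
    (hGeo1 : StGeo1) (hTr0 : StTr0) (hOp : StOp) : StLm := by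
  intro n G _ _ hcc g hR hI z l V τ ψ hA gr gb hAvg φ M hφ z0 δ hδ
  obtain ⟨φg, Mg, hφg⟩ := hFlow n G hcc g hR hI
  obtain ⟨m1, m2, m3, m4⟩ := hMn n l gr gb hA.pos hAvg.fam hAvg.riemb hAvg.mean
  obtain ⟨_, _, _, _, _, _, _, hHsm, _⟩ := hOp n gb hAvg.riemb
  have hXsm : ContDiff ℝ ∞ (XH (Hm gb)) := (hTr0 n (Hm gb) hHsm).1
  have hzb : ∀ t, HasDerivAt (fun s => φ s z0) (XH (Hm gb) (φ t z0)) t := hφ.ode z0
  have hcons : ∀ t, Hm gb (φ t z0) = Hm gb z0 := by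
    intro t
    have h1 := (hGeo1 n gb hAvg.riemb (fun s => φ s z0) hzb).2.2 t
    have h2 : φ 0 z0 = z0 := hφ.zero z0
    rw [h2] at h1
    exact h1
  have hper : ∀ (r : ℝ) (q : W n × ℝ),
      (XH (Hm (gr (r + l))) q.1, Hm (gr (r + l)) q.1) = (XH (Hm (gr r)) q.1, Hm (gr r) q.1) := by
    intro r q
    rw [hAvg.per r]
  have k1 : Continuous (fun p : ℝ × (W n × ℝ) => XH (Hm (gr p.1)) p.2.1) :=
    ILm.gk1 (fun r w => XH (Hm (gr r)) w) m2
  have k2 : Continuous (fun p : ℝ × (W n × ℝ) => Hm (gr p.1) p.2.1) :=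
    ILm.gk1 (fun r w => Hm (gr r) w) m1
  have k3 : ∀ w : W n, Continuous (fun r : ℝ => XH (Hm (gr r)) w) := fun w =>
    ILm.gk2 (fun r w => XH (Hm (gr r)) w) m2 (fun _ => w) continuous_const
  have k4 : ∀ w : W n, Continuous (fun r : ℝ => Hm (gr r) w) := fun w =>
    ILm.gk2 (fun r w => Hm (gr r) w) m1 (fun _ => w) continuous_const
  obtain ⟨ε₀, hε₀, hmain⟩ := hOd (W n × ℝ) l
    (fun r q => (XH (Hm (gr r)) q.1, Hm (gr r) q.1))
    (fun q => (XH (Hm gb) q.1, Hm gb q.1)) (fun t => (φ t z0, t * Hm gb z0)) hA.pos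
    (k1.prodMk k2)
    (((hXsm.of_le (by exact_mod_cast le_top)).comp contDiff_fst).prodMk
      ((hHsm.of_le (by exact_mod_cast le_top)).comp contDiff_fst))
    hper
    (by
      intro q
      show (XH (Hm gb) q.1, Hm gb q.1) = _
      rw [m3 q.1, m4 q.1]
      exact ILm.pair_mean l (fun r => XH (Hm (gr r)) q.1) (fun r => Hm (gr r) q.1)
        (k3 q.1) (k4 q.1))
    (by
      intro t
      have h1 : HasDerivAt (fun s : ℝ => s * Hm gb z0) (1 * Hm gb z0) t :=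
        (hasDerivAt_id t).mul_const (Hm gb z0)
      have h2 := (hzb t).prodMk h1
      rw [one_mul] at h2
      show HasDerivAt (fun s => (φ s z0, s * Hm gb z0)) (XH (Hm gb) (φ t z0), Hm gb (φ t z0)) t
      rw [hcons t]
      exact h2)
    δ hδ
  refine ⟨ε₀, hε₀, fun ε hε hεlt => ?_⟩
  obtain ⟨_, _, o3, o4, _, _, _, _, _⟩ := hOp n g hR
  set w0 : W n := (z0.1, op g z0.1 (V z0.1) + ε • z0.2) with hw0
  have hz1 : ∀ t, HasDerivAt (fun s => φg s w0) (XH (Hm g) (φg t w0)) t := hφg.ode w0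
  obtain ⟨hgeo, hder, _⟩ := hGeo1 n g hR (fun s => φg s w0) hz1
  set c : ℝ → E n := fun t => (φg t w0).1 with hc
  have hc0 : c 0 = z0.1 := by
    show (φg 0 w0).1 = z0.1
    rw [hφg.zero w0]
  have hdc0 : deriv c 0 = V z0.1 + ε • iop g z0.1 z0.2 := by
    have h1 := hder 0
    have h2 : φg 0 w0 = w0 := hφg.zero w0
    rw [h2] at h1
    rw [h1]
    show iop g z0.1 (op g z0.1 (V z0.1) + ε • z0.2) = _
    rw [map_add, map_smul, o3]
  set X : ℝ → E n := fun t => ψ (-t) (c t) with hX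
  obtain ⟨hX2, hcX, hdX, hEL⟩ := hFr n G g z l V τ ψ gr hA hAvg.fam hAvg.pull c hgeo X
    (fun t => rfl)
  have hψ0 : ψ 0 = id := funext hA.zero
  have hX0 : X 0 = z0.1 := by
    show ψ (-0) (c 0) = z0.1
    rw [neg_zero, hA.zero, hc0]
  have hdX0 : deriv X 0 = ε • iop g z0.1 z0.2 := by
    have h1 := hdX 0
    rw [hdc0, hc0, hψ0, fderiv_id] at h1
    have h2 : V z0.1 + ε • iop g z0.1 z0.2 = V z0.1 + deriv X 0 := h1
    exact (add_left_cancel h2).symm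
  have hgr0 : gr 0 = g := by
    refine Form.ext (funext fun x => ?_)
    ext u v
    rw [hAvg.pull 0 x u v, hψ0, fderiv_id]
    rfl
  obtain ⟨hy, hE⟩ := hHa n gr hAvg.fam X ε hε hX2 hEL
  set y : ℝ → W n := fun s => (X s, ε⁻¹ • op (gr s) (X s) (deriv X s)) with hydef
  have hy0 : y 0 = z0 := by
    show (X 0, ε⁻¹ • op (gr 0) (X 0) (deriv X 0)) = z0
    rw [hgr0, hX0, hdX0, map_smul, o4, smul_smul, inv_mul_cancel₀ hε.ne', one_smul]
  have hyc : Continuous y := continuous_iff_continuousAt.mpr fun t => (hy t).continuousAt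
  have hHc : Continuous fun r => Hm (gr r) (y r) :=
    ILm.gk2 (fun r w => Hm (gr r) w) m1 y hyc
  have hYd : ∀ t, HasDerivAt (fun t => ((y t, ε * ∫ r in (0 : ℝ)..t, Hm (gr r) (y r)) : W n × ℝ))
      (ε • ((XH (Hm (gr t)) (y t), Hm (gr t) (y t)) : W n × ℝ)) t := by
    intro t
    have h1 : HasDerivAt (fun u => ∫ r in (0 : ℝ)..u, Hm (gr r) (y r)) (Hm (gr t) (y t)) t :=
      intervalIntegral.integral_hasDerivAt_right (hHc.intervalIntegrable _ _)
        (hHc.stronglyMeasurableAtFilter _ _) hHc.continuousAt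
    exact (hy t).prodMk (h1.const_mul ε)
  have hfin := hmain ε hε hεlt (fun t => (y t, ε * ∫ r in (0 : ℝ)..t, Hm (gr r) (y r))) hYd
    (by
      show (y 0, ε * ∫ r in (0 : ℝ)..0, Hm (gr r) (y r)) = (φ 0 z0, 0 * Hm gb z0)
      rw [hy0, intervalIntegral.integral_same, mul_zero, zero_mul, hφ.zero])
    (1 / ε) ⟨by positivity, le_rfl⟩
  have hone : ε * (1 / ε) = 1 := mul_one_div_cancel hε.ne'
  rw [hone] at hfin
  have hfin' : ‖((y (1 / ε), ε * ∫ r in (0 : ℝ)..(1 / ε), Hm (gr r) (y r)) : W n × ℝ) -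
      (φ 1 z0, 1 * Hm gb z0)‖ ≤ δ := hfin
  refine ⟨c, X, hgeo, hc0, hX2.of_le (by norm_num), hX0, hcX, ?_, ?_⟩
  · have h1 : ‖y (1 / ε) - φ 1 z0‖ ≤ δ := (norm_fst_le _).trans hfin'
    exact (norm_fst_le (y (1 / ε) - φ 1 z0)).trans h1
  · have h1 : ‖(ε * ∫ r in (0 : ℝ)..(1 / ε), Hm (gr r) (y r)) - 1 * Hm gb z0‖ ≤ δ :=
      (norm_snd_le _).trans hfin'
    rw [one_mul, Real.norm_eq_abs] at h1
    have h2 : ε⁻¹ * (1 / 2 * ∫ t in (0 : ℝ)..(1 / ε),
        (gr t).val (X t) (deriv X t) (deriv X t)) =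
        ε * ∫ r in (0 : ℝ)..(1 / ε), Hm (gr r) (y r) := by
      have h3 : ∀ t, (gr t).val (X t) (deriv X t) (deriv X t) = 2 * ε ^ 2 * Hm (gr t) (y t) := hE
      simp_rw [h3]
      rw [intervalIntegral.integral_const_mul]
      field_simp
    rw [h2]
    exact h1

end Pool.Agent.AV
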