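import Pool.Agent.Work.MP_13b5d9_gt.AV.StmtsL

set_option autoImplicit false

/-!
# MP_13b5d9_gt, block AV, part L: the limit of the difference of the marked length spectra
-/

open MeasureTheory Set Filter Topology
open scoped ContDiff ENNReal
open Pool.Agent.Work.MP_c9f990_an.Al (IsFlow)

namespace Pool.Agent.AV

open Pool.Agent.MLS Pool.Agent.STR Pool.Agent.LQR Pool.Agent.LQT

namespace ILs

/-- the powers of `z` act as the flow -/
theorem pow_act {n : ℕ} {G : Type} [Group G] [MulAction G (E n)] {g : Form n} {z : G} {l : ℝ}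
    {V : E n → E n} {τ : E n → ℝ} {ψ : ℝ → E n → E n} (hA : Axis n G g z l V τ ψ) (k : ℕ)
    (x : E n) : z ^ k • x = ψ (k * l) x := by
  induction k with
  | zero => simp [hA.zero]
  | succ k ih =>
    rw [pow_succ', mul_smul, ih, ← hA.period, ← hA.add]
    congr 1
    push_cast
    ring

theorem main {T Λ Lg Lb D δ : ℝ} (hLb0 : 0 ≤ Lb) (hD : D ^ 2 ≤ Λ ^ 2 + δ)
    (h1 : Lg ^ 2 ≤ T ^ 2 + D ^ 2 + δ) (h2 : T ^ 2 + Λ ^ 2 ≤ Lg ^ 2 + δ)
    (h3 : Real.sqrt (Λ ^ 2 + T ^ 2) ≤ Lb) (h4 : Lb ^ 2 ≤ D ^ 2 + T ^ 2) :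
    |Lg ^ 2 - Lb ^ 2| ≤ 2 * δ := by
  have h5 : Λ ^ 2 + T ^ 2 ≤ Lb ^ 2 := (Real.sqrt_le_left hLb0).1 h3
  rw [abs_le]
  constructor <;> linarith

end ILs

open ILs in
/-- the marked length spectra of `g` and `gb` are asymptotic in the direction `z` -/
theorem pr_Ls (hPa : StPa) (hPd : StPd) (hUb : StUb) (hLl : StLl) (hLd : StLd) (hGd : StGd) :
    StLs := by
  intro n G _ _ hG g hg hgi hnc z l V τ ψ hA gr gb hAvg hncb a
  obtain ⟨η, hη⟩ := hA.deck a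
  obtain ⟨hAb, hpar⟩ := hPa n G g z l V τ ψ gr gb hg hA hAvg
  have hnn : ∀ x y, 0 ≤ gd gb x y := (hGd n gb).2.1.1
  -- the distance in the slice
  set D : E n → ℝ := fun x => gd gb x (ψ (-η) (a • x)) with hDdef
  have hD0 : ∀ x, 0 ≤ D x := fun x => hnn _ _
  have hbdd : BddBelow (Set.range D) := ⟨0, by rintro _ ⟨x, rfl⟩; exact hD0 x⟩
  set Λ : ℝ := ⨅ x, D x with hΛ
  have hΛ0 : 0 ≤ Λ := le_ciInf hD0
  have hΛD : ∀ x, Λ ≤ D x := fun x => ciInf_le hbdd x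
  have hdist : ∀ (k : ℕ) (x : E n), gd gb x ((z ^ k * a) • x) ^ 2 =
      D x ^ 2 + (k * l + η) ^ 2 := by
    intro k x
    have h1 : (z ^ k * a) • x = ψ (k * l + η) (ψ (-η) (a • x)) := by
      rw [mul_smul, pow_act hA, ← hA.add]
      congr 1
      ring
    rw [h1]
    refine hPd n G hG gb hAvg.riemb hAvg.invb hncb z l V τ ψ hAb hpar x _ _ ?_
    rw [hA.height, hη]
    ring
  rw [Metric.tendsto_atTop]
  intro δ hδ
  have hδ4 : 0 < δ / 4 := by linarith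
  obtain ⟨x, hx⟩ : ∃ x, D x < Real.sqrt (Λ ^ 2 + δ / 4) := by
    refine exists_lt_of_ciInf_lt ?_
    rw [← hΛ]
    exact Real.lt_sqrt_of_sq_lt (by linarith)
  have hx2 : D x ^ 2 ≤ Λ ^ 2 + δ / 4 := by
    have h1 := (Real.lt_sqrt (hD0 x)).1 hx
    exact h1.le
  obtain ⟨k₁, hk₁⟩ := hUb n G hG g hg hgi z l V τ ψ hA gr gb hAvg hncb a η hη x (δ / 4) hδ4
  obtain ⟨k₂, hk₂⟩ := hLl n G hG g hg hgi hnc z l V τ ψ hA gr gb hAvg hncb a η hη Λ hΛ0 hΛD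
    (δ / 4) hδ4
  refine ⟨max k₁ k₂, fun k hk => ?_⟩
  have h1 := hk₁ k ((le_max_left _ _).trans hk)
  have h2 := hk₂ k ((le_max_right _ _).trans hk)
  obtain ⟨hL1, hL2⟩ := hLd n G gb (z ^ k * a)
  have hLb0 : 0 ≤ L gb (z ^ k * a) := hL2 0 fun y => hnn _ _
  have h3 : Real.sqrt (Λ ^ 2 + (k * l + η) ^ 2) ≤ L gb (z ^ k * a) := by
    refine hL2 _ fun y => ?_
    rw [Real.sqrt_le_left (hnn _ _), hdist k y]
    have := pow_le_pow_left₀ hΛ0 (hΛD y) 2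
    linarith
  have h4 : L gb (z ^ k * a) ^ 2 ≤ D x ^ 2 + (k * l + η) ^ 2 := by
    rw [← hdist k x]
    exact pow_le_pow_left₀ hLb0 (hL1 x) 2
  have h5 := main hLb0 hx2 h1 h2 h3 h4
  rw [Real.dist_eq, sub_zero]
  refine lt_of_le_of_lt h5 ?_
  linarith

end Pool.Agent.AV
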