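import Pool.Agent.Work.MP_13b5d9_gt.AV.StmtsL

set_option autoImplicit false

/-!
# MP_13b5d9_gt, block AV, item Lw: lower bound of the energy in the rotating frame
-/

open MeasureTheory Set Filter Topology
open scoped ContDiff ENNReal
open Pool.Agent.Work.MP_c9f990_an.Al (IsFlow)

namespace Pool.Agent.AV

open Pool.Agent.MLS Pool.Agent.STR Pool.Agent.LQR Pool.Agent.LQT

namespace ILw

/-- Cauchy-Schwarz on an interval -/
theorem cs {h : ℝ → ℝ} (hh : Continuous h) {s t : ℝ} (hst : s ≤ t) :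
    (∫ r in s..t, h r) ^ 2 ≤ (t - s) * ∫ r in s..t, h r ^ 2 := by
  rcases eq_or_lt_of_le hst with h0 | h0
  · subst h0
    simp
  · have hd : 0 < t - s := by linarith
    set I : ℝ := ∫ r in s..t, h r with hI
    set a : ℝ := I / (t - s) with ha
    have h1 : ∫ r in s..t, (h r - a) ^ 2 = (∫ r in s..t, h r ^ 2) - 2 * a * I + a ^ 2 * (t - s) := by
      have h2 : ∀ r, (h r - a) ^ 2 = h r ^ 2 - 2 * a * h r + a ^ 2 := fun r => by ring
      simp only [h2]
      rw [intervalIntegral.integral_add, intervalIntegral.integral_sub,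
        intervalIntegral.integral_const_mul, intervalIntegral.integral_const, smul_eq_mul,
        mul_comm (t - s)]
      · exact (hh.pow 2).intervalIntegrable _ _
      · exact (continuous_const.mul hh).intervalIntegrable _ _
      · exact ((hh.pow 2).sub (continuous_const.mul hh)).intervalIntegrable _ _
      · exact continuous_const.intervalIntegrable _ _
    have h3 : 0 ≤ ∫ r in s..t, (h r - a) ^ 2 :=
      intervalIntegral.integral_nonneg hst fun r _ => sq_nonneg _
    rw [h1] at h3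
    have h4 : a * (t - s) = I := by
      rw [ha]
      field_simp
    have h5 : (t - s) * ((∫ r in s..t, h r ^ 2) - 2 * a * I + a ^ 2 * (t - s)) =
        (t - s) * (∫ r in s..t, h r ^ 2) - I ^ 2 := by
      have : (t - s) * ((∫ r in s..t, h r ^ 2) - 2 * a * I + a ^ 2 * (t - s)) =
          (t - s) * (∫ r in s..t, h r ^ 2) - 2 * (a * (t - s)) * I + (a * (t - s)) ^ 2 := by ring
      rw [this, h4]
      ring
    have h6 := mul_nonneg hd.le h3
    rw [h5] at h6
    linarith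

/-- The energy density is continuous. -/
theorem cont_fam {n : ℕ} {gr : ℝ → Form n} (hF : Fam n gr) {X : ℝ → E n} (hX : ContDiff ℝ 1 X) :
    Continuous fun t => (gr t).val (X t) (deriv X t) (deriv X t) := by
  have h1 : Continuous fun t : ℝ => (gr t).val (X t) :=
    hF.smooth.continuous.comp (continuous_id.prodMk hX.continuous)
  have h2 : Continuous (deriv X) := hX.continuous_deriv le_rfl
  exact (h1.clm_apply h2).clm_apply h2

theorem cont_form {n : ℕ} (g : Form n) {X : ℝ → E n} (hX : ContDiff ℝ 1 X) :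
    Continuous fun t => g.val (X t) (deriv X t) (deriv X t) := by
  have h1 : Continuous fun t : ℝ => g.val (X t) := g.smooth.continuous.comp hX.continuous
  have h2 : Continuous (deriv X) := hX.continuous_deriv le_rfl
  exact (h1.clm_apply h2).clm_apply h2

theorem cont_nrm {n : ℕ} (g : Form n) {X : ℝ → E n} (hX : ContDiff ℝ 1 X) :
    Continuous fun t => nrm g (X t) (deriv X t) := by
  unfold nrm
  exact (cont_form g hX).sqrt

/-- lengths of pieces -/
theorem len_le {n : ℕ} {gr : ℝ → Form n} (hF : Fam n gr) (gb : Form n) {C : ℝ} (hC0 : 0 < C)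
    (hC : ∀ r x v, gb.val x v v ≤ C * (gr r).val x v v) {X : ℝ → E n} (hX : ContDiff ℝ 1 X)
    {T B : ℝ} (hT : 0 < T)
    (hB : T * (∫ t in (0 : ℝ)..T, (gr t).val (X t) (deriv X t) (deriv X t)) ≤ B)
    {s t : ℝ} (hs : 0 ≤ s) (hst : s ≤ t) (ht : t ≤ T) :
    (∫ r in s..t, nrm gb (X r) (deriv X r)) ^ 2 ≤ (t - s) * (C * B / T) := by
  refine (cs (cont_nrm gb hX) hst).trans ?_
  refine mul_le_mul_of_nonneg_left ?_ (by linarith)
  have h1 : ∀ r, nrm gb (X r) (deriv X r) ^ 2 = gb.val (X r) (deriv X r) (deriv X r) := fun r =>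
    Real.sq_sqrt (gb.nonneg _ _)
  simp only [h1]
  have hc := cont_fam hF hX
  have h2 : ∫ r in s..t, gb.val (X r) (deriv X r) (deriv X r) ≤
      ∫ r in s..t, C * (gr r).val (X r) (deriv X r) (deriv X r) :=
    intervalIntegral.integral_mono_on hst ((cont_form gb hX).intervalIntegrable _ _)
      ((continuous_const.mul hc).intervalIntegrable _ _) fun r _ => hC r _ _
  have h3 : ∫ r in s..t, (gr r).val (X r) (deriv X r) (deriv X r) ≤
      ∫ r in (0 : ℝ)..T, (gr r).val (X r) (deriv X r) (deriv X r) :=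
    intervalIntegral.integral_mono_interval hs hst ht
      (Eventually.of_forall fun r => (gr r).nonneg _ _) (hc.intervalIntegrable _ _)
  rw [intervalIntegral.integral_const_mul] at h2
  have h4 : ∫ r in (0 : ℝ)..T, (gr r).val (X r) (deriv X r) (deriv X r) ≤ B / T := by
    rw [le_div_iff₀ hT, mul_comm]
    exact hB
  calc ∫ r in s..t, gb.val (X r) (deriv X r) (deriv X r)
      ≤ C * ∫ r in s..t, (gr r).val (X r) (deriv X r) (deriv X r) := h2
    _ ≤ C * (B / T) := mul_le_mul_of_nonneg_left (h3.trans h4) hC0.le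
    _ = C * B / T := by ring

/-- the vector of the partial derivative in the second variable -/
noncomputable def pv {n : ℕ} (F : E n × E n → ℝ) (p : E n × E n) : E n :=
  sh ((fderiv ℝ F p).comp (ContinuousLinearMap.inr ℝ (E n) (E n)))

theorem pv_cont {n : ℕ} {F : E n × E n → ℝ} (hF : ContDiff ℝ ∞ F) : Continuous (pv F) := by
  have h1 : Continuous (fderiv ℝ F) := hF.continuous_fderiv (by norm_num)
  unfold pv
  exact sh.continuous.comp (h1.clm_comp continuous_const)

theorem fd_snd {n : ℕ} {F : E n × E n → ℝ} (hF : ContDiff ℝ ∞ F) (x y w : E n) :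
    fderiv ℝ (fun y => F (x, y)) y w = fderiv ℝ F (x, y) (0, w) := by
  have h1 : HasFDerivAt (fun y : E n => (x, y)) (ContinuousLinearMap.inr ℝ (E n) (E n)) y :=
    hasFDerivAt_prodMk_right x y
  have h2 : HasFDerivAt F (fderiv ℝ F (x, y)) (x, y) :=
    (hF.differentiable (by norm_num) (x, y)).hasFDerivAt
  have h3 := (h2.comp y h1).fderiv
  have h4 : F ∘ (fun y : E n => (x, y)) = fun y => F (x, y) := rfl
  rw [h4] at h3
  rw [h3]
  rfl

theorem pv_inner (hOp : StOp) {n : ℕ} (g : Form n) (hg : Riem g) {F : E n × E n → ℝ}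
    (hF : ContDiff ℝ ∞ F) (x y w : E n) :
    inner ℝ (pv F (x, y)) w = fderiv ℝ (fun y => F (x, y)) y w := by
  rw [fd_snd hF]
  exact (hOp n g hg).1 _ _

/-- Young's inequality -/
theorem young (hOp : StOp) {n : ℕ} (g : Form n) (hg : Riem g) (x p w : E n) {c : ℝ} (hc : 0 < c) :
    inner ℝ p w ≤ 1 / (2 * c) * g.val x w w + c / 2 * inner ℝ p (iop g x p) := by
  obtain ⟨_, h2, _, h4, _⟩ := hOp n g hg
  have h5 : g.val x (iop g x p) w = inner ℝ p w := by
    rw [← h2, h4]
  have h6 : g.val x (iop g x p) (iop g x p) = inner ℝ p (iop g x p) := by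
    rw [← h2, h4]
  have h7 := g.nonneg x (w - c • iop g x p)
  have h8 : g.val x (w - c • iop g x p) (w - c • iop g x p) =
      g.val x w w - 2 * c * inner ℝ p w + c ^ 2 * inner ℝ p (iop g x p) := by
    simp only [map_sub, map_smul, _root_.sub_apply, _root_.smul_apply, smul_eq_mul]
    rw [g.symm x w (iop g x p), h5, h6]
    ring
  rw [h8] at h7
  have h9 : 0 ≤ 1 / (2 * c) * (g.val x w w - 2 * c * inner ℝ p w +
      c ^ 2 * inner ℝ p (iop g x p)) := mul_nonneg (by positivity) h7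
  have h10 : 1 / (2 * c) * (g.val x w w - 2 * c * inner ℝ p w +
      c ^ 2 * inner ℝ p (iop g x p)) = 1 / (2 * c) * g.val x w w - inner ℝ p w +
        c / 2 * inner ℝ p (iop g x p) := by
    field_simp
  linarith

/-- the mean of the quadratic forms -/
theorem mean_q {n : ℕ} {gr : ℝ → Form n} {gb : Form n} {l : ℝ} (hl : 0 < l)
    (hc : Continuous (fun q : ℝ × E n => iop (gr q.1) q.2))
    (hm : ∀ x, iop gb x = l⁻¹ • ∫ r in (0 : ℝ)..l, iop (gr r) x) (x p : E n) :
    ∫ r in (0 : ℝ)..l, inner ℝ p (iop (gr r) x p) = l * inner ℝ p (iop gb x p) := by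
  have h1 : Continuous fun r : ℝ => iop (gr r) x :=
    hc.comp (continuous_id.prodMk continuous_const)
  have h2 := ((innerSL ℝ p).comp
    (ContinuousLinearMap.apply ℝ (E n) p)).intervalIntegral_comp_comm
      (h1.intervalIntegrable (μ := volume) 0 l)
  have h3 : ∀ L : E n →L[ℝ] E n, ((innerSL ℝ p).comp (ContinuousLinearMap.apply ℝ (E n) p)) L =
      inner ℝ p (L p) := fun L => rfl
  simp only [h3] at h2
  rw [h2, hm x, _root_.smul_apply, inner_smul_right, ← mul_assoc, mul_inv_cancel₀ hl.ne', one_mul]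

/-- the oscillation of the curve -/
theorem osc {n : ℕ} {gb : Form n} {K' : Set (E n)} {C' : ℝ}
    (hC' : ∀ x ∈ K', ∀ v, ‖v‖ ≤ C' * nrm gb x v) {X : ℝ → E n} (hX : ContDiff ℝ 1 X)
    {s t : ℝ} (hst : s ≤ t) (hK : ∀ r ∈ Icc s t, X r ∈ K') :
    ‖X t - X s‖ ≤ C' * ∫ r in s..t, nrm gb (X r) (deriv X r) := by
  have hd : Continuous (deriv X) := hX.continuous_deriv le_rfl
  have h1 : ∫ r in s..t, deriv X r = X t - X s :=
    intervalIntegral.integral_deriv_eq_sub
      (fun r _ => hX.differentiable (by norm_num) r) (hd.intervalIntegrable _ _)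
  rw [← h1, ← intervalIntegral.integral_const_mul]
  refine (intervalIntegral.norm_integral_le_integral_norm hst).trans ?_
  exact intervalIntegral.integral_mono_on hst (hd.norm.intervalIntegrable _ _)
    ((continuous_const.mul (cont_nrm gb hX)).intervalIntegrable _ _)
    fun r hr => hC' _ (hK r hr) _

end ILw

open ILw in
theorem pr_Lw (hBm : StBm) (hCg : StCg) (hFs : StFs) (hSi : StSi) (hOp : StOp) (hGd : StGd)
    (hProp : StProp) (hBnd : StBnd) (hFlow : StFlow) (hLog : StLog) : StLw := by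
  intro n G _ _ hG l gr gb hl hfam hinv hper hR hI hN hmean K B δ hK hδ
  obtain ⟨C, hC0, hC⟩ := hCg n G hG l gr gb hl hfam hinv hper hI
  obtain ⟨φ, M, hφ⟩ := hFlow n G hG gb hR hI
  obtain ⟨lg, hlg⟩ := hLog n gb φ M hR hφ hN
  obtain ⟨_, hPM, _, hgd⟩ := hGd n gb
  -- constants
  obtain ⟨B₁, hB₁⟩ : ∃ B₁ : ℝ, B₁ = max B 0 := ⟨_, rfl⟩
  have hB1 : B ≤ B₁ := by rw [hB₁]; exact le_max_left _ _
  have hB0 : 0 ≤ B₁ := by rw [hB₁]; exact le_max_right _ _
  have hCB : 0 ≤ C * B₁ := mul_nonneg hC0.le hB0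
  obtain ⟨R, hRd⟩ : ∃ R : ℝ, R = Real.sqrt (C * B₁) := ⟨_, rfl⟩
  have hR0 : 0 ≤ R := by rw [hRd]; exact Real.sqrt_nonneg _
  obtain ⟨K', hK', hKK'⟩ := hProp n G hG gb hR hI K R hK
  obtain ⟨C', hC'0, hC'⟩ := (hBnd n gb K' hK').2 hR
  obtain ⟨δ₁, hδ₁d⟩ : ∃ δ₁ : ℝ, δ₁ = δ / (4 * (R + 1)) := ⟨_, rfl⟩
  have hδ₁ : 0 < δ₁ := by rw [hδ₁d]; positivity
  obtain ⟨hFsm, hFle⟩ := hFs n gb φ lg hR hlg δ₁ hδ₁
  obtain ⟨F, hF⟩ : ∃ F : E n × E n → ℝ,
    F = fun p => Real.sqrt (gb.val p.1 (lg p.1 p.2) (lg p.1 p.2) + δ₁ ^ 2) := ⟨_, rfl⟩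
  rw [← hF] at hFsm
  have hπc : Continuous (pv F) := pv_cont hFsm
  have hπ : ∀ x y w, inner ℝ (pv F (x, y)) w = fderiv ℝ (fun y => F (x, y)) y w := fun x y w =>
    pv_inner hOp gb hR hFsm x y w
  have hπle : ∀ x y w, (inner ℝ (pv F (x, y)) w) ^ 2 ≤ gb.val y w w := by
    intro x y w
    rw [hπ, hF]
    exact hFle x y w
  have hiop := (hSi n gr hfam).1.continuous
  obtain ⟨hOb1, hOb2, hOb3, hOb4, hOb5, hOb6, hOb7, _⟩ := hOp n gb hR
  have hiopb : Continuous (iop gb) := hOb7.continuous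
  have hm0 : ∀ z : E n × E n, inner ℝ (pv F z) (iop gb z.2 (pv F z)) ≤ (1 : ℝ) := by
    rintro ⟨x, y⟩
    have h1 := hπle x y (iop gb y (pv F (x, y)))
    have h2 : gb.val y (iop gb y (pv F (x, y))) (iop gb y (pv F (x, y))) =
        inner ℝ (pv F (x, y)) (iop gb y (pv F (x, y))) := by
      rw [← hOb2, hOb4]
    rw [h2] at h1
    by_contra h3
    push Not at h3
    simp only at h3
    nlinarith
  obtain ⟨Q, hQ⟩ : ∃ Q : ℝ → E n × E n → ℝ, ∀ r z,
    Q r z = inner ℝ (pv F z) (iop (gr r) z.2 (pv F z)) := ⟨_, fun _ _ => rfl⟩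
  obtain ⟨m, hm⟩ : ∃ m : E n × E n → ℝ, ∀ z,
    m z = inner ℝ (pv F z) (iop gb z.2 (pv F z)) := ⟨_, fun _ => rfl⟩
  have hm1 : ∀ z, m z ≤ 1 := fun z => by rw [hm]; exact hm0 z
  have hQc : Continuous (fun p : ℝ × (E n × E n) => Q p.1 p.2) := by
    have h1 : Continuous (fun p : ℝ × (E n × E n) => iop (gr p.1) p.2.2) :=
      hiop.comp (continuous_fst.prodMk (continuous_snd.comp continuous_snd))
    have h2 : Continuous (fun p : ℝ × (E n × E n) => pv F p.2) := hπc.comp continuous_snd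
    have h3 : (fun p : ℝ × (E n × E n) => Q p.1 p.2) =
        fun p => inner ℝ (pv F p.2) (iop (gr p.1) p.2.2 (pv F p.2)) := funext fun p => hQ _ _
    rw [h3]
    exact h2.inner (h1.clm_apply h2)
  have hmc : Continuous m := by
    have h3 : m = fun z => inner ℝ (pv F z) (iop gb z.2 (pv F z)) := funext hm
    rw [h3]
    exact hπc.inner ((hiopb.comp continuous_snd).clm_apply hπc)
  have hQper : ∀ r z, Q (r + l) z = Q r z := by
    intro r z
    rw [hQ, hQ, hper]
  have hQmean : ∀ z, ∫ r in (0 : ℝ)..l, Q r z = l * m z := by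
    intro z
    simp only [hQ, hm]
    exact mean_q hl hiop hmean z.2 (pv F z)
  have hAc : Continuous (fun p : ℝ × (E n × E n) => Q p.1 p.2 - m p.2) :=
    hQc.sub (hmc.comp continuous_snd)
  have hAmean : ∀ z, ∫ r in (0 : ℝ)..l, (Q r z - m z) = 0 := by
    intro z
    have h0 : Continuous (fun r : ℝ => ((r, z) : ℝ × (E n × E n))) :=
      continuous_id.prodMk continuous_const
    have h1 : Continuous fun r : ℝ => Q r z := hQc.comp h0
    rw [intervalIntegral.integral_sub (h1.intervalIntegrable _ _)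
      (continuous_const.intervalIntegrable _ _), hQmean,
      intervalIntegral.integral_const, smul_eq_mul, sub_zero, sub_self]
  obtain ⟨δ₂, hδ₂d⟩ : ∃ δ₂ : ℝ, δ₂ = δ / (2 * (R ^ 2 + 1)) := ⟨_, rfl⟩
  have hδ₂ : 0 < δ₂ := by rw [hδ₂d]; positivity
  obtain ⟨η, hη, hBm'⟩ := hBm (E n × E n) ℝ l (fun r z => Q r z - m z) (K ×ˢ K') hl hAc
    (fun r z => by rw [hQper]) hAmean (hK.prod hK') δ₂ hδ₂
  refine ⟨max (1 / η) (C' ^ 2 * (l * (C * B₁)) / η ^ 2), lt_max_of_lt_left (by positivity),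
    fun T hT X hX hX0 hE => ?_⟩
  have hT1 : 1 / η ≤ T := (le_max_left _ _).trans hT
  have hT2 : C' ^ 2 * (l * (C * B₁)) / η ^ 2 ≤ T := (le_max_right _ _).trans hT
  have hT0 : 0 < T := lt_of_lt_of_le (by positivity) hT1
  obtain ⟨J, hJ⟩ : ∃ J : ℝ, J = ∫ t in (0 : ℝ)..T, (gr t).val (X t) (deriv X t) (deriv X t) :=
    ⟨_, rfl⟩
  have hJ0 : 0 ≤ J := by
    rw [hJ]
    exact intervalIntegral.integral_nonneg hT0.le fun r _ => (gr r).nonneg _ _
  have hE1 : T * (∫ t in (0 : ℝ)..T, (gr t).val (X t) (deriv X t) (deriv X t)) ≤ B₁ :=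
    hE.trans hB1
  have hlen : ∀ s t, 0 ≤ s → s ≤ t → t ≤ T →
      (∫ r in s..t, nrm gb (X r) (deriv X r)) ^ 2 ≤ (t - s) * (C * B₁ / T) := fun s t h1 h2 h3 =>
    len_le hfam gb hC0 hC hX hT0 hE1 h1 h2 h3
  have hgdR : ∀ t ∈ Icc 0 T, gd gb (X 0) (X t) ≤ R := by
    intro t ht
    refine (hgd X 0 t hX ht.1).trans ?_
    rw [hRd]
    refine Real.le_sqrt_of_sq_le ((hlen 0 t le_rfl ht.1 ht.2).trans ?_)
    rw [sub_zero, mul_div_assoc', div_le_iff₀ hT0, mul_comm]
    exact mul_le_mul_of_nonneg_left ht.2 hCB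
  have hXK : ∀ t ∈ Icc 0 T, X t ∈ K' := fun t ht => hKK' (X 0) hX0 (X t) (hgdR t ht)
  have hosc : ∀ s t, 0 ≤ s → s ≤ t → t ≤ T → t - s ≤ l → ‖X t - X s‖ ≤ η := by
    intro s t h1 h2 h3 h4
    refine (osc hC' hX h2 fun r hr => hXK r ⟨h1.trans hr.1, hr.2.trans h3⟩).trans ?_
    refine abs_le_of_sq_le_sq' ?_ hη.le |>.2
    rw [mul_pow]
    have h5 : C' ^ 2 * (∫ r in s..t, nrm gb (X r) (deriv X r)) ^ 2 ≤
        C' ^ 2 * (l * (C * B₁ / T)) := by
      refine mul_le_mul_of_nonneg_left ((hlen s t h1 h2 h3).trans ?_) (sq_nonneg _)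
      exact mul_le_mul_of_nonneg_right h4 (div_nonneg hCB hT0.le)
    refine h5.trans ?_
    rw [div_le_iff₀ (by positivity)] at hT2
    rw [mul_div_assoc', mul_div_assoc', div_le_iff₀ hT0]
    linarith
  have hBmX := hBm' (fun t => (X 0, X t)) T hT1 (continuous_const.prodMk hX.continuous)
    (fun t ht => ⟨hX0, hXK t ht⟩) (fun s hs t ht hst => by
      have h1 : ‖((X 0, X s) : E n × E n) - (X 0, X t)‖ = ‖X s - X t‖ := by
        rw [Prod.mk_sub_mk, sub_self, Prod.norm_mk, norm_zero]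
        exact max_eq_right (norm_nonneg _)
      rw [h1]
      rcases le_total s t with h2 | h2
      · rw [norm_sub_rev]
        refine hosc s t hs.1 h2 ht.2 ?_
        rw [abs_sub_comm] at hst
        exact (le_abs_self _).trans hst
      · exact hosc t s ht.1 h2 hs.2 ((le_abs_self _).trans hst))
  -- the function `f`
  have hX2 : Continuous (fun t : ℝ => ((X 0, X t) : E n × E n)) :=
    continuous_const.prodMk hX.continuous
  have hX3 : Continuous (fun t : ℝ => ((t, (X 0, X t)) : ℝ × (E n × E n))) :=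
    continuous_id.prodMk hX2
  have hcq : Continuous fun t : ℝ => Q t (X 0, X t) := hQc.comp hX3
  have hcm : Continuous fun t : ℝ => m (X 0, X t) := hmc.comp hX2
  have hqle : ∫ t in (0 : ℝ)..T, Q t (X 0, X t) ≤ (1 + δ₂) * T := by
    have h1 : ∫ t in (0 : ℝ)..T, (Q t (X 0, X t) - m (X 0, X t)) ≤ δ₂ * T :=
      (le_abs_self _).trans hBmX
    rw [intervalIntegral.integral_sub (hcq.intervalIntegrable _ _)
      (hcm.intervalIntegrable _ _)] at h1
    have h2 : ∫ t in (0 : ℝ)..T, m (X 0, X t) ≤ ∫ t in (0 : ℝ)..T, (1 : ℝ) :=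
      intervalIntegral.integral_mono_on hT0.le (hcm.intervalIntegrable _ _)
        (continuous_const.intervalIntegrable _ _) fun t _ => hm1 (X 0, X t)
    rw [intervalIntegral.integral_const, smul_eq_mul, sub_zero, mul_one] at h2
    linarith
  have hfd : ∀ t, HasDerivAt (fun t => F (X 0, X t)) (inner ℝ (pv F (X 0, X t)) (deriv X t)) t := by
    intro t
    have h1 : HasDerivAt X (deriv X t) t := (hX.differentiable (by norm_num) t).hasDerivAt
    have h2 : DifferentiableAt ℝ (fun y => F (X 0, y)) (X t) :=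
      (hFsm.comp (contDiff_const.prodMk contDiff_id)).differentiable (by norm_num) (X t)
    have h3 := h2.hasFDerivAt.comp_hasDerivAt t h1
    rw [hπ]
    exact h3
  have hfc : Continuous fun t => inner ℝ (pv F (X 0, X t)) (deriv X t) :=
    (hπc.comp hX2).inner (hX.continuous_deriv le_rfl)
  have hftc : ∫ t in (0 : ℝ)..T, inner ℝ (pv F (X 0, X t)) (deriv X t) =
      F (X 0, X T) - F (X 0, X 0) :=
    intervalIntegral.integral_eq_sub_of_hasDerivAt (fun t _ => hfd t)
      (hfc.intervalIntegrable _ _)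
  have hgc := cont_fam hfam hX
  have hmain : ∀ μ : ℝ, 0 < μ → F (X 0, X T) - F (X 0, X 0) ≤
      T * J / (2 * μ) + μ / 2 * (1 + δ₂) := by
    intro μ hμ
    have hc : 0 < μ / T := div_pos hμ hT0
    rw [← hftc]
    have h1 : ∫ t in (0 : ℝ)..T, inner ℝ (pv F (X 0, X t)) (deriv X t) ≤
        ∫ t in (0 : ℝ)..T, (1 / (2 * (μ / T)) * (gr t).val (X t) (deriv X t) (deriv X t) +
          μ / T / 2 * Q t (X 0, X t)) :=
      intervalIntegral.integral_mono_on hT0.le (hfc.intervalIntegrable _ _)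
        (((continuous_const.mul hgc).add (continuous_const.mul hcq)).intervalIntegrable _ _)
        fun t _ => by
          rw [hQ]
          exact young hOp (gr t) (hfam.riem t) (X t) _ _ hc
    have hi1 : IntervalIntegrable
        (fun t => 1 / (2 * (μ / T)) * (gr t).val (X t) (deriv X t) (deriv X t)) volume 0 T :=
      (continuous_const.mul hgc).intervalIntegrable _ _
    have hi2 : IntervalIntegrable (fun t => μ / T / 2 * Q t (X 0, X t)) volume 0 T :=
      (continuous_const.mul hcq).intervalIntegrable _ _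
    rw [intervalIntegral.integral_add hi1 hi2, intervalIntegral.integral_const_mul,
      intervalIntegral.integral_const_mul, ← hJ] at h1
    refine h1.trans ?_
    have h2 : μ / T / 2 * ∫ t in (0 : ℝ)..T, Q t (X 0, X t) ≤ μ / T / 2 * ((1 + δ₂) * T) :=
      mul_le_mul_of_nonneg_left hqle (by positivity)
    have h3 : μ / T / 2 * ((1 + δ₂) * T) = μ / 2 * (1 + δ₂) := by
      field_simp
    have h4 : 1 / (2 * (μ / T)) * J = T * J / (2 * μ) := by
      field_simp
    rw [h4]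
    linarith
  -- the end points
  have hf0 : F (X 0, X 0) = δ₁ := by
    have h1 := hlg.dist (X 0) (X 0)
    rw [hPM.self] at h1
    have h2 : gb.val (X 0) (lg (X 0) (X 0)) (lg (X 0) (X 0)) = 0 :=
      (Real.sqrt_eq_zero (gb.nonneg _ _)).1 h1.symm
    rw [hF]
    simp only
    rw [h2, zero_add, Real.sqrt_sq hδ₁.le]
  have hfT : gd gb (X 0) (X T) ≤ F (X 0, X T) := by
    rw [hlg.dist, hF]
    refine Real.sqrt_le_sqrt ?_
    have := sq_nonneg δ₁
    simp only
    linarith
  rw [← hJ]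
  have hTJ : 0 ≤ T * J := mul_nonneg hT0.le hJ0
  obtain ⟨D, hD⟩ : ∃ D : ℝ, D = gd gb (X 0) (X T) := ⟨_, rfl⟩
  have hD0 : 0 ≤ D := by rw [hD]; exact hPM.nonneg _ _
  have hDR : D ≤ R := by rw [hD]; exact hgdR T ⟨hT0.le, le_rfl⟩
  rw [← hD]
  rw [← hD] at hfT
  rcases eq_or_lt_of_le hD0 with h0 | h0
  · rw [← h0]
    simp only [ne_eq, OfNat.ofNat_ne_zero, not_false_eq_true, zero_pow]
    linarith
  · have h1 := hmain D h0
    rw [hf0] at h1
    have h2 : D - δ₁ ≤ T * J / (2 * D) + D / 2 * (1 + δ₂) := by linarith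
    have h3 : 2 * D * (D - δ₁) ≤ 2 * D * (T * J / (2 * D) + D / 2 * (1 + δ₂)) :=
      mul_le_mul_of_nonneg_left h2 (by linarith)
    have h4 : 2 * D * (T * J / (2 * D) + D / 2 * (1 + δ₂)) = T * J + D ^ 2 * (1 + δ₂) := by
      field_simp
    rw [h4] at h3
    have h5 : D ^ 2 * δ₂ ≤ δ / 2 := by
      have h6 : D ^ 2 ≤ R ^ 2 := pow_le_pow_left₀ hD0 hDR 2
      have h7 : (R ^ 2 + 1) * δ₂ = δ / 2 := by
        rw [hδ₂d]
        field_simp
      have h8 : D ^ 2 * δ₂ ≤ (R ^ 2 + 1) * δ₂ := mul_le_mul_of_nonneg_right (by linarith) hδ₂.le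
      linarith
    have h6 : 2 * D * δ₁ ≤ δ / 2 := by
      have h7 : 2 * (R + 1) * δ₁ = δ / 2 := by
        rw [hδ₁d]
        field_simp
        norm_num
      have h8 : 2 * D * δ₁ ≤ 2 * (R + 1) * δ₁ :=
        mul_le_mul_of_nonneg_right (by linarith) hδ₁.le
      linarith
    nlinarith

end Pool.Agent.AV
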