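import Pool.Agent.Work.MP_13b5d9_gt.AV.Stmts
import Pool.Agent.Work.MP_25cd3b_gt.M.I_Fib

set_option autoImplicit false

/-!
# MP_13b5d9_gt, block AV, item Ma: determinants
-/

open MeasureTheory Set Filter Topology
open scoped ContDiff ENNReal

namespace Pool.Agent.AV

open Pool.Agent.MLS Pool.Agent.STR Pool.Agent.LQR Pool.Agent.LQT

namespace IMa

theorem sum_key {n : ℕ} (ev : Fin n → ℝ) (hpos : ∀ i, 0 < ev i) :
    ∑ i, Real.log (ev i) ≤ ∑ i, ev i - n := by
  have h1 : ∑ i, Real.log (ev i) ≤ ∑ i, (ev i - 1) :=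
    Finset.sum_le_sum fun i _ => Real.log_le_sub_one_of_pos (hpos i)
  refine h1.trans (le_of_eq ?_)
  rw [Finset.sum_sub_distrib]
  simp

theorem sum_eq {n : ℕ} (ev : Fin n → ℝ) (hpos : ∀ i, 0 < ev i)
    (h : ∑ i, ev i - n ≤ ∑ i, Real.log (ev i)) : ∀ i, ev i = 1 := by
  have h1 : ∑ i, (ev i - 1 - Real.log (ev i)) ≤ 0 := by
    rw [Finset.sum_sub_distrib, Finset.sum_sub_distrib]
    simp only [Finset.sum_const, Finset.card_univ, Fintype.card_fin, nsmul_eq_mul, mul_one]
    linarith
  have h2 : ∀ i ∈ Finset.univ, 0 ≤ ev i - 1 - Real.log (ev i) := by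
    intro i _
    have := Real.log_le_sub_one_of_pos (hpos i)
    linarith
  have h3 : ∑ i, (ev i - 1 - Real.log (ev i)) = 0 := le_antisymm h1 (Finset.sum_nonneg h2)
  intro i
  have h4 := (Finset.sum_eq_zero_iff_of_nonneg h2).1 h3 i (Finset.mem_univ i)
  by_contra hne
  have := Real.log_lt_sub_one_of_pos (hpos i) hne
  linarith

theorem eq_one_of_eigen {n : ℕ} (S : Matrix (Fin n) (Fin n) ℝ) (hS : S.IsHermitian)
    (h : ∀ i, hS.eigenvalues i = 1) : S = 1 := by
  have h1 := hS.spectral_theorem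
  have h2 : (Matrix.diagonal ((RCLike.ofReal : ℝ → ℝ) ∘ hS.eigenvalues)) =
      (1 : Matrix (Fin n) (Fin n) ℝ) := by
    rw [← Matrix.diagonal_one]
    congr 1
    funext i
    simp [h i]
  rw [h2, map_one] at h1
  exact h1

end IMa

open IMa in
theorem pr_Ma : StMa := by
  intro n M M0 hM hM0
  obtain ⟨R, hRt, hRR⟩ := IFib.exR M hM.posSemidef
  have hdR : R.det * R.det = M.det := by rw [← Matrix.det_mul, hRR]
  have hMd : 0 < M.det := hM.det_pos
  have hM0d : 0 < M0.det := hM0.det_pos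
  have hR0 : R.det ≠ 0 := by
    intro h0
    rw [h0, mul_zero] at hdR
    exact hMd.ne hdR
  have hRu : IsUnit R.det := isUnit_iff_ne_zero.mpr hR0
  set P := R⁻¹ with hP
  have hRi : R * P = 1 := Matrix.mul_nonsing_inv R hRu
  have hiR : P * R = 1 := Matrix.nonsing_inv_mul R hRu
  have hPt : P.transpose = P := by rw [hP, Matrix.transpose_nonsing_inv, hRt]
  have hPu : IsUnit P := by
    rw [Matrix.isUnit_iff_isUnit_det, hP]
    exact Matrix.isUnit_nonsing_inv_det R hRu
  have hPs : star P = P := by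
    rw [Matrix.star_eq_conjTranspose, Matrix.conjTranspose_eq_transpose_of_trivial, hPt]
  set S := P * M0 * P with hSdef
  have hS : S.PosDef := by
    have h1 := (Matrix.IsUnit.posDef_star_left_conjugate_iff hPu (x := M0)).2 hM0
    rwa [hPs] at h1
  have hMi : M⁻¹ = P * P := by
    refine Matrix.inv_eq_right_inv ?_
    rw [← hRR, Matrix.mul_assoc, ← Matrix.mul_assoc R P P, hRi, Matrix.one_mul, hRi]
  have htr : (M0 * M⁻¹).trace = S.trace := by
    rw [hMi, hSdef, ← Matrix.mul_assoc, Matrix.trace_mul_comm, Matrix.mul_assoc]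
  have hPd : P.det * R.det = 1 := by rw [← Matrix.det_mul, hiR, Matrix.det_one]
  have hdS : S.det * M.det = M0.det := by
    rw [hSdef, Matrix.det_mul, Matrix.det_mul, ← hdR]
    calc P.det * M0.det * P.det * (R.det * R.det)
        = M0.det * (P.det * R.det) * (P.det * R.det) := by ring
      _ = M0.det := by rw [hPd, mul_one, mul_one]
  have hpos : ∀ i, 0 < hS.1.eigenvalues i := hS.eigenvalues_pos
  have htS : S.trace = ∑ i, hS.1.eigenvalues i := by
    rw [hS.1.trace_eq_sum_eigenvalues]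
    simp
  have hdetS : S.det = ∏ i, hS.1.eigenvalues i := by
    rw [hS.1.det_eq_prod_eigenvalues]
    simp
  set L := ∑ i, Real.log (hS.1.eigenvalues i) with hL
  have hexp : S.det = Real.exp L := by
    rw [hdetS, hL, Real.exp_sum]
    exact Finset.prod_congr rfl fun i _ => (Real.exp_log (hpos i)).symm
  have hMdet : M.det = M0.det * Real.exp (-L) := by
    rw [← hdS, hexp, Real.exp_neg]
    field_simp
  have hsq : Real.sqrt M.det = Real.sqrt M0.det * Real.exp (-L / 2) := by
    rw [hMdet, Real.sqrt_mul hM0d.le, Real.exp_half]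
  have hs0 : 0 < Real.sqrt M0.det := Real.sqrt_pos.2 hM0d
  have hkey := sum_key _ hpos
  have he : 1 - 1 / 2 * L ≤ Real.exp (-L / 2) := by
    have := Real.add_one_le_exp (-L / 2)
    linarith
  rw [htr, htS, hsq]
  constructor
  · refine mul_le_mul_of_nonneg_left ?_ hs0.le
    linarith
  · intro h
    have h1 : 1 - 1 / 2 * (∑ i, hS.1.eigenvalues i - n) = Real.exp (-L / 2) :=
      mul_left_cancel₀ hs0.ne' h
    have h2 := eq_one_of_eigen S hS.1 (sum_eq _ hpos (by linarith))
    have h3 : R * S * R = M0 := by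
      rw [hSdef]
      calc R * (P * M0 * P) * R = (R * P) * M0 * (P * R) := by
            simp only [Matrix.mul_assoc]
        _ = M0 := by rw [hRi, hiR, Matrix.one_mul, Matrix.mul_one]
    rw [h2, Matrix.mul_one, hRR] at h3
    exact h3

end Pool.Agent.AV
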