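import Pool.Agent.Work.MP_13b5d9_gt.AV.Stmts
import Pool.Agent.Work.MP_25cd3b_gt.M.I_Op
import Pool.Agent.Work.MP_25cd3b_gt.M.I_Fib

set_option autoImplicit false

/-!
# Block AV, item Mb: the matrix of the form and of the inverse operator
-/

open MeasureTheory Set Filter Topology
open scoped ContDiff ENNReal Matrix

namespace Pool.Agent.AV

open Pool.Agent.MLS Pool.Agent.STR Pool.Agent.LQR Pool.Agent.LQT

namespace IMb

/-- entries of a matrix as inner products -/
theorem entry {n : ℕ} (M : Matrix (Fin n) (Fin n) ℝ) (i j : Fin n) :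
    inner ℝ (Matrix.toEuclideanCLM (n := Fin n) (𝕜 := ℝ) M (ee j)) (ee i) = M i j := by
  rw [real_inner_comm, Matrix.inner_toEuclideanCLM]
  simp [ee]

/-- the inverse operator is given by the inverse matrix -/
theorem iop_eq {n : ℕ} (g : Form n) (hg : Riem g) (x v : E n) :
    iop g x v = Matrix.toEuclideanCLM (n := Fin n) (𝕜 := ℝ) (gm g x)⁻¹ v := by
  obtain ⟨-, -, h3, -⟩ := pr_Op n g hg
  have hPD := IFib.gm_posDef g hg x
  have hu : IsUnit (gm g x).det := isUnit_iff_ne_zero.mpr hPD.det_pos.ne'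
  have h4 : op g x (Matrix.toEuclideanCLM (n := Fin n) (𝕜 := ℝ) (gm g x)⁻¹ v) = v := by
    rw [IFib.op_eq g hg pr_Op]
    have h5 : (Matrix.toEuclideanCLM (n := Fin n) (𝕜 := ℝ) (gm g x) *
        Matrix.toEuclideanCLM (n := Fin n) (𝕜 := ℝ) (gm g x)⁻¹) v = v := by
      rw [← map_mul, Matrix.mul_nonsing_inv _ hu, map_one]
      rfl
    exact h5
  have h6 := h3 x (Matrix.toEuclideanCLM (n := Fin n) (𝕜 := ℝ) (gm g x)⁻¹ v)
  rw [h4] at h6
  exact h6

end IMb

theorem pr_Mb : StMb := by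
  intro n g hg x
  refine ⟨IFib.gm_posDef g hg x, fun i j => ?_, fun g' h => ?_⟩
  · rw [IMb.iop_eq g hg, IMb.entry]
  · refine ContinuousLinearMap.ext fun u => ContinuousLinearMap.ext fun v => ?_
    rw [IFib.bil (g'.val x) u v, IFib.bil (g.val x) u v]
    have h1 : (Matrix.of fun i j => g'.val x (ee i) (ee j) : Matrix (Fin n) (Fin n) ℝ) =
        Matrix.of fun i j => g.val x (ee i) (ee j) := h
    rw [h1]

end Pool.Agent.AV
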