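import Pool.Agent.Work.MP_13b5d9_gt.AV.Stmts

set_option autoImplicit false

/-!
# MP_13b5d9_gt, block AV: geodesics of a metric without conjugate points minimise (item Mi)
-/

open MeasureTheory Set Filter Topology
open scoped ContDiff ENNReal

namespace Pool.Agent.AV

open Pool.Agent.MLS Pool.Agent.STR Pool.Agent.LQR Pool.Agent.LQT

namespace IMi

variable {n : ℕ}

theorem val_cont (g : Form n) {a b : ℝ → E n}
    (ha : Continuous a) (hb : Continuous b) : Continuous (fun z => g.val (a z) (b z) (b z)) :=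
  ((g.smooth.continuous.comp ha).clm_apply hb).clm_apply hb

theorem deriv_scale (c : ℝ → E n) (hc : ContDiff ℝ 2 c) (r s : ℝ) :
    deriv (fun s => c (r * s)) s = r • deriv c (r * s) := by
  have h1 : HasDerivAt c (deriv c (r * s)) (r * s) :=
    ((hc.differentiable (by norm_num)) (r * s)).hasDerivAt
  have h2 : HasDerivAt (fun s : ℝ => r * s) r s := by simpa using (hasDerivAt_id s).const_mul r
  exact (h1.scomp s h2).deriv

theorem geo_scale (g : Form n) (c : ℝ → E n) (hc : IsGeo g c) (r : ℝ) :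
    IsGeo g (fun s => c (r * s)) := by
  refine ⟨hc.smooth.comp (contDiff_const.mul contDiff_id), fun t w => ?_⟩
  have h3 : (fun s => g.val (c (r * s)) (deriv (fun s => c (r * s)) s) w) =
      fun s => r * (g.val (c (r * s)) (deriv c (r * s)) w) := by
    funext s
    rw [deriv_scale c hc.smooth]
    simp
  rw [h3, deriv_scale c hc.smooth]
  have h2 : HasDerivAt (fun s : ℝ => r * s) r t := by simpa using (hasDerivAt_id t).const_mul r
  have h4 := ((hc.el (r * t) w).comp t h2).const_mul r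
  have e : r * (1 / 2 * fderiv ℝ g.val (c (r * t)) w (deriv c (r * t)) (deriv c (r * t)) * r) =
      1 / 2 * fderiv ℝ g.val (c (r * t)) w (r • deriv c (r * t)) (r • deriv c (r * t)) := by
    simp only [map_smul, smul_apply, smul_eq_mul]
    ring
  rw [← e]
  exact h4

/-- length is at most a combination of time and energy -/
theorem len_le (g : Form n) (b : ℝ → E n) (hb : ContDiff ℝ 1 b) (ρ : ℝ) (hρ : 0 < ρ) (s t : ℝ)
    (hst : s ≤ t) : (∫ u in s..t, nrm g (b u) (deriv b u)) ≤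
      ρ / 2 * (t - s) + (2 * ρ)⁻¹ * ∫ u in s..t, g.val (b u) (deriv b u) (deriv b u) := by
  have hd : Continuous (deriv b) := hb.continuous_deriv le_rfl
  have hv := val_cont g hb.continuous hd
  have hn : Continuous (fun u => nrm g (b u) (deriv b u)) := by
    unfold nrm
    exact Real.continuous_sqrt.comp hv
  have e1 : ρ / 2 * (t - s) + (2 * ρ)⁻¹ * ∫ u in s..t, g.val (b u) (deriv b u) (deriv b u) =
      ∫ u in s..t, (ρ / 2 + (2 * ρ)⁻¹ * g.val (b u) (deriv b u) (deriv b u)) := by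
    have i1 : IntervalIntegrable (fun _ : ℝ => ρ / 2) volume s t :=
      continuous_const.intervalIntegrable _ _
    have i2 : IntervalIntegrable
        (fun u => (2 * ρ)⁻¹ * g.val (b u) (deriv b u) (deriv b u)) volume s t :=
      (continuous_const.mul hv).intervalIntegrable _ _
    rw [intervalIntegral.integral_add i1 i2, intervalIntegral.integral_const_mul,
      intervalIntegral.integral_const, smul_eq_mul]
    ring
  rw [e1]
  refine intervalIntegral.integral_mono_on hst (hn.intervalIntegrable _ _)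
    ((continuous_const.add (continuous_const.mul hv)).intervalIntegrable _ _) fun u _ => ?_
  have h1 : nrm g (b u) (deriv b u) ^ 2 = g.val (b u) (deriv b u) (deriv b u) :=
    Real.sq_sqrt (g.nonneg _ _)
  rw [← h1]
  have h2 : 0 ≤ (nrm g (b u) (deriv b u) - ρ) ^ 2 := sq_nonneg _
  have h3 : ρ / 2 + (2 * ρ)⁻¹ * nrm g (b u) (deriv b u) ^ 2 - nrm g (b u) (deriv b u) =
      (2 * ρ)⁻¹ * (nrm g (b u) (deriv b u) - ρ) ^ 2 := by
    field_simp
    ring
  have h4 : 0 ≤ (2 * ρ)⁻¹ * (nrm g (b u) (deriv b u) - ρ) ^ 2 := by positivity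
  linarith

end IMi

open IMi in
theorem pr_Mi (h1 : StGd) (h2 : Pool.Agent.PIN.PiA) : StMi := by
  intro n g hg hM c hc S T b1 b2 hS hST hb1 hb2 e1 e2 e3
  have hconst := (h2 n g (fun _ => 0) contDiff_const c hc).2
  obtain ⟨κ, hκ⟩ : ∃ κ : ℝ, κ = g.val (c 0) (deriv c 0) (deriv c 0) := ⟨_, rfl⟩
  rw [← hκ] at hconst
  have hκ0 : 0 ≤ κ := by rw [hκ]; exact g.nonneg _ _
  have hL : (∫ t in (0 : ℝ)..T, g.val (c t) (deriv c t) (deriv c t)) = T * κ := by
    rw [intervalIntegral.integral_congr (g := fun _ => κ) (fun t _ => hconst t),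
      intervalIntegral.integral_const, smul_eq_mul, sub_zero]
  rw [hL]
  rcases hκ0.eq_or_lt with h0 | hpos
  · rw [← h0, mul_zero]
    refine add_nonneg (intervalIntegral.integral_nonneg hS fun u _ => g.nonneg _ _)
      (intervalIntegral.integral_nonneg hST fun u _ => g.nonneg _ _)
  · obtain ⟨ρ, hρ⟩ : ∃ ρ : ℝ, ρ = Real.sqrt κ := ⟨_, rfl⟩
    have hρ0 : 0 < ρ := by rw [hρ]; exact Real.sqrt_pos.mpr hpos
    have hρ2 : ρ ^ 2 = κ := by rw [hρ]; exact Real.sq_sqrt hκ0
    have hT : 0 ≤ T := hS.trans hST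
    have hgeo := geo_scale g c hc ρ⁻¹
    have hunit : ∀ t, g.val ((fun s => c (ρ⁻¹ * s)) t) (deriv (fun s => c (ρ⁻¹ * s)) t)
        (deriv (fun s => c (ρ⁻¹ * s)) t) = 1 := by
      intro t
      rw [deriv_scale c hc.smooth]
      have e := hconst (ρ⁻¹ * t)
      simp only [map_smul, smul_apply, smul_eq_mul]
      rw [e, ← hρ2]
      field_simp
    have hd := hM _ hgeo hunit 0 (ρ * T)
    simp only [mul_zero, zero_sub, abs_neg] at hd
    rw [← mul_assoc, inv_mul_cancel₀ hρ0.ne', one_mul, abs_of_nonneg (by positivity)] at hd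
    obtain ⟨_, hPM, _, hgd⟩ := h1 n g
    have d1 := hgd b1 0 S hb1 hS
    have d2 := hgd b2 S T hb2 hST
    rw [e1] at d1
    rw [e3, ← e2] at d2
    have tri := hPM.tri (c 0) (b1 S) (c T)
    have l1 := len_le g b1 hb1 ρ hρ0 0 S hS
    have l2 := len_le g b2 hb2 ρ hρ0 S T hST
    rw [hd] at tri
    obtain ⟨I1, hI1⟩ : ∃ I1 : ℝ, I1 = ∫ t in (0 : ℝ)..S, g.val (b1 t) (deriv b1 t) (deriv b1 t) :=
      ⟨_, rfl⟩
    obtain ⟨I2, hI2⟩ : ∃ I2 : ℝ, I2 = ∫ t in S..T, g.val (b2 t) (deriv b2 t) (deriv b2 t) :=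
      ⟨_, rfl⟩
    rw [← hI1] at l1 ⊢
    rw [← hI2] at l2 ⊢
    have h5 : ρ * T ≤ ρ / 2 * T + (2 * ρ)⁻¹ * (I1 + I2) := by
      have : ρ * T ≤ (ρ / 2 * (S - 0) + (2 * ρ)⁻¹ * I1) + (ρ / 2 * (T - S) + (2 * ρ)⁻¹ * I2) := by
        linarith
      calc ρ * T ≤ _ := this
        _ = _ := by ring
    have h6 : ρ / 2 * T ≤ (2 * ρ)⁻¹ * (I1 + I2) := by linarith
    have h7 : (2 * ρ) * (ρ / 2 * T) ≤ (2 * ρ) * ((2 * ρ)⁻¹ * (I1 + I2)) :=
      mul_le_mul_of_nonneg_left h6 (by positivity)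
    rw [← mul_assoc (2 * ρ) (2 * ρ)⁻¹, mul_inv_cancel₀ (by positivity), one_mul] at h7
    calc T * κ = (2 * ρ) * (ρ / 2 * T) := by rw [← hρ2]; ring
      _ ≤ I1 + I2 := h7

end Pool.Agent.AV
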