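import Pool.Agent.Work.MP_13b5d9_gt.AV.Stmts

set_option autoImplicit false

/-!
# MP_13b5d9_gt, block AV, item Mn: means of the Hamiltonians
-/

open MeasureTheory Set Filter Topology
open scoped ContDiff ENNReal

namespace Pool.Agent.AV

open Pool.Agent.MLS Pool.Agent.STR Pool.Agent.LQR Pool.Agent.LQT

namespace IMn

/-- differentiation under the integral sign over a compact interval -/
theorem fd_int {V Q : Type} [NormedAddCommGroup V] [NormedSpace ℝ V] [ProperSpace V]
    [NormedAddCommGroup Q] [NormedSpace ℝ Q] {f : ℝ × V → Q} (hf : ContDiff ℝ 1 f) (l : ℝ)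
    (z₀ : V) :
    HasFDerivAt (fun z : V => ∫ r in (0 : ℝ)..l, f (r, z))
      (∫ r in (0 : ℝ)..l, (fderiv ℝ f (r, z₀)).comp (ContinuousLinearMap.inr ℝ ℝ V)) z₀ := by
  have hf1 : Continuous (fderiv ℝ f) := hf.continuous_fderiv (by simp)
  have hsw : Continuous (fun p : V × ℝ => (p.2, p.1)) := continuous_snd.prodMk continuous_fst
  have hu' : Continuous (fun p : V × ℝ => (fderiv ℝ f (p.2, p.1)).comp
      (ContinuousLinearMap.inr ℝ ℝ V)) :=
    (hf1.comp hsw).clm_comp continuous_const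
  have hK : IsCompact (Metric.closedBall z₀ 1 ×ˢ Set.uIcc (0 : ℝ) l) :=
    (isCompact_closedBall z₀ 1).prod isCompact_uIcc
  obtain ⟨C, hC⟩ := hK.exists_bound_of_continuousOn hu'.continuousOn
  have hFs : ∀ z : V, Continuous fun s : ℝ => f (s, z) := fun z =>
    hf.continuous.comp (continuous_id.prodMk continuous_const)
  have hFs' : ∀ z : V, Continuous fun s : ℝ => (fderiv ℝ f (s, z)).comp
      (ContinuousLinearMap.inr ℝ ℝ V) := fun z =>
    hu'.comp (continuous_const.prodMk continuous_id)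
  apply intervalIntegral.hasFDerivAt_integral_of_dominated_of_fderiv_le
    (F' := fun x s => (fderiv ℝ f (s, x)).comp (ContinuousLinearMap.inr ℝ ℝ V))
    (s := Metric.closedBall z₀ 1) (bound := fun _ => C) (Metric.closedBall_mem_nhds z₀ one_pos)
  · exact Filter.Eventually.of_forall fun z => (hFs z).aestronglyMeasurable
  · exact (hFs z₀).intervalIntegrable 0 l
  · exact (hFs' z₀).aestronglyMeasurable
  · refine Filter.Eventually.of_forall fun t ht z hz => ?_
    exact hC (z, t) ⟨hz, Set.uIoc_subset_uIcc ht⟩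
  · exact intervalIntegrable_const
  · refine Filter.Eventually.of_forall fun t _ z _ => ?_
    have h1 : HasFDerivAt f (fderiv ℝ f (t, z)) (t, z) :=
      (hf.differentiable (by simp) _).hasFDerivAt
    have h2 : HasFDerivAt (fun x : V => (t, x)) (ContinuousLinearMap.inr ℝ ℝ V) z :=
      hasFDerivAt_prodMk_right t z
    exact h1.comp z h2

theorem fd_slice {V Q : Type} [NormedAddCommGroup V] [NormedSpace ℝ V]
    [NormedAddCommGroup Q] [NormedSpace ℝ Q] {f : ℝ × V → Q} (hf : ContDiff ℝ 1 f) (t : ℝ)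
    (z : V) : fderiv ℝ (fun x => f (t, x)) z =
      (fderiv ℝ f (t, z)).comp (ContinuousLinearMap.inr ℝ ℝ V) := by
  have h1 : HasFDerivAt f (fderiv ℝ f (t, z)) (t, z) :=
    (hf.differentiable (by simp) _).hasFDerivAt
  have h2 : HasFDerivAt (fun x : V => (t, x)) (ContinuousLinearMap.inr ℝ ℝ V) z :=
    hasFDerivAt_prodMk_right t z
  exact (h1.comp z h2).fderiv

/-- the Hamiltonian field as a linear function of the derivative -/
noncomputable def Lam (n : ℕ) : (W n →L[ℝ] ℝ) →L[ℝ] W n :=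
  ContinuousLinearMap.prod
    (sh.comp ((ContinuousLinearMap.compL ℝ (E n) (W n) ℝ).flip (ContinuousLinearMap.inr ℝ (E n) (E n))))
    (-(sh.comp ((ContinuousLinearMap.compL ℝ (E n) (W n) ℝ).flip
      (ContinuousLinearMap.inl ℝ (E n) (E n)))))

theorem XH_eq {n : ℕ} (H : W n → ℝ) (z : W n) : XH H z = Lam n (fderiv ℝ H z) := rfl

end IMn

theorem pr_Mn (h : StSi) : StMn := by
  intro n l gr gb hl hF hR hmean
  obtain ⟨hs1, hs2, hs3⟩ := h n gr hF
  have hthird : ∀ z, Hm gb z = l⁻¹ * ∫ r in (0 : ℝ)..l, Hm (gr r) z := by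
    intro z
    have hc : Continuous (fun r : ℝ => iop (gr r) z.1) :=
      hs1.continuous.comp (continuous_id.prodMk continuous_const)
    obtain ⟨L, hL⟩ : ∃ L : (E n →L[ℝ] E n) →L[ℝ] ℝ, ∀ A, L A = 1 / 2 * inner ℝ z.2 (A z.2) :=
      ⟨(1 / 2 : ℝ) • (innerSL ℝ z.2).comp (ContinuousLinearMap.apply ℝ (E n) z.2),
        fun A => rfl⟩
    have h1 : Hm gb z = L (iop gb z.1) := (hL _).symm
    rw [h1, hmean, L.map_smul, smul_eq_mul,
      ← L.intervalIntegral_comp_comm (hc.intervalIntegrable 0 l)]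
    congr 1
    refine intervalIntegral.integral_congr fun r _ => ?_
    exact hL _
  refine ⟨hs2.continuous, hs3.continuous, hthird, fun z => ?_⟩
  have hf : ContDiff ℝ 1 (fun p : ℝ × W n => Hm (gr p.1) p.2) := hs2.of_le (by simp)
  have h1 := IMn.fd_int hf l z
  have h2 : HasFDerivAt (Hm gb) (l⁻¹ • ∫ r in (0 : ℝ)..l,
      (fderiv ℝ (fun p : ℝ × W n => Hm (gr p.1) p.2) (r, z)).comp
        (ContinuousLinearMap.inr ℝ ℝ (W n))) z := by
    have h3 := h1.const_smul l⁻¹
    refine h3.congr_of_eventuallyEq (Filter.Eventually.of_forall fun w => ?_)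
    exact hthird w
  have hcont : Continuous (fun r : ℝ => (fderiv ℝ (fun p : ℝ × W n => Hm (gr p.1) p.2) (r, z)).comp
      (ContinuousLinearMap.inr ℝ ℝ (W n))) :=
    ((hf.continuous_fderiv (by simp)).comp (continuous_id.prodMk continuous_const)).clm_comp
      continuous_const
  rw [IMn.XH_eq, h2.fderiv, ContinuousLinearMap.map_smul,
    ← (IMn.Lam n).intervalIntegral_comp_comm (hcont.intervalIntegrable 0 l)]
  congr 1
  refine intervalIntegral.integral_congr fun r _ => ?_
  show IMn.Lam n ((fderiv ℝ (fun p : ℝ × W n => Hm (gr p.1) p.2) (r, z)).comp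
      (ContinuousLinearMap.inr ℝ ℝ (W n))) = XH (Hm (gr r)) z
  rw [IMn.XH_eq, ← IMn.fd_slice hf r z]

end Pool.Agent.AV
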