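import Pool.Agent.Work.MP_13b5d9_gt.AV.Stmts

set_option autoImplicit false

/-!
# MP_13b5d9_gt, block AV, item Od: the averaging theorem
-/

open MeasureTheory Set Filter Topology
open scoped ContDiff ENNReal

namespace Pool.Agent.AV.IOd

variable {Q : Type} [NormedAddCommGroup Q] [NormedSpace ℝ Q]

omit [NormedSpace ℝ Q] in
theorem bound_per (l : ℝ) (F : ℝ → Q → Q) (hl : 0 < l)
    (hF : Continuous (fun p : ℝ × Q => F p.1 p.2)) (hper : ∀ r z, F (r + l) z = F r z)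
    (K : Set Q) (hK : IsCompact K) : ∃ M : ℝ, ∀ r, ∀ z ∈ K, ‖F r z‖ ≤ M := by
  obtain ⟨M, hM⟩ := ((isCompact_Icc (a := (0 : ℝ)) (b := l)).prod hK).exists_bound_of_continuousOn
    hF.continuousOn
  refine ⟨M, fun r z hz => ?_⟩
  have h1 : Function.Periodic (fun r => F r z) l := fun r => hper r z
  obtain ⟨r', hr', h2⟩ := h1.exists_mem_Ico₀ hl r
  have h3 : F r z = F r' z := h2
  rw [h3]
  exact hM (r', z) ⟨⟨hr'.1, hr'.2.le⟩, hz⟩

theorem lip [FiniteDimensional ℝ Q] (Fb : Q → Q) (hFb : ContDiff ℝ 1 Fb) (R : ℝ) :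
    ∃ Λ : ℝ, 0 < Λ ∧ ∀ x ∈ Metric.closedBall (0 : Q) R, ∀ y ∈ Metric.closedBall (0 : Q) R,
      ‖Fb x - Fb y‖ ≤ Λ * ‖x - y‖ := by
  have : ProperSpace Q := FiniteDimensional.proper_real Q
  obtain ⟨C, hC⟩ := (isCompact_closedBall (0 : Q) R).exists_bound_of_continuousOn
    (hFb.continuous_fderiv one_ne_zero).continuousOn
  refine ⟨|C| + 1, by positivity, fun x hx y hy => ?_⟩
  refine (convex_closedBall (0 : Q) R).norm_image_sub_le_of_norm_fderiv_le (𝕜 := ℝ)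
    (fun z _ => (hFb.differentiable one_ne_zero) z) (fun z hz => ?_) hy hx
  have h1 := hC z hz
  have h2 := le_abs_self C
  linarith

variable [CompleteSpace Q]

theorem claim (F : ℝ → Q → Q) (Fb : Q → Q) (zb : ℝ → Q)
    (hF : Continuous (fun p : ℝ × Q => F p.1 p.2)) (hFb : Continuous Fb)
    (hzb : ∀ t, HasDerivAt zb (Fb (zb t)) t) (R Λ δ₁ ε T : ℝ) (hΛ : 0 < Λ) (hε : 0 < ε)
    (hδ₁ : 0 ≤ δ₁) (hLip : ∀ x ∈ Metric.closedBall (0 : Q) R, ∀ y ∈ Metric.closedBall (0 : Q) R,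
      ‖Fb x - Fb y‖ ≤ Λ * ‖x - y‖)
    (hzR : ∀ s ∈ Icc (0 : ℝ) 1, ‖zb s‖ ≤ R) (y : ℝ → Q)
    (hy : ∀ t, HasDerivAt y (ε • F t (y t)) t) (hy0 : y 0 = zb 0) (hT : T ≤ 1 / ε)
    (hyK : ∀ t ∈ Icc 0 T, ‖y t‖ ≤ R)
    (hu : ∀ t ∈ Icc 0 T, ‖ε • ∫ r in (0 : ℝ)..t, (F r (y r) - Fb (y r))‖ ≤ δ₁) :
    ∀ t ∈ Icc 0 T, ‖y t - zb (ε * t)‖ ≤ δ₁ * Real.exp Λ := by
  have yc : Continuous y := continuous_iff_continuousAt.2 fun t => (hy t).continuousAt
  have hc : Continuous fun r => F r (y r) - Fb (y r) :=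
    (hF.comp (continuous_id.prodMk yc)).sub (hFb.comp yc)
  set u : ℝ → Q := fun t => ε • ∫ r in (0 : ℝ)..t, (F r (y r) - Fb (y r)) with hudef
  have hu' : ∀ t, HasDerivAt u (ε • (F t (y t) - Fb (y t))) t := fun t =>
    (hc.integral_hasStrictDerivAt 0 t).hasDerivAt.const_smul ε
  have hz' : ∀ t, HasDerivAt (fun t => zb (ε * t)) (ε • Fb (zb (ε * t))) t := by
    intro t
    have h1 : HasDerivAt (fun t : ℝ => ε * t) ε t := by
      have := (hasDerivAt_id t).const_mul ε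
      rwa [mul_one] at this
    exact (hzb (ε * t)).scomp t h1
  set v : ℝ → Q := fun t => y t - u t - zb (ε * t) with hvdef
  have hv' : ∀ t, HasDerivAt v (ε • (Fb (y t) - Fb (zb (ε * t)))) t := by
    intro t
    have h1 := ((hy t).sub (hu' t)).sub (hz' t)
    have h2 : ε • F t (y t) - ε • (F t (y t) - Fb (y t)) - ε • Fb (zb (ε * t)) =
        ε • (Fb (y t) - Fb (zb (ε * t))) := by
      rw [smul_sub, smul_sub]
      abel
    rw [h2] at h1
    exact h1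
  have hv0 : v 0 = 0 := by
    change y 0 - u 0 - zb (ε * 0) = 0
    have h1 : u 0 = 0 := by
      change ε • ∫ r in (0 : ℝ)..0, (F r (y r) - Fb (y r)) = 0
      rw [intervalIntegral.integral_same, smul_zero]
    rw [h1, mul_zero, sub_zero, hy0, sub_self]
  have hyz : ∀ t, y t - zb (ε * t) = v t + u t := by
    intro t
    change y t - zb (ε * t) = y t - u t - zb (ε * t) + u t
    abel
  have hεt : ∀ t ∈ Icc 0 T, ε * t ∈ Icc (0 : ℝ) 1 := by
    intro t ht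
    refine ⟨mul_nonneg hε.le ht.1, ?_⟩
    calc ε * t ≤ ε * (1 / ε) := mul_le_mul_of_nonneg_left (ht.2.trans hT) hε.le
      _ = 1 := mul_one_div_cancel hε.ne'
  have hK0 : ε * Λ ≠ 0 := (mul_pos hε hΛ).ne'
  have hgr := norm_le_gronwallBound_of_norm_deriv_right_le (f := v)
    (f' := fun t => ε • (Fb (y t) - Fb (zb (ε * t)))) (δ := 0) (K := ε * Λ) (ε := ε * Λ * δ₁)
    (a := 0) (b := T)
    (continuous_iff_continuousAt.2 fun t => (hv' t).continuousAt).continuousOn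
    (fun t _ => (hv' t).hasDerivWithinAt) (by rw [hv0, norm_zero]) (by
      intro t ht
      have ht' : t ∈ Icc 0 T := ⟨ht.1, ht.2.le⟩
      have h1 := hLip (y t) (mem_closedBall_zero_iff.2 (hyK t ht')) (zb (ε * t))
        (mem_closedBall_zero_iff.2 (hzR _ (hεt t ht')))
      have h2 : ‖y t - zb (ε * t)‖ ≤ ‖v t‖ + δ₁ := by
        rw [hyz t]
        exact (norm_add_le _ _).trans (add_le_add le_rfl (hu t ht'))
      rw [norm_smul, Real.norm_of_nonneg hε.le]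
      calc ε * ‖Fb (y t) - Fb (zb (ε * t))‖ ≤ ε * (Λ * (‖v t‖ + δ₁)) :=
            mul_le_mul_of_nonneg_left (h1.trans (mul_le_mul_of_nonneg_left h2 hΛ.le)) hε.le
        _ = ε * Λ * ‖v t‖ + ε * Λ * δ₁ := by ring)
  intro t ht
  have h1 := hgr t ht
  rw [gronwallBound_of_K_ne_0 hK0, sub_zero] at h1
  have h1 : ‖v t‖ ≤ δ₁ * (Real.exp (ε * Λ * t) - 1) := by
    have h5 : ‖v t‖ ≤ 0 * Real.exp (ε * Λ * t) +
        ε * Λ * δ₁ / (ε * Λ) * (Real.exp (ε * Λ * t) - 1) := h1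
    rwa [zero_mul, zero_add, mul_div_cancel_left₀ δ₁ hK0] at h5
  have h2 : Real.exp (ε * Λ * t) ≤ Real.exp Λ := by
    refine Real.exp_le_exp.2 ?_
    have h3 := (hεt t ht).2
    calc ε * Λ * t = ε * t * Λ := by ring
      _ ≤ 1 * Λ := mul_le_mul_of_nonneg_right h3 hΛ.le
      _ = Λ := one_mul Λ
  have h4 := hu t ht
  rw [hyz t]
  calc ‖v t + u t‖ ≤ ‖v t‖ + ‖u t‖ := norm_add_le _ _
    _ ≤ δ₁ * (Real.exp (ε * Λ * t) - 1) + δ₁ := add_le_add h1 h4
    _ = δ₁ * Real.exp (ε * Λ * t) := by ring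
    _ ≤ δ₁ * Real.exp Λ := mul_le_mul_of_nonneg_left h2 hδ₁

end Pool.Agent.AV.IOd

open Pool.Agent.AV.IOd in
theorem Pool.Agent.AV.pr_Od (hBk : Pool.Agent.AV.StBk) : Pool.Agent.AV.StOd := by
  intro Q _ _ _ l F Fb zb hl hF hFb hper hmean hzb δ hδ
  have : ProperSpace Q := FiniteDimensional.proper_real Q
  have : CompleteSpace Q := FiniteDimensional.complete ℝ Q
  have zc : Continuous zb := continuous_iff_continuousAt.2 fun t => (hzb t).continuousAt
  obtain ⟨R₀, hR₀⟩ := (isCompact_Icc (a := (0 : ℝ)) (b := 1)).exists_bound_of_continuousOn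
    zc.continuousOn
  set R : ℝ := R₀ + 1 with hR
  obtain ⟨M, hM⟩ := bound_per l F hl hF hper (Metric.closedBall (0 : Q) R)
    (isCompact_closedBall _ _)
  obtain ⟨Λ, hΛ, hLip⟩ := lip Fb hFb R
  set δ' : ℝ := min δ (1 / 2) with hδ'
  have hδ'0 : 0 < δ' := lt_min hδ (by norm_num)
  have hδ₁ : 0 < δ' * Real.exp (-Λ) := mul_pos hδ'0 (Real.exp_pos _)
  have hA : Continuous (fun p : ℝ × Q => F p.1 p.2 - Fb p.2) :=
    hF.sub (hFb.continuous.comp continuous_snd)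
  obtain ⟨ε₀, hε₀, hB⟩ := hBk Q Q l (fun r z => F r z - Fb z) (Metric.closedBall (0 : Q) R) M hl hA
    (fun r z => by rw [hper r z]) (fun z => by
      have h1 : IntervalIntegrable (fun r => F r z) volume 0 l :=
        (hF.comp (continuous_id.prodMk continuous_const)).intervalIntegrable 0 l
      rw [intervalIntegral.integral_sub h1 intervalIntegrable_const,
        intervalIntegral.integral_const, hmean z, sub_zero, smul_smul, mul_inv_cancel₀ hl.ne',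
        one_smul, sub_self])
    (isCompact_closedBall _ _) (δ' * Real.exp (-Λ)) hδ₁
  refine ⟨ε₀, hε₀, fun ε hε hεε y hy hy0 => ?_⟩
  have yc : Continuous y := continuous_iff_continuousAt.2 fun t => (hy t).continuousAt
  have hmain : ∀ T : ℝ, T ≤ 1 / ε → (∀ t ∈ Icc 0 T, ‖y t‖ ≤ R) →
      ∀ t ∈ Icc 0 T, ‖y t - zb (ε * t)‖ ≤ δ' := by
    intro T hT hyK t ht
    have hLy : ∀ s ∈ Icc 0 T, ∀ t ∈ Icc 0 T, ‖y s - y t‖ ≤ M * ε * |s - t| := by
      intro s hs t ht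
      have h1 := (convex_Icc (0 : ℝ) T).norm_image_sub_le_of_norm_hasDerivWithin_le
        (f := y) (f' := fun t => ε • F t (y t)) (C := M * ε)
        (fun x _ => (hy x).hasDerivWithinAt) (fun x hx => by
          rw [norm_smul, Real.norm_of_nonneg hε.le, mul_comm]
          exact mul_le_mul_of_nonneg_right
            (hM x (y x) (mem_closedBall_zero_iff.2 (hyK x hx))) hε.le) ht hs
      exact h1
    have hu := hB ε hε hεε y T hT (fun t ht => mem_closedBall_zero_iff.2 (hyK t ht)) hLy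
    have h2 := claim F Fb zb hF hFb.continuous hzb R Λ (δ' * Real.exp (-Λ)) ε T hΛ hε hδ₁.le hLip
      (fun s hs => (hR₀ s hs).trans (by rw [hR]; linarith)) y hy hy0 hT hyK hu t ht
    rw [mul_assoc, ← Real.exp_add, neg_add_cancel, Real.exp_zero, mul_one] at h2
    exact h2
  have hyR : ∀ t ∈ Icc 0 (1 / ε), ‖y t‖ ≤ R := by
    by_contra hcon
    push Not at hcon
    obtain ⟨t₁, ht₁, hRt⟩ := hcon
    set S : Set ℝ := Icc 0 t₁ ∩ {t | R ≤ ‖y t‖} with hS
    have hScl : IsClosed S := isClosed_Icc.inter (isClosed_le continuous_const yc.norm)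
    have hSne : S.Nonempty := ⟨t₁, ⟨ht₁.1, le_rfl⟩, hRt.le⟩
    have hSbd : BddBelow S := ⟨0, fun t ht => ht.1.1⟩
    have hmem : sInf S ∈ S := hScl.csInf_mem hSne hSbd
    set Ts : ℝ := sInf S with hTs
    have h0 : ‖y 0‖ ≤ R₀ := by
      rw [hy0]
      exact hR₀ 0 ⟨le_rfl, zero_le_one⟩
    have hne : (0 : ℝ) ≠ Ts := by
      intro h
      have h1 : R ≤ ‖y Ts‖ := hmem.2
      rw [← h] at h1
      rw [hR] at h1
      linarith
    have hsub : Icc 0 Ts ⊆ {t | ‖y t‖ ≤ R} := by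
      rw [← closure_Ico hne]
      refine closure_minimal (fun t ht => ?_) (isClosed_le yc.norm continuous_const)
      by_contra hcon
      have h1 : R ≤ ‖y t‖ := le_of_lt (not_le.1 hcon)
      have h2 : t ∈ S := ⟨⟨ht.1, ht.2.le.trans hmem.1.2⟩, h1⟩
      exact absurd (csInf_le hSbd h2) (not_le.2 ht.2)
    have h3 := hmain Ts (hmem.1.2.trans ht₁.2) hsub Ts ⟨hmem.1.1, le_rfl⟩
    have hεT : ε * Ts ∈ Icc (0 : ℝ) 1 := by
      refine ⟨mul_nonneg hε.le hmem.1.1, ?_⟩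
      calc ε * Ts ≤ ε * (1 / ε) := mul_le_mul_of_nonneg_left (hmem.1.2.trans ht₁.2) hε.le
        _ = 1 := mul_one_div_cancel hε.ne'
    have h4 := hR₀ _ hεT
    have h5 : ‖y Ts‖ ≤ ‖y Ts - zb (ε * Ts)‖ + ‖zb (ε * Ts)‖ := by
      have := norm_add_le (y Ts - zb (ε * Ts)) (zb (ε * Ts))
      rwa [sub_add_cancel] at this
    have h6 : R ≤ ‖y Ts‖ := hmem.2
    have h7 : δ' ≤ 1 / 2 := min_le_right _ _
    rw [hR] at h6
    linarith
  intro t ht
  exact (hmain (1 / ε) le_rfl hyR t ht).trans (min_le_left _ _)
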