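import Pool.Agent.Work.MP_13b5d9_gt.AV.Stmts

set_option autoImplicit false

/-!
# MP_13b5d9_gt, block AV, item Pa: the canonical field is parallel for the mean metric
-/

open MeasureTheory Set Filter Topology
open scoped ContDiff ENNReal
open Pool.Agent.Work.MP_c9f990_an.Al (IsFlow)

namespace Pool.Agent.AV

open Pool.Agent.MLS Pool.Agent.STR Pool.Agent.LQR Pool.Agent.LQT Pool.Agent.PIN

namespace IPa

section Generic

variable {X A : Type} [NormedAddCommGroup X] [NormedSpace ℝ X] [NormedAddCommGroup A]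
  [NormedSpace ℝ A]

/-- derivative of a differentiable map along a line -/
theorem line {B : Type} [NormedAddCommGroup B] [NormedSpace ℝ B] {f : X → B} {x : X}
    (hf : DifferentiableAt ℝ f x) (a : X) :
    HasDerivAt (fun t : ℝ => f (x + t • a)) (fderiv ℝ f x a) 0 := by
  have h1 : HasDerivAt (fun t : ℝ => x + t • a) a 0 := by
    simpa using ((hasDerivAt_id (0 : ℝ)).smul_const a).const_add x
  have h2 : HasFDerivAt f (fderiv ℝ f x) (x + (0 : ℝ) • a) := by
    rw [zero_smul, add_zero]
    exact hf.hasFDerivAt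
  exact h2.comp_hasDerivAt (0 : ℝ) h1

theorem symm2 {f : X → A} (hf : ContDiff ℝ ∞ f) (x u v : X) :
    fderiv ℝ (fderiv ℝ f) x u v = fderiv ℝ (fderiv ℝ f) x v u := by
  have h := (hf.contDiffAt (x := x)).isSymmSndFDerivAt (by
    rw [minSmoothness_of_isRCLikeNormedField]
    exact WithTop.coe_le_coe.2 le_top)
  exact h u v

theorem apply3 {W' : Type} [NormedAddCommGroup W'] [NormedSpace ℝ W']
    {F : X → A →L[ℝ] A →L[ℝ] W'} {P Q : X → A} {x : X}
    (h : DifferentiableAt ℝ F x) (hP : DifferentiableAt ℝ P x) (hQ : DifferentiableAt ℝ Q x)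
    (a : X) :
    HasDerivAt (fun s : ℝ => F (x + s • a) (P (x + s • a)) (Q (x + s • a)))
      (fderiv ℝ F x a (P x) (Q x) + F x (fderiv ℝ P x a) (Q x) +
        F x (P x) (fderiv ℝ Q x a)) 0 := by
  have h1 := (h.hasFDerivAt.clm_apply hP.hasFDerivAt).clm_apply hQ.hasFDerivAt
  have h2 : HasDerivAt (fun s : ℝ => x + s • a) a 0 := by
    simpa using ((hasDerivAt_id (0 : ℝ)).smul_const a).const_add x
  have e : x = (fun s : ℝ => x + s • a) 0 := by simp
  have h4 := HasFDerivAt.comp_hasDerivAt_of_eq (0 : ℝ) h1 h2 e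
  refine h4.congr_deriv ?_
  simp only [_root_.add_apply, ContinuousLinearMap.comp_apply, ContinuousLinearMap.flip_apply]
  abel

/-- the closed form -/
theorem closed {g : X → X →L[ℝ] X →L[ℝ] ℝ} {f : X → ℝ} {V : X → X} (hg : Differentiable ℝ g)
    (hf : ContDiff ℝ ∞ f) (hV : Differentiable ℝ V)
    (h : ∀ x w, g x (V x) w = fderiv ℝ f x w) (x u w : X) :
    fderiv ℝ g x u (V x) w + g x (fderiv ℝ V x u) w =
      fderiv ℝ g x w (V x) u + g x (fderiv ℝ V x w) u := by
  have key : ∀ a b : X, fderiv ℝ g x a (V x) b + g x (fderiv ℝ V x a) b =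
      fderiv ℝ (fderiv ℝ f) x a b := by
    intro a b
    have e1 : HasDerivAt (fun t : ℝ => g (x + t • a) (V (x + t • a)) b)
        (fderiv ℝ g x a (V x) b + g x (fderiv ℝ V x a) b) 0 := by
      have := apply3 (hg x) (hV x) (differentiableAt_const (x := x) b) a
      simpa using this
    have hf2 : DifferentiableAt ℝ (fderiv ℝ f) x :=
      ((hf.fderiv_right (m := ∞) (by simp)).differentiable (by simp)) x
    have e2 : HasDerivAt (fun t : ℝ => fderiv ℝ f (x + t • a) b)
        (fderiv ℝ (fderiv ℝ f) x a b) 0 := by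
      have := (line (B := X →L[ℝ] ℝ) hf2 a).clm_apply (hasDerivAt_const (0 : ℝ) b)
      simpa using this
    have e3 : (fun t : ℝ => g (x + t • a) (V (x + t • a)) b) =
        fun t : ℝ => fderiv ℝ f (x + t • a) b := funext fun t => h _ _
    rw [e3] at e1
    exact e1.unique e2
  rw [key u w, key w u, symm2 hf x u w]

end Generic

end IPa

open IPa in
/-- The canonical field is parallel for the mean metric, and the mean metric has the same axis data. -/
theorem pr_Pa (h : StGv) (h1 : NcGa) (h2 : NcGeo) (h3 : PiFlo) (h4 : PiLie) : StPa := by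
  intro n G _ _ g z l V τ ψ gr gb hR hA hAv
  obtain ⟨-, g2, g3⟩ := h n G g z l V τ ψ gr gb hR hA hAv
  have hRb := hAv.riemb
  have dV : Differentiable ℝ V := hA.smoothV.differentiable (by simp)
  have db : Differentiable ℝ gb.val := gb.smooth.differentiable (by simp)
  have hgrad : ∀ y w, gb.val y (V y) w = fderiv ℝ τ y w := by
    intro y w
    rw [g2, hA.grad]
  have K1 := closed db hA.smoothT dV hgrad
  have hψ0 : ψ 0 = id := funext hA.zero
  have K2 : ∀ x u v, fderiv ℝ gb.val x (V x) u v + gb.val x (fderiv ℝ V x u) v +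
      gb.val x u (fderiv ℝ V x v) = 0 := by
    intro x u v
    have e1 := (h3 n V gb.val ψ hA.smoothV gb.smooth hA.smoothF hA.ode).2 x u v 0
    have e2 : (fun r => gb.val (ψ r x) (fderiv ℝ (ψ r) x u) (fderiv ℝ (ψ r) x v)) =
        fun _ => gb.val x u v := funext fun r => g3 r x u v
    rw [e2, hψ0, fderiv_id] at e1
    have e3 := e1.unique (hasDerivAt_const (0 : ℝ) (gb.val x u v))
    rw [← (h4 n V gb.val hA.smoothV gb.smooth).2.1 x u v]
    exact e3
  obtain ⟨-, hsym, -, hK⟩ := h1 n gb hRb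
  have par : ∀ x u, fderiv ℝ V x u + Ga gb x u (V x) = 0 := by
    intro x u
    have main : ∀ w, gb.val x (fderiv ℝ V x u + Ga gb x u (V x)) w = 0 := by
      intro w
      rw [map_add, _root_.add_apply, hK]
      have k1 := K1 x u w
      have k2 := K2 x u w
      rw [gb.symm x u (fderiv ℝ V x w)] at k2
      rw [hsym x w u (V x)]
      linarith
    by_contra hne
    exact absurd (main _) (hRb x _ hne).ne'
  have hder : ∀ x, deriv (fun t => ψ t x) = fun t => V (ψ t x) :=
    fun x => funext fun t => (hA.ode x t).deriv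
  refine ⟨⟨hA.pos, hA.smoothV, hA.smoothT, hA.smoothF, ?_, ?_, hA.inv, hA.zero, hA.ode, hA.add, ?_,
    hA.period, hA.comm, hA.height, hA.deck⟩, par⟩
  · intro x
    rw [g2]
    exact hA.unit x
  · intro x v
    rw [g2]
    exact hA.grad x v
  · intro x
    refine (h2 n gb hRb _).2 ⟨?_, ?_⟩
    · have e : ContDiff ℝ ∞ (fun t : ℝ => ψ t x) :=
        hA.smoothF.comp (contDiff_id.prodMk contDiff_const)
      exact e.of_le (WithTop.coe_le_coe.2 le_top)
    · intro t
      rw [hder x]
      have e := (dV (ψ t x)).hasFDerivAt.comp_hasDerivAt t (hA.ode x t)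
      have e2 : fderiv ℝ V (ψ t x) (V (ψ t x)) = -(Ga gb (ψ t x) (V (ψ t x)) (V (ψ t x))) :=
        eq_neg_of_add_eq_zero_left (par (ψ t x) (V (ψ t x)))
      rw [e2] at e
      exact e

end Pool.Agent.AV
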