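import Pool.Agent.Work.MP_13b5d9_gt.AV.StmtsL

set_option autoImplicit false

/-!
# MP_13b5d9_gt, block AV, item Pd: distances in the product (helper17)
-/

open MeasureTheory Set Filter Topology
open scoped ContDiff ENNReal
open Pool.Agent.Work.MP_c9f990_an.Al (IsFlow)

namespace Pool.Agent.AV

open Pool.Agent.MLS Pool.Agent.STR Pool.Agent.LQR Pool.Agent.LQT

namespace IPd

/-- the curve `t ↦ ψ (r t) (γ t)`, `γ` the geodesic from `x` with initial velocity `W`, has constant
speed -/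
theorem step (hOp : StOp) (hGeo : StGeo1) (hGd : StGd) (hExp : NcExp) (hEh : TEh) (hIs : TIs)
    (hVar : Pool.Agent.PIN.PiVar) {n : ℕ} {G : Type} [Group G] [MulAction G (E n)] {h : Form n}
    (hR : Riem h) {z : G} {l : ℝ} {V : E n → E n} {τ : E n → ℝ} {ψ : ℝ → E n → E n}
    (hA : Axis n G h z l V τ ψ) (hpar : ∀ x u, fderiv ℝ V x u + Ga h x u (V x) = 0)
    {φ : ℝ → W n → W n} {M : ℝ → W n → W n →L[ℝ] W n} (hφ : IsFlow (XH (Hm h)) φ M)
    (x w : E n) (r : ℝ) :
    gd h x (ψ r (expo φ h x w)) ^ 2 ≤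
      h.val x w w + 2 * r * (τ (expo φ h x w) - τ x) + r ^ 2 := by
  obtain ⟨-, -, hexp, -, hexp0⟩ := hExp n h φ M hR hφ x
  obtain ⟨-, -, hiop, -, -, -, -, -, hHm⟩ := hOp n h hR
  obtain ⟨hgeo, hvel, hcons⟩ := hGeo n h hR (fun t => φ t (x, op h x w))
    (fun t => hφ.ode (x, op h x w) t)
  set c : ℝ → E n := fun t => (φ t (x, op h x w)).1 with hc
  set q : ℝ := h.val x (V x) w with hq
  have hc2 : ContDiff ℝ 2 c := hgeo.smooth
  have hc1 : ∀ t, HasDerivAt c (deriv c t) t := fun t =>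
    ((hc2.differentiable (by norm_num)) t).hasDerivAt
  have hce : ∀ t, c t = expo φ h x (t • w) := fun t => hexp t w
  have hc0 : c 0 = x := by rw [hce, zero_smul, hexp0]
  have hc1e : c 1 = expo φ h x w := by rw [hce, one_smul]
  -- the energy
  have hen : ∀ t, h.val (c t) (deriv c t) (deriv c t) = h.val x w w := by
    intro t
    have h1 := hHm (φ t (x, op h x w))
    have h2 := hHm (φ 0 (x, op h x w))
    have h3 := hcons t
    rw [h1, h2, hφ.zero] at h3
    have h4 : vel h (x, op h x w) = w := hiop x w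
    rw [h4] at h3
    rw [hvel t]
    have h5 : h.val (φ t (x, op h x w)).1 (vel h (φ t (x, op h x w)))
        (vel h (φ t (x, op h x w))) = h.val x w w := by
      simpa using h3
    exact h5
  -- the height
  have hhe : ∀ t, h.val (c t) (V (c t)) (deriv c t) = q := by
    intro t
    have h1 : HasDerivAt (fun s => τ (c s)) (fderiv ℝ τ (c t) (deriv c t)) t :=
      ((hA.smoothT.differentiable (by norm_num)) (c t)).hasFDerivAt.comp_hasDerivAt t (hc1 t)
    have h2 : (fun s => τ (c s)) = fun s => τ x + s * q := by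
      funext s
      rw [hce, hEh n G h z l V τ ψ hR hA hpar φ M hφ x (s • w), map_smul, smul_eq_mul]
    have h3 : HasDerivAt (fun s => τ (c s)) q t := by
      rw [h2]
      have := ((hasDerivAt_id t).mul_const q).const_add (τ x)
      simpa using this
    have h4 := h1.unique h3
    rw [hA.grad] at h4
    exact h4
  have hqτ : q = τ (expo φ h x w) - τ x := by
    rw [hEh n G h z l V τ ψ hR hA hpar φ M hφ x w]
    ring
  -- the curve
  obtain ⟨hC1, hC2⟩ := hVar n G h z l V τ ψ hA c (fun t => t) (hc2.of_le (by norm_num))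
    contDiff_id r
  set C : ℝ → E n := fun t => ψ (r * t) (c t) with hC
  set K : ℝ := h.val x w w + 2 * r * q + r ^ 2 with hK
  have hspeed : ∀ t, h.val (C t) (deriv C t) (deriv C t) = K := by
    intro t
    have h1 := hC2 t
    rw [hIs n G h z l V τ ψ hR hA hpar (r * t) (c t) (deriv c t) (deriv c t), hen t, hhe t] at h1
    simp only [deriv_id'', mul_one] at h1
    change h.val (C t) (deriv C t) (deriv C t) = _ at h1
    rw [h1, hK]
    ring
  have hK0 : 0 ≤ K := by
    rw [← hspeed 0]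
    exact h.nonneg _ _
  have hd := (hGd n h).2.2.2 C 0 1 hC1 zero_le_one
  have hint : (∫ t in (0 : ℝ)..1, nrm h (C t) (deriv C t)) = Real.sqrt K := by
    have h1 : ∀ t, nrm h (C t) (deriv C t) = Real.sqrt K := fun t => by
      unfold nrm
      rw [hspeed t]
    simp [h1]
  have hC0 : C 0 = x := by
    simp only [hC, mul_zero, hA.zero, hc0]
  have hC1' : C 1 = ψ r (expo φ h x w) := by
    simp only [hC, mul_one, hc1e]
  rw [hint, hC0, hC1'] at hd
  have hnn := (hGd n h).2.1.nonneg x (ψ r (expo φ h x w))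
  have h6 : gd h x (ψ r (expo φ h x w)) ^ 2 ≤ K := by
    calc gd h x (ψ r (expo φ h x w)) ^ 2 ≤ Real.sqrt K ^ 2 := pow_le_pow_left₀ hnn hd 2
      _ = K := Real.sq_sqrt hK0
  rw [hK, hqτ] at h6
  exact h6

end IPd

theorem pr_Pd (hFlow : StFlow) (hOp : StOp) (hGeo : StGeo1) (hGd : StGd) (hInj : NcInj)
    (hDist : NcDist) (hExp : NcExp) (hEh : TEh) (hIs : TIs) (hVar : Pool.Agent.PIN.PiVar) :
    StPd := by
  intro n G _ _ hCo h hR hInv hNC z l V τ ψ hA hpar x y t hxy
  obtain ⟨φ, M, hφ⟩ := hFlow n G hCo h hR hInv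
  obtain ⟨hbij, hdist⟩ := hDist n h φ M hR hφ x (hInj n h φ M hR hφ hNC x)
  have hsq : ∀ w : E n, gd h x (expo φ h x w) ^ 2 = h.val x w w := by
    intro w
    rw [hdist w]
    unfold nrm
    exact Real.sq_sqrt (h.nonneg _ _)
  have hstep := IPd.step hOp hGeo hGd hExp hEh hIs hVar hR hA hpar hφ x
  obtain ⟨w, hw⟩ := hbij.2 y
  obtain ⟨w', hw'⟩ := hbij.2 (ψ t y)
  have s1 := hstep w t
  rw [← hsq w, hw, hxy] at s1
  have s2 := hstep w' (-t)
  rw [← hsq w', hw', ← hA.add, neg_add_cancel, hA.zero, hA.height, hxy] at s2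
  refine le_antisymm ?_ ?_
  · linarith
  · nlinarith

end Pool.Agent.AV
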