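import Pool.Agent.Work.MP_13b5d9_gt.AV.Stmts
import Pool.Agent.Work.MP_13b5d9_gt.LQ.I_RFl

set_option autoImplicit false

/-!
# MP_13b5d9_gt, block AV, item Si: joint smoothness (the lemmas are in LQ/I_RFl.lean)
-/

open MeasureTheory Set Filter Topology
open scoped ContDiff ENNReal

namespace Pool.Agent.AV

open Pool.Agent.MLS Pool.Agent.STR Pool.Agent.LQR Pool.Agent.LQT

theorem pr_Si : StSi := by
  intro n F hF
  exact ⟨IRFl.iop_smooth hF, IRFl.hh_smooth hF, IRFl.XH_smooth hF⟩

end Pool.Agent.AV
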