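import Pool.Agent.Work.MP_13b5d9_gt.AV.Stmts

set_option autoImplicit false

/-!
# MP_13b5d9_gt, block AV, item Th: the theorem in the form layer
-/

open MeasureTheory Set Filter Topology
open scoped ContDiff ENNReal
open Pool.Agent.Work.MP_c9f990_an.Al (IsFlow)

namespace Pool.Agent.AV

open Pool.Agent.MLS Pool.Agent.STR Pool.Agent.LQR Pool.Agent.LQT

theorem pr_Th (hAx : STR.StAx) (hNC : MLS.StNC) (hGr : StGr) (hIg : StIg) (hPa : StPa)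
    (hFlow : MLS.StFlow) (hEM : StEM) (hIn : StIn) (hNj : StNj) (hPS : TPS) (hSP : TSP)
    (hIs : StIs) (hVe : StVe) : StTh := by
  intro m G _ _ hG g hR hI hN z hz hc
  obtain ⟨l, V, τ, ψ, hA⟩ := hAx (m + 1) G hG g hR hI hN z hz hc
  obtain ⟨gr, h1, h2, h3, h4⟩ := hGr (m + 1) G hG g hR hI z l V τ ψ hA
  obtain ⟨gb, h5, h6, h7⟩ := hIg (m + 1) G hG l gr hA.pos h2 h3
  have hAv : Avg (m + 1) G g l ψ gr gb := ⟨h1, h2, h3, h4, h5, h6, h7⟩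
  have hM : Minz g := hNC (m + 1) G hG g hR hI hN
  obtain ⟨φ, M, hφ⟩ := hFlow (m + 1) G hG gb h5 h6
  have hE : EMin gb φ := hEM (m + 1) G hG g hR hI hM z l V τ ψ hA gr gb hAv φ M hφ
  have hNb : NoConj gb := hNj (m + 1) gb φ M h5 hφ (hIn (m + 1) gb φ M h5 hφ hE)
  obtain ⟨hAb, hPb⟩ := hPa (m + 1) G g z l V τ ψ gr gb hR hA hAv
  have hSb : Sp m G z gb := hPS m G hG gb h5 h6 hNb z ⟨l, V, τ, ψ, hAb, hPb⟩
  have key : gb = g ↔ Sp m G z g :=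
    ⟨fun h => h ▸ hSb, fun h => hIs (m + 1) G hG g hR hI hN z l V τ ψ hA gr gb hAv
      (hSP m G hG g hR z h)⟩
  refine ⟨l, V, τ, ψ, gr, gb, hA, hAv, hNb, hAb, hSb, fun χ hχ => ?_, key⟩
  have hv := hVe (m + 1) G hG g hR hI z l V τ ψ hA gr gb hAv χ hχ
  exact ⟨hv.1, fun h => key.1 (hv.2 h), fun h => by rw [key.2 h]⟩

end Pool.Agent.AV
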