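import Pool.Agent.Work.MP_13b5d9_gt.AV.Stmts

set_option autoImplicit false

/-!
# MP_13b5d9_gt, block AV, item Ty: Taylor's formula for the energy density
-/

open MeasureTheory Set Filter Topology
open scoped ContDiff ENNReal

namespace Pool.Agent.AV.ITy

open Pool.Agent.MLS Pool.Agent.STR Pool.Agent.LQR Pool.Agent.LQT

/-- Second order bound for a function of class `C^2`, uniform on a compact set. -/
theorem taylor {W : Type} [NormedAddCommGroup W] [NormedSpace ℝ W] [FiniteDimensional ℝ W]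
    (f : W → ℝ) (hf : ContDiff ℝ 2 f) (K : Set W) (hK : IsCompact K) :
    ∃ C : ℝ, 0 ≤ C ∧ ∀ z ∈ K, ∀ d : W, ‖d‖ ≤ 1 → f (z + d) ≤ f z + fderiv ℝ f z d + C * ‖d‖ ^ 2 := by
  obtain ⟨R, hR⟩ := hK.isBounded.subset_closedBall (0 : W)
  have h1 : ContDiff ℝ 1 (fderiv ℝ f) := hf.fderiv_right (by norm_num)
  obtain ⟨L, hL⟩ := h1.contDiffOn.exists_lipschitzOnWith (by norm_num)
    (convex_closedBall (0 : W) (R + 1)) (isCompact_closedBall (0 : W) (R + 1))
  refine ⟨L, L.2, fun z hz d hd => ?_⟩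
  have hz1 : ‖z‖ ≤ R := by simpa using hR hz
  have hmem : ∀ x ∈ Metric.closedBall z ‖d‖, x ∈ Metric.closedBall (0 : W) (R + 1) := by
    intro x hx
    rw [Metric.mem_closedBall, dist_eq_norm] at hx
    rw [mem_closedBall_zero_iff]
    calc ‖x‖ = ‖(x - z) + z‖ := by rw [sub_add_cancel]
      _ ≤ ‖x - z‖ + ‖z‖ := norm_add_le _ _
      _ ≤ R + 1 := by linarith
  have hzs : z ∈ Metric.closedBall z ‖d‖ := Metric.mem_closedBall_self (norm_nonneg _)
  have hys : z + d ∈ Metric.closedBall z ‖d‖ := by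
    rw [Metric.mem_closedBall, dist_eq_norm, add_sub_cancel_left]
  have h2 := (convex_closedBall z ‖d‖).norm_image_sub_le_of_norm_fderiv_le' (𝕜 := ℝ) (f := f)
    (φ := fderiv ℝ f z) (C := L * ‖d‖)
    (fun x _ => (hf.differentiable (by norm_num)).differentiableAt)
    (fun x hx => by
      have h3 := hL.dist_le_mul x (hmem x hx) z (hmem z hzs)
      rw [dist_eq_norm] at h3
      refine h3.trans (mul_le_mul_of_nonneg_left ?_ L.2)
      exact Metric.mem_closedBall.1 hx) hzs hys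
  rw [add_sub_cancel_left] at h2
  have h4 := (abs_le.1 (by rwa [Real.norm_eq_abs] at h2)).2
  nlinarith

end Pool.Agent.AV.ITy

namespace Pool.Agent.AV

open Pool.Agent.MLS Pool.Agent.STR Pool.Agent.LQR Pool.Agent.LQT

theorem pr_Ty : StTy := by
  intro n h K hK
  set f : E n × E n → ℝ := fun z => 1 / 2 * h.val z.1 z.2 z.2 with hf
  have hsm : ContDiff ℝ ∞ f := by
    have h1 : ContDiff ℝ ∞ (fun z : E n × E n => h.val z.1) := h.smooth.comp contDiff_fst
    exact contDiff_const.mul ((h1.clm_apply contDiff_snd).clm_apply contDiff_snd)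
  obtain ⟨C, hC, hT⟩ := ITy.taylor f (hsm.of_le (by norm_cast)) K hK
  refine ⟨C, hC, fun y v hyv a b ha hb => ?_⟩
  have hd : ‖((a, b) : E n × E n)‖ ≤ 1 := by
    rw [Prod.norm_def]; exact max_le ha hb
  have h1 := hT (y, v) hyv (a, b) hd
  have hder : fderiv ℝ f (y, v) (a, b) = h.val y v b + 1 / 2 * fderiv ℝ h.val y a v v := by
    have hv : HasFDerivAt h.val (fderiv ℝ h.val y) y :=
      (h.smooth.differentiable (by norm_num)).differentiableAt.hasFDerivAt
    have e0 : HasFDerivAt (fun z : E n × E n => z.1) (ContinuousLinearMap.fst ℝ (E n) (E n)) (y, v) :=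
      hasFDerivAt_fst
    have e1 : HasFDerivAt (fun z : E n × E n => h.val z.1)
        ((fderiv ℝ h.val y).comp (ContinuousLinearMap.fst ℝ (E n) (E n))) (y, v) :=
      HasFDerivAt.comp (g := h.val) (g' := fderiv ℝ h.val y) (f := fun z : E n × E n => z.1)
        (f' := ContinuousLinearMap.fst ℝ (E n) (E n)) ((y, v) : E n × E n) hv e0
    have e2 : HasFDerivAt (fun z : E n × E n => z.2) (ContinuousLinearMap.snd ℝ (E n) (E n)) (y, v) :=
      hasFDerivAt_snd
    have e3 := ((e1.clm_apply e2).clm_apply e2).const_mul (1 / 2 : ℝ)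
    rw [show fderiv ℝ f (y, v) = _ from e3.fderiv]
    have hs := h.symm y b v
    simp only [ContinuousLinearMap.smul_apply, ContinuousLinearMap.add_apply,
      ContinuousLinearMap.comp_apply, ContinuousLinearMap.flip_apply,
      ContinuousLinearMap.coe_fst', ContinuousLinearMap.coe_snd', smul_eq_mul]
    rw [hs]
    ring
  rw [hder] at h1
  have h2 : f ((y, v) + (a, b)) = 1 / 2 * h.val (y + a) (v + b) (v + b) := rfl
  have h3 : f (y, v) = 1 / 2 * h.val y v v := rfl
  rw [h2, h3] at h1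
  have h4 : ‖((a, b) : E n × E n)‖ ^ 2 ≤ ‖a‖ ^ 2 + ‖b‖ ^ 2 := by
    rw [Prod.norm_def]
    rcases le_total ‖a‖ ‖b‖ with h5 | h5
    · rw [max_eq_right h5]; nlinarith [sq_nonneg ‖a‖]
    · rw [max_eq_left h5]; nlinarith [sq_nonneg ‖b‖]
  have h6 := mul_le_mul_of_nonneg_left h4 hC
  linarith

end Pool.Agent.AV
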