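import Pool.Agent.Work.MP_13b5d9_gt.AV.StmtsL
import Pool.Agent.Work.MP_13b5d9_gt.ST.Stmts

set_option autoImplicit false

/-!
# MP_13b5d9_gt, block AV, part L, item Ub: the upper bound of the marked length spectrum
-/

open MeasureTheory Set Filter Topology
open scoped ContDiff ENNReal
open Pool.Agent.Work.MP_c9f990_an.Al (IsFlow)

namespace Pool.Agent.AV

open Pool.Agent.MLS Pool.Agent.STR Pool.Agent.LQR Pool.Agent.LQT

namespace IUb

/-- the Cauchy-Schwarz inequality for one continuous function -/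
theorem cs {f : ℝ → ℝ} (hf : Continuous f) {T : ℝ} (hT : 0 < T) :
    (∫ t in (0 : ℝ)..T, f t) ^ 2 ≤ T * ∫ t in (0 : ℝ)..T, f t ^ 2 := by
  set A : ℝ := ∫ t in (0 : ℝ)..T, f t with hA
  have h0 : 0 ≤ ∫ t in (0 : ℝ)..T, (f t - A / T) ^ 2 :=
    intervalIntegral.integral_nonneg hT.le fun t _ => sq_nonneg _
  have i1 : IntervalIntegrable (fun t => f t ^ 2) volume 0 T := (hf.pow 2).intervalIntegrable _ _
  have i2 : IntervalIntegrable (fun t => 2 * (A / T) * f t) volume 0 T :=
    (continuous_const.mul hf).intervalIntegrable _ _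
  have i3 : IntervalIntegrable (fun _ : ℝ => (A / T) ^ 2) volume 0 T :=
    continuous_const.intervalIntegrable _ _
  have h1 : ∫ t in (0 : ℝ)..T, (f t - A / T) ^ 2 =
      (∫ t in (0 : ℝ)..T, f t ^ 2) - 2 * (A / T) * A + T * (A / T) ^ 2 := by
    have e : (fun t => (f t - A / T) ^ 2) =
        fun t => f t ^ 2 - 2 * (A / T) * f t + (A / T) ^ 2 := by
      funext t
      ring
    rw [e, intervalIntegral.integral_add (i1.sub i2) i3, intervalIntegral.integral_sub i1 i2,
      intervalIntegral.integral_const_mul, intervalIntegral.integral_const]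
    simp [hA]
  rw [h1] at h0
  have h2 : T * ((∫ t in (0 : ℝ)..T, f t ^ 2) - 2 * (A / T) * A + T * (A / T) ^ 2) =
      T * (∫ t in (0 : ℝ)..T, f t ^ 2) - A ^ 2 := by
    field_simp
    ring
  have h3 := mul_nonneg hT.le h0
  rw [h2] at h3
  linarith

/-- the flow after `k` periods -/
theorem iter {n : ℕ} {G : Type} [Group G] [MulAction G (E n)] {g : Form n} {z : G} {l : ℝ}
    {V : E n → E n} {τ : E n → ℝ} {ψ : ℝ → E n → E n} (hA : Axis n G g z l V τ ψ) (k : ℕ) :
    ∀ w : E n, ψ (k * l) w = z ^ k • w := by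
  induction k with
  | zero =>
    intro w
    simp [hA.zero]
  | succ k ih =>
    intro w
    have e : ((k + 1 : ℕ) : ℝ) * l = k * l + l := by
      push_cast
      ring
    rw [e, hA.add, hA.period, ih, pow_succ, mul_smul]

/-- the marked length spectrum is nonnegative -/
theorem L_nonneg (hLd : StLd) (hGd : StGd) {n : ℕ} {G : Type} [Group G] [MulAction G (E n)]
    (g : Form n) (a : G) : 0 ≤ L g a :=
  (hLd n G g a).2 0 fun z => (hGd n g).2.1.nonneg z (a • z)

/-- length and energy of a curve -/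
theorem len (hGd : StGd) {n : ℕ} (g : Form n) {c : ℝ → E n} (hc : ContDiff ℝ 1 c) {T : ℝ}
    (hT : 0 < T) :
    gd g (c 0) (c T) ^ 2 ≤ T * ∫ t in (0 : ℝ)..T, g.val (c t) (deriv c t) (deriv c t) := by
  have hcd : Continuous (deriv c) := hc.continuous_deriv le_rfl
  have hgc : Continuous (fun t => g.val (c t) (deriv c t) (deriv c t)) :=
    ((g.smooth.continuous.comp hc.continuous).clm_apply hcd).clm_apply hcd
  have hn : Continuous (fun t => nrm g (c t) (deriv c t)) := Real.continuous_sqrt.comp hgc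
  have h1 := (hGd n g).2.2.2 c 0 T hc hT.le
  have h2 := cs hn hT
  have h3 : (fun t => nrm g (c t) (deriv c t) ^ 2) =
      fun t => g.val (c t) (deriv c t) (deriv c t) := by
    funext t
    exact Real.sq_sqrt (g.nonneg _ _)
  rw [h3] at h2
  have h4 : 0 ≤ gd g (c 0) (c T) := (hGd n g).2.1.nonneg _ _
  exact (pow_le_pow_left₀ h4 h1 2).trans h2

end IUb

open IUb in
/-- The upper bound of the marked length spectrum. -/
theorem pr_Ub (hCp : StCp) (hEn : StEn) (hLd : StLd) (hGd : StGd) (hOp : StOp) (hFl : StFlow)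
    (hLog : StLog) (hGeo : StGeo1) : StUb := by
  intro n G _ _ hC g hR hI z l V τ ψ hA gr gb hAv hNb a η hη x δ hδ
  have hRb := hAv.riemb
  obtain ⟨φ, M, hφ⟩ := hFl n G hC gb hRb hAv.invb
  obtain ⟨lg, hlg⟩ := hLog n gb φ M hRb hφ hNb
  obtain ⟨-, -, hio, -, -, -, -, -, hHm⟩ := hOp n gb hRb
  set y : E n := ψ (-η) (a • x) with hy
  set v : E n := lg x y with hv
  set z0 : W n := (x, op gb x v) with hz0
  obtain ⟨hYg, hYd, hYH⟩ := hGeo n gb hRb (fun s => φ s z0) (hφ.ode z0)
  have hH0 : Hm gb z0 = 1 / 2 * gb.val x v v := by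
    rw [hHm]
    have e : vel gb z0 = v := hio x v
    rw [e]
  have hY0 : (φ 0 z0).1 = x := by rw [hφ.zero]
  have hY1 : (φ 1 z0).1 = y := hlg.exp_log x y
  have hD : gd gb x y ^ 2 = gb.val x v v := by
    rw [hlg.dist]
    exact Real.sq_sqrt (gb.nonneg _ _)
  have hE : ∀ s, gb.val ((φ s z0).1) (deriv (fun s => (φ s z0).1) s)
      (deriv (fun s => (φ s z0).1) s) = gd gb x y ^ 2 := by
    intro s
    have e1 := hYH s
    have e2 : φ 0 z0 = z0 := hφ.zero z0
    rw [e2, hH0, hHm] at e1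
    rw [hYd s, hD]
    linarith
  have hYc : ContDiff ℝ 1 (fun s => (φ s z0).1) := hYg.smooth.of_le (by norm_num)
  obtain ⟨ε₀, hε₀, hX⟩ := hCp n l gr gb hA.pos hAv.fam hAv.per hRb hAv.mean
    (fun s => (φ s z0).1) 0 1 hYc le_rfl one_pos le_rfl (δ / 2) (by linarith)
  have hIE : ∫ s in (0 : ℝ)..1, gb.val ((fun s => (φ s z0).1) s)
      (deriv (fun s => (φ s z0).1) s) (deriv (fun s => (φ s z0).1) s) = gd gb x y ^ 2 := by
    have e : (fun s => gb.val ((fun s => (φ s z0).1) s)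
      (deriv (fun s => (φ s z0).1) s) (deriv (fun s => (φ s z0).1) s)) =
        fun _ => gd gb x y ^ 2 := funext hE
    rw [e, intervalIntegral.integral_const]
    simp
  rw [hIE] at hX
  obtain ⟨k₀, hk₀⟩ := exists_nat_gt ((1 / ε₀ - η) / l)
  refine ⟨k₀, fun k hk => ?_⟩
  have hl := hA.pos
  have hT1 : 1 / ε₀ < k * l + η := by
    have e1 : (1 / ε₀ - η) / l < k := hk₀.trans_le (by exact_mod_cast hk)
    have e2 := (div_lt_iff₀ hl).1 e1
    linarith
  set T : ℝ := k * l + η with hT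
  have hTp : 0 < T := lt_trans (by positivity) hT1
  have hεT : 1 / T < ε₀ := by
    rw [one_div_lt hTp hε₀]
    exact hT1
  obtain ⟨X, hXc, hX0, hX1, hXe⟩ := hX (1 / T) (by positivity) hεT x y
    (by simpa [hY0] using hε₀.le) (by simpa [hY1] using hε₀.le)
  have e0 : (0 : ℝ) / (1 / T) = 0 := zero_div _
  have e1 : (1 : ℝ) / (1 / T) = T := one_div_one_div T
  have e2 : ((1 : ℝ) / T)⁻¹ = T := by rw [one_div, inv_inv]
  rw [e0] at hX0
  rw [e1] at hX1
  rw [e0, e1, e2] at hXe
  obtain ⟨hcc, hce⟩ := hEn n G g z l V τ ψ gr hA hAv.fam hAv.pull X hXc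
  have hce := hce 0 T
  have hτ : τ y = τ x := by
    rw [hy, hA.height, hη]
    ring
  rw [hX1, hX0, hτ] at hce
  have hlen := len hGd g hcc hTp
  have hc0 : ψ 0 (X 0) = x := by rw [hA.zero, hX0]
  have hcT : ψ T (X T) = (z ^ k * a) • x := by
    have e3 : ψ T y = ψ (k * l) (a • x) := by
      rw [hy, ← hA.add]
      congr 1
      rw [hT]
      ring
    rw [hX1, e3, iter hA, mul_smul]
  have hlen' : gd g x ((z ^ k * a) • x) ^ 2 ≤
      T * ∫ t in (0 : ℝ)..T, g.val (ψ t (X t)) (deriv (fun t => ψ t (X t)) t)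
        (deriv (fun t => ψ t (X t)) t) := by
    have := hlen
    rw [hc0, hcT] at this
    exact this
  rw [hce] at hlen'
  have hL1 := (hLd n G g (z ^ k * a)).1 x
  have hL2 := pow_le_pow_left₀ (L_nonneg hLd hGd g (z ^ k * a)) hL1 2
  set J : ℝ := ∫ t in (0 : ℝ)..T, (gr t).val (X t) (deriv X t) (deriv X t) with hJ
  have h5 : T * (T - 0 + 2 * (τ x - τ x) + J) = T ^ 2 + T * J := by ring
  rw [h5] at hlen'
  have h6 : T * J ≤ gd gb x y ^ 2 + δ := by linarith
  linarith

end Pool.Agent.AV
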