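import Pool.Agent.Work.MP_13b5d9_gt.AV.Stmts

set_option autoImplicit false

/-!
# MP_13b5d9_gt, block AV, item Uq: uniqueness of the canonical field
-/

open MeasureTheory Set Filter Topology
open scoped ContDiff ENNReal
open Pool.Agent.Work.MP_c9f990_an.Al (IsFlow)

namespace Pool.Agent.AV

open Pool.Agent.MLS Pool.Agent.STR Pool.Agent.LQR Pool.Agent.LQT

namespace IUq

theorem key (h4 : NcGx) {n : ℕ} {G : Type} [Group G] [MulAction G (E n)] (g : Form n)
    (φ : ℝ → W n → W n) (M : ℝ → W n → W n →L[ℝ] W n) (hg : Riem g)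
    (hφ : IsFlow (XH (Hm g)) φ M) (z : G) (l : ℝ) (V : E n → E n) (τ : E n → ℝ)
    (ψ : ℝ → E n → E n) (hA : Axis n G g z l V τ ψ) (x : E n) (t : ℝ) :
    ψ t x = expo φ g x (t • V x) := by
  have h := (h4 n g φ M hg hφ (fun t => ψ t x) (hA.geo x) 0 t).2
  have hd : deriv (fun t => ψ t x) 0 = V x := by
    rw [(hA.ode x 0).deriv, hA.zero]
  rw [hd, sub_zero] at h
  change ψ t x = expo φ g (ψ 0 x) (t • V x) at h
  rw [hA.zero] at h
  exact h

end IUq

theorem pr_Uq (h1 : StFlow) (h2 : NcInj) (h3 : NcOne) (h4 : NcGx) : StUq := by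
  intro n G _ _ hG g hg hI hN z l l' V V' τ τ' ψ ψ' hA hA'
  obtain ⟨φ, M, hφ⟩ := h1 n G hG g hg hI
  have hinj := h2 n g φ M hg hφ hN
  have hone : ∀ p, Function.Injective (expo φ g p) := fun p => h3 n g φ M hg hφ p (hinj p)
  have k1 := IUq.key h4 g φ M hg hφ z l V τ ψ hA
  have k2 := IUq.key h4 g φ M hg hφ z l' V' τ' ψ' hA'
  have e : ∀ x, l • V x = l' • V' x := by
    intro x
    apply hone x
    rw [← k1 x l, ← k2 x l', hA.period, hA'.period]
  have hl : l = l' := by
    have e1 : g.val 0 (l • V 0) (l • V 0) = l ^ 2 := by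
      rw [map_smul, map_smul, smul_apply, smul_eq_mul, smul_eq_mul, hA.unit]
      ring
    have e2 : g.val 0 (l' • V' 0) (l' • V' 0) = l' ^ 2 := by
      rw [map_smul, map_smul, smul_apply, smul_eq_mul, smul_eq_mul, hA'.unit]
      ring
    rw [e 0, e2] at e1
    have p1 := hA.pos
    have p2 := hA'.pos
    nlinarith
  subst hl
  have hV : V = V' := by
    funext x
    exact smul_right_injective _ hA.pos.ne' (e x)
  subst hV
  refine ⟨rfl, rfl, ?_⟩
  funext t x
  rw [k1 x t, k2 x t]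

end Pool.Agent.AV
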