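import Pool.Agent.Work.MP_13b5d9_gt.AV.Stmts

set_option autoImplicit false

/-!
# MP_13b5d9_gt, block AV, item Ve: volumes
-/

open MeasureTheory Set Filter Topology
open scoped ContDiff ENNReal

namespace Pool.Agent.AV.IVe

open Pool.Agent.MLS Pool.Agent.STR Pool.Agent.LQR Pool.Agent.LQT

/-- joint continuity of the densities -/
theorem cont_dens {n : ℕ} {gr : ℝ → Form n} (h : Fam n gr) :
    Continuous (fun p : ℝ × E n => dens (gr p.1) p.2) := by
  have h1 : Continuous (fun q : ℝ × E n => (gr q.1).val q.2) := h.smooth.continuous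
  unfold dens
  refine Real.continuous_sqrt.comp (Continuous.matrix_det ?_)
  refine continuous_matrix fun i j => ?_
  show Continuous fun p : ℝ × E n => (gr p.1).val p.2 (ee i) (ee j)
  exact (h1.clm_apply continuous_const).clm_apply continuous_const

/-- exchange of the integrals -/
theorem swap {n : ℕ} {l : ℝ} (hl : 0 ≤ l) {D : ℝ × E n → ℝ} (hD : Continuous D) {χ : E n → ℝ}
    (hχ : Continuous χ) (hc : HasCompactSupport χ) :
    ∫ x, χ x * ∫ r in (0 : ℝ)..l, D (r, x) = ∫ r in (0 : ℝ)..l, ∫ x, χ x * D (r, x) := by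
  have hF : Continuous (fun p : ℝ × E n => χ p.2 * D p) := (hχ.comp continuous_snd).mul hD
  have hint : Integrable (Function.uncurry fun (r : ℝ) (x : E n) => χ x * D (r, x))
      ((volume.restrict (Ioc 0 l)).prod volume) := by
    have h1 : IntegrableOn (fun p : ℝ × E n => χ p.2 * D p) (Icc 0 l ×ˢ tsupport χ)
        (volume.prod volume) :=
      hF.continuousOn.integrableOn_compact (isCompact_Icc.prod hc)
    have h2 : IntegrableOn (fun p : ℝ × E n => χ p.2 * D p) (Icc 0 l ×ˢ univ)
        (volume.prod volume) := by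
      refine h1.of_forall_sdiff_eq_zero (measurableSet_Icc.prod MeasurableSet.univ) ?_
      rintro ⟨r, x⟩ ⟨⟨hr, -⟩, hx⟩
      have : x ∉ tsupport χ := fun h => hx ⟨hr, h⟩
      show χ x * D (r, x) = 0
      rw [image_eq_zero_of_notMem_tsupport this, zero_mul]
    have h3 := h2.mono_set (prod_mono Ioc_subset_Icc_self (subset_refl univ))
    rw [IntegrableOn, ← Measure.prod_restrict, Measure.restrict_univ] at h3
    exact h3
  rw [intervalIntegral.integral_of_le hl, integral_integral_swap hint]
  refine integral_congr_ae (Eventually.of_forall fun x => ?_)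
  show χ x * ∫ r in (0 : ℝ)..l, D (r, x) = ∫ r in Ioc 0 l, χ x * D (r, x)
  rw [integral_const_mul, intervalIntegral.integral_of_le hl]

end Pool.Agent.AV.IVe

namespace Pool.Agent.AV

open Pool.Agent.MLS Pool.Agent.STR Pool.Agent.LQR Pool.Agent.LQT

theorem pr_Ve (hDt : StDt) (hVl : StVl) (hDe : StDens) : StVe := by
  intro n G _ _ hco g hg hgi z l V τ ψ hax gr gb hav χ hχ
  have hl := hax.pos
  have hD := IVe.cont_dens hav.fam
  have hDb : Continuous (dens gb) := (hDe n gb hav.riemb).2.1.continuous
  have hχc := hχ.smooth.continuous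
  obtain ⟨d, hd⟩ : ∃ d : E n → ℝ, ∀ x, d x =
      l⁻¹ * (∫ r in (0 : ℝ)..l, dens (gr r) x) - dens gb x := ⟨_, fun _ => rfl⟩
  have hMc : Continuous (fun x => ∫ r in (0 : ℝ)..l, dens (gr r) x) :=
    intervalIntegral.continuous_parametric_intervalIntegral_of_continuous'
      (f := fun (x : E n) (r : ℝ) => dens (gr r) x) (hD.comp continuous_swap) 0 l
  have hdc : Continuous d := by
    rw [show d = fun x => l⁻¹ * (∫ r in (0 : ℝ)..l, dens (gr r) x) - dens gb x from funext hd]
    exact (continuous_const.mul hMc).sub hDb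
  have hd0 : ∀ x, 0 ≤ d x := fun x => by
    rw [hd]
    exact sub_nonneg.2 (hDt n l gr gb hl hav.fam hav.riemb hav.mean x).1
  have hcd : Continuous (fun x => χ x * d x) := hχc.mul hdc
  have hcs : HasCompactSupport (fun x => χ x * d x) := hχ.cpt.mul_right
  have hint : ∫ x, χ x * d x = (∫ x, χ x * dens g x) - ∫ x, χ x * dens gb x := by
    have e : (fun x => χ x * d x) = fun x =>
        l⁻¹ * (χ x * ∫ r in (0 : ℝ)..l, dens (gr r) x) - χ x * dens gb x := by
      funext x
      rw [hd]
      ring
    have hi1 : Integrable (fun x => l⁻¹ * (χ x * ∫ r in (0 : ℝ)..l, dens (gr r) x)) :=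
      ((hχc.mul hMc).integrable_of_hasCompactSupport hχ.cpt.mul_right).const_mul _
    have hi2 : Integrable (fun x => χ x * dens gb x) :=
      (hχc.mul hDb).integrable_of_hasCompactSupport hχ.cpt.mul_right
    have h2 : ∀ r, ∫ x, χ x * dens (gr r) x = ∫ x, χ x * dens g x := fun r =>
      hVl n G hco g hg hgi z l V τ ψ hax gr hav.pull χ hχ r
    rw [e, integral_sub hi1 hi2, integral_const_mul,
      IVe.swap (D := fun p : ℝ × E n => dens (gr p.1) p.2) hl.le hD hχc hχ.cpt]
    congr 1
    simp only [h2]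
    rw [intervalIntegral.integral_const, sub_zero, smul_eq_mul, ← mul_assoc,
      inv_mul_cancel₀ hl.ne', one_mul]
  have hnn : 0 ≤ ∫ x, χ x * d x := integral_nonneg fun x => mul_nonneg (hχ.nonneg x) (hd0 x)
  refine ⟨by linarith, fun heq => ?_⟩
  have hz : ∫ x, χ x * d x = 0 := by
    rw [hint]
    linarith
  have hz1 : ∀ x, χ x * d x = 0 := by
    have h1 := (integral_eq_zero_iff_of_nonneg (fun x => mul_nonneg (hχ.nonneg x) (hd0 x))
      (hcd.integrable_of_hasCompactSupport hcs)).1 hz
    have h2 := (Continuous.ae_eq_iff_eq volume hcd continuous_zero).1 h1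
    exact fun x => congrFun h2 x
  have hdz : ∀ x, d x = 0 := by
    intro x
    obtain ⟨a, ha⟩ : ∃ a : G, χ (a • x) ≠ 0 := by
      by_contra hc
      push Not at hc
      have h1 := hχ.sum x
      have h2 : HasSum (fun a : G => χ (a • x)) 0 := by
        simp only [hc]
        exact hasSum_zero
      exact one_ne_zero (h1.unique h2)
    have h3 : d (a • x) = 0 := (mul_eq_zero.1 (hz1 (a • x))).resolve_left ha
    have h4 : d (a • x) * |(dac a x).det| = d x := by
      rw [hd, hd, sub_mul, ((hDe n gb hav.riemb).2.2 G hco hav.invb).1 a x, mul_assoc,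
        ← intervalIntegral.integral_mul_const]
      congr 2
      refine intervalIntegral.integral_congr fun r _ => ?_
      exact ((hDe n (gr r) (hav.fam.riem r)).2.2 G hco (hav.inv r)).1 a x
    rw [← h4, h3, zero_mul]
  have hval : ∀ x, gb.val x = g.val x := by
    intro x
    have h1 := (hDt n l gr gb hl hav.fam hav.riemb hav.mean x).2 (by
      have h2 := hdz x
      rw [hd] at h2
      linarith) 0 ⟨le_rfl, hl.le⟩
    rw [← h1]
    ext u v
    have h4 : ψ 0 = id := funext hax.zero
    rw [hav.pull 0 x u v, h4, fderiv_id]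
    rfl
  exact Form.ext (funext hval)

end Pool.Agent.AV
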