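import Pool.Agent.Work.MP_13b5d9_gt.AV.Stmts
import Pool.Agent.Work.MP_25cd3b_gt.M.I_Dens
import Pool.Agent.Work.MP_25cd3b_gt.M.I_FD
import Pool.Agent.Work.MP_25cd3b_gt.M.I_Cnt
import Pool.Agent.Work.MP_25cd3b_gt.M.I_Unf

set_option autoImplicit false

/-!
# MP_13b5d9_gt, block AV, item Vl: the volume of the pull-backs
-/

open MeasureTheory Set Filter Topology
open scoped ContDiff ENNReal
open Pool.Agent.Work.MP_c9f990_an.Al (IsFlow)

namespace Pool.Agent.AV

open Pool.Agent.MLS Pool.Agent.STR Pool.Agent.LQR Pool.Agent.LQT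

namespace IVl

theorem gm_pull {n : ℕ} (h g : Form n) (x y : E n) (D : E n →L[ℝ] E n)
    (hp : ∀ u v, h.val x u v = g.val y (D u) (D v)) :
    gm h x = (IDens.mt D).transpose * gm g y * IDens.mt D := by
  ext i j
  have h1 := hp (ee i) (ee j)
  rw [IDens.val_expand (g.val y)] at h1
  simp only [gm, Matrix.of_apply, Matrix.mul_apply, Matrix.transpose_apply, IDens.mt,
    Finset.sum_mul]
  rw [h1, Finset.sum_comm]

theorem dens_pull {n : ℕ} (h g : Form n) (x y : E n) (D : E n →L[ℝ] E n)
    (hp : ∀ u v, h.val x u v = g.val y (D u) (D v)) : dens h x = |D.det| * dens g y := by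
  unfold dens
  rw [gm_pull h g x y D hp, Matrix.det_mul, Matrix.det_mul, Matrix.det_transpose, IDens.mt_det]
  rw [show D.det * (gm g y).det * D.det = D.det ^ 2 * (gm g y).det by ring,
    Real.sqrt_mul (sq_nonneg _), Real.sqrt_sq_eq_abs]

end IVl

open IVl in
theorem pr_Vl : StVl := by
  intro n G _ _ hG g hR hI z l V τ ψ hA gr hgr χ hχ r
  have hcnt : Countable G := pr_Cnt n G hG
  obtain ⟨_, hdc, hd⟩ := pr_Dens n g hR
  obtain ⟨_, hmp⟩ := hd G hG hI
  have hdc' : Continuous (dens g) := hdc.continuous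
  have hd0 : ∀ x, 0 ≤ dens g x := fun x => Real.sqrt_nonneg _
  have hdm : Measurable fun x => ENNReal.ofReal (dens g x) := hdc'.measurable.ennreal_ofReal
  have hχc : Continuous χ := hχ.smooth.continuous
  have hψ : ∀ s : ℝ, ContDiff ℝ ∞ (ψ s) := fun s =>
    hA.smoothF.comp (contDiff_const.prodMk contDiff_id)
  have hinv : ∀ x, ψ (-r) (ψ r x) = x := fun x => by
    rw [← hA.add, neg_add_cancel, hA.zero]
  have hinv' : ∀ x, ψ r (ψ (-r) x) = x := fun x => by
    rw [← hA.add, add_neg_cancel, hA.zero]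
  have hχ'c : Continuous (fun x => χ (ψ (-r) x)) := hχc.comp (hψ (-r)).continuous
  -- the left side
  have h1 : ∫ x, χ x * dens (gr r) x = ∫ y, χ (ψ (-r) y) * dens g y := by
    have hcv := integral_image_eq_integral_abs_det_fderiv_smul (volume : Measure (E n))
      MeasurableSet.univ (f := ψ r) (f' := fun x => fderiv ℝ (ψ r) x)
      (fun x _ => ((hψ r).differentiable (by norm_num) x).hasFDerivAt.hasFDerivWithinAt)
      (fun x _ y _ hxy => by rw [← hinv x, ← hinv y, hxy])
      (fun y => χ (ψ (-r) y) * dens g y)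
    have himg : ψ r '' univ = univ := by
      refine Set.eq_univ_of_forall fun y => ⟨ψ (-r) y, mem_univ _, hinv' y⟩
    rw [himg, Measure.restrict_univ] at hcv
    rw [hcv]
    refine integral_congr_ae (Eventually.of_forall fun x => ?_)
    simp only [smul_eq_mul]
    rw [hinv x, dens_pull (gr r) g x (ψ r x) (fderiv ℝ (ψ r) x) (fun u v => hgr r x u v)]
    ring
  rw [h1]
  -- unfolding
  have hsum : ∀ x : E n, ∑' a : G, ENNReal.ofReal (χ (ψ (-r) (a • x))) = 1 := by
    intro x
    have h2 := IFD.tsum_ofReal hχ (ψ (-r) x)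
    rw [← h2]
    refine tsum_congr fun a => ?_
    rw [hA.comm]
  have hm' : Measurable fun x => ENNReal.ofReal (χ (ψ (-r) x)) :=
    hχ'c.measurable.ennreal_ofReal
  have hm : Measurable fun x => ENNReal.ofReal (χ x) := hχc.measurable.ennreal_ofReal
  have key := pr_Unf (E n) (volume.withDensity fun x => ENNReal.ofReal (dens g x)) G
    (fun a x => a • x) hmp (fun a b x => mul_smul a b x) (fun x => one_smul G x)
    (fun x => ENNReal.ofReal (χ (ψ (-r) x))) (fun x => ENNReal.ofReal (χ x))
    (fun _ => 1) hm' hm measurable_const hsum (IFD.tsum_ofReal hχ)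
    (fun _ _ => rfl)
  simp only [mul_one] at key
  rw [lintegral_withDensity_eq_lintegral_mul _ hdm hm',
    lintegral_withDensity_eq_lintegral_mul _ hdm hm] at key
  rw [integral_eq_lintegral_of_nonneg_ae, integral_eq_lintegral_of_nonneg_ae]
  · congr 1
    refine Eq.trans ?_ (key.trans ?_)
    · refine lintegral_congr fun x => ?_
      simp only [Pi.mul_apply]
      rw [ENNReal.ofReal_mul (hχ.nonneg _), mul_comm]
    · refine lintegral_congr fun x => ?_
      simp only [Pi.mul_apply]
      rw [ENNReal.ofReal_mul (hχ.nonneg _), mul_comm]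
  · exact Eventually.of_forall fun x => mul_nonneg (hχ.nonneg _) (hd0 x)
  · exact (hχc.mul hdc').aestronglyMeasurable
  · exact Eventually.of_forall fun x => mul_nonneg (hχ.nonneg _) (hd0 x)
  · exact (hχ'c.mul hdc').aestronglyMeasurable

end Pool.Agent.AV
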