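import Pool.Agent.Work.MP_13b5d9_gt.AV.MxFin
import Pool.Agent.Work.MP_13b5d9_gt.AV.I_Th
import Pool.Agent.Work.MP_13b5d9_gt.AV.I_Gr
import Pool.Agent.Work.MP_13b5d9_gt.AV.I_Si
import Pool.Agent.Work.MP_13b5d9_gt.AV.I_Ig
import Pool.Agent.Work.MP_13b5d9_gt.AV.I_Gv
import Pool.Agent.Work.MP_13b5d9_gt.AV.I_Pa
import Pool.Agent.Work.MP_13b5d9_gt.AV.I_Bk
import Pool.Agent.Work.MP_13b5d9_gt.AV.I_Od
import Pool.Agent.Work.MP_13b5d9_gt.AV.I_Fi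
import Pool.Agent.Work.MP_13b5d9_gt.AV.I_Fr
import Pool.Agent.Work.MP_13b5d9_gt.AV.I_Ha
import Pool.Agent.Work.MP_13b5d9_gt.AV.I_En
import Pool.Agent.Work.MP_13b5d9_gt.AV.I_Cp
import Pool.Agent.Work.MP_13b5d9_gt.AV.I_Mi
import Pool.Agent.Work.MP_13b5d9_gt.AV.I_EM
import Pool.Agent.Work.MP_13b5d9_gt.AV.I_Ty
import Pool.Agent.Work.MP_13b5d9_gt.AV.I_Fv
import Pool.Agent.Work.MP_13b5d9_gt.AV.I_In
import Pool.Agent.Work.MP_13b5d9_gt.AV.I_Nj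
import Pool.Agent.Work.MP_13b5d9_gt.AV.I_Ma
import Pool.Agent.Work.MP_13b5d9_gt.AV.I_Mb
import Pool.Agent.Work.MP_13b5d9_gt.AV.I_Dt
import Pool.Agent.Work.MP_13b5d9_gt.AV.I_Vl
import Pool.Agent.Work.MP_13b5d9_gt.AV.I_Ve
import Pool.Agent.Work.MP_13b5d9_gt.AV.I_Uq
import Pool.Agent.Work.MP_13b5d9_gt.AV.I_Is
import Pool.Agent.Work.MP_13b5d9_gt.AV.I_Mn
import Pool.Agent.Work.MP_13b5d9_gt.AV.I_Lm
import Pool.Agent.Work.MP_13b5d9_gt.AV.I_Bm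
import Pool.Agent.Work.MP_13b5d9_gt.AV.I_Cg
import Pool.Agent.Work.MP_13b5d9_gt.AV.I_Fs
import Pool.Agent.Work.MP_13b5d9_gt.AV.I_Lw
import Pool.Agent.Work.MP_13b5d9_gt.AV.I_Pd
import Pool.Agent.Work.MP_13b5d9_gt.AV.I_Ub
import Pool.Agent.Work.MP_13b5d9_gt.AV.I_Ll
import Pool.Agent.Work.MP_13b5d9_gt.AV.I_Ls
import Pool.Agent.Work.MP_13b5d9_gt.PI.All
import Pool.Agent.Work.MP_13b5d9_gt.ST.All93
import Pool.Agent.Work.MP_13b5d9_gt.LQ.TAll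

set_option autoImplicit false

/-!
# MP_13b5d9_gt, block AV: the items, closed
-/

namespace Pool.Agent.AV

open Pool.Agent.MLS Pool.Agent.PIN Pool.Agent.LQT

theorem p_Gr : StGr := pr_Gr PIN.p_Flo
theorem p_Si : StSi := pr_Si
theorem p_Ig : StIg := pr_Ig p_Si
theorem p_Gv : StGv := pr_Gv pr_Op p_Si PIN.p_LV
theorem p_Pa : StPa := pr_Pa p_Gv p_NcGa p_NcGeo PIN.p_Flo PIN.pr_Lie
theorem p_Bk : StBk := pr_Bk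
theorem p_Od : StOd := pr_Od p_Bk
theorem p_Fi : StFi := pr_Fi
theorem p_Fr : StFr := pr_Fr p_Fi PIN.p_Flo
theorem p_Ha : StHa := pr_Ha pr_Op p_Hd
theorem p_En : StEn := pr_En PIN.p_LV
theorem p_Cp : StCp := pr_Cp p_Bk p_Si pr_Op
theorem p_Mi : StMi := pr_Mi pr_Gd PIN.p_A
theorem p_Fv : StFv := pr_Fv pr_Ty
theorem p_In : StIn := pr_In p_Fv STR.p_Act p_NcExp p_Geo1 pr_Op
theorem p_Nj : StNj := pr_Nj pr_Op p_NcGa p_NcGeo p_NcLin p_NcExp p_NcGx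
theorem p_Dt : StDt := pr_Dt pr_Ma pr_Mb p_Si
theorem p_Ve : StVe := pr_Ve p_Dt pr_Vl pr_Dens
theorem p_Uq : StUq := pr_Uq p_Flow p_NcInj p_NcOne p_NcGx
theorem p_Is : StIs := pr_Is p_Uq t_Is pr_Op

theorem p_Mn : StMn := pr_Mn p_Si
theorem p_Lm : StLm := pr_Lm p_Od p_Mn p_Fr p_Ha p_Flow p_Geo1 pr_Tr0 pr_Op
theorem p_EM : StEM := pr_EM p_Lm p_Cp p_Mi p_En

theorem p_Th : StTh :=
  pr_Th STR.p_Ax p_StNC p_Gr p_Ig p_Pa p_Flow p_EM p_In p_Nj t_PS t_SP p_Is p_Ve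

theorem p_Fs : StFs := pr_Fs pr_Gd
theorem p_Lw : StLw :=
  pr_Lw pr_Bm pr_Cg p_Fs p_Si pr_Op pr_Gd p_Prop pr_Bnd p_Flow STR.p_Log
theorem p_Pd : StPd :=
  pr_Pd p_Flow pr_Op p_Geo1 pr_Gd p_NcInj p_NcDist p_NcExp t_Eh t_Is PIN.p_Var
theorem p_Ub : StUb := pr_Ub p_Cp p_En p_Ld pr_Gd pr_Op p_Flow STR.p_Log p_Geo1
theorem p_Ll : StLl :=
  pr_Ll p_Lw p_En p_Ld pr_InvD p_Flow p_NcInj p_NcDist p_NcExp p_Geo1 pr_Op pr_Gd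
theorem p_Ls : StLs := pr_Ls p_Pa p_Pd p_Ub p_Ll p_Ld pr_Gd

end Pool.Agent.AV
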