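import Pool.Agent.Work.MP_13b5d9_gt.LQ.TStmts
import Pool.Agent.Work.MP_13b5d9_gt.PI.Stmts

set_option autoImplicit false

/-!
# MP_13b5d9_gt, block AV (the split companion of a metric without conjugate points): definitions

`V = grad τ` is the canonical field of a central element, `ψ` its flow (`STR.Axis`).  The metrics
`gr r = (ψ r)^* g` form a periodic family, and `gb` is its harmonic mean.
-/

open MeasureTheory Set Filter Topology
open scoped ContDiff ENNReal
open Pool.Agent.Work.MP_c9f990_an.Al (IsFlow)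

namespace Pool.Agent.AV

open Pool.Agent.MLS Pool.Agent.STR Pool.Agent.LQR Pool.Agent.LQT

/-- `gr r` is the pull-back of `g` under `ψ r`, and `gb` is the harmonic mean of the periodic family
`gr` (the inverse operator of `gb` is the mean of the inverse operators) -/
structure Avg (n : ℕ) (G : Type) [Group G] [MulAction G (E n)] (g : Form n) (l : ℝ)
    (ψ : ℝ → E n → E n) (gr : ℝ → Form n) (gb : Form n) : Prop where
  pull : ∀ r x u v, (gr r).val x u v =
    g.val (ψ r x) (fderiv ℝ (ψ r) x u) (fderiv ℝ (ψ r) x v)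
  fam : Fam n gr
  inv : ∀ r, Inv G (gr r)
  per : ∀ r, gr (r + l) = gr r
  riemb : Riem gb
  invb : Inv G gb
  mean : ∀ x, iop gb x = l⁻¹ • ∫ r in (0 : ℝ)..l, iop (gr r) x

/-- The geodesics of `h` minimise the energy among the curves consisting of two pieces of class
`C^1`. (The energy of the geodesic `t ↦ (φ t z).1` on `[0, 1]` is `Hm h z`.) -/
def EMin {n : ℕ} (h : Form n) (φ : ℝ → W n → W n) : Prop :=
  ∀ (z : W n) (r : ℝ), 0 < r → r < 1 → ∀ Y1 Y2 : ℝ → E n, ContDiff ℝ 1 Y1 → ContDiff ℝ 1 Y2 →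
    Y1 0 = z.1 → Y1 r = Y2 r → Y2 1 = (φ 1 z).1 →
    Hm h z ≤ 1 / 2 * (∫ t in (0 : ℝ)..r, h.val (Y1 t) (deriv Y1 t) (deriv Y1 t)) +
      1 / 2 * ∫ t in r..1, h.val (Y2 t) (deriv Y2 t) (deriv Y2 t)

end Pool.Agent.AV
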