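import Pool.Agent.Work.MP_13b5d9_gt.AV.StmtsL
import Pool.Agent.Work.MP_13b5d9_gt.AV.I_Bk

set_option autoImplicit false

/-! Item Bm of block AV: means over many periods (variant of Bk). -/

open MeasureTheory Set Filter Topology

namespace Pool.Agent.AV

theorem pr_Bm : StBm := by
  intro Z Q _ _ _ _ _ l A K hl hA hper hmean hK δ hδ
  have hcomp : IsCompact (Icc (0 : ℝ) l ×ˢ K) := isCompact_Icc.prod hK
  obtain ⟨η₁, hη₁, hu⟩ := Metric.uniformContinuousOn_iff.1
    (hcomp.uniformContinuousOn_of_continuous hA.continuousOn) (δ / 2) (by linarith)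
  obtain ⟨S, hS⟩ := hcomp.exists_bound_of_continuousOn hA.continuousOn
  obtain ⟨S', hS', hSS⟩ : ∃ S' : ℝ, 0 ≤ S' ∧ S ≤ S' := ⟨max S 0, le_max_right _ _, le_max_left _ _⟩
  have hc2 : 0 < l * S' + 1 := by positivity
  refine ⟨min (η₁ / 2) (δ / 2 / (l * S' + 1)), lt_min (by linarith)
    (div_pos (by linarith) hc2), ?_⟩
  intro y T hT hy hyK hyL
  have hη : 0 < min (η₁ / 2) (δ / 2 / (l * S' + 1)) := lt_min (by linarith)
    (div_pos (by linarith) hc2)
  have hη1 : min (η₁ / 2) (δ / 2 / (l * S' + 1)) < η₁ := (min_le_left _ _).trans_lt (by linarith)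
  have hη2 : min (η₁ / 2) (δ / 2 / (l * S' + 1)) * (l * S' + 1) ≤ δ / 2 :=
    (le_div_iff₀ hc2).1 (min_le_right _ _)
  generalize min (η₁ / 2) (δ / 2 / (l * S' + 1)) = η at hη hη1 hη2 hT hyL
  have hTη : 1 ≤ η * T := by
    rw [div_le_iff₀ hη] at hT
    linarith
  have hT0 : 0 < T := (one_div_pos.2 hη).trans_le hT
  have hf : ContinuousOn (fun r => A r (y r)) (Icc 0 T) :=
    (hA.comp (continuous_id.prodMk hy)).continuousOn
  have hsh : ∀ (N : ℕ) (r : ℝ), N * l ≤ r → r ≤ N * l + l → r - N * l ∈ Icc (0 : ℝ) l := by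
    intro N r h1 h2
    exact ⟨by linarith, by linarith⟩
  have hblk := IBk.block hl hA hper hmean (y := y) (T := T) (e := δ / 2) (by linarith) hf (by
    intro N r h1 h2 h3
    have hN0 : (0 : ℝ) ≤ N * l := mul_nonneg (Nat.cast_nonneg _) hl.le
    have hr : r ∈ Icc (0 : ℝ) T := ⟨by linarith, by linarith⟩
    have hN : (N * l : ℝ) ∈ Icc (0 : ℝ) T := ⟨hN0, by linarith⟩
    rw [← IBk.shift hper N r (y r), ← IBk.shift hper N r (y (N * l)), ← dist_eq_norm]
    refine (hu (r - N * l, y r) ⟨hsh N r h1 h2, hyK r hr⟩ (r - N * l, y (N * l))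
      ⟨hsh N r h1 h2, hyK _ hN⟩ ?_).le
    rw [Prod.dist_eq, dist_self, max_eq_right dist_nonneg, dist_eq_norm]
    refine (hyL r hr _ hN ?_).trans_lt hη1
    rw [abs_of_nonneg (by linarith)]
    linarith)
  obtain ⟨N, hN⟩ : ∃ N : ℕ, N = ⌊T / l⌋₊ := ⟨_, rfl⟩
  have ht0 : 0 ≤ T / l := div_nonneg hT0.le hl.le
  have hN1 : (N : ℝ) * l ≤ T := by
    rw [hN]
    exact (le_div_iff₀ hl).1 (Nat.floor_le ht0)
  have hN2 : T < N * l + l := by
    have h := Nat.lt_floor_add_one (T / l)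
    rw [← hN, div_lt_iff₀ hl] at h
    linarith
  have hN0 : (0 : ℝ) ≤ N * l := mul_nonneg (Nat.cast_nonneg _) hl.le
  have hi1 : IntervalIntegrable (fun r => A r (y r)) volume 0 (N * l) := by
    apply (hf.mono _).intervalIntegrable
    rw [uIcc_of_le hN0]
    exact Icc_subset_Icc le_rfl hN1
  have hi2 : IntervalIntegrable (fun r => A r (y r)) volume (N * l) T := by
    apply (hf.mono _).intervalIntegrable
    rw [uIcc_of_le hN1]
    exact Icc_subset_Icc hN0 le_rfl
  have h1 := hblk N hN1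
  have h2 : ‖∫ r in (N * l)..T, A r (y r)‖ ≤ S' * |T - N * l| := by
    apply intervalIntegral.norm_integral_le_of_norm_le_const
    intro r hr
    rw [uIoc_of_le hN1] at hr
    rw [← IBk.shift hper N r (y r)]
    exact (hS (r - N * l, y r) ⟨hsh N r hr.1.le (by linarith [hr.2]),
      hyK r ⟨by linarith [hr.1], hr.2⟩⟩).trans hSS
  have h3 : |T - N * l| ≤ l := by
    rw [abs_of_nonneg (by linarith)]
    linarith
  rw [← intervalIntegral.integral_add_adjacent_intervals hi1 hi2]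
  have h4 : ‖(∫ r in (0 : ℝ)..(N * l), A r (y r)) + ∫ r in (N * l)..T, A r (y r)‖ ≤
      T * (δ / 2) + S' * l := by
    refine (norm_add_le _ _).trans (add_le_add (h1.trans ?_) (h2.trans ?_))
    · have : (N : ℝ) * (l * (δ / 2)) = N * l * (δ / 2) := by ring
      rw [this]
      exact mul_le_mul_of_nonneg_right hN1 (by linarith)
    · exact mul_le_mul_of_nonneg_left h3 hS'
  refine h4.trans ?_
  have h5 : (l * S' + 1) * 1 ≤ (l * S' + 1) * (η * T) := mul_le_mul_of_nonneg_left hTη hc2.le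
  have h6 : η * (l * S' + 1) * T ≤ δ / 2 * T := mul_le_mul_of_nonneg_right hη2 hT0.le
  nlinarith

end Pool.Agent.AV
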