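import Pool.Agent.Work.MP_13b5d9_gt.AV.Stmts
import Pool.Agent.Work.MP_13b5d9_gt.PI.I_Flo
import Pool.Agent.Work.MP_13b5d9_gt.PI.I_LV

set_option autoImplicit false

/-!
# MP_13b5d9_gt, block AV, item Fi: identities in the rotating frame
-/

open MeasureTheory Set Filter Topology
open scoped ContDiff ENNReal
open Pool.Agent.Work.MP_c9f990_an.Al (IsFlow)

namespace Pool.Agent.AV

open Pool.Agent.MLS Pool.Agent.STR Pool.Agent.LQR Pool.Agent.LQT

namespace IFi

variable {n : ℕ} {G : Type} [Group G] [MulAction G (E n)] {g : Form n} {z : G} {l : ℝ}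
  {V : E n → E n} {τ : E n → ℝ} {ψ : ℝ → E n → E n}

/-- the derivative of the spatial derivative of the flow -/
theorem hasF2 (h : Axis n G g z l V τ ψ) (r : ℝ) (x : E n) :
    HasFDerivAt (fderiv ℝ (ψ r)) (fderiv ℝ (fderiv ℝ (ψ r)) x) x := by
  have h1 : ContDiff ℝ ∞ (fderiv ℝ (ψ r)) :=
    (Pool.Agent.PIN.ILV.smooth h r).fderiv_right (by norm_num)
  exact (h1.differentiable (by norm_num) x).hasFDerivAt

theorem hasF1 (h : Axis n G g z l V τ ψ) (r : ℝ) (x : E n) :
    HasFDerivAt (ψ r) (fderiv ℝ (ψ r) x) x :=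
  (Pool.Agent.PIN.ILV.diff h r x).hasFDerivAt

theorem hasV (h : Axis n G g z l V τ ψ) (x : E n) : HasFDerivAt V (fderiv ℝ V x) x :=
  (h.smoothV.differentiable (by norm_num) x).hasFDerivAt

theorem hasG (g : Form n) (x : E n) : HasFDerivAt g.val (fderiv ℝ g.val x) x :=
  (g.smooth.differentiable (by norm_num) x).hasFDerivAt

end IFi

open IFi in
/-- item Fi -/
theorem pr_Fi : StFi := by
  intro n G _ _ g z l V τ ψ gr h hgr
  have hP := Pool.Agent.PIN.ILV.push h
  have hQ := Pool.Agent.PIN.ILV.prod h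
  have h2 : ∀ r x w, (gr r).val x (V x) w = fderiv ℝ τ x w := by
    intro r x w
    rw [hgr, hP, hQ, h.grad]
  refine ⟨hP, h2, ?_, ?_, ?_, ?_⟩
  · intro r x u w
    have h3 := ((hasG (gr r) x).clm_apply (hasV h x)).clm_apply (hasFDerivAt_const w x)
    have hτ2 : HasFDerivAt (fderiv ℝ τ) (fderiv ℝ (fderiv ℝ τ) x) x := by
      have h4 : ContDiff ℝ ∞ (fderiv ℝ τ) := h.smoothT.fderiv_right (by norm_num)
      exact (h4.differentiable (by norm_num) x).hasFDerivAt
    have h5 := hτ2.clm_apply (hasFDerivAt_const w x)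
    have e : (fun y => (gr r).val y (V y) w) = fun y => fderiv ℝ τ y w := by
      funext y
      exact h2 r y w
    rw [e] at h3
    have h6 := congrArg (fun L : E n →L[ℝ] ℝ => L u) (h3.unique h5)
    simpa [add_comm] using h6
  · intro r x u
    have h3 := (hasF2 h r x).clm_apply (hasV h x)
    have h4 : HasFDerivAt (fun y => V (ψ r y)) ((fderiv ℝ V (ψ r x)).comp (fderiv ℝ (ψ r) x)) x :=
      (hasV h (ψ r x)).comp x (hasF1 h r x)
    have e : (fun y => fderiv ℝ (ψ r) y (V y)) = fun y => V (ψ r y) := by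
      funext y
      exact hP r y
    rw [e] at h3
    have h6 := congrArg (fun L : E n →L[ℝ] E n => L u) (h3.unique h4)
    simpa [add_comm] using h6
  · intro r x u
    exact Pool.Agent.PIN.IFlo.deriv_fd V ψ h.smoothV h.smoothF h.ode x u r
  · intro r x u a b
    have h3 := ((hasG (gr r) x).clm_apply (hasFDerivAt_const a x)).clm_apply
      (hasFDerivAt_const b x)
    have h4 : HasFDerivAt (fun y => g.val (ψ r y)) ((fderiv ℝ g.val (ψ r x)).comp
        (fderiv ℝ (ψ r) x)) x :=
      HasFDerivAt.comp (g := g.val) (f := ψ r) x (hasG g (ψ r x)) (hasF1 h r x)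
    have h5 := (h4.clm_apply ((hasF2 h r x).clm_apply (hasFDerivAt_const a x))).clm_apply
      ((hasF2 h r x).clm_apply (hasFDerivAt_const b x))
    have e : (fun y => (gr r).val y a b) =
        fun y => g.val (ψ r y) (fderiv ℝ (ψ r) y a) (fderiv ℝ (ψ r) y b) := by
      funext y
      exact hgr r y a b
    rw [e] at h3
    have h6 := congrArg (fun L : E n →L[ℝ] ℝ => L u) (h3.unique h5)
    simp at h6
    rw [h6]
    ring

end Pool.Agent.AV
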