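import Pool.Agent.Work.MP_13b5d9_gt.AV.Stmts
import Pool.Agent.Work.MP_25cd3b_gt.NC.I_Cov
import Pool.Agent.Work.MP_25cd3b_gt.NC.I_Inj

set_option autoImplicit false
set_option maxSynthPendingDepth 3

/-! Item Nj of block AV (helper22): nonsingular exponential maps imply that there are no conjugate
points. -/

open MeasureTheory Set Filter Topology
open scoped ContDiff ENNReal NNReal
open Pool.Agent.Work.MP_c9f990_an.Al (IsFlow)

namespace Pool.Agent.AV

open Pool.Agent.MLS Pool.Agent.STR Pool.Agent.LQR Pool.Agent.LQT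

namespace INj

/-- the Jacobi equation is the linearised geodesic equation -/
theorem jac_eq {n : ℕ} {g : Form n} (h1 : NcGa) (h2 : NcGeo) (hg : Riem g) (c J : ℝ → E n)
    (hgeo : IsGeo g c) (hJ : IsJac g c J) (t : ℝ) :
    HasDerivAt (deriv J) (-(fderiv ℝ (Ga g) (c t) (J t) (deriv c t) (deriv c t)) -
      (2 : ℝ) • Ga g (c t) (deriv c t) (deriv J t)) t := by
  obtain ⟨hs, -, hsym, -⟩ := h1 n g hg
  obtain ⟨hc2, hcc⟩ := (h2 n g hg c).1 hgeo
  have hc : ∀ s, HasDerivAt c (deriv c s) s := fun s =>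
    ((hc2.differentiable (by norm_num)) s).hasDerivAt
  have hJ1 : ∀ s, HasDerivAt J (deriv J s) s := fun s =>
    ((hJ.smooth.differentiable (by norm_num)) s).hasDerivAt
  have hJ2 : HasDerivAt (deriv J) (deriv (deriv J) t) t := by
    have h3 : ContDiff ℝ 1 (deriv J) := by
      have h4 : ContDiff ℝ ((1 : ℕ∞) + 1 : ℕ∞) J := by
        simpa [one_add_one_eq_two] using hJ.smooth
      exact (contDiff_succ_iff_deriv.1 h4).2.2
    exact ((h3.differentiable (by norm_num)) t).hasDerivAt
  have hY : HasDerivAt (cov g c J)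
      (deriv (deriv J) t +
        (fderiv ℝ (Ga g) (c t) (deriv c t) (deriv c t) (J t) +
          Ga g (c t) (-(Ga g (c t) (deriv c t) (deriv c t))) (J t) +
          Ga g (c t) (deriv c t) (deriv J t))) t :=
    hJ2.add (JNCCov.hasDerivAt_Ga hs (hc t) (hcc t) (hJ1 t))
  have hj := hJ.jac t
  unfold cov at hY hj
  rw [hY.deriv] at hj
  unfold Rm at hj
  rw [JNCCov.fderiv_symm hs hsym (c t) (deriv c t) (J t) (deriv c t),
    hsym (c t) (J t) (deriv c t), hsym (c t) (J t) (Ga g (c t) (deriv c t) (deriv c t)),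
    map_neg, _root_.neg_apply, map_add] at hj
  refine hJ2.congr_deriv ?_
  rw [← sub_eq_zero]
  rw [← hj]
  module

/-- uniqueness for the linearised equation -/
theorem uniq {n : ℕ} (A : ℝ → E n →L[ℝ] E n) (B : ℝ → E n →L[ℝ] E n) (hA : Continuous A)
    (hB : Continuous B) (J K : ℝ → E n) (hJ : ContDiff ℝ 2 J) (hK : ContDiff ℝ 2 K)
    (hJ2 : ∀ t, HasDerivAt (deriv J) (A t (J t) + B t (deriv J t)) t)
    (hK2 : ∀ t, HasDerivAt (deriv K) (A t (K t) + B t (deriv K t)) t)
    (h0 : J 0 = K 0) (h1 : deriv J 0 = deriv K 0) : J = K := by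
  funext t
  obtain ⟨T, hT0, hT⟩ : ∃ T : ℝ, 0 < T ∧ |t| < T := ⟨|t| + 1, by positivity, by linarith⟩
  obtain ⟨C, hC⟩ := (isCompact_Icc (a := -T) (b := T)).exists_bound_of_continuousOn
    ((hA.norm.add hB.norm).continuousOn (s := Icc (-T) T))
  have hJd : ∀ s, HasDerivAt J (deriv J s) s := fun s =>
    ((hJ.differentiable (by norm_num)) s).hasDerivAt
  have hKd : ∀ s, HasDerivAt K (deriv K s) s := fun s =>
    ((hK.differentiable (by norm_num)) s).hasDerivAt
  set v : ℝ → E n × E n → E n × E n := fun s x => (x.2, A s x.1 + B s x.2) with hv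
  have hlip : ∀ s ∈ Ioo (-T) T, LipschitzOnWith (Real.toNNReal (max 1 C)) (v s) univ := by
    intro s hs
    apply LipschitzWith.lipschitzOnWith
    apply LipschitzWith.of_dist_le_mul
    intro x y
    rw [dist_eq_norm, dist_eq_norm, Real.coe_toNNReal _ (le_max_of_le_left zero_le_one)]
    have e : v s x - v s y = ((x - y).2, A s (x - y).1 + B s (x - y).2) := by
      simp only [hv, Prod.mk_sub_mk, Prod.fst_sub, Prod.snd_sub, map_sub]
      congr 1
      abel
    rw [e, Prod.norm_def]
    have hs' : s ∈ Icc (-T) T := ⟨hs.1.le, hs.2.le⟩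
    have h3 : ‖A s‖ + ‖B s‖ ≤ C := (le_abs_self (‖A s‖ + ‖B s‖)).trans (hC s hs')
    have n1 : ‖(x - y).1‖ ≤ ‖x - y‖ := norm_fst_le _
    have n2 : ‖(x - y).2‖ ≤ ‖x - y‖ := norm_snd_le _
    apply max_le
    · calc ‖(x - y).2‖ ≤ 1 * ‖x - y‖ := by rw [one_mul]; exact n2
        _ ≤ max 1 C * ‖x - y‖ := mul_le_mul_of_nonneg_right (le_max_left _ _) (norm_nonneg _)
    · calc ‖A s (x - y).1 + B s (x - y).2‖ ≤ ‖A s‖ * ‖(x - y).1‖ + ‖B s‖ * ‖(x - y).2‖ :=
            (norm_add_le _ _).trans (add_le_add ((A s).le_opNorm _) ((B s).le_opNorm _))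
        _ ≤ ‖A s‖ * ‖x - y‖ + ‖B s‖ * ‖x - y‖ :=
            add_le_add (mul_le_mul_of_nonneg_left n1 (norm_nonneg _))
              (mul_le_mul_of_nonneg_left n2 (norm_nonneg _))
        _ = (‖A s‖ + ‖B s‖) * ‖x - y‖ := by ring
        _ ≤ max 1 C * ‖x - y‖ :=
            mul_le_mul_of_nonneg_right (h3.trans (le_max_right _ _)) (norm_nonneg _)
  have hfd : ∀ s, HasDerivAt (fun s => (J s, deriv J s)) (v s (J s, deriv J s)) s := fun s =>
    (hJd s).prodMk (hJ2 s)
  have hgd : ∀ s, HasDerivAt (fun s => (K s, deriv K s)) (v s (K s, deriv K s)) s := fun s =>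
    (hKd s).prodMk (hK2 s)
  have := ODE_solution_unique_of_mem_Ioo (v := v) (s := fun _ => univ) (a := -T) (b := T)
    (t₀ := 0) (f := fun s => (J s, deriv J s)) (g := fun s => (K s, deriv K s)) hlip
    ⟨by linarith, hT0⟩ (fun s _ => ⟨hfd s, trivial⟩) (fun s _ => ⟨hgd s, trivial⟩)
    (by simp [h0, h1])
  have h3 := this (show t ∈ Ioo (-T) T from abs_lt.1 hT)
  exact congrArg Prod.fst h3

end INj

open INj in
/-- **item Nj** -/
theorem pr_Nj (h1 : StOp) (h2 : NcGa) (h3 : NcGeo) (h4 : NcLin) (h5 : NcExp) (h6 : NcGx) :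
    StNj := by
  intro n g φ M hR hφ hinj c hgeo J hJ a b hab ha hb
  obtain ⟨hsh, hop, hiop, hopi, -, hopc, hiopc, -, -⟩ := h1 n g hR
  obtain ⟨hs, -, hsym, -⟩ := h2 n g hR
  obtain ⟨hc2, hcc⟩ := (h3 n g hR c).1 hgeo
  set w : E n := deriv J a with hw
  set ζ : W n := (c a, op g (c a) (deriv c a)) with hζ
  set δ : W n := (0, op g (c a) w) with hδ
  obtain ⟨kc, kd, kdd⟩ := h4 n g φ M hR hφ ζ δ
  have hgx : ∀ s, φ s ζ = (c (a + s), op g (c (a + s)) (deriv c (a + s))) := by
    intro s
    have h := (h6 n g φ M hR hφ c hgeo a (a + s)).1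
    rw [show a + s - a = s by ring] at h
    exact h.symm
  have hvel : ∀ s, vel g (φ s ζ) = deriv c (a + s) := by
    intro s
    rw [hgx s]
    exact hiop _ _
  -- coefficients
  have hc1 : Continuous (deriv c) := hc2.continuous_deriv (by norm_num)
  have hc0 : Continuous c := hc2.continuous
  have hG0 : Continuous (Ga g) := hs.continuous
  have hG1 : Continuous (fderiv ℝ (Ga g)) := hs.continuous_fderiv (by simp)
  set A : ℝ → E n →L[ℝ] E n := fun s =>
    -(((ContinuousLinearMap.apply ℝ (E n) (deriv c (a + s))).comp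
      ((ContinuousLinearMap.apply ℝ (E n →L[ℝ] E n) (deriv c (a + s))).comp
        (fderiv ℝ (Ga g) (c (a + s)))))) with hA
  set B : ℝ → E n →L[ℝ] E n := fun s =>
    -((2 : ℝ) • Ga g (c (a + s)) (deriv c (a + s))) with hB
  have hAc : Continuous A := by
    have hca : Continuous fun s : ℝ => a + s := by fun_prop
    have e1 : Continuous fun s : ℝ => deriv c (a + s) := hc1.comp hca
    have e2 : Continuous fun s : ℝ => fderiv ℝ (Ga g) (c (a + s)) := hG1.comp (hc0.comp hca)
    have e3 : Continuous fun s : ℝ => ContinuousLinearMap.apply ℝ (E n) (deriv c (a + s)) :=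
      (ContinuousLinearMap.apply ℝ (E n)).continuous.comp e1
    have e4 : Continuous fun s : ℝ =>
        ContinuousLinearMap.apply ℝ (E n →L[ℝ] E n) (deriv c (a + s)) :=
      (ContinuousLinearMap.apply ℝ (E n →L[ℝ] E n)).continuous.comp e1
    exact (e3.clm_comp (e4.clm_comp e2)).neg
  have hBc : Continuous B := by
    have hca : Continuous fun s : ℝ => a + s := by fun_prop
    have e1 : Continuous fun s : ℝ => deriv c (a + s) := hc1.comp hca
    have e2 : Continuous fun s : ℝ => Ga g (c (a + s)) := hG0.comp (hc0.comp hca)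
    exact ((e2.clm_apply e1).const_smul (2 : ℝ)).neg
  -- the two solutions
  set J' : ℝ → E n := fun s => J (a + s) with hJ'
  have hJ'c : ContDiff ℝ 2 J' := hJ.smooth.comp (contDiff_const.add contDiff_id)
  have hJ'd : ∀ s, deriv J' s = deriv J (a + s) := by
    intro s
    exact deriv_comp_const_add J a s
  have hJ'2 : ∀ s, HasDerivAt (deriv J') (A s (J' s) + B s (deriv J' s)) s := by
    intro s
    have e : deriv J' = fun s => deriv J (a + s) := funext hJ'd
    have h7 := jac_eq h2 h3 hR c J hgeo hJ (a + s)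
    have h8 := HasDerivAt.comp_const_add a s h7
    rw [e]
    refine h8.congr_deriv ?_
    simp only [hA, hB, hJ', _root_.neg_apply, _root_.smul_apply,
      ContinuousLinearMap.comp_apply, ContinuousLinearMap.apply_apply]
    abel
  set K : ℝ → E n := fun s => (M s ζ δ).1 with hK
  have hK2 : ∀ s, HasDerivAt (deriv K) (A s (K s) + B s (deriv K s)) s := by
    intro s
    have h7 := kdd s
    rw [hvel s] at h7
    have h8 : (φ s ζ).1 = c (a + s) := by rw [hgx s]
    rw [h8] at h7
    refine h7.congr_deriv ?_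
    simp only [hA, hB, hK, _root_.neg_apply, _root_.smul_apply,
      ContinuousLinearMap.comp_apply, ContinuousLinearMap.apply_apply]
    abel
  have hK0 : K 0 = 0 := by
    simp only [hK, hφ.M0, hδ]
    rfl
  have hK1 : deriv K 0 = w := by
    have h7 := kd 0
    rw [hφ.zero, hφ.M0] at h7
    have h8 := JNCInj.vel_vert h1 n g hR (c a) (op g (c a) (deriv c a)) (op g (c a) w)
    rw [hiop] at h8
    rw [← h8]
    exact h7
  have hJ0 : J' 0 = K 0 := by
    rw [hK0]
    simp only [hJ', add_zero]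
    exact ha
  have hJ1 : deriv J' 0 = deriv K 0 := by
    rw [hK1, hJ'd, add_zero]
  have hJK : J' = K := uniq A B hAc hBc J' K hJ'c kc hJ'2 hK2 hJ0 hJ1
  -- the exponential map
  have hexp : ∀ t : ℝ, K t = fderiv ℝ (expo φ g (c a)) (t • deriv c a) (t • w) := by
    intro t
    obtain ⟨ec, -, e3, -⟩ := h5 n g φ M hR hφ (c a)
    have l1 : HasDerivAt (fun r : ℝ => (c a, op g (c a) (deriv c a + r • w)))
        ((0 : E n), op g (c a) w) 0 := by
      apply (hasDerivAt_const (0 : ℝ) (c a)).prodMk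
      have h7 : HasDerivAt (fun r : ℝ => deriv c a + r • w) w 0 := by
        have := ((hasDerivAt_id (0 : ℝ)).smul_const w).const_add (deriv c a)
        simpa using this
      exact (op g (c a)).hasFDerivAt.comp_hasDerivAt (0 : ℝ) h7
    have l2 : HasDerivAt (fun r : ℝ => (φ t (c a, op g (c a) (deriv c a + r • w))).1)
        (M t ζ δ).1 0 := by
      have h7 : HasFDerivAt (φ t) (M t ζ) (c a, op g (c a) (deriv c a + (0 : ℝ) • w)) := by
        rw [zero_smul, add_zero]
        exact hφ.diff t ζ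
      have h8 := h7.comp_hasDerivAt (0 : ℝ) l1
      exact (ContinuousLinearMap.fst ℝ (E n) (E n)).hasFDerivAt.comp_hasDerivAt (0 : ℝ) h8
    have l3 : HasDerivAt (fun r : ℝ => expo φ g (c a) (t • (deriv c a + r • w)))
        (fderiv ℝ (expo φ g (c a)) (t • deriv c a) (t • w)) 0 := by
      have h7 : HasDerivAt (fun r : ℝ => t • (deriv c a + r • w)) (t • w) 0 := by
        have h7 := ((hasDerivAt_id (0 : ℝ)).smul_const w).const_add (deriv c a)
        have h7' : HasDerivAt (fun r : ℝ => t • (deriv c a + r • w)) (t • ((1 : ℝ) • w)) 0 :=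
          h7.const_smul t
        rwa [one_smul] at h7'
      have h8 : HasFDerivAt (expo φ g (c a)) (fderiv ℝ (expo φ g (c a)) (t • deriv c a))
          (t • (deriv c a + (0 : ℝ) • w)) := by
        rw [zero_smul, add_zero]
        exact ((ec.differentiable (by norm_num)) _).hasFDerivAt
      exact h8.comp_hasDerivAt (0 : ℝ) h7
    have e : (fun r : ℝ => (φ t (c a, op g (c a) (deriv c a + r • w))).1) =
        fun r : ℝ => expo φ g (c a) (t • (deriv c a + r • w)) := by
      funext r
      exact e3 t _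
    rw [e] at l2
    exact l2.unique l3
  have hKb : K (b - a) = 0 := by
    rw [← hJK]
    simp only [hJ', add_sub_cancel]
    exact hb
  have hw0 : w = 0 := by
    have h7 := hinj (c a) ((b - a) • deriv c a) ((b - a) • w) (by rw [← hexp, hKb])
    rcases smul_eq_zero.1 h7 with h8 | h8
    · exact absurd (sub_eq_zero.1 h8).symm hab
    · exact h8
  intro t
  have h9 : J t = K (t - a) := by
    rw [← hJK]
    simp [hJ']
  rw [h9]
  simp only [hK, hδ, hw0, map_zero]
  have : ((0 : E n), (0 : E n)) = (0 : W n) := rfl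
  rw [this, map_zero]
  rfl

end Pool.Agent.AV
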