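import Pool.Agent.Work.MP_13b5d9_gt.PI.MxDefs
import Pool.Agent.Work.MP_13b5d9_gt.LQ.MxSplit

set_option autoImplicit false

/-!
# MP_13b5d9_gt: the harmonic mean of the pull-backs of a metric under a flow

Notation and conventions of `MP_25cd3b_gt/Mx/Defs`: metrics of closed manifolds `R^n / G` are given
by their matrices on `R^n`.
-/

open MeasureTheory Set Filter Topology
open scoped ContDiff

namespace Pool.Agent.Mx

/-- `gb` is the harmonic mean of the metrics `ψ_r^* g`, `0 ≤ r ≤ l`: its inverse matrix is the mean of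
the inverse matrices of the pull-backs.  (If `g = dτ^2 + g_τ` and `ψ_r` is the flow of `grad τ`, of
period `l`, then `gb = dτ^2 + k`, `k` the harmonic mean of the metrics `g_τ` of the levels of `τ`.) -/
def HarmMean {n : ℕ} (g : E n → Matrix (Fin n) (Fin n) ℝ) (l : ℝ) (ψ : ℝ → E n → E n)
    (gb : E n → Matrix (Fin n) (Fin n) ℝ) : Prop :=
  ∀ x i j, (gb x)⁻¹ i j = l⁻¹ * ∫ r in (0 : ℝ)..l, (pull (ψ r) g x)⁻¹ i j

end Pool.Agent.Mx
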