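import Pool.Agent.Work.MP_13b5d9_gt.AV.MxAvg
import Pool.Agent.Work.MP_13b5d9_gt.AV.StmtsL
import Pool.Agent.Work.MP_13b5d9_gt.PI.MxBridge
import Pool.Agent.Work.MP_13b5d9_gt.PI.MxNC
import Pool.Agent.Work.MP_13b5d9_gt.LQ.MxSplitB

set_option autoImplicit false

/-!
# MP_13b5d9_gt, block AV: the theorem in the matrix layer
-/

open MeasureTheory Set Filter Topology
open scoped ContDiff

namespace Pool.Agent.AV

open Pool.Agent.Mx

theorem frm_gm {n : ℕ} (F : MLS.Form n) (h : MLS.Riem F) :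
    frm (MLS.gm F) (met_gm F h) = F := form_ext fun x => gm_eq _ _ x

theorem gm_pull {n : ℕ} (g : E n → Matrix (Fin n) (Fin n) ℝ) (hg : Met g) (F : MLS.Form n)
    (Φ : E n → E n) (h : ∀ x u v, F.val x u v =
      (frm g hg).val (Φ x) (fderiv ℝ Φ x u) (fderiv ℝ Φ x v)) (x : E n) :
    MLS.gm F x = pull Φ g x := by
  ext i j
  simp only [MLS.gm, pull, Matrix.of_apply]
  rw [h, frm_val]
  rfl

theorem mean_entry {n : ℕ} (hMb : StMb) (hSi : StSi) (l : ℝ) (gr : ℝ → MLS.Form n)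
    (gb : MLS.Form n) (hF : LQR.Fam n gr) (hb : MLS.Riem gb)
    (h : ∀ x, MLS.iop gb x = l⁻¹ • ∫ r in (0 : ℝ)..l, MLS.iop (gr r) x) (x : E n) (i j : Fin n) :
    (MLS.gm gb x)⁻¹ i j = l⁻¹ * ∫ r in (0 : ℝ)..l, (MLS.gm (gr r) x)⁻¹ i j := by
  have h1 : Continuous fun r : ℝ => MLS.iop (gr r) x :=
    (hSi n gr hF).1.continuous.comp (continuous_id.prodMk continuous_const)
  rw [(hMb n gb hb x).2.1 i j, h x]
  have h2 : ∀ r, (MLS.gm (gr r) x)⁻¹ i j =
      ((innerSL ℝ (MLS.ee i : E n)).comp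
        (ContinuousLinearMap.apply ℝ (E n) (MLS.ee j : E n))) (MLS.iop (gr r) x) := fun r => by
    rw [(hMb n (gr r) (hF.riem r) x).2.1 i j]
    simp [real_inner_comm]
  simp only [h2]
  rw [ContinuousLinearMap.intervalIntegral_comp_comm _ (h1.intervalIntegrable _ _)]
  simp [real_inner_comm, inner_smul_left]

theorem av_Mx (hTh : StTh) (hLs : StLs) (hMb : StMb) (hSi : StSi) (hPU : MLS.StPU) (hFD : MLS.StFD)
    (hGa : MLS.NcGa) (m : ℕ) (G : Type) [Group G] [MulAction G (E (m + 1))]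
    (hG : Cocompact (m + 1) G)
    (g : E (m + 1) → Matrix (Fin (m + 1)) (Fin (m + 1)) ℝ) (hg : Met g) (hi : Inv G g)
    (hN : NoConj g) (z : G) (hz : z ≠ 1) (hc : ∀ a : G, a * z = z * a) :
    ∃ (l : ℝ) (V : E (m + 1) → E (m + 1)) (τ : E (m + 1) → ℝ) (ψ : ℝ → E (m + 1) → E (m + 1))
      (gb : E (m + 1) → Matrix (Fin (m + 1)) (Fin (m + 1)) ℝ),
      Axis (m + 1) G g z l V τ ψ ∧ HarmMean g l ψ gb ∧ Met gb ∧ Inv G gb ∧ NoConj gb ∧
      SplitAlong m G z gb ∧ (gb = g ↔ SplitAlong m G z g) ∧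
      (∀ a : G, Tendsto (fun k : ℕ => L g (z ^ k * a) ^ 2 - L gb (z ^ k * a) ^ 2) atTop (𝓝 0)) ∧
      ∀ D : Set (E (m + 1)), MeasurableSet D → (∀ x : E (m + 1), ∃! a : G, a • x ∈ D) →
        (∫ x in D, dens gb x) ≤ (∫ x in D, dens g x) ∧
        ((∫ x in D, dens gb x) = (∫ x in D, dens g x) ↔ SplitAlong m G z g) := by
  have hG' := coc G hG
  have hR := frm_riem g hg
  have hI' := (inv_iff G g hg).2 hi
  have hN' := (noConj_iff hGa g hg).2 hN
  obtain ⟨l, V, τ, ψ, gr, gb, hA, hAv, hNb, -, hSb, hvol, hkey⟩ :=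
    hTh m G hG' (frm g hg) hR hI' hN' z hz hc
  have hb := hAv.riemb
  have hm := met_gm gb hb
  have hfg := frm_gm gb hb
  have hkey' : (MLS.gm gb = g ↔ SplitAlong m G z g) := by
    rw [← splitAlong_iff m G z g hg, ← hkey]
    constructor
    · intro h
      exact form_ext fun x => by rw [gm_eq, h]
    · intro h
      funext x
      rw [h, gm_eq]
  refine ⟨l, V, τ, ψ, MLS.gm gb, (axis_iff G g hg z l V τ ψ).1 hA, ?_, hm, ?_, ?_, ?_, hkey',
    ?_, ?_⟩
  · intro x i j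
    rw [mean_entry hMb hSi l gr gb hAv.fam hb hAv.mean x i j]
    congr 1
    refine intervalIntegral.integral_congr fun r _ => ?_
    show (MLS.gm (gr r) x)⁻¹ i j = (pull (ψ r) g x)⁻¹ i j
    rw [gm_pull g hg (gr r) (ψ r) (hAv.pull r) x]
  · exact (inv_iff G (MLS.gm gb) hm).1 (by rw [hfg]; exact hAv.invb)
  · exact (noConj_iff hGa (MLS.gm gb) hm).1 (by rw [hfg]; exact hNb)
  · exact (splitAlong_iff m G z (MLS.gm gb) hm).1 (by rw [hfg]; exact hSb)
  · intro a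
    have h := hLs (m + 1) G hG' (frm g hg) hR hI' hN' z l V τ ψ hA gr gb hAv hNb a
    have e : ∀ a : G, L (MLS.gm gb) a = MLS.L gb a := fun a => by
      rw [← L_eq (MLS.gm gb) hm a, hfg]
    simpa only [L_eq g hg, e] using h
  · intro D hD hD'
    obtain ⟨χ, hχ⟩ := hPU (m + 1) G hG'
    have e1 : ∀ F : MLS.Form (m + 1), MLS.Riem F → MLS.Inv G F →
        ∫ x in D, MLS.dens F x = ∫ x, χ x * MLS.dens F x := fun F hF hFI => by
      have h1 := hFD (m + 1) G hG' F hF hFI χ hχ D hD hD' (fun _ => 1) continuous_const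
        (fun _ => zero_le_one) (fun _ _ => rfl)
      simpa only [one_mul] using h1
    have e2 : ∀ x, dens (MLS.gm gb) x = MLS.dens gb x := fun x => rfl
    have e3 : ∀ x, dens g x = MLS.dens (frm g hg) x := fun x => (dens_eq g hg x).symm
    simp only [e2, e3]
    rw [e1 gb hb hAv.invb, e1 (frm g hg) hR hI', ← splitAlong_iff m G z g hg]
    exact hvol χ hχ

end Pool.Agent.AV
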